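import Pool.Agent.Lib.MP_0b15c0_nt.Final

set_option autoImplicit false

namespace HBQ

open Pool.Agent.Lib.MP0b15c0

/-- the structure theorem -/
theorem struct_gen {n N j d : ℕ} (hn : 1 < n) (hnp : ¬ n.Prime) (hjd : n - 1 = 2 ^ j * d)
    (hd : Odd d) (hN : 2 ≤ N)
    (hpass : ∀ b : ℕ, 2 ≤ b → b ≤ N → Pass n j d b) :
    Triv N n ∨ ∃ p m : ℕ, p.Prime ∧ n = p * m ∧ 2 ≤ m ∧ Triv N m ∧
      Nat.gcd (p - 1) (2 ^ padicValNat 2 (p - 1) * d) ∣ Nat.gcd (p - 1) (m - 1) := by
  have hodd : ¬ 2 ∣ n := fun h2 => share_fail hd Nat.prime_two h2 dvd_rfl (hpass 2 le_rfl hN)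
  have hbig : ∀ r : ℕ, r.Prime → r ∣ n → N < r := by
    intro r hr hrn
    by_contra hcon
    rw [not_lt] at hcon
    exact share_fail hd hr hrn dvd_rfl (hpass r hr.two_le hcon)
  -- minimal valuation
  obtain ⟨p, hp, hpmin⟩ : ∃ p ∈ n.primeFactors, ∀ r ∈ n.primeFactors,
      padicValNat 2 (p - 1) ≤ padicValNat 2 (r - 1) := by
    apply Finset.exists_min_image n.primeFactors (fun r => padicValNat 2 (r - 1))
    obtain ⟨r, hr, hrn⟩ := Nat.exists_prime_and_dvd (by omega : n ≠ 1)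
    exact ⟨r, Nat.mem_primeFactors.2 ⟨hr, hrn, by omega⟩⟩
  have hn0 : n ≠ 0 := by omega
  have hpP : p.Prime := (Nat.mem_primeFactors.1 hp).1
  have hpn : p ∣ n := (Nat.mem_primeFactors.1 hp).2.1
  have hp2 : p ≠ 2 := fun h => hodd (h ▸ hpn)
  -- the exponent lemma
  have hexp : ∀ m : ℕ, m ∣ n → ∃ t : ℕ, ∀ b : ℕ, 2 ≤ b → b ≤ N →
      jacobiSym (b : ℤ) m = (jacobiSym (b : ℤ) p) ^ t := by
    intro m
    induction m using Nat.strong_induction_on with
    | _ m ih =>
      intro hmn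
      rcases Nat.lt_or_ge 1 m with h1 | h1
      · obtain ⟨r, hr, hrm⟩ := Nat.exists_prime_and_dvd (by omega : m ≠ 1)
        obtain ⟨k, hk⟩ := hrm
        have hk0 : 0 < k := by
          rcases Nat.eq_zero_or_pos k with h0 | h0
          · rw [h0, mul_zero] at hk; omega
          · exact h0
        have hkm : k < m := by
          rw [hk]
          have := hr.two_le
          nlinarith
        have hkn : k ∣ n := dvd_trans ⟨r, by rw [hk]; ring⟩ hmn
        have hrn : r ∣ n := dvd_trans ⟨k, hk⟩ hmn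
        have hr2 : r ≠ 2 := fun h => hodd (h ▸ hrn)
        obtain ⟨t, ht⟩ := ih k hkm hkn
        have hmin := hpmin r (Nat.mem_primeFactors.2 ⟨hr, hrn, hn0⟩)
        have hNZr : NeZero r := ⟨hr.ne_zero⟩
        have hNZk : NeZero k := ⟨hk0.ne'⟩
        by_cases hv : padicValNat 2 (r - 1) = padicValNat 2 (p - 1)
        · refine ⟨t + 1, fun b hb hbN => ?_⟩
          have h2 := jac_pass hr hr2 hpP hp2 hrn hpn hd (hpass b hb hbN) hmin
          rw [if_pos hv] at h2
          rw [hk, jacobiSym.mul_right, h2, ht b hb hbN, pow_succ, mul_comm]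
        · refine ⟨t, fun b hb hbN => ?_⟩
          have h2 := jac_pass hr hr2 hpP hp2 hrn hpn hd (hpass b hb hbN) hmin
          rw [if_neg hv] at h2
          rw [hk, jacobiSym.mul_right, h2, ht b hb hbN, one_mul]
      · refine ⟨0, fun b _ _ => ?_⟩
        have : m = 1 := by
          have : m ≠ 0 := by
            intro h0; rw [h0] at hmn
            exact hn0 (Nat.eq_zero_of_zero_dvd hmn)
          omega
        rw [this, jacobiSym.one_right, pow_zero]
  have hoddn : Odd n := by rw [Nat.odd_iff]; omega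
  have hsq : ∀ b : ℕ, 2 ≤ b → b ≤ N → (jacobiSym (b : ℤ) p) ^ 2 = 1 := by
    intro b hb hbN
    apply jacobiSym.sq_one
    have hcop : Nat.Coprime b p := by
      rw [Nat.coprime_comm, Nat.Prime.coprime_iff_not_dvd hpP]
      intro hdvd
      have := Nat.le_of_dvd (by omega) hdvd
      have := hbig p hpP hpn
      omega
    simpa using hcop
  obtain ⟨t, ht⟩ := hexp n dvd_rfl
  rcases Nat.even_or_odd t with heven | hoddt
  · left
    refine ⟨hoddn, fun b hb hbN => ?_⟩
    obtain ⟨s, hs⟩ := heven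
    rw [ht b hb hbN, hs, ← two_mul, pow_mul, hsq b hb hbN, one_pow]
  · right
    obtain ⟨m, hm⟩ := hpn
    have hm0 : m ≠ 0 := by
      intro h0; rw [h0, mul_zero] at hm; exact hn0 hm
    have hm1 : m ≠ 1 := by
      intro h1; rw [h1, mul_one] at hm; exact hnp (hm ▸ hpP)
    have hpn' : p ∣ n := ⟨m, hm⟩
    refine ⟨p, m, hpP, hm, by omega, ⟨?_, ?_⟩, ?_⟩
    · rw [hm] at hoddn
      exact (Nat.odd_mul.1 hoddn).2
    · intro b hb hbN
      have hNZp : NeZero p := ⟨hpP.ne_zero⟩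
      have hNZm : NeZero m := ⟨hm0⟩
      have h1 := ht b hb hbN
      rw [hm, jacobiSym.mul_right] at h1
      obtain ⟨s, hs⟩ := hoddt
      have h2 := hsq b hb hbN
      have h3 : (jacobiSym (b : ℤ) p) ^ (t + 1) = 1 := by
        rw [hs, show 2 * s + 1 + 1 = 2 * (s + 1) by ring, pow_mul, h2, one_pow]
      calc jacobiSym (b : ℤ) m = (jacobiSym (b : ℤ) p) ^ 2 * jacobiSym (b : ℤ) m := by
            rw [h2, one_mul]
        _ = jacobiSym (b : ℤ) p * (jacobiSym (b : ℤ) p * jacobiSym (b : ℤ) m) := by ring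
        _ = (jacobiSym (b : ℤ) p) ^ (t + 1) := by rw [h1, pow_succ]; ring
        _ = 1 := h3
    · have hp1 := hpP.two_le
      apply Nat.dvd_gcd (Nat.gcd_dvd_left _ _)
      -- e_p ≤ j
      have hej : padicValNat 2 (p - 1) ≤ j := by
        obtain ⟨r, hr, hrn, hrj⟩ := exists_small_val hn hodd hjd hd
        exact le_trans (hpmin r (Nat.mem_primeFactors.2 ⟨hr, hrn, hn0⟩)) hrj
      have h2 : 2 ^ padicValNat 2 (p - 1) * d ∣ n - 1 := by
        rw [hjd]
        exact Nat.mul_dvd_mul_right (pow_dvd_pow 2 hej) d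
      have e : n - 1 = (p - 1) * m + (m - 1) := by
        rw [hm, Nat.sub_mul]
        have h3 : m ≤ p * m := Nat.le_mul_of_pos_left m (by omega)
        omega
      have h4 : Nat.gcd (p - 1) (2 ^ padicValNat 2 (p - 1) * d) ∣ n - 1 :=
        dvd_trans (Nat.gcd_dvd_right _ _) h2
      have h5 : Nat.gcd (p - 1) (2 ^ padicValNat 2 (p - 1) * d) ∣ (p - 1) * m :=
        Dvd.dvd.mul_right (Nat.gcd_dvd_left _ _) m
      exact (Nat.dvd_add_right h5).1 (e ▸ h4)

end HBQ
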