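import Pool.Agent.Lib.MP_0b15c0_nt.Final

set_option autoImplicit false

namespace HBQ

open Pool.Agent.Lib.MP0b15c0

/-- A2. The subgroup bound. PROOF: `pass_pow` (MP_0b15c0_nt/Group.lean) with `q = p` gives
`(b : ZMod p)^(2^v d) = 1` for all primes `b <= N` (`v = padicValNat 2 (p-1)`), Fermat gives `b^(p-1) = 1`
(`b` is nonzero mod `p` because of the first relation), so `b^g = 1` with `g` the gcd; `smooth_pow` extends this to all
`N`-smooth numbers, and `card_le_of_pow` bounds their number below `p` by `g`. (`N <= 1`: the set is contained in `{1}` and `g >= 1`;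
no case distinction is needed since smooth_pow handles it.) -/
theorem index_bound {n N j d p : ℕ} (hd : Odd d) (hp : p.Prime) (hp2 : p ≠ 2) (hpn : p ∣ n)
    (hpass : ∀ b : ℕ, 2 ≤ b → b ≤ N → Pass n j d b) :
    ((Finset.Icc 1 (p - 1)).filter (fun k => Squarefree k ∧ k % 2 = 1 ∧
      ∀ r ∈ k.primeFactors, r ≤ N)).card ≤ Nat.gcd (p - 1) (2 ^ padicValNat 2 (p - 1) * d) := by
  have hpf : Fact p.Prime := ⟨hp⟩
  have hd0 : 0 < d := hd.pos
  obtain ⟨g, hg⟩ : ∃ g, g = Nat.gcd (p - 1) (2 ^ padicValNat 2 (p - 1) * d) := ⟨_, rfl⟩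
  rw [← hg]
  have hg0 : 0 < g := by
    rw [hg]
    exact Nat.gcd_pos_of_pos_left _ (by have := hp.two_le; omega)
  have hprime : ∀ ℓ : ℕ, ℓ.Prime → ℓ ≤ N → (ℓ : ZMod p) ^ g = 1 := by
    intro ℓ hℓ hℓN
    have h1 := pass_pow hp hp2 hpn hpn hd (hpass ℓ hℓ.two_le hℓN)
    have hne : (ℓ : ZMod p) ≠ 0 := by
      intro h0
      rw [h0, zero_pow (by positivity)] at h1
      exact zero_ne_one h1
    have h2 : (ℓ : ZMod p) ^ (p - 1) = 1 := ZMod.pow_card_sub_one_eq_one hne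
    rw [hg]
    exact pow_gcd_eq_one.2 ⟨h2, h1⟩
  refine card_le_of_pow hp hg0 _ ?_ ?_
  · intro m hm
    rw [Finset.mem_filter, Finset.mem_Icc] at hm
    exact hm.1
  · intro m hm
    rw [Finset.mem_filter, Finset.mem_Icc] at hm
    refine smooth_pow hprime m hm.1.1 fun r hr hrm => hm.2.2.2 r ?_
    exact Nat.mem_primeFactors.2 ⟨hr, hrm, by omega⟩

end HBQ
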