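import Pool.Agent.Lib.HBQ.Defs
import Pool.Agent.Lib.MP_0b15c0_nt.Sieve
import Pool.Agent.Lib.MP_0b15c0_nt.DivisorBound

set_option autoImplicit false

namespace HBQ

open Finset

/-- abstract duality -/
lemma duality {α β : Type*} (s : Finset α) (t : Finset β) (T : α → β → ℝ) {X : ℝ} (hX : 0 ≤ X)
    (h : ∀ b : α → ℝ, ∑ j ∈ t, (∑ i ∈ s, b i * T i j) ^ 2 ≤ X * ∑ i ∈ s, b i ^ 2) (a : β → ℝ) :
    ∑ i ∈ s, (∑ j ∈ t, a j * T i j) ^ 2 ≤ X * ∑ j ∈ t, a j ^ 2 := by
  obtain ⟨b, hb⟩ : ∃ b : α → ℝ, b = fun i => ∑ j ∈ t, a j * T i j := ⟨_, rfl⟩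
  have hb' : ∀ i, ∑ j ∈ t, a j * T i j = b i := fun i => by rw [hb]
  have h1 := h b
  simp only [hb']
  obtain ⟨S, hS⟩ : ∃ S, S = ∑ i ∈ s, b i ^ 2 := ⟨_, rfl⟩
  have e1 : S = ∑ j ∈ t, a j * ∑ i ∈ s, b i * T i j := by
    rw [hS]
    calc ∑ i ∈ s, b i ^ 2 = ∑ i ∈ s, b i * ∑ j ∈ t, a j * T i j := by
          apply Finset.sum_congr rfl; intro i _; rw [hb' i]; ring
      _ = ∑ i ∈ s, ∑ j ∈ t, a j * (b i * T i j) := by
          apply Finset.sum_congr rfl; intro i _; rw [Finset.mul_sum]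
          apply Finset.sum_congr rfl; intro j _; ring
      _ = _ := by
          rw [Finset.sum_comm]
          apply Finset.sum_congr rfl; intro j _; rw [Finset.mul_sum]
  rw [← hS] at h1 ⊢
  have h2 : S ^ 2 ≤ (∑ j ∈ t, a j ^ 2) * ∑ j ∈ t, (∑ i ∈ s, b i * T i j) ^ 2 := by
    conv_lhs => rw [e1]
    exact Finset.sum_mul_sq_le_sq_mul_sq _ _ _
  have hA : 0 ≤ ∑ j ∈ t, a j ^ 2 := Finset.sum_nonneg fun j _ => sq_nonneg _
  have h3 : S ^ 2 ≤ (∑ j ∈ t, a j ^ 2) * (X * S) := le_trans h2 (mul_le_mul_of_nonneg_left h1 hA)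
  have hS0 : 0 ≤ S := hS ▸ Finset.sum_nonneg fun j _ => sq_nonneg _
  rcases eq_or_lt_of_le hS0 with h0 | h0
  · rw [← h0]; positivity
  · have : S * S ≤ (X * ∑ j ∈ t, a j ^ 2) * S := by nlinarith
    exact le_of_mul_le_mul_right this h0

lemma J_recip {k n : ℕ} (hk : k % 2 = 1) (hn : n % 2 = 1) :
    J k n = if n % 4 = 1 then J n k else (if k % 4 = 1 then 1 else -1) * J n k := by
  unfold J
  split_ifs with h1 h2
  · rw [jacobiSym.quadratic_reciprocity_one_mod_four' (Nat.odd_iff.2 hk) h1]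
  · rw [jacobiSym.quadratic_reciprocity_one_mod_four h2 (Nat.odd_iff.2 hn)]
    ring
  · rw [jacobiSym.quadratic_reciprocity_three_mod_four (by omega) (by omega)]
    push_cast; ring

/-- reciprocity: the bottom form of the large sieve -/
lemma LS_swap {M N : ℕ} {X : ℝ} (h : LS M N X) (b : ℕ → ℝ)
    (hb : ∀ n, b n ≠ 0 → n ≤ N ∧ Squarefree n ∧ n % 2 = 1) :
    ∑ n ∈ (Finset.Icc 1 M).filter (fun n => Squarefree n ∧ n % 2 = 1),
      (∑ k ∈ Finset.Icc 1 N, b k * J k n) ^ 2 ≤ 2 * X * E b N := by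
  obtain ⟨b', hb'⟩ : ∃ b' : ℕ → ℝ, b' = fun k => b k * (if k % 4 = 1 then 1 else -1) := ⟨_, rfl⟩
  have hbb : ∀ k, b' k ^ 2 = b k ^ 2 := by
    intro k; rw [hb']; simp only
    split_ifs <;> ring
  have h1 := h b hb
  have h2 := h b' (by
    intro n hn
    apply hb n
    intro h0
    apply hn
    rw [hb']; simp only; rw [h0, zero_mul])
  have hE : E b' N = E b N := by
    unfold E; exact Finset.sum_congr rfl fun k _ => hbb k
  rw [hE] at h2
  have h3 : ∀ n ∈ (Finset.Icc 1 M).filter (fun n => Squarefree n ∧ n % 2 = 1),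
      (∑ k ∈ Finset.Icc 1 N, b k * J k n) ^ 2 ≤ A b N n ^ 2 + A b' N n ^ 2 := by
    intro n hn
    rw [Finset.mem_filter] at hn
    by_cases h4 : n % 4 = 1
    · have : ∑ k ∈ Finset.Icc 1 N, b k * J k n = A b N n := by
        unfold A
        apply Finset.sum_congr rfl
        intro k _
        by_cases h0 : b k = 0
        · rw [h0]; ring
        · rw [J_recip (hb k h0).2.2 hn.2.2, if_pos h4]
      rw [this]
      nlinarith [sq_nonneg (A b' N n)]
    · have : ∑ k ∈ Finset.Icc 1 N, b k * J k n = A b' N n := by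
        unfold A
        apply Finset.sum_congr rfl
        intro k _
        by_cases h0 : b k = 0
        · rw [hb']; simp only; rw [h0]; ring
        · rw [J_recip (hb k h0).2.2 hn.2.2, if_neg h4, hb']
          simp only; ring
      rw [this]
      nlinarith [sq_nonneg (A b N n)]
  refine le_trans (Finset.sum_le_sum h3) ?_
  rw [Finset.sum_add_distrib]
  linarith

lemma LS_dual {M N : ℕ} {X : ℝ} (hX : 0 ≤ X) (h : LS M N X) : LS N M (2 * X) := by
  intro a ha
  obtain ⟨s, hs⟩ : ∃ s, s = (Finset.Icc 1 N).filter (fun k => Squarefree k ∧ k % 2 = 1) := ⟨_, rfl⟩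
  obtain ⟨t, ht⟩ : ∃ t, t = (Finset.Icc 1 M).filter (fun k => Squarefree k ∧ k % 2 = 1) := ⟨_, rfl⟩
  have hts : t ⊆ Finset.Icc 1 M := by rw [ht]; exact Finset.filter_subset _ _
  have hss : s ⊆ Finset.Icc 1 N := by rw [hs]; exact Finset.filter_subset _ _
  have e1 : ∀ k, A a M k = ∑ n ∈ t, a n * J k n := by
    intro k
    unfold A
    symm
    apply Finset.sum_subset hts
    intro n hn hnt
    have : a n = 0 := by
      by_contra h0
      apply hnt
      rw [ht, Finset.mem_filter]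
      exact ⟨hn, (ha n h0).2⟩
    rw [this, zero_mul]
  have e2 : E a M = ∑ n ∈ t, a n ^ 2 := by
    unfold E
    symm
    apply Finset.sum_subset hts
    intro n hn hnt
    have : a n = 0 := by
      by_contra h0
      apply hnt
      rw [ht, Finset.mem_filter]
      exact ⟨hn, (ha n h0).2⟩
    rw [this]; ring
  rw [e2, ← hs]
  simp only [e1]
  apply duality s t (fun k n => J k n) (by linarith)
  intro b
  have h1 := LS_swap h (fun k => if k ∈ s then b k else 0) (by
    intro n hn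
    have : n ∈ s := by
      by_contra h0
      exact hn (if_neg h0)
    rw [hs, Finset.mem_filter, Finset.mem_Icc] at this
    exact ⟨this.1.2, this.2⟩)
  have e3 : ∀ n, ∑ k ∈ Finset.Icc 1 N, (if k ∈ s then b k else 0) * J k n =
      ∑ k ∈ s, b k * J k n := by
    intro n
    symm
    rw [← Finset.sum_subset hss]
    · apply Finset.sum_congr rfl
      intro k hk
      rw [if_pos hk]
    · intro k _ hk
      rw [if_neg hk, zero_mul]
  have e4 : E (fun k => if k ∈ s then b k else 0) N = ∑ k ∈ s, b k ^ 2 := by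
    unfold E
    symm
    rw [← Finset.sum_subset hss]
    · apply Finset.sum_congr rfl
      intro k hk
      simp only
      rw [if_pos hk]
    · intro k _ hk
      simp only
      rw [if_neg hk]; ring
  rw [e4, ← ht] at h1
  simp only [e3] at h1
  exact h1

lemma J_eq_JS {D n : ℕ} (hn : Squarefree n) :
    J D n = Pool.Agent.Lib.MP0b15c0.JS n.primeFactors D := by
  rw [Pool.Agent.Lib.MP0b15c0.JS_eq _ (fun p hp => Nat.prime_of_mem_primeFactors hp),
    Nat.prod_primeFactors_of_squarefree hn]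
  rfl

open scoped symmDiff in
/-- the off-diagonal sums -/
lemma base_off {n1 n2 N : ℕ} (h1 : Squarefree n1) (h2 : Squarefree n2) (o1 : n1 % 2 = 1)
    (o2 : n2 % 2 = 1) (l1 : n1 ≤ N) (l2 : n2 ≤ N) (hne : n1 ≠ n2) (M : ℕ) :
    |∑ D ∈ range M, J D n1 * J D n2| ≤ n1.divisors.card * (N * (1 + 2 * Real.log N)) := by
  classical
  obtain ⟨T, hT⟩ : ∃ T, T = n1.primeFactors := ⟨_, rfl⟩
  obtain ⟨T', hT'⟩ : ∃ T', T' = n2.primeFactors := ⟨_, rfl⟩
  have p1 : ∏ p ∈ T, p = n1 := by rw [hT]; exact Nat.prod_primeFactors_of_squarefree h1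
  have p2 : ∏ p ∈ T', p = n2 := by rw [hT']; exact Nat.prod_primeFactors_of_squarefree h2
  have hTp : ∀ p ∈ T, p.Prime := fun p hp => Nat.prime_of_mem_primeFactors (hT ▸ hp)
  have hTp' : ∀ p ∈ T', p.Prime := fun p hp => Nat.prime_of_mem_primeFactors (hT' ▸ hp)
  have hS : ∀ p ∈ T ∆ T', p.Prime ∧ Odd p := by
    intro p hp
    rw [Finset.mem_symmDiff] at hp
    rcases hp with h | h
    · refine ⟨hTp p h.1, ?_⟩
      have hd : p ∣ n1 := Nat.dvd_of_mem_primeFactors (hT ▸ h.1)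
      exact Odd.of_dvd_nat (Nat.odd_iff.2 o1) hd
    · refine ⟨hTp' p h.1, ?_⟩
      have hd : p ∣ n2 := Nat.dvd_of_mem_primeFactors (hT' ▸ h.1)
      exact Odd.of_dvd_nat (Nat.odd_iff.2 o2) hd
  obtain ⟨s, hs⟩ : ∃ s, s = ∏ p ∈ T ∆ T', p := ⟨_, rfl⟩
  have hSne : (T ∆ T').Nonempty := by
    rw [Finset.nonempty_iff_ne_empty]
    intro h
    have : T = T' := symmDiff_eq_bot.1 h
    apply hne
    rw [← p1, ← p2, this]
  have hs1 : 1 < s := by
    obtain ⟨p, hp⟩ := hSne
    have h1 := (hS p hp).1.one_lt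
    have h2 : p ∣ s := hs ▸ Finset.dvd_prod_of_mem _ hp
    have h3 : 0 < s := by
      rw [hs]; exact Finset.prod_pos fun r hr => (hS r hr).1.pos
    exact lt_of_lt_of_le h1 (Nat.le_of_dvd h3 h2)
  have hsodd : Odd s := hs ▸ Pool.Agent.Lib.MP0b15c0.odd_prod _ fun p hp => (hS p hp).2
  have hssq : Squarefree s := hs ▸ Pool.Agent.Lib.MP0b15c0.squarefree_prod _ fun p hp => (hS p hp).1
  have e : ∀ D, J D n1 * J D n2 =
      ((jacobiSym (D : ℤ) s : ℤ) : ℝ) * Pool.Agent.Lib.MP0b15c0.cop (T ∩ T') D := by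
    intro D
    rw [J_eq_JS h1, J_eq_JS h2, ← hT, ← hT', Pool.Agent.Lib.MP0b15c0.JS_mul T T' hTp D,
      Pool.Agent.Lib.MP0b15c0.JS_eq _ (fun p hp => (hS p hp).1), hs]
  simp only [e]
  have h3 := Pool.Agent.Lib.MP0b15c0.cop_bound hs1 hsodd hssq (T ∩ T')
    (fun r hr => hTp r (Finset.mem_inter.1 hr).1) M
  refine le_trans h3 ?_
  have hn1 : 1 ≤ n1 := by omega
  have hN1 : 1 ≤ N := le_trans hn1 l1
  have hsN : s ≤ N ^ 2 := by
    have e2 : s = (∏ p ∈ T \ T', p) * ∏ p ∈ T' \ T, p := by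
      rw [hs, symmDiff_def, Finset.sup_eq_union, Finset.prod_union disjoint_sdiff_sdiff]
    have e3 : ∏ p ∈ T \ T', p ≤ n1 := by
      rw [← p1]
      exact Nat.le_of_dvd (by rw [p1]; omega) (Finset.prod_dvd_prod_of_subset _ _ _ Finset.sdiff_subset)
    have e4 : ∏ p ∈ T' \ T, p ≤ n2 := by
      rw [← p2]
      exact Nat.le_of_dvd (by rw [p2]; omega) (Finset.prod_dvd_prod_of_subset _ _ _ Finset.sdiff_subset)
    rw [e2, pow_two]
    exact Nat.mul_le_mul (le_trans e3 l1) (le_trans e4 l2)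
  have hNR : (1 : ℝ) ≤ N := by exact_mod_cast hN1
  have hs0 : (0 : ℝ) < s := by exact_mod_cast (by omega : 0 < s)
  have hsN' : (s : ℝ) ≤ (N : ℝ) ^ 2 := by exact_mod_cast hsN
  have hsqrt : Real.sqrt s ≤ (N : ℝ) := by
    apply Real.sqrt_le_iff.2
    exact ⟨by positivity, hsN'⟩
  have hlog : Real.log s ≤ 2 * Real.log N := by
    have := Real.log_le_log hs0 hsN'
    rw [Real.log_pow] at this
    push_cast at this
    exact this
  have hlogs : 0 ≤ Real.log s := Real.log_nonneg (by exact_mod_cast hs1.le)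
  have hcard : (2 : ℝ) ^ (T ∩ T').card ≤ n1.divisors.card := by
    have h5 : (T ∩ T').card ≤ T.card := Finset.card_le_card Finset.inter_subset_left
    have h6 : 2 ^ T.card ≤ n1.divisors.card := by
      have h7 : T.powerset.card ≤ n1.divisors.card := by
        apply Finset.card_le_card_of_injOn (fun S => ∏ p ∈ S, p)
        · intro S hS
          rw [Finset.mem_coe, Finset.mem_powerset] at hS
          rw [Finset.mem_coe, Nat.mem_divisors]
          refine ⟨?_, by omega⟩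
          rw [← p1]
          exact Finset.prod_dvd_prod_of_subset _ _ _ hS
        · intro S hS S' hS' hSS
          rw [Finset.mem_coe, Finset.mem_powerset] at hS hS'
          have f1 : (∏ p ∈ S, p).primeFactors = S :=
            Nat.primeFactors_prod fun p hp => hTp p (hS hp)
          have f2 : (∏ p ∈ S', p).primeFactors = S' :=
            Nat.primeFactors_prod fun p hp => hTp p (hS' hp)
          simp only at hSS
          rw [← f1, ← f2, hSS]
      rwa [Finset.card_powerset] at h7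
    calc (2 : ℝ) ^ (T ∩ T').card ≤ 2 ^ T.card := pow_le_pow_right₀ (by norm_num) h5
      _ ≤ n1.divisors.card := by exact_mod_cast h6
  gcongr

/-- the Polya-Vinogradov range -/
theorem base (ε : ℝ) (hε : 0 < ε) : ∃ C : ℝ, 0 < C ∧ ∀ M N : ℕ, 1 ≤ M → 1 ≤ N →
    LS M N (2 * M + C * (N : ℝ) ^ ε * (N : ℝ) ^ 2) := by
  obtain ⟨C2, hC2, hdiv⟩ := Pool.Agent.Lib.MP0b15c0.divisor_bound (ε := ε / 2) (by positivity)
  refine ⟨C2 * (1 + 4 / ε), by positivity, ?_⟩
  intro M N hM hN a ha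
  have hNR : (1 : ℝ) ≤ N := by exact_mod_cast hN
  have hN0 : (0 : ℝ) < N := by linarith
  obtain ⟨B, hB⟩ : ∃ B, B = C2 * (N : ℝ) ^ (ε / 2) * (N * (1 + 2 * Real.log N)) := ⟨_, rfl⟩
  have hlog : 0 ≤ Real.log N := Real.log_nonneg hNR
  have hB0 : 0 ≤ B := by rw [hB]; positivity
  -- positivity
  have s1 : ∑ k ∈ (Finset.Icc 1 M).filter (fun k => Squarefree k ∧ k % 2 = 1), A a N k ^ 2 ≤
      ∑ k ∈ range (M + 1), A a N k ^ 2 := by
    apply Finset.sum_le_sum_of_subset_of_nonneg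
    · intro k hk
      rw [Finset.mem_filter, Finset.mem_Icc] at hk
      rw [Finset.mem_range]; omega
    · intro k _ _; exact sq_nonneg _
  refine le_trans s1 ?_
  have s2 : ∑ k ∈ range (M + 1), A a N k ^ 2 =
      ∑ n1 ∈ Finset.Icc 1 N, ∑ n2 ∈ Finset.Icc 1 N,
        a n1 * a n2 * ∑ k ∈ range (M + 1), J k n1 * J k n2 := by
    have : ∀ k, A a N k ^ 2 = ∑ n1 ∈ Finset.Icc 1 N, ∑ n2 ∈ Finset.Icc 1 N,
        a n1 * a n2 * (J k n1 * J k n2) := by
      intro k
      unfold A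
      rw [sq, Finset.sum_mul_sum]
      apply Finset.sum_congr rfl
      intro n1 _
      apply Finset.sum_congr rfl
      intro n2 _
      ring
    simp only [this]
    rw [Finset.sum_comm]
    apply Finset.sum_congr rfl
    intro n1 _
    rw [Finset.sum_comm]
    apply Finset.sum_congr rfl
    intro n2 _
    rw [Finset.mul_sum]
  rw [s2]
  have s3 : ∀ n1 ∈ Finset.Icc 1 N, ∀ n2 ∈ Finset.Icc 1 N,
      a n1 * a n2 * ∑ k ∈ range (M + 1), J k n1 * J k n2 ≤
        (if n1 = n2 then a n1 ^ 2 * (2 * M) else 0) + |a n1| * |a n2| * B := by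
    intro n1 h1 n2 h2
    rw [Finset.mem_Icc] at h1 h2
    by_cases z1 : a n1 = 0
    · rw [z1]; simp
    by_cases z2 : a n2 = 0
    · rw [z2]
      by_cases hne : n1 = n2
      · exfalso; rw [hne] at z1; exact z1 z2
      · rw [if_neg hne]; simp
    split_ifs with heq
    · subst heq
      have g1 : ∑ k ∈ range (M + 1), J k n1 * J k n1 ≤ 2 * M := by
        calc ∑ k ∈ range (M + 1), J k n1 * J k n1 ≤ ∑ k ∈ range (M + 1), (1 : ℝ) := by
              apply Finset.sum_le_sum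
              intro k _
              unfold J
              rcases jacobiSym.trichotomy (k : ℤ) n1 with h | h | h <;> rw [h] <;> norm_num
          _ = (M : ℝ) + 1 := by simp
          _ ≤ 2 * M := by
            have : (1 : ℝ) ≤ M := by exact_mod_cast hM
            linarith
      have g2 : 0 ≤ |a n1| * |a n1| * B := by positivity
      have g3 := mul_le_mul_of_nonneg_left g1 (sq_nonneg (a n1))
      nlinarith
    · have g1 := base_off (ha n1 z1).2.1 (ha n2 z2).2.1 (ha n1 z1).2.2 (ha n2 z2).2.2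
        (ha n1 z1).1 (ha n2 z2).1 heq (M + 1)
      have g2 : (n1.divisors.card : ℝ) * (N * (1 + 2 * Real.log N)) ≤ B := by
        rw [hB]
        have g3 : (n1.divisors.card : ℝ) ≤ C2 * (N : ℝ) ^ (ε / 2) := by
          refine le_trans (hdiv n1 (by omega)) ?_
          apply mul_le_mul_of_nonneg_left _ hC2.le
          apply Real.rpow_le_rpow (Nat.cast_nonneg _) _ (by positivity)
          exact_mod_cast h1.2
        gcongr
      rw [zero_add]
      calc a n1 * a n2 * ∑ k ∈ range (M + 1), J k n1 * J k n2 ≤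
          |a n1 * a n2 * ∑ k ∈ range (M + 1), J k n1 * J k n2| := le_abs_self _
        _ = |a n1| * |a n2| * |∑ k ∈ range (M + 1), J k n1 * J k n2| := by rw [abs_mul, abs_mul]
        _ ≤ |a n1| * |a n2| * B := by
          apply mul_le_mul_of_nonneg_left (le_trans g1 g2) (by positivity)
  refine le_trans (Finset.sum_le_sum fun n1 h1 => Finset.sum_le_sum fun n2 h2 => s3 n1 h1 n2 h2) ?_
  have s4 : ∑ n1 ∈ Finset.Icc 1 N, ∑ n2 ∈ Finset.Icc 1 N,
      ((if n1 = n2 then a n1 ^ 2 * (2 * M) else 0) + |a n1| * |a n2| * B) =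
      2 * M * E a N + B * (∑ n ∈ Finset.Icc 1 N, |a n|) ^ 2 := by
    simp only [Finset.sum_add_distrib]
    congr 1
    · unfold E
      rw [Finset.mul_sum]
      apply Finset.sum_congr rfl
      intro n hn
      rw [Finset.sum_ite_eq, if_pos hn]; ring
    · rw [sq, Finset.sum_mul_sum, Finset.mul_sum]
      apply Finset.sum_congr rfl
      intro n _
      rw [Finset.mul_sum]
      apply Finset.sum_congr rfl
      intro m _
      ring
  rw [s4]
  have s5 : (∑ n ∈ Finset.Icc 1 N, |a n|) ^ 2 ≤ N * E a N := by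
    have := @sq_sum_le_card_mul_sum_sq ℕ ℝ _ _ _ _ (Finset.Icc 1 N) (fun n => |a n|)
    simp only [sq_abs, Nat.card_Icc, Nat.add_sub_cancel] at this
    exact this
  have hE : 0 ≤ E a N := Finset.sum_nonneg fun _ _ => sq_nonneg _
  have s6 : B * (N * E a N) ≤ C2 * (1 + 4 / ε) * (N : ℝ) ^ ε * (N : ℝ) ^ 2 * E a N := by
    have g1 : 1 + 2 * Real.log N ≤ (1 + 4 / ε) * (N : ℝ) ^ (ε / 2) := by
      have g2 := Real.log_le_rpow_div hN0.le (by positivity : 0 < ε / 2)
      have g3 : 1 ≤ (N : ℝ) ^ (ε / 2) := Real.one_le_rpow hNR (by positivity)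
      have g4 : (N : ℝ) ^ (ε / 2) / (ε / 2) = 2 / ε * (N : ℝ) ^ (ε / 2) := by
        field_simp
      rw [g4] at g2
      have : (1 + 4 / ε) * (N : ℝ) ^ (ε / 2) = (N : ℝ) ^ (ε / 2) + 2 * (2 / ε * (N : ℝ) ^ (ε / 2)) := by
        ring
      linarith
    have g5 : (N : ℝ) ^ (ε / 2) * (N : ℝ) ^ (ε / 2) = (N : ℝ) ^ ε := by
      rw [← Real.rpow_add hN0]; congr 1; ring
    rw [hB]
    calc C2 * (N : ℝ) ^ (ε / 2) * (N * (1 + 2 * Real.log N)) * (N * E a N)
        ≤ C2 * (N : ℝ) ^ (ε / 2) * (N * ((1 + 4 / ε) * (N : ℝ) ^ (ε / 2))) * (N * E a N) := by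
          gcongr
      _ = C2 * (1 + 4 / ε) * ((N : ℝ) ^ (ε / 2) * (N : ℝ) ^ (ε / 2)) * (N : ℝ) ^ 2 * E a N := by ring
      _ = _ := by rw [g5]
  calc _ ≤ 2 * M * E a N + B * (N * E a N) := by gcongr
    _ ≤ 2 * M * E a N + C2 * (1 + 4 / ε) * (N : ℝ) ^ ε * (N : ℝ) ^ 2 * E a N := by linarith
    _ = _ := by ring

end HBQ
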