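import Pool.Agent.Lib.HBQ.Smooth
import Pool.Agent.Lib.HBQ.Rec1

set_option autoImplicit false

namespace HBQ

open Pool.Agent.Lib.MP0b15c0

/-- trivial symbols at smooth numbers -/
private theorem J_smooth {N n : ℕ} (h : ∀ b : ℕ, 2 ≤ b → b ≤ N → jacobiSym (b : ℤ) n = 1) :
    ∀ k : ℕ, 1 ≤ k → (∀ p ∈ k.primeFactors, p ≤ N) → jacobiSym (k : ℤ) n = 1 := by
  intro k
  induction k using Nat.strong_induction_on with
  | _ k ih =>
    intro hk hsm
    rcases Nat.eq_or_lt_of_le hk with h1 | h1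
    · rw [← h1]
      push_cast
      exact jacobiSym.one_left n
    · obtain ⟨p, hp, hpk⟩ := Nat.exists_prime_and_dvd (by omega : k ≠ 1)
      have hpN : p ≤ N := hsm p (Nat.mem_primeFactors.2 ⟨hp, hpk, by omega⟩)
      obtain ⟨m, hm⟩ := hpk
      have hm0 : 0 < m := by
        rcases Nat.eq_zero_or_pos m with h0 | h0
        · rw [h0, mul_zero] at hm; omega
        · exact h0
      have hmk : m < k := by
        rw [hm]
        have := hp.two_le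
        nlinarith
      have h2 := ih m hmk hm0 (fun r hr => hsm r (by
        have hr' := Nat.mem_primeFactors.1 hr
        exact Nat.mem_primeFactors.2 ⟨hr'.1, hm ▸ Dvd.dvd.mul_left hr'.2.1 p, by omega⟩))
      rw [hm]
      push_cast
      rw [jacobiSym.mul_left, h2, mul_one]
      exact h p hp.two_le hpN

open Classical in
/-- A3. Squarefree moduli with trivial symbols, conditional on the large sieve `hHB` (which will be proved).
PROOF: let `S` be the set of odd squarefree `N`-smooth `k <= Q` (the set in `smooth_lower`, `Q >= 1`, so `S.card >= 1` as `1` is in it),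
`b k = 1` on `S`, `0` elsewhere; `LS_swap` (Rec1.lean) with `M = N = Q` gives
`sum over odd squarefree n <= Q of (sum_{k <= Q} b k * J k n)^2 <= 2 X S.card`, `X = C (Q*Q)^e (Q+Q)`; for `n` in `DD N Q`
squarefree every `J k n = 1` for `k` in `S` (multiplicativity of the Jacobi symbol in the numerator; induction on `k`, primes `2 <= r <= N`), so
`T.card * S.card^2 <= 2 X S.card`, `T.card <= 4 C Q^(1+2e) / S.card <= 4 C Q^(1+2e) x^(δ/4) / Q^(1-1/A)` by `smooth_lower A (δ/4)`.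
Take `e = δ/4`, so that everything is `<= 4 C x^(3δ/4) Q^(1/A) <= x^δ Q^(1/A)` for `x` large. -/
theorem triv_sqfree (hHB : ∀ ε : ℝ, 0 < ε → ∃ C : ℝ, 0 < C ∧ ∀ M N : ℕ, 1 ≤ M → 1 ≤ N →
    LS M N (C * ((M : ℝ) * N) ^ ε * ((M : ℝ) + N)))
    (A δ : ℝ) (hA : 1 < A) (hδ : 0 < δ) : ∃ X0 : ℝ, ∀ x : ℝ, X0 ≤ x →
    ∀ N : ℕ, N = ⌊(Real.log x / A) ^ A⌋₊ → ∀ Q : ℕ, 1 ≤ Q → (Q : ℝ) ≤ x →
      (((DD N Q).filter Squarefree).card : ℝ) ≤ x ^ δ * (Q : ℝ) ^ (1 / A) := by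
  obtain ⟨X1, hX1⟩ := smooth_lower A (δ / 4) hA (by positivity)
  obtain ⟨C, hC, hLS⟩ := hHB (δ / 4) (by positivity)
  have hev : ∀ᶠ x : ℝ in Filter.atTop, 4 * C ≤ x ^ (δ / 4) :=
    (tendsto_rpow_atTop (by positivity : (0 : ℝ) < δ / 4)).eventually_ge_atTop _
  obtain ⟨X2, hX2⟩ := Filter.eventually_atTop.1 hev
  refine ⟨max (max X1 X2) 1, fun x hx N hN Q hQ1 hQx => ?_⟩
  have hx1 : X1 ≤ x := (le_max_left _ _).trans ((le_max_left _ _).trans hx)
  have hx2 : X2 ≤ x := (le_max_right _ _).trans ((le_max_left _ _).trans hx)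
  have hx3 : 1 ≤ x := (le_max_right _ _).trans hx
  have hx0 : 0 < x := by linarith
  have hQ0 : (0 : ℝ) < Q := by exact_mod_cast hQ1
  have hA0 : 0 < A := by linarith
  obtain ⟨S, hS⟩ : ∃ S : Finset ℕ, S = (Finset.Icc 1 Q).filter (fun k => Squarefree k ∧ k % 2 = 1 ∧
      ∀ p ∈ k.primeFactors, p ≤ N) := ⟨_, rfl⟩
  have hlow := hX1 x hx1 N hN Q hQ1 hQx
  have hlow' : (Q : ℝ) ^ (1 - 1 / A) ≤ x ^ (δ / 4) * (S.card : ℝ) := by
    rw [hS]
    exact hlow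
  have hmemS : ∀ k ∈ S, (1 ≤ k ∧ k ≤ Q) ∧ Squarefree k ∧ k % 2 = 1 ∧
      ∀ p ∈ k.primeFactors, p ≤ N := by
    intro k hk
    rw [hS, Finset.mem_filter, Finset.mem_Icc] at hk
    exact hk
  have hSsub : S ⊆ Finset.Icc 1 Q := by
    rw [hS]; exact Finset.filter_subset _ _
  have hc1 : (1 : ℝ) ≤ (S.card : ℝ) := by
    have h1 : 1 ∈ S := by
      rw [hS, Finset.mem_filter, Finset.mem_Icc]
      refine ⟨⟨le_rfl, hQ1⟩, squarefree_one, rfl, ?_⟩
      intro p hp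
      simp at hp
    have : 1 ≤ S.card := Finset.card_pos.2 ⟨1, h1⟩
    exact_mod_cast this
  have hc0 : (0 : ℝ) < (S.card : ℝ) := by linarith
  obtain ⟨T, hT⟩ : ∃ T : Finset ℕ, T = (DD N Q).filter Squarefree := ⟨_, rfl⟩
  have hmemT : ∀ n ∈ T, (1 ≤ n ∧ n ≤ Q) ∧ Squarefree n ∧ n % 2 = 1 ∧
      ∀ b : ℕ, 2 ≤ b → b ≤ N → jacobiSym (b : ℤ) n = 1 := by
    intro n hn
    rw [hT, Finset.mem_filter, mem_DD] at hn
    exact ⟨hn.1.1, hn.2, Nat.odd_iff.1 hn.1.2.1, hn.1.2.2⟩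
  obtain ⟨b, hb⟩ : ∃ b : ℕ → ℝ, b = fun k => if k ∈ S then 1 else 0 := ⟨_, rfl⟩
  obtain ⟨X, hX⟩ : ∃ X : ℝ, X = C * ((Q : ℝ) * Q) ^ (δ / 4) * ((Q : ℝ) + Q) := ⟨_, rfl⟩
  have hbS : ∀ n, b n ≠ 0 → n ≤ Q ∧ Squarefree n ∧ n % 2 = 1 := by
    intro n hn
    have hnS : n ∈ S := by
      by_contra h0
      apply hn
      rw [hb]
      simp only
      rw [if_neg h0]
    have := hmemS n hnS
    exact ⟨this.1.2, this.2.1, this.2.2.1⟩
  have hE : E b Q = S.card := by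
    unfold E
    have h1 : ∀ n ∈ Finset.Icc 1 Q, b n ^ 2 = if n ∈ S then (1 : ℝ) else 0 := by
      intro n _
      rw [hb]
      simp only
      split_ifs <;> norm_num
    rw [Finset.sum_congr rfl h1, ← Finset.sum_filter, Finset.sum_const, nsmul_eq_mul, mul_one]
    congr 1
    congr 1
    ext n
    rw [Finset.mem_filter]
    exact ⟨fun h => h.2, fun h => ⟨hSsub h, h⟩⟩
  have hswap := LS_swap (hLS Q Q hQ1 hQ1) b hbS
  rw [hE, ← hX] at hswap
  have hTsum : ∀ n ∈ T, (∑ k ∈ Finset.Icc 1 Q, b k * J k n) = S.card := by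
    intro n hn
    have h0 := hmemT n hn
    have h1 : ∀ k ∈ Finset.Icc 1 Q, b k * J k n = if k ∈ S then (1 : ℝ) else 0 := by
      intro k _
      rw [hb]
      simp only
      split_ifs with hk
      · have hk' := hmemS k hk
        have h2 := J_smooth h0.2.2.2 k hk'.1.1 hk'.2.2.2
        unfold J
        rw [h2]
        norm_num
      · rw [zero_mul]
    rw [Finset.sum_congr rfl h1, ← Finset.sum_filter, Finset.sum_const, nsmul_eq_mul, mul_one]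
    congr 1
    congr 1
    ext k
    rw [Finset.mem_filter]
    exact ⟨fun h => h.2, fun h => ⟨hSsub h, h⟩⟩
  have hsum : (T.card : ℝ) * (S.card : ℝ) ^ 2 ≤ 2 * X * S.card := by
    refine le_trans ?_ hswap
    have h1 : (T.card : ℝ) * (S.card : ℝ) ^ 2 =
        ∑ n ∈ T, (∑ k ∈ Finset.Icc 1 Q, b k * J k n) ^ 2 := by
      rw [Finset.sum_congr rfl (fun n hn => by rw [hTsum n hn]), Finset.sum_const, nsmul_eq_mul]
    rw [h1]
    refine Finset.sum_le_sum_of_subset_of_nonneg ?_ (fun _ _ _ => sq_nonneg _)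
    intro n hn
    have h0 := hmemT n hn
    rw [Finset.mem_filter, Finset.mem_Icc]
    exact ⟨h0.1, h0.2.1, h0.2.2.1⟩
  have hTS : (T.card : ℝ) * (S.card : ℝ) ≤ 2 * X := by
    have h1 : ((T.card : ℝ) * (S.card : ℝ)) * S.card ≤ 2 * X * S.card := by
      refine le_trans (le_of_eq ?_) hsum
      ring
    exact le_of_mul_le_mul_right h1 hc0
  have hT0 : (0 : ℝ) ≤ (T.card : ℝ) := Nat.cast_nonneg _
  have hxd : 0 < x ^ (δ / 4) := Real.rpow_pos_of_pos hx0 _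
  -- bound for `X`
  have hXle : 2 * X ≤ x ^ (δ / 4) * x ^ (δ / 4) * x ^ (δ / 4) * Q := by
    have h1 : ((Q : ℝ) * Q) ^ (δ / 4) ≤ x ^ (δ / 4) * x ^ (δ / 4) := by
      rw [← Real.mul_rpow hx0.le hx0.le]
      exact Real.rpow_le_rpow (by positivity) (mul_le_mul hQx hQx hQ0.le hx0.le) (by positivity)
    have h2 := hX2 x hx2
    calc 2 * X = 4 * C * ((Q : ℝ) * Q) ^ (δ / 4) * Q := by rw [hX]; ring
      _ ≤ x ^ (δ / 4) * (x ^ (δ / 4) * x ^ (δ / 4)) * Q := by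
          refine mul_le_mul_of_nonneg_right ?_ hQ0.le
          exact mul_le_mul h2 h1 (by positivity) hxd.le
      _ = x ^ (δ / 4) * x ^ (δ / 4) * x ^ (δ / 4) * Q := by ring
  have hQA : 0 < (Q : ℝ) ^ (1 - 1 / A) := Real.rpow_pos_of_pos hQ0 _
  have hfin : (T.card : ℝ) * (Q : ℝ) ^ (1 - 1 / A) ≤
      x ^ δ * (Q : ℝ) ^ (1 / A) * (Q : ℝ) ^ (1 - 1 / A) := by
    have h1 : (Q : ℝ) ^ (1 / A) * (Q : ℝ) ^ (1 - 1 / A) = Q := by
      rw [← Real.rpow_add hQ0]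
      have : 1 / A + (1 - 1 / A) = 1 := by ring
      rw [this, Real.rpow_one]
    have h2 : x ^ δ = x ^ (δ / 4) * x ^ (δ / 4) * x ^ (δ / 4) * x ^ (δ / 4) := by
      rw [← Real.rpow_add hx0, ← Real.rpow_add hx0, ← Real.rpow_add hx0]
      congr 1
      ring
    calc (T.card : ℝ) * (Q : ℝ) ^ (1 - 1 / A) ≤ (T.card : ℝ) * (x ^ (δ / 4) * (S.card : ℝ)) :=
          mul_le_mul_of_nonneg_left hlow' hT0
      _ = x ^ (δ / 4) * ((T.card : ℝ) * (S.card : ℝ)) := by ring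
      _ ≤ x ^ (δ / 4) * (x ^ (δ / 4) * x ^ (δ / 4) * x ^ (δ / 4) * Q) :=
          mul_le_mul_of_nonneg_left (hTS.trans hXle) hxd.le
      _ = x ^ δ * ((Q : ℝ) ^ (1 / A) * (Q : ℝ) ^ (1 - 1 / A)) := by rw [h1, h2]; ring
      _ = x ^ δ * (Q : ℝ) ^ (1 / A) * (Q : ℝ) ^ (1 - 1 / A) := by ring
  have := le_of_mul_le_mul_right hfin hQA
  rwa [hT] at this

end HBQ
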