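import Pool.Agent.Lib.MP_0b15c0_nt.Final

set_option autoImplicit false

namespace HBQ

open Pool.Agent.Lib.MP0b15c0

private lemma app4_jac {b t s : ℕ} (ht : t ≠ 0) (hs : s ≠ 0)
    (h : jacobiSym (b : ℤ) (t ^ 2 * s) = 1) : jacobiSym (b : ℤ) s = 1 := by
  have ht2 : t ^ 2 ≠ 0 := pow_ne_zero 2 ht
  rw [jacobiSym.mul_right' _ ht2 hs, jacobiSym.pow_right] at h
  have h1 : jacobiSym (b : ℤ) t ^ 2 = 1 := by
    rcases jacobiSym.trichotomy (b : ℤ) t with h2 | h2 | h2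
    · rw [h2] at h
      norm_num at h
    · rw [h2]; norm_num
    · rw [h2]; norm_num
  rw [h1, one_mul] at h
  exact h

open Classical in
/-- A4. From squarefree moduli to all moduli when `A <= 2`. PROOF: every `D >= 1` is `s * t^2` with `s` squarefree
(`Nat.sq_mul_squarefree`); if `Triv N D` and `N >= 2` then `D` is odd, no prime `<= N` divides `D`, and `s` is in `DD N (Q / t^2)`
(for `2 <= b <= N` the Jacobi symbol `(b / D) = (b / s) (b / t)^2` and `(b / t)^2 = 1` as `(b/D)` is not zero).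
So `(DD N Q).card <= sum_{t <= Q} (((DD N (Q / t^2)).filter Squarefree).card) <= sum_t x^δ (Q/t^2)^(1/A)
<= x^δ Q^(1/A) sum_{t <= Q} t^(-2/A)` and `t^(-2/A) <= 1/t`, `harmonic_le` (Final.lean). The terms with `Q / t^2 = 0` vanish
(`DD N 0` is empty). -/
theorem triv_all {A δ x : ℝ} {N Q : ℕ} (hA : 1 < A) (hA2 : A ≤ 2) (hx : 1 ≤ x) (hδ : 0 < δ) (hN : 2 ≤ N)
    (hQ : 1 ≤ Q) (hQx : (Q : ℝ) ≤ x)
    (h : ∀ R : ℕ, 1 ≤ R → R ≤ Q →
      (((DD N R).filter Squarefree).card : ℝ) ≤ x ^ δ * (R : ℝ) ^ (1 / A)) :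
    ((DD N Q).card : ℝ) ≤ x ^ δ * (1 + Real.log x) * (Q : ℝ) ^ (1 / A) := by
  have hA0 : 0 < A := by linarith
  have hQ0 : (0 : ℝ) < Q := by exact_mod_cast hQ
  have hx0 : 0 < x := by linarith
  have hsub : DD N Q ⊆ (Finset.Icc 1 Q).biUnion (fun t =>
      ((DD N (Q / t ^ 2)).filter Squarefree).image (fun s => t ^ 2 * s)) := by
    intro D hD
    rw [mem_DD] at hD
    obtain ⟨⟨hD1, hDQ⟩, hodd, hj⟩ := hD
    obtain ⟨s, t, hst, hs⟩ := Nat.sq_mul_squarefree D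
    have ht0 : t ≠ 0 := by
      rintro rfl
      simp at hst
      omega
    have hs0 : s ≠ 0 := hs.ne_zero
    have ht1 : 1 ≤ t := Nat.one_le_iff_ne_zero.2 ht0
    have hs1 : 1 ≤ s := Nat.one_le_iff_ne_zero.2 hs0
    have ht2 : 0 < t ^ 2 := by positivity
    rw [Finset.mem_biUnion]
    refine ⟨t, ?_, ?_⟩
    · rw [Finset.mem_Icc]
      refine ⟨ht1, ?_⟩
      calc t ≤ t ^ 2 := Nat.le_self_pow two_ne_zero t
        _ ≤ t ^ 2 * s := Nat.le_mul_of_pos_right _ hs1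
        _ ≤ Q := hst ▸ hDQ
    · rw [Finset.mem_image]
      refine ⟨s, ?_, hst⟩
      rw [Finset.mem_filter, mem_DD]
      refine ⟨⟨⟨hs1, ?_⟩, ?_, ?_⟩, hs⟩
      · rw [Nat.le_div_iff_mul_le ht2, mul_comm, hst]
        exact hDQ
      · rw [← hst] at hodd
        exact (Nat.odd_mul.1 hodd).2
      · intro b hb hbN
        have h1 := hj b hb hbN
        rw [← hst] at h1
        exact app4_jac ht0 hs0 h1
  have hterm : ∀ t ∈ Finset.Icc 1 Q,
      (((DD N (Q / t ^ 2)).filter Squarefree).card : ℝ) ≤ x ^ δ * (Q : ℝ) ^ (1 / A) * (1 / t) := by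
    intro t ht
    rw [Finset.mem_Icc] at ht
    have ht0 : (0 : ℝ) < t := by exact_mod_cast ht.1
    have ht1 : (1 : ℝ) ≤ t := by exact_mod_cast ht.1
    have hpos : 0 ≤ x ^ δ * (Q : ℝ) ^ (1 / A) * (1 / t) := by positivity
    rcases Nat.eq_zero_or_pos (Q / t ^ 2) with h0 | h0
    · rw [h0]
      have : DD N 0 = ∅ := by
        unfold DD
        simp
      rw [this]
      simpa using hpos
    · have hR := h (Q / t ^ 2) h0 (Nat.div_le_self _ _)
      refine hR.trans ?_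
      rw [mul_assoc]
      refine mul_le_mul_of_nonneg_left ?_ (by positivity)
      have h1 : ((Q / t ^ 2 : ℕ) : ℝ) ≤ (Q : ℝ) / (t : ℝ) ^ 2 := by
        have := @Nat.cast_div_le ℝ _ _ _ Q (t ^ 2)
        push_cast at this
        exact this
      have h2 : ((Q / t ^ 2 : ℕ) : ℝ) ^ (1 / A) ≤ ((Q : ℝ) / (t : ℝ) ^ 2) ^ (1 / A) :=
        Real.rpow_le_rpow (Nat.cast_nonneg _) h1 (by positivity)
      refine h2.trans ?_
      rw [Real.div_rpow hQ0.le (by positivity), div_eq_mul_one_div]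
      refine mul_le_mul_of_nonneg_left ?_ (by positivity)
      refine one_div_le_one_div_of_le ht0 ?_
      rw [← Real.rpow_natCast, ← Real.rpow_mul ht0.le]
      have h3 : (1 : ℝ) ≤ ((2 : ℕ) : ℝ) * (1 / A) := by
        rw [mul_one_div, le_div_iff₀ hA0]
        push_cast
        linarith
      calc (t : ℝ) = (t : ℝ) ^ (1 : ℝ) := (Real.rpow_one _).symm
        _ ≤ _ := Real.rpow_le_rpow_of_exponent_le ht1 h3
  have hcard : ((DD N Q).card : ℝ) ≤ ∑ t ∈ Finset.Icc 1 Q,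
      (((DD N (Q / t ^ 2)).filter Squarefree).card : ℝ) := by
    have h1 := (Finset.card_le_card hsub).trans Finset.card_biUnion_le
    have h2 : (DD N Q).card ≤ ∑ t ∈ Finset.Icc 1 Q,
        ((DD N (Q / t ^ 2)).filter Squarefree).card :=
      h1.trans (Finset.sum_le_sum fun t _ => Finset.card_image_le)
    exact_mod_cast h2
  refine hcard.trans ((Finset.sum_le_sum hterm).trans ?_)
  rw [← Finset.mul_sum]
  have h3 := harmonic_le Q
  have h4 : Real.log Q ≤ Real.log x := Real.log_le_log hQ0 hQx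
  have h5 : ∑ i ∈ Finset.Icc 1 Q, (1 : ℝ) / i ≤ 1 + Real.log x := by linarith
  calc x ^ δ * (Q : ℝ) ^ (1 / A) * ∑ i ∈ Finset.Icc 1 Q, (1 : ℝ) / i
      ≤ x ^ δ * (Q : ℝ) ^ (1 / A) * (1 + Real.log x) :=
        mul_le_mul_of_nonneg_left h5 (by positivity)
    _ = _ := by ring

end HBQ
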