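import Pool.Agent.Lib.MP_0b15c0_nt.Final

set_option autoImplicit false

namespace HBQ

open Pool.Agent.Lib.MP0b15c0

/-- the sum over `T` of `m^(-1/A)` by dyadic intervals -/
private lemma app5_sum {A δ : ℝ} (hA : 1 < A) {x : ℕ} (hx : 1 ≤ x) {T : Finset ℕ}
    (hT : ∀ Q : ℕ, 1 ≤ Q → Q ≤ x →
      ((T.filter (fun m => 1 ≤ m ∧ m ≤ Q)).card : ℝ) ≤ (x : ℝ) ^ δ * (Q : ℝ) ^ (1 / A)) :
    ∑ m ∈ T.filter (fun m => 1 ≤ m ∧ m ≤ x), (1 / (m : ℝ) ^ (1 / A)) ≤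
      2 * (x : ℝ) ^ δ * (Nat.log 2 x + 1) := by
  have hA0 : 0 < A := by linarith
  have hx0 : (0 : ℝ) < x := by exact_mod_cast hx
  have hmaps : ∀ m ∈ T.filter (fun m => 1 ≤ m ∧ m ≤ x),
      Nat.log 2 m ∈ Finset.range (Nat.log 2 x + 1) := by
    intro m hm
    rw [Finset.mem_filter] at hm
    rw [Finset.mem_range]
    have := Nat.log_mono_right (b := 2) hm.2.2
    omega
  rw [← Finset.sum_fiberwise_of_maps_to hmaps]
  have hterm : ∀ i ∈ Finset.range (Nat.log 2 x + 1),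
      ∑ m ∈ (T.filter (fun m => 1 ≤ m ∧ m ≤ x)).filter (fun m => Nat.log 2 m = i),
        (1 / (m : ℝ) ^ (1 / A)) ≤ 2 * (x : ℝ) ^ δ := by
    intro i hi
    set Q : ℕ := min (2 ^ (i + 1)) x with hQ
    have hQ1 : 1 ≤ Q := le_min (Nat.one_le_two_pow) hx
    have hQx : Q ≤ x := min_le_right _ _
    have h2i : (0 : ℝ) < 2 ^ i := by positivity
    have h1 : ∑ m ∈ (T.filter (fun m => 1 ≤ m ∧ m ≤ x)).filter (fun m => Nat.log 2 m = i),
        (1 / (m : ℝ) ^ (1 / A)) ≤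
        ∑ _m ∈ (T.filter (fun m => 1 ≤ m ∧ m ≤ x)).filter (fun m => Nat.log 2 m = i),
          (1 / ((2 : ℝ) ^ i) ^ (1 / A)) := by
      refine Finset.sum_le_sum fun m hm => ?_
      rw [Finset.mem_filter, Finset.mem_filter] at hm
      have h3 : 2 ^ i ≤ m := by
        rw [← hm.2]
        exact Nat.pow_log_le_self 2 (by omega)
      have h4 : ((2 : ℝ) ^ i) ≤ m := by exact_mod_cast h3
      refine one_div_le_one_div_of_le (by positivity) ?_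
      exact Real.rpow_le_rpow h2i.le h4 (by positivity)
    have h2 : (T.filter (fun m => 1 ≤ m ∧ m ≤ x)).filter (fun m => Nat.log 2 m = i) ⊆
        T.filter (fun m => 1 ≤ m ∧ m ≤ Q) := by
      intro m hm
      rw [Finset.mem_filter, Finset.mem_filter] at hm
      rw [Finset.mem_filter]
      refine ⟨hm.1.1, hm.1.2.1, ?_⟩
      rw [hQ, le_min_iff]
      refine ⟨?_, hm.1.2.2⟩
      have := Nat.lt_pow_succ_log_self (b := 2) (by norm_num) m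
      rw [hm.2] at this
      exact this.le
    have h3 : (((T.filter (fun m => 1 ≤ m ∧ m ≤ x)).filter
        (fun m => Nat.log 2 m = i)).card : ℝ) ≤ (x : ℝ) ^ δ * (2 * (2 ^ i) : ℝ) ^ (1 / A) := by
      have h4 : (((T.filter (fun m => 1 ≤ m ∧ m ≤ x)).filter
        (fun m => Nat.log 2 m = i)).card : ℝ) ≤
          ((T.filter (fun m => 1 ≤ m ∧ m ≤ Q)).card : ℝ) := by
        exact_mod_cast Finset.card_le_card h2
      refine (h4.trans (hT Q hQ1 hQx)).trans ?_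
      refine mul_le_mul_of_nonneg_left ?_ (by positivity)
      refine Real.rpow_le_rpow (Nat.cast_nonneg _) ?_ (by positivity)
      have h5 : Q ≤ 2 ^ (i + 1) := min_le_left _ _
      have h6 : (Q : ℝ) ≤ 2 ^ (i + 1) := by exact_mod_cast h5
      rw [pow_succ] at h6
      linarith
    refine h1.trans ?_
    rw [Finset.sum_const, nsmul_eq_mul]
    have h7 : (0 : ℝ) < ((2 : ℝ) ^ i) ^ (1 / A) := Real.rpow_pos_of_pos h2i _
    rw [mul_one_div, div_le_iff₀ h7]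
    refine h3.trans ?_
    rw [Real.mul_rpow (by norm_num) h2i.le]
    have h8 : (2 : ℝ) ^ (1 / A) ≤ 2 := by
      calc (2 : ℝ) ^ (1 / A) ≤ (2 : ℝ) ^ (1 : ℝ) := by
            refine Real.rpow_le_rpow_of_exponent_le (by norm_num) ?_
            rw [div_le_one hA0]
            exact hA.le
        _ = 2 := Real.rpow_one 2
    have h9 : 0 ≤ (x : ℝ) ^ δ * ((2 : ℝ) ^ i) ^ (1 / A) := by positivity
    calc (x : ℝ) ^ δ * ((2 : ℝ) ^ (1 / A) * ((2 : ℝ) ^ i) ^ (1 / A))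
        = (x : ℝ) ^ δ * ((2 : ℝ) ^ i) ^ (1 / A) * (2 : ℝ) ^ (1 / A) := by ring
      _ ≤ (x : ℝ) ^ δ * ((2 : ℝ) ^ i) ^ (1 / A) * 2 := mul_le_mul_of_nonneg_left h8 h9
      _ = _ := by ring
  refine (Finset.sum_le_sum hterm).trans (le_of_eq ?_)
  rw [Finset.sum_const, Finset.card_range, nsmul_eq_mul]
  push_cast
  ring

private lemma app5_log {δ : ℝ} (hδ : 0 < δ) {x : ℕ} (hx : 1 ≤ x) :
    ((Nat.log 2 x : ℕ) : ℝ) + 1 ≤ (2 / δ + 1) * (x : ℝ) ^ δ := by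
  have hx0 : (0 : ℝ) < x := by exact_mod_cast hx
  have hx1 : (1 : ℝ) ≤ x := by exact_mod_cast hx
  have h1 : ((Nat.log 2 x : ℕ) : ℝ) * Real.log 2 ≤ Real.log x := by
    rw [← Real.log_pow]
    refine Real.log_le_log (by positivity) ?_
    exact_mod_cast Nat.pow_log_le_self 2 (by omega)
  have h2 : (1 : ℝ) / 2 ≤ Real.log 2 := by
    have := Real.log_two_gt_d9
    linarith
  have h3 : Real.log x ≤ (x : ℝ) ^ δ / δ := Real.log_le_rpow_div hx0.le hδ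
  have h4 : (1 : ℝ) ≤ (x : ℝ) ^ δ := Real.one_le_rpow hx1 hδ.le
  have h5 : ((Nat.log 2 x : ℕ) : ℝ) * (1 / 2) ≤ ((Nat.log 2 x : ℕ) : ℝ) * Real.log 2 :=
    mul_le_mul_of_nonneg_left h2 (Nat.cast_nonneg _)
  have h6 : (2 / δ + 1) * (x : ℝ) ^ δ = 2 * ((x : ℝ) ^ δ / δ) + (x : ℝ) ^ δ := by ring
  rw [h6]
  linarith

/-- A5. Counting `n = p m`. PROOF (compare `card_pm` in MP_0b15c0_nt/Final.lean): for given `m` write `p - 1 = g * h` with
`g = gcd(p-1, m-1)`, a divisor of `m - 1 >= 1`; `(p-1)^(1-1/A) <= x^δ g` gives `h = (p-1)/g <= x^δ (p-1)^(1/A) <= x^δ (x/m)^(1/A)`;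
so there are at most `tau(m-1) x^δ (x/m)^(1/A)` primes `p` for each `m` (`tau(m-1) <= C x^δ`, `divisor_bound`), and
`sum_{m in T} m^(-1/A) <= 2 x^δ (2 + log x / log 2)`-ish by splitting `m` in dyadic intervals `[2^i, 2^(i+1))` (`m <= x`),
or by partial summation. The log is at most `C x^δ`. Total exponent `1/A + 4 δ`. -/
theorem pair_count (A δ : ℝ) (hA : 1 < A) (hδ : 0 < δ) : ∃ C : ℝ, 0 < C ∧ ∀ x : ℕ, 1 ≤ x →
    ∀ T : Finset ℕ, (∀ Q : ℕ, 1 ≤ Q → Q ≤ x →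
      ((T.filter (fun m => 1 ≤ m ∧ m ≤ Q)).card : ℝ) ≤ (x : ℝ) ^ δ * (Q : ℝ) ^ (1 / A)) →
    ∀ E : Finset ℕ, (∀ n ∈ E, n ≤ x ∧ ∃ p m : ℕ, p.Prime ∧ n = p * m ∧ 2 ≤ m ∧ m ∈ T ∧
      ((p - 1 : ℕ) : ℝ) ^ (1 - 1 / A) ≤ (x : ℝ) ^ δ * (Nat.gcd (p - 1) (m - 1) : ℝ)) →
    (E.card : ℝ) ≤ C * (x : ℝ) ^ (1 / A + 4 * δ) := by
  classical
  obtain ⟨C1, hC1, hdiv⟩ := divisor_bound hδ
  have hA0 : 0 < A := by linarith
  refine ⟨C1 * (2 * (2 / δ + 1)), by positivity, ?_⟩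
  intro x hx T hT E hE
  have hx0 : (0 : ℝ) < x := by exact_mod_cast hx
  have hxd : (0 : ℝ) < (x : ℝ) ^ δ := Real.rpow_pos_of_pos hx0 _
  have hsub : E ⊆ (T.filter (fun m => 1 ≤ m ∧ m ≤ x)).biUnion (fun m =>
      ((m - 1).divisors ×ˢ Finset.Icc 1 ⌊(x : ℝ) ^ δ * ((x : ℝ) / m) ^ (1 / A)⌋₊).image
        (fun gh => (1 + gh.1 * gh.2) * m)) := by
    intro n hn
    obtain ⟨hnx, p, m, hp, hnm, hm, hmT, hg⟩ := hE n hn
    have hp2 := hp.two_le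
    have hm0 : (0 : ℝ) < m := by exact_mod_cast (by omega : 0 < m)
    rw [Finset.mem_biUnion]
    refine ⟨m, ?_, ?_⟩
    · rw [Finset.mem_filter]
      refine ⟨hmT, by omega, ?_⟩
      calc m ≤ p * m := Nat.le_mul_of_pos_left m (by omega)
        _ ≤ x := hnm ▸ hnx
    · rw [Finset.mem_image]
      obtain ⟨g, hgdef⟩ : ∃ g, g = Nat.gcd (p - 1) (m - 1) := ⟨_, rfl⟩
      rw [← hgdef] at hg
      have hgdvd : g ∣ p - 1 := hgdef ▸ Nat.gcd_dvd_left _ _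
      have hgm : g ∣ m - 1 := hgdef ▸ Nat.gcd_dvd_right _ _
      obtain ⟨h, hh⟩ := hgdvd
      have hg0 : 0 < g := Nat.pos_of_ne_zero fun h0 => by rw [h0, zero_mul] at hh; omega
      have hh0 : 0 < h := Nat.pos_of_ne_zero fun h0 => by rw [h0, mul_zero] at hh; omega
      refine ⟨(g, h), ?_, ?_⟩
      · rw [Finset.mem_product, Nat.mem_divisors, Finset.mem_Icc]
        refine ⟨⟨hgm, by omega⟩, hh0, ?_⟩
        apply Nat.le_floor
        change (h : ℝ) ≤ _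
        have hp1 : (0 : ℝ) < ((p - 1 : ℕ) : ℝ) := by exact_mod_cast (by omega : 0 < p - 1)
        have hgr : (0 : ℝ) < g := by exact_mod_cast hg0
        have e1 : ((p - 1 : ℕ) : ℝ) = ((p - 1 : ℕ) : ℝ) ^ (1 - 1 / A) *
            ((p - 1 : ℕ) : ℝ) ^ (1 / A) := by
          rw [← Real.rpow_add hp1, sub_add_cancel, Real.rpow_one]
        have e2 : ((p - 1 : ℕ) : ℝ) = g * h := by rw [hh]; push_cast; rfl
        have e3 : (g : ℝ) * h ≤ (x : ℝ) ^ δ * g * ((p - 1 : ℕ) : ℝ) ^ (1 / A) := by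
          rw [← e2]
          conv_lhs => rw [e1]
          exact mul_le_mul_of_nonneg_right hg (by positivity)
        have e4 : (h : ℝ) ≤ (x : ℝ) ^ δ * ((p - 1 : ℕ) : ℝ) ^ (1 / A) := by
          refine le_of_mul_le_mul_left ?_ hgr
          calc (g : ℝ) * h ≤ (x : ℝ) ^ δ * g * ((p - 1 : ℕ) : ℝ) ^ (1 / A) := e3
            _ = g * ((x : ℝ) ^ δ * ((p - 1 : ℕ) : ℝ) ^ (1 / A)) := by ring
        refine e4.trans (mul_le_mul_of_nonneg_left ?_ hxd.le)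
        refine Real.rpow_le_rpow hp1.le ?_ (by positivity)
        rw [le_div_iff₀ hm0]
        have e5 : (p - 1) * m ≤ x := by
          calc (p - 1) * m ≤ p * m := Nat.mul_le_mul_right m (by omega)
            _ ≤ x := hnm ▸ hnx
        exact_mod_cast e5
      · simp only
        rw [← hh, hnm]
        congr 1
        omega
  have hterm : ∀ m ∈ T.filter (fun m => 1 ≤ m ∧ m ≤ x),
      ((((m - 1).divisors ×ˢ Finset.Icc 1 ⌊(x : ℝ) ^ δ * ((x : ℝ) / m) ^ (1 / A)⌋₊).image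
        (fun gh : ℕ × ℕ => (1 + gh.1 * gh.2) * m)).card : ℝ) ≤
        (C1 * (x : ℝ) ^ δ * (x : ℝ) ^ δ * (x : ℝ) ^ (1 / A)) * (1 / (m : ℝ) ^ (1 / A)) := by
    intro m hm
    rw [Finset.mem_filter] at hm
    have hm0 : (0 : ℝ) < m := by exact_mod_cast (by omega : 0 < m)
    have h3 := Finset.card_image_le
      (s := (m - 1).divisors ×ˢ Finset.Icc 1 ⌊(x : ℝ) ^ δ * ((x : ℝ) / m) ^ (1 / A)⌋₊)
      (f := fun gh : ℕ × ℕ => (1 + gh.1 * gh.2) * m)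
    rw [Finset.card_product, Nat.card_Icc, Nat.add_sub_cancel] at h3
    have h4 : ((((m - 1).divisors ×ˢ Finset.Icc 1 ⌊(x : ℝ) ^ δ * ((x : ℝ) / m) ^ (1 / A)⌋₊).image
        (fun gh : ℕ × ℕ => (1 + gh.1 * gh.2) * m)).card : ℝ) ≤
        (((m - 1).divisors.card : ℕ) : ℝ) *
          ((⌊(x : ℝ) ^ δ * ((x : ℝ) / m) ^ (1 / A)⌋₊ : ℕ) : ℝ) := by
      exact_mod_cast h3
    have h5 : ((⌊(x : ℝ) ^ δ * ((x : ℝ) / m) ^ (1 / A)⌋₊ : ℕ) : ℝ) ≤
        (x : ℝ) ^ δ * ((x : ℝ) / m) ^ (1 / A) := Nat.floor_le (by positivity)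
    have h6 : (((m - 1).divisors.card : ℕ) : ℝ) ≤ C1 * (x : ℝ) ^ δ := by
      rcases Nat.eq_zero_or_pos (m - 1) with h0 | h0
      · rw [h0, Nat.divisors_zero, Finset.card_empty, Nat.cast_zero]
        positivity
      · refine (hdiv (m - 1) (by omega)).trans (mul_le_mul_of_nonneg_left ?_ hC1.le)
        apply Real.rpow_le_rpow (Nat.cast_nonneg _) _ hδ.le
        exact_mod_cast (by omega : m - 1 ≤ x)
    refine h4.trans ((mul_le_mul h6 h5 (Nat.cast_nonneg _) (by positivity)).trans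
      (le_of_eq ?_))
    rw [Real.div_rpow hx0.le hm0.le]
    ring
  have hcard : (E.card : ℝ) ≤ ∑ m ∈ T.filter (fun m => 1 ≤ m ∧ m ≤ x),
      ((((m - 1).divisors ×ˢ Finset.Icc 1 ⌊(x : ℝ) ^ δ * ((x : ℝ) / m) ^ (1 / A)⌋₊).image
        (fun gh : ℕ × ℕ => (1 + gh.1 * gh.2) * m)).card : ℝ) := by
    have h1 := le_trans (Finset.card_le_card hsub) Finset.card_biUnion_le
    exact_mod_cast h1
  refine hcard.trans ((Finset.sum_le_sum hterm).trans ?_)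
  rw [← Finset.mul_sum]
  have hs := app5_sum hA hx hT
  have hl := app5_log hδ hx
  have hx1 : (x : ℝ) ^ (1 / A + 4 * δ) =
      (x : ℝ) ^ (1 / A) * ((x : ℝ) ^ δ * (x : ℝ) ^ δ * (x : ℝ) ^ δ * (x : ℝ) ^ δ) := by
    rw [← Real.rpow_add hx0, ← Real.rpow_add hx0, ← Real.rpow_add hx0, ← Real.rpow_add hx0]
    congr 1
    ring
  rw [hx1]
  calc C1 * (x : ℝ) ^ δ * (x : ℝ) ^ δ * (x : ℝ) ^ (1 / A) *
        ∑ m ∈ T.filter (fun m => 1 ≤ m ∧ m ≤ x), (1 / (m : ℝ) ^ (1 / A))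
      ≤ C1 * (x : ℝ) ^ δ * (x : ℝ) ^ δ * (x : ℝ) ^ (1 / A) *
        (2 * (x : ℝ) ^ δ * ((2 / δ + 1) * (x : ℝ) ^ δ)) := by
        refine mul_le_mul_of_nonneg_left ?_ (by positivity)
        exact hs.trans (mul_le_mul_of_nonneg_left hl (by positivity))
    _ = _ := by ring

end HBQ
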