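import Pool.Agent.Lib.MP_0b15c0_nt.Final

set_option autoImplicit false

namespace HBQ

open Pool.Agent.Lib.MP0b15c0

/-- the number of solutions of `x^G = 1` modulo `p^2` when `p` does not divide `G` -/
private theorem card_le_sq {p G : ℕ} (hp : p.Prime) (hp2 : p ≠ 2) (hpG : ¬ p ∣ G) (hG : 0 < G)
    (s : Finset ℕ) (hs : ∀ m ∈ s, 1 ≤ m ∧ m ≤ p ^ 2 ∧ Nat.Coprime m p)
    (h : ∀ m ∈ s, (m : ZMod (p ^ 2)) ^ G = 1) : s.card ≤ p - 1 := by
  classical
  have hpf : Fact p.Prime := ⟨hp⟩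
  have hp1 := hp.two_le
  have hq0 : p ^ 2 ≠ 0 := pow_ne_zero 2 hp.ne_zero
  have hne : NeZero (p ^ 2) := ⟨hq0⟩
  have hcyc : IsCyclic (ZMod (p ^ 2))ˣ := ZMod.isCyclic_units_of_prime_pow p hp hp2 2
  have hcard : Fintype.card (ZMod (p ^ 2))ˣ = p * (p - 1) := by
    rw [ZMod.card_units_eq_totient, Nat.totient_prime_pow hp (by norm_num)]
    norm_num
  obtain ⟨g, hg⟩ : ∃ g, g = Nat.gcd G (p * (p - 1)) := ⟨_, rfl⟩
  have hg0 : 0 < g := by rw [hg]; exact Nat.gcd_pos_of_pos_left _ hG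
  have hgp : g ∣ p - 1 := by
    have h1 : Nat.Coprime g p := by
      rw [Nat.coprime_comm, Nat.Prime.coprime_iff_not_dvd hp]
      intro hd
      exact hpG (dvd_trans hd (hg ▸ Nat.gcd_dvd_left _ _))
    exact h1.dvd_of_dvd_mul_left (hg ▸ Nat.gcd_dvd_right _ _)
  have hgle : g ≤ p - 1 := Nat.le_of_dvd (by omega) hgp
  refine le_trans ?_ hgle
  refine le_trans ?_ (IsCyclic.card_pow_eq_one_le (α := (ZMod (p ^ 2))ˣ) hg0)
  have hcop : ∀ m ∈ s, Nat.Coprime m (p ^ 2) := fun m hm =>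
    Nat.Coprime.pow_right 2 (hs m hm).2.2
  have hlt : ∀ m ∈ s, m < p ^ 2 := by
    intro m hm
    rcases (hs m hm).2.1.eq_or_lt with h1 | h1
    · exfalso
      have h2 := hcop m hm
      rw [h1, Nat.coprime_self] at h2
      have : 4 ≤ p ^ 2 := by nlinarith
      omega
    · exact h1
  refine Finset.card_le_card_of_injOn
    (fun m => if hm : Nat.Coprime m (p ^ 2) then ZMod.unitOfCoprime m hm else 1) ?_ ?_
  · intro m hm
    have hm' := hcop m hm
    show (if hm : Nat.Coprime m (p ^ 2) then ZMod.unitOfCoprime m hm else 1) ∈ _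
    rw [dif_pos hm', Finset.mem_coe, Finset.mem_filter]
    refine ⟨Finset.mem_univ _, ?_⟩
    have h1 : (ZMod.unitOfCoprime m hm') ^ G = 1 := by
      ext
      rw [Units.val_pow_eq_pow_val, ZMod.coe_unitOfCoprime, Units.val_one]
      exact h m hm
    have h2 : (ZMod.unitOfCoprime m hm') ^ (p * (p - 1)) = 1 := by
      rw [← hcard]; exact pow_card_eq_one
    rw [hg]
    exact pow_gcd_eq_one.2 ⟨h1, h2⟩
  · intro a ha b hb hab
    have ha' := hcop a ha
    have hb' := hcop b hb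
    simp only at hab
    rw [dif_pos ha', dif_pos hb'] at hab
    have h1 : ((a : ℕ) : ZMod (p ^ 2)) = (b : ZMod (p ^ 2)) := by
      have := congrArg (fun u : (ZMod (p ^ 2))ˣ => (u : ZMod (p ^ 2))) hab
      simpa only [ZMod.coe_unitOfCoprime] using this
    rw [ZMod.natCast_eq_natCast_iff] at h1
    exact Nat.ModEq.eq_of_lt_of_lt h1 (hlt a ha) (hlt b hb)

/-- A6. Numbers without small witness are squarefree. PROOF: let `p^2 ∣ n`, `p` prime. `share_fail` (Struct.lean) gives `p ≠ 2`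
and `N < p`. `pass_pow` (Group.lean) with `q = p^2`: `(b : ZMod (p^2))^G = 1` for `2 <= b <= N`, `G = 2^(padicValNat 2 (p-1)) * d`;
`p` does not divide `G` (`p ∣ n`, `d ∣ n - 1`). `smooth_pow`: the same for all `N`-smooth `m` (set `A N X` of MP_0b15c0_nt/Smooth.lean,
`X = p^2`). The unit group of `ZMod (p^2)` is cyclic of order `p (p-1)` (`ZMod.isCyclic_units_of_prime_pow`,
`IsCyclic.card_pow_eq_one_le`) and `gcd(G, p(p-1)) ∣ p - 1`, so `(A N (p^2)).card <= p - 1`. On the other hand `card_top`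
(Smooth.lean) with `S_ge` (SBound.lean): `N + 1 > 2 (log n)^2`, `log (p^2) <= log n`, so
`S N >= 1.386 sqrt(N+1) - 3.67 >= 1.96 log n - 3.67 >= 1.43 log (p^2)` for `log n >= 8`, and `N < p < p^2`; hence
`(A N (p^2)).card >= sqrt(p^2+1) > p`, a contradiction. -/
theorem sqfree_of_pass {n N j d : ℕ} (hn : (8 : ℝ) ≤ Real.log n) (hjd : n - 1 = 2 ^ j * d)
    (hd : Odd d) (hN : 2 * (Real.log n) ^ 2 ≤ (N : ℝ) + 1)
    (hpass : ∀ b : ℕ, 2 ≤ b → b ≤ N → Pass n j d b) : Squarefree n := by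
  classical
  rw [Nat.squarefree_iff_prime_squarefree]
  intro p hp hpp
  rw [← sq] at hpp
  have hpn : p ∣ n := dvd_trans (dvd_pow_self p (by norm_num)) hpp
  have hn0 : 0 < n := by
    rcases Nat.eq_zero_or_pos n with h0 | h0
    · rw [h0, Nat.cast_zero, Real.log_zero] at hn
      norm_num at hn
    · exact h0
  have hNr : (127 : ℝ) ≤ N := by nlinarith
  have hN127 : 127 ≤ N := by exact_mod_cast hNr
  have hNp : N < p := by
    by_contra hcon
    exact share_fail hd hp hpn dvd_rfl (hpass p hp.two_le (not_lt.mp hcon))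
  have hp2 : p ≠ 2 := by omega
  have hpR : (0 : ℝ) < p := by exact_mod_cast hp.pos
  obtain ⟨G, hG⟩ : ∃ G, G = 2 ^ padicValNat 2 (p - 1) * d := ⟨_, rfl⟩
  have hG0 : 0 < G := by rw [hG]; have := hd.pos; positivity
  have hpG : ¬ p ∣ G := by
    rw [hG, hp.dvd_mul]
    rintro (h1 | h1)
    · exact hp2 ((Nat.prime_dvd_prime_iff_eq hp Nat.prime_two).1 (hp.dvd_of_dvd_pow h1))
    · have h2 : p ∣ n - 1 := by rw [hjd]; exact Dvd.dvd.mul_left h1 _
      have h3 : p ∣ 1 := by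
        have h4 := (Nat.dvd_sub hpn h2)
        have h5 : n - (n - 1) = 1 := by omega
        rwa [h5] at h4
      exact hp.one_lt.ne' (Nat.dvd_one.1 h3)
  have hprime : ∀ ℓ : ℕ, ℓ.Prime → ℓ ≤ N → (ℓ : ZMod (p ^ 2)) ^ G = 1 := by
    intro ℓ hℓ hℓN
    rw [hG]
    exact pass_pow hp hp2 hpn hpp hd (hpass ℓ hℓ.two_le hℓN)
  have hcard : (A N (p ^ 2)).card ≤ p - 1 := by
    refine card_le_sq hp hp2 hpG hG0 _ ?_ ?_
    · intro m hm
      have hm' := mem_A.1 hm
      refine ⟨hm'.1.1, hm'.1.2, ?_⟩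
      rw [Nat.coprime_comm, Nat.Prime.coprime_iff_not_dvd hp]
      intro hd'
      have := hm'.2 p hp hd'
      omega
    · intro m hm
      have hm' := mem_A.1 hm
      exact smooth_pow hprime m hm'.1.1 hm'.2
  have hlogp : Real.log ((p ^ 2 : ℕ) : ℝ) ≤ Real.log n := by
    refine Real.log_le_log ?_ ?_
    · exact_mod_cast pow_pos hp.pos 2
    · exact_mod_cast Nat.le_of_dvd hn0 hpp
  have hS := S_ge N (by omega)
  have hsq : 1414 / 1000 * Real.log n ≤ Real.sqrt ((N : ℝ) + 1) := by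
    apply Real.le_sqrt_of_sq_le
    nlinarith [sq_nonneg (Real.log n)]
  have hS' : 143 / 100 * Real.log ((p ^ 2 : ℕ) : ℝ) ≤ S N := by nlinarith
  have hNX : N < p ^ 2 := by nlinarith
  have htop := card_top (by omega : 1 ≤ N) hNX hS' (by omega)
  have h1 : (p : ℝ) < Real.sqrt (((p ^ 2 : ℕ) : ℝ) + 1) := by
    apply Real.lt_sqrt_of_sq_lt
    push_cast
    linarith
  have h2 : ((A N (p ^ 2)).card : ℝ) ≤ (p : ℝ) := by
    have : (A N (p ^ 2)).card ≤ p := by omega
    exact_mod_cast this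
  linarith

end HBQ
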