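import Pool.Agent.Lib.HBQ.App1
import Pool.Agent.Lib.HBQ.App2
import Pool.Agent.Lib.HBQ.App3
import Pool.Agent.Lib.HBQ.App4
import Pool.Agent.Lib.HBQ.App5
import Pool.Agent.Lib.HBQ.App6

set_option autoImplicit false

namespace HBQ

open Pool.Agent.Lib.MP0b15c0 Filter

/-- the parameters are eventually fine -/
lemma eventually_params (A δ : ℝ) (hA : 1 < A) (hδ : 0 < δ) : ∃ X0 : ℝ, ∀ x : ℝ, X0 ≤ x →
    1 ≤ x ∧ 8 ≤ Real.log x / A ∧ 1 + Real.log x ≤ x ^ δ ∧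
    (2 < A → 2 * (Real.log x) ^ 2 ≤ (Real.log x / A) ^ A) := by
  have hA0 : 0 < A := by linarith
  have e1 : ∀ᶠ x : ℝ in atTop, 1 ≤ x := eventually_ge_atTop 1
  have e2 : ∀ᶠ x : ℝ in atTop, 8 * A ≤ Real.log x := Real.tendsto_log_atTop.eventually_ge_atTop _
  have e3 : ∀ᶠ x : ℝ in atTop, 2 / δ * Real.log x ≤ x := by
    have := Real.isLittleO_log_id_atTop.def (by positivity : (0 : ℝ) < δ / 2)
    filter_upwards [this, e1] with y hy hy1
    have h2 : 0 ≤ Real.log y := Real.log_nonneg hy1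
    simp only [id, Real.norm_eq_abs] at hy
    rw [abs_of_nonneg h2, abs_of_nonneg (by linarith)] at hy
    calc 2 / δ * Real.log y ≤ 2 / δ * (δ / 2 * y) := by gcongr
      _ = y := by field_simp
  -- log x ≤ x^δ / 2 eventually: apply e3 like bound to x^(δ/2)
  have e4 : ∀ᶠ x : ℝ in atTop, Real.log x ≤ x ^ δ / 2 := by
    have h1 := (isLittleO_log_rpow_atTop hδ).def (by norm_num : (0 : ℝ) < 1 / 2)
    filter_upwards [h1, e1] with y hy hy1
    have h2 : 0 ≤ Real.log y := Real.log_nonneg hy1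
    simp only [Real.norm_eq_abs] at hy
    rw [abs_of_nonneg h2, abs_of_nonneg (by positivity)] at hy
    linarith
  have e5 : ∀ᶠ x : ℝ in atTop, 2 ≤ x ^ δ := (tendsto_rpow_atTop hδ).eventually_ge_atTop 2
  have e6 : 2 < A → ∀ᶠ x : ℝ in atTop, 2 * A ^ A ≤ (Real.log x) ^ (A - 2) := by
    intro hA2
    have h1 : Tendsto (fun x : ℝ => (Real.log x) ^ (A - 2)) atTop atTop :=
      (tendsto_rpow_atTop (by linarith : 0 < A - 2)).comp Real.tendsto_log_atTop
    exact h1.eventually_ge_atTop _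
  have e7 : ∀ᶠ x : ℝ in atTop, (2 < A → 2 * A ^ A ≤ (Real.log x) ^ (A - 2)) := by
    by_cases hA2 : 2 < A
    · filter_upwards [e6 hA2] with x hx _ using hx
    · exact Eventually.of_forall fun x h => absurd h hA2
  obtain ⟨X0, hX0⟩ := eventually_atTop.1 (e1.and (e2.and (e4.and (e5.and e7))))
  refine ⟨X0, fun x hx => ?_⟩
  obtain ⟨h1, h2, h3, h4, h5⟩ := hX0 x hx
  refine ⟨h1, ?_, by linarith, ?_⟩
  · rw [le_div_iff₀ hA0]; exact h2
  · intro hA2
    have h6 := h5 hA2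
    have hlog : 0 < Real.log x := by nlinarith
    rw [Real.div_rpow hlog.le hA0.le, le_div_iff₀ (by positivity)]
    have h7 : (Real.log x) ^ A = (Real.log x) ^ 2 * (Real.log x) ^ (A - 2) := by
      rw [← Real.rpow_two, ← Real.rpow_add hlog]
      congr 1; ring
    rw [h7]
    have h8 : 0 ≤ (Real.log x) ^ 2 := by positivity
    nlinarith

open Classical in
/-- the density theorem, for the range `b <= (log n)^A` -/
theorem density (hHB : ∀ ε : ℝ, 0 < ε → ∃ C : ℝ, 0 < C ∧ ∀ M N : ℕ, 1 ≤ M → 1 ≤ N →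
    LS M N (C * ((M : ℝ) * N) ^ ε * ((M : ℝ) + N)))
    (A ε : ℝ) (hA : 1 < A) (hε : 0 < ε) : ∃ C : ℝ, 0 < C ∧ ∀ x : ℕ, 1 ≤ x → ∀ E : Finset ℕ,
    (∀ n ∈ E, 1 < n ∧ n ≤ x ∧ ¬ n.Prime ∧ ∀ j d : ℕ, n - 1 = 2 ^ j * d → Odd d →
      ∀ b : ℕ, 2 ≤ b → (b : ℝ) ≤ (Real.log n) ^ A → Pass n j d b) →
    (E.card : ℝ) ≤ C * (x : ℝ) ^ (1 / A + ε) := by
  have hA0 : 0 < A := by linarith
  obtain ⟨δ, hδ⟩ : ∃ δ, δ = ε / 8 := ⟨_, rfl⟩
  have hδ0 : 0 < δ := by rw [hδ]; positivity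
  obtain ⟨X1, hX1⟩ := smooth_lower A δ hA hδ0
  obtain ⟨X2, hX2⟩ := triv_sqfree hHB A δ hA hδ0
  obtain ⟨X3, hX3⟩ := eventually_params A δ hA hδ0
  obtain ⟨Cp, hCp, hpair⟩ := pair_count A (2 * δ) hA (by positivity)
  obtain ⟨X0, hX0⟩ : ∃ X0, X0 = max (max X1 X2) (max X3 1) := ⟨_, rfl⟩
  have hX01 : 1 ≤ X0 := by rw [hX0]; exact le_trans (le_max_right _ _) (le_max_right _ _)
  refine ⟨X0 + 2 + Cp, by positivity, ?_⟩
  intro x hx E hE
  have hxR : (1 : ℝ) ≤ x := by exact_mod_cast hx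
  have hx0 : (0 : ℝ) < x := by linarith
  have h1A : 0 < 1 / A := by positivity
  have hone : (1 : ℝ) ≤ (x : ℝ) ^ (1 / A + ε) := Real.one_le_rpow hxR (by positivity)
  rcases lt_or_ge (x : ℝ) X0 with hsmall | hlarge
  · have h1 : (E.card : ℝ) ≤ x := by
      have : E.card ≤ (Finset.Icc 1 x).card := by
        apply Finset.card_le_card
        intro n hn
        rw [Finset.mem_Icc]
        exact ⟨(hE n hn).1.le, (hE n hn).2.1⟩
      rw [Nat.card_Icc, Nat.add_sub_cancel] at this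
      exact_mod_cast this
    calc (E.card : ℝ) ≤ X0 + 2 + Cp := by linarith
      _ ≤ (X0 + 2 + Cp) * (x : ℝ) ^ (1 / A + ε) :=
        le_mul_of_one_le_right (by linarith) hone
  have g1 : X1 ≤ x := le_trans (le_trans (le_max_left _ _) (le_max_left _ _)) (hX0 ▸ hlarge)
  have g2 : X2 ≤ x := le_trans (le_trans (le_max_right _ _) (le_max_left _ _)) (hX0 ▸ hlarge)
  have g3 : X3 ≤ x := le_trans (le_trans (le_max_left _ _) (le_max_right _ _)) (hX0 ▸ hlarge)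
  obtain ⟨-, hlog8, hlogδ, hA2big⟩ := hX3 x g3
  obtain ⟨N, hN⟩ : ∃ N, N = ⌊(Real.log (x : ℝ) / A) ^ A⌋₊ := ⟨_, rfl⟩
  have hsm := hX1 x g1 N hN
  have hsq := hX2 x g2 N hN
  have hNle : (N : ℝ) ≤ (Real.log x / A) ^ A := by
    rw [hN]; exact Nat.floor_le (by positivity)
  have hN2 : 2 ≤ N := by
    rw [hN]
    apply Nat.le_floor
    push_cast
    calc (2 : ℝ) ≤ (Real.log x / A) ^ (1 : ℝ) := by rw [Real.rpow_one]; linarith
      _ ≤ _ := Real.rpow_le_rpow_of_exponent_le (by linarith) hA.le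
  have hδx : 1 ≤ (x : ℝ) ^ δ := Real.one_le_rpow hxR hδ0.le
  have h2δ : (x : ℝ) ^ (2 * δ) = (x : ℝ) ^ δ * (x : ℝ) ^ δ := by
    rw [← Real.rpow_add hx0]; congr 1; ring
  -- the set of trivial moduli
  obtain ⟨T, hT⟩ : ∃ T : Finset ℕ, T = (DD N x).filter (fun m => A ≤ 2 ∨ Squarefree m) := ⟨_, rfl⟩
  have hTcount : ∀ Q : ℕ, 1 ≤ Q → Q ≤ x →
      ((T.filter (fun m => 1 ≤ m ∧ m ≤ Q)).card : ℝ) ≤ (x : ℝ) ^ (2 * δ) * (Q : ℝ) ^ (1 / A) := by
    intro Q hQ hQx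
    have hQx' : (Q : ℝ) ≤ x := by exact_mod_cast hQx
    rw [h2δ]
    by_cases hA2 : A ≤ 2
    · have h1 := triv_all hA hA2 hxR hδ0 hN2 hQ hQx' (fun R hR hRQ => hsq R hR
        (le_trans (by exact_mod_cast hRQ) hQx'))
      have h2 : T.filter (fun m => 1 ≤ m ∧ m ≤ Q) ⊆ DD N Q := by
        intro m hm
        rw [Finset.mem_filter, hT, Finset.mem_filter, mem_DD] at hm
        rw [mem_DD]
        exact ⟨hm.2, hm.1.1.2⟩
      have h3 : ((T.filter (fun m => 1 ≤ m ∧ m ≤ Q)).card : ℝ) ≤ (DD N Q).card := by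
        exact_mod_cast Finset.card_le_card h2
      refine le_trans h3 (le_trans h1 ?_)
      have h4 : (0 : ℝ) ≤ (Q : ℝ) ^ (1 / A) := by positivity
      gcongr
    · have h2 : T.filter (fun m => 1 ≤ m ∧ m ≤ Q) ⊆ (DD N Q).filter Squarefree := by
        intro m hm
        rw [Finset.mem_filter, hT, Finset.mem_filter, mem_DD] at hm
        rw [Finset.mem_filter, mem_DD]
        refine ⟨⟨hm.2, hm.1.1.2⟩, ?_⟩
        rcases hm.1.2 with h | h
        · exact absurd h hA2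
        · exact h
      have h3 : ((T.filter (fun m => 1 ≤ m ∧ m ≤ Q)).card : ℝ) ≤
          ((DD N Q).filter Squarefree).card := by
        exact_mod_cast Finset.card_le_card h2
      refine le_trans h3 (le_trans (hsq Q hQ hQx') ?_)
      have h4 : (0 : ℝ) ≤ (Q : ℝ) ^ (1 / A) := by positivity
      have h5 : (x : ℝ) ^ δ ≤ (x : ℝ) ^ δ * (x : ℝ) ^ δ := le_mul_of_one_le_left (by positivity) hδx
      gcongr
  -- properties of large elements
  have hprop : ∀ n ∈ E, (x : ℝ) ^ (1 / A) < n → ∃ j d : ℕ, n - 1 = 2 ^ j * d ∧ Odd d ∧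
      (∀ b : ℕ, 2 ≤ b → b ≤ N → Pass n j d b) ∧ (A ≤ 2 ∨ Squarefree n) := by
    intro n hn hbig
    obtain ⟨hn1, hnx, hnp, hnw⟩ := hE n hn
    obtain ⟨j, d, hd2, hjd⟩ : ∃ j d : ℕ, ¬ 2 ∣ d ∧ n - 1 = 2 ^ j * d :=
      Nat.exists_eq_pow_mul_and_not_dvd (by omega) 2 (by norm_num)
    have hd : Odd d := by rw [Nat.odd_iff]; omega
    have hn0 : (0 : ℝ) < n := by exact_mod_cast (by omega : 0 < n)
    have hnxR : (n : ℝ) ≤ x := by exact_mod_cast hnx
    have hlogn : Real.log x / A ≤ Real.log n := by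
      have h1 : Real.log ((x : ℝ) ^ (1 / A)) = Real.log x / A := by
        rw [Real.log_rpow hx0]; ring
      rw [← h1]
      exact Real.log_le_log (by positivity) hbig.le
    have hlognx : Real.log n ≤ Real.log x := Real.log_le_log hn0 hnxR
    have hpass : ∀ b : ℕ, 2 ≤ b → b ≤ N → Pass n j d b := by
      intro b hb hbN
      apply hnw j d hjd hd b hb
      calc (b : ℝ) ≤ N := by exact_mod_cast hbN
        _ ≤ (Real.log x / A) ^ A := hNle
        _ ≤ (Real.log n) ^ A := Real.rpow_le_rpow (by linarith) hlogn hA0.le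
    refine ⟨j, d, hjd, hd, hpass, ?_⟩
    by_cases hA2 : A ≤ 2
    · left; exact hA2
    · right
      apply sqfree_of_pass (by linarith) hjd hd _ hpass
      have h1 := hA2big (not_le.1 hA2)
      have h2 : (Real.log x / A) ^ A < (N : ℝ) + 1 := by
        rw [hN]; exact Nat.lt_floor_add_one _
      have h3 : (Real.log n) ^ 2 ≤ (Real.log x) ^ 2 := by
        apply pow_le_pow_left₀ _ hlognx
        linarith
      linarith
  -- the three pieces
  obtain ⟨E1, hE1⟩ : ∃ E1 : Finset ℕ, E1 = E.filter (fun n : ℕ => (n : ℝ) ≤ (x : ℝ) ^ (1 / A)) :=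
    ⟨_, rfl⟩
  obtain ⟨E3, hE3⟩ : ∃ E3 : Finset ℕ, E3 = E.filter (fun n : ℕ => ¬ (n : ℝ) ≤ (x : ℝ) ^ (1 / A) ∧
    ¬ Triv N n) := ⟨_, rfl⟩
  have hcover : E ⊆ E1 ∪ T ∪ E3 := by
    intro n hn
    have hn' := hE n hn
    rw [Finset.mem_union, Finset.mem_union]
    by_cases h1 : (n : ℝ) ≤ (x : ℝ) ^ (1 / A)
    · left; left
      rw [hE1, Finset.mem_filter]; exact ⟨hn, h1⟩
    · by_cases h2 : Triv N n
      · left; right
        obtain ⟨j, d, -, -, -, h3⟩ := hprop n hn (not_le.1 h1)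
        rw [hT, Finset.mem_filter, mem_DD]
        exact ⟨⟨⟨hn'.1.le, hn'.2.1⟩, h2.1, h2.2⟩, h3⟩
      · right
        rw [hE3, Finset.mem_filter]; exact ⟨hn, h1, h2⟩
  have c1 : (E1.card : ℝ) ≤ (x : ℝ) ^ (1 / A) := by
    have hsub : E1 ⊆ Finset.Icc 1 ⌊(x : ℝ) ^ (1 / A)⌋₊ := by
      intro n hn
      rw [hE1, Finset.mem_filter] at hn
      rw [Finset.mem_Icc]
      exact ⟨(hE n hn.1).1.le, Nat.le_floor hn.2⟩
    have h1 := Finset.card_le_card hsub
    rw [Nat.card_Icc, Nat.add_sub_cancel] at h1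
    calc (E1.card : ℝ) ≤ ((⌊(x : ℝ) ^ (1 / A)⌋₊ : ℕ) : ℝ) := by exact_mod_cast h1
      _ ≤ _ := Nat.floor_le (by positivity)
  have c2 : (T.card : ℝ) ≤ (x : ℝ) ^ (2 * δ) * (x : ℝ) ^ (1 / A) := by
    have h1 := hTcount x hx le_rfl
    have h2 : T.filter (fun m => 1 ≤ m ∧ m ≤ x) = T := by
      apply Finset.filter_true_of_mem
      intro m hm
      rw [hT, Finset.mem_filter, mem_DD] at hm
      exact hm.1.1
    rw [h2] at h1
    exact h1
  have c3 : (E3.card : ℝ) ≤ Cp * (x : ℝ) ^ (1 / A + 4 * (2 * δ)) := by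
    apply hpair x hx T hTcount
    intro n hn
    rw [hE3, Finset.mem_filter] at hn
    obtain ⟨hnE, hbig, hnT⟩ := hn
    obtain ⟨hn1, hnx, hnp, hnw⟩ := hE n hnE
    refine ⟨hnx, ?_⟩
    obtain ⟨j, d, hjd, hd, hpass, hsqn⟩ := hprop n hnE (not_le.1 hbig)
    rcases struct_gen hn1 hnp hjd hd hN2 hpass with h | ⟨p, m, hp, hnpm, hm2, hTm, hg⟩
    · exact absurd h hnT
    · refine ⟨p, m, hp, hnpm, hm2, ?_, ?_⟩
      · rw [hT, Finset.mem_filter, mem_DD]
        refine ⟨⟨⟨by omega, ?_⟩, hTm.1, hTm.2⟩, ?_⟩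
        · have : m ≤ n := by rw [hnpm]; exact Nat.le_mul_of_pos_left m hp.pos
          omega
        · rcases hsqn with h | h
          · left; exact h
          · right; exact Squarefree.squarefree_of_dvd ⟨p, by rw [hnpm]; ring⟩ h
      · have hp2 : p ≠ 2 := by
          intro h2
          have hodd : ¬ 2 ∣ n := fun h3 => share_fail hd Nat.prime_two h3 dvd_rfl (hpass 2 le_rfl hN2)
          apply hodd
          rw [hnpm, h2]
          exact dvd_mul_right 2 m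
        have hpn : p ∣ n := ⟨m, hnpm⟩
        have hple : p ≤ n := Nat.le_of_dvd (by omega) hpn
        have hp1 : 1 ≤ p - 1 := by have := hp.two_le; omega
        have h1 := hsm (p - 1) hp1 (by
          have : p - 1 ≤ x := by omega
          exact_mod_cast this)
        have h2 := index_bound hd hp hp2 hpn hpass
        have h3 : Nat.gcd (p - 1) (2 ^ padicValNat 2 (p - 1) * d) ≤ Nat.gcd (p - 1) (m - 1) :=
          Nat.le_of_dvd (Nat.gcd_pos_of_pos_left _ (by omega)) hg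
        have h4 := le_trans h2 h3
        refine le_trans h1 ?_
        have h5 : (x : ℝ) ^ δ ≤ (x : ℝ) ^ (2 * δ) :=
          Real.rpow_le_rpow_of_exponent_le hxR (by linarith)
        have h6 : (((Finset.Icc 1 (p - 1)).filter (fun k => Squarefree k ∧ k % 2 = 1 ∧
            ∀ r ∈ k.primeFactors, r ≤ N)).card : ℝ) ≤ (Nat.gcd (p - 1) (m - 1) : ℝ) := by
          exact_mod_cast h4
        gcongr
  have hcard : (E.card : ℝ) ≤ (E1.card : ℝ) + (T.card : ℝ) + (E3.card : ℝ) := by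
    have h1 := Finset.card_le_card hcover
    have h2 := Finset.card_union_le (E1 ∪ T) E3
    have h3 := Finset.card_union_le E1 T
    have h4 : E.card ≤ E1.card + T.card + E3.card := by omega
    exact_mod_cast h4
  have d1 : (x : ℝ) ^ (1 / A) ≤ (x : ℝ) ^ (1 / A + ε) :=
    Real.rpow_le_rpow_of_exponent_le hxR (by linarith)
  have d2 : (x : ℝ) ^ (2 * δ) * (x : ℝ) ^ (1 / A) ≤ (x : ℝ) ^ (1 / A + ε) := by
    rw [← Real.rpow_add hx0]
    exact Real.rpow_le_rpow_of_exponent_le hxR (by rw [hδ]; linarith)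
  have d3 : (x : ℝ) ^ (1 / A + 4 * (2 * δ)) = (x : ℝ) ^ (1 / A + ε) := by
    congr 1; rw [hδ]; ring
  rw [d3] at c3
  have hfin : 0 ≤ X0 * (x : ℝ) ^ (1 / A + ε) := by positivity
  calc (E.card : ℝ) ≤ (x : ℝ) ^ (1 / A + ε) + (x : ℝ) ^ (1 / A + ε) +
        Cp * (x : ℝ) ^ (1 / A + ε) := by linarith
    _ ≤ X0 * (x : ℝ) ^ (1 / A + ε) + ((x : ℝ) ^ (1 / A + ε) + (x : ℝ) ^ (1 / A + ε) +
        Cp * (x : ℝ) ^ (1 / A + ε)) := by linarith
    _ = _ := by ring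

open Classical in
/-- the density theorem, for the range `b <= c (log n)^A` -/
theorem density' (hHB : ∀ ε : ℝ, 0 < ε → ∃ C : ℝ, 0 < C ∧ ∀ M N : ℕ, 1 ≤ M → 1 ≤ N →
    LS M N (C * ((M : ℝ) * N) ^ ε * ((M : ℝ) + N)))
    (A c ε : ℝ) (hA : 1 < A) (hc : 0 < c) (hε : 0 < ε) : ∃ C : ℝ, 0 < C ∧ ∀ x : ℕ, 1 ≤ x →
    ∀ E : Finset ℕ,
    (∀ n ∈ E, 1 < n ∧ n ≤ x ∧ ¬ n.Prime ∧ ∀ j d : ℕ, n - 1 = 2 ^ j * d → Odd d →
      ∀ b : ℕ, 2 ≤ b → (b : ℝ) ≤ c * (Real.log n) ^ A → Pass n j d b) →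
    (E.card : ℝ) ≤ C * (x : ℝ) ^ (1 / A + ε) := by
  have hA0 : 0 < A := by linarith
  obtain ⟨t, ht⟩ : ∃ t, t = min (1 / A + ε / 2) ((1 + 1 / A) / 2) := ⟨_, rfl⟩
  have hA1 : 1 / A < 1 := by rw [div_lt_one hA0]; exact hA
  have h1A : 0 < 1 / A := by positivity
  have ht0 : 1 / A < t := by
    rw [ht]
    apply lt_min
    · linarith
    · linarith
  have ht1 : t < 1 := by
    have : t ≤ (1 + 1 / A) / 2 := by rw [ht]; exact min_le_right _ _
    linarith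
  have ht2 : t ≤ 1 / A + ε / 2 := by rw [ht]; exact min_le_left _ _
  have htpos : 0 < t := by linarith
  obtain ⟨A', hA'⟩ : ∃ A', A' = 1 / t := ⟨_, rfl⟩
  have hA'1 : 1 < A' := by rw [hA', lt_div_iff₀ htpos]; linarith
  have hA'A : A' < A := by
    rw [hA', div_lt_iff₀ htpos]
    rw [div_lt_iff₀ hA0] at ht0
    linarith
  have h1A' : 1 / A' = t := by rw [hA']; field_simp
  obtain ⟨C, hC, hmain⟩ := density hHB A' (ε / 2) hA'1 (by positivity)
  -- threshold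
  have e1 : ∀ᶠ x : ℝ in atTop, 1 / c ≤ (Real.log x) ^ (A - A') := by
    have h1 : Tendsto (fun x : ℝ => (Real.log x) ^ (A - A')) atTop atTop :=
      (tendsto_rpow_atTop (by linarith : 0 < A - A')).comp Real.tendsto_log_atTop
    exact h1.eventually_ge_atTop _
  obtain ⟨Y, hY⟩ := eventually_atTop.1 (e1.and (eventually_gt_atTop 1))
  obtain ⟨n0, hn0⟩ := exists_nat_ge Y
  refine ⟨n0 + C, by positivity, ?_⟩
  intro x hx E hE
  have hxR : (1 : ℝ) ≤ x := by exact_mod_cast hx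
  have hone : (1 : ℝ) ≤ (x : ℝ) ^ (1 / A + ε) := Real.one_le_rpow hxR (by positivity)
  have h1 := hmain x hx (E.filter (fun n => n0 ≤ n)) (by
    intro n hn
    rw [Finset.mem_filter] at hn
    obtain ⟨g1, g2, g3, g4⟩ := hE n hn.1
    refine ⟨g1, g2, g3, ?_⟩
    intro j d hjd hd b hb hbn
    apply g4 j d hjd hd b hb
    refine le_trans hbn ?_
    have hnR : Y ≤ (n : ℝ) := le_trans hn0 (by exact_mod_cast hn.2)
    obtain ⟨f1, f2⟩ := hY n hnR
    have hlog : 0 < Real.log (n : ℝ) := Real.log_pos f2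
    have e2 : (Real.log (n : ℝ)) ^ A = (Real.log (n : ℝ)) ^ A' * (Real.log (n : ℝ)) ^ (A - A') := by
      rw [← Real.rpow_add hlog]; congr 1; ring
    rw [e2]
    have h3 : 0 < (Real.log (n : ℝ)) ^ A' := Real.rpow_pos_of_pos hlog _
    rw [div_le_iff₀ hc] at f1
    nlinarith)
  have h2 : (E.card : ℝ) ≤ n0 + ((E.filter (fun n => n0 ≤ n)).card : ℝ) := by
    have h3 : E ⊆ Finset.range n0 ∪ E.filter (fun n => n0 ≤ n) := by
      intro n hn
      rw [Finset.mem_union, Finset.mem_range, Finset.mem_filter]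
      by_cases h : n < n0
      · left; exact h
      · right; exact ⟨hn, not_lt.1 h⟩
    have h4 := le_trans (Finset.card_le_card h3) (Finset.card_union_le _ _)
    rw [Finset.card_range] at h4
    exact_mod_cast h4
  have h3 : (x : ℝ) ^ (1 / A' + ε / 2) ≤ (x : ℝ) ^ (1 / A + ε) :=
    Real.rpow_le_rpow_of_exponent_le hxR (by rw [h1A']; linarith)
  calc (E.card : ℝ) ≤ n0 + C * (x : ℝ) ^ (1 / A' + ε / 2) := by linarith
    _ ≤ n0 * (x : ℝ) ^ (1 / A + ε) + C * (x : ℝ) ^ (1 / A + ε) := by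
      have h5 : (n0 : ℝ) ≤ n0 * (x : ℝ) ^ (1 / A + ε) := le_mul_of_one_le_right (Nat.cast_nonneg _) hone
      gcongr
    _ = _ := by ring

end HBQ
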