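import Pool.Agent.Lib.HBQ.Defs

set_option autoImplicit false

namespace HBQ

private theorem Cop_f_nonneg (t : ℝ) : 0 ≤ f t := (Real.exp_pos _).le

private theorem Cop_summable_f (T : ℝ) (hT : 0 < T) : Summable fun l : ℕ => f (l / T) := by
  have hr : Real.exp (-(Real.pi / T)) < 1 := by
    rw [Real.exp_lt_one_iff]
    have : 0 < Real.pi / T := div_pos Real.pi_pos hT
    linarith
  have hg : Summable fun l : ℕ => Real.exp Real.pi * Real.exp (-(Real.pi / T)) ^ l :=
    (summable_geometric_of_lt_one (Real.exp_pos _).le hr).mul_left _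
  refine Summable.of_nonneg_of_le (fun l => Cop_f_nonneg _) (fun l => ?_) hg
  rw [← Real.exp_nat_mul, ← Real.exp_add]
  unfold f
  refine Real.exp_le_exp.2 ?_
  have h1 : (l : ℝ) / T ≤ ((l : ℝ) / T) ^ 4 + 1 := by
    nlinarith [sq_nonneg (((l : ℝ) / T) ^ 2 - 1 / 2), sq_nonneg ((l : ℝ) / T - 1 / 2)]
  have h2 : (l : ℝ) * -(Real.pi / T) = -(Real.pi * (l / T)) := by ring
  rw [h2]
  have := mul_le_mul_of_nonneg_left h1 Real.pi_pos.le
  linarith

theorem summable_S4 (q : ℕ) (T : ℝ) (hT : 0 < T) :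
    Summable (fun l : ℕ => if Nat.Coprime l q then f (l / T) else 0) := by
  refine Summable.of_nonneg_of_le (fun l => ?_) (fun l => ?_) (Cop_summable_f T hT)
  · split_ifs
    · exact Cop_f_nonneg _
    · exact le_rfl
  · split_ifs
    · exact le_rfl
    · exact Cop_f_nonneg _

private theorem Cop_mob (l q : ℕ) (hl : l ≠ 0) (hq : q ≠ 0) :
    (if Nat.Coprime l q then (1 : ℝ) else 0) = ∑ d ∈ q.divisors, if d ∣ l then mu d else 0 := by
  have h1 : ∑ d ∈ (Nat.gcd l q).divisors, ArithmeticFunction.moebius d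
      = if Nat.gcd l q = 1 then 1 else 0 := by
    rw [← ArithmeticFunction.coe_mul_zeta_apply, ArithmeticFunction.moebius_mul_coe_zeta,
      ArithmeticFunction.one_apply]
  have h2 : (Nat.gcd l q).divisors = q.divisors.filter fun d => d ∣ l := by
    ext d
    simp only [Nat.mem_divisors, Finset.mem_filter, Nat.dvd_gcd_iff]
    constructor
    · rintro ⟨⟨a, b⟩, -⟩
      exact ⟨⟨b, hq⟩, a⟩
    · rintro ⟨⟨b, -⟩, a⟩
      exact ⟨⟨a, b⟩, (Nat.gcd_pos_of_pos_left _ (Nat.pos_of_ne_zero hl)).ne'⟩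
  rw [h2] at h1
  have h3 : (∑ d ∈ q.divisors.filter fun d => d ∣ l, mu d)
      = if Nat.gcd l q = 1 then 1 else 0 := by
    unfold mu
    rw [← Int.cast_sum, h1]
    split_ifs <;> simp
  rw [Finset.sum_filter] at h3
  rw [h3]

private theorem Cop_reindex (d : ℕ) (hd : 0 < d) (T : ℝ) :
    ∑' l : ℕ, (if d ∣ l + 1 then f (((l + 1 : ℕ) : ℝ) / T) else 0)
      = ∑' j : ℕ, f (((j : ℝ) + 1) / (T / d)) := by
  have hi : Function.Injective fun j : ℕ => d * (j + 1) - 1 := by
    intro j k h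
    simp only at h
    have h1 : 0 < d * (j + 1) := by positivity
    have h2 : 0 < d * (k + 1) := by positivity
    have h3 : d * (j + 1) = d * (k + 1) := by omega
    have := Nat.eq_of_mul_eq_mul_left hd h3
    omega
  have hs : Function.support (fun l : ℕ => if d ∣ l + 1 then f (((l + 1 : ℕ) : ℝ) / T) else 0)
      ⊆ Set.range fun j : ℕ => d * (j + 1) - 1 := by
    intro l hl
    rw [Function.mem_support] at hl
    by_cases h : d ∣ l + 1
    · obtain ⟨c, hc⟩ := h
      have hc0 : c ≠ 0 := by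
        rintro rfl; simp at hc
      refine ⟨c - 1, ?_⟩
      simp only
      rw [Nat.sub_add_cancel (Nat.pos_of_ne_zero hc0), ← hc]
      simp
    · simp [h] at hl
  rw [← hi.tsum_eq hs]
  refine tsum_congr fun j => ?_
  have h1 : d * (j + 1) - 1 + 1 = d * (j + 1) := by
    have : 0 < d * (j + 1) := by positivity
    omega
  simp only [h1]
  rw [if_pos (Dvd.intro _ rfl)]
  congr 1
  push_cast
  rw [div_div_eq_mul_div]
  ring

/-- PROOF. Moebius: `1[(l,q)=1] = sum_{d | q, d | l} mu(d)` for `l >= 1` (for `q > 1` the term `l = 0` is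
absent), `l = d j`, `f(d j / T) = f(j / (T/d))`, definition of `rho`. -/
theorem coprime_sum (q : ℕ) (hq : 1 < q) (T : ℝ) (hT : 0 < T) :
    S4 T q = ∑ d ∈ q.divisors, mu d * (I0 * (T / d) + rho (T / d)) := by
  unfold S4
  rw [(summable_S4 q T hT).tsum_eq_zero_add]
  have h0 : ¬ Nat.Coprime 0 q := by
    rw [Nat.coprime_zero_left]; omega
  rw [if_neg h0, zero_add]
  have hsum : ∀ d : ℕ, Summable fun l : ℕ =>
      if d ∣ l + 1 then f (((l + 1 : ℕ) : ℝ) / T) else 0 := by
    intro d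
    refine Summable.of_nonneg_of_le (fun l => ?_) (fun l => ?_)
      ((summable_nat_add_iff 1).2 (Cop_summable_f T hT))
    · split_ifs
      · exact Cop_f_nonneg _
      · exact le_rfl
    · split_ifs
      · exact le_rfl
      · exact Cop_f_nonneg _
  have h1 : ∀ l : ℕ, (if Nat.Coprime (l + 1) q then f (((l + 1 : ℕ) : ℝ) / T) else 0)
      = ∑ d ∈ q.divisors, mu d * (if d ∣ l + 1 then f (((l + 1 : ℕ) : ℝ) / T) else 0) := by
    intro l
    have h2 := Cop_mob (l + 1) q (by omega) (by omega)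
    have h3 : (if Nat.Coprime (l + 1) q then f (((l + 1 : ℕ) : ℝ) / T) else 0)
        = (if Nat.Coprime (l + 1) q then (1 : ℝ) else 0) * f (((l + 1 : ℕ) : ℝ) / T) := by
      split_ifs <;> simp
    rw [h3, h2, Finset.sum_mul]
    refine Finset.sum_congr rfl fun d _ => ?_
    split_ifs <;> simp
  rw [tsum_congr h1, Summable.tsum_finsetSum fun d _ => (hsum d).mul_left _]
  refine Finset.sum_congr rfl fun d hd => ?_
  have hd0 : 0 < d := Nat.pos_of_mem_divisors hd
  rw [tsum_mul_left, Cop_reindex d hd0 T]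
  unfold rho
  ring

end HBQ
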