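import Pool.Agent.Lib.HBQ.SqU
import Pool.Agent.Lib.HBQ.Cop

set_option autoImplicit false

namespace HBQ

private theorem can_mul (m a b : ℕ) (hb : a ≠ 0) (hb' : b ≠ 0) : J m (a * b) = J m a * J m b := by
  unfold J
  rw [jacobiSym.mul_right' _ hb hb']
  push_cast
  ring

private theorem can_sq (m g : ℕ) (hg : g ≠ 0) :
    J m g * J m g = if Nat.gcd g m = 1 then 1 else 0 := by
  unfold J
  split_ifs with h
  · have h1 : jacobiSym (m : ℤ) g ^ 2 = 1 :=
      jacobiSym.sq_one (a := (m : ℤ)) (b := g)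
        (by simpa [Int.gcd_natCast_natCast, Nat.gcd_comm] using h)
    have h2 : ((jacobiSym (m : ℤ) g : ℤ) : ℝ) * ((jacobiSym (m : ℤ) g : ℤ) : ℝ) =
      ((jacobiSym (m : ℤ) g ^ 2 : ℤ) : ℝ) := by
      push_cast; ring
    rw [h2, h1]; simp
  · have h3 : jacobiSym (m : ℤ) g = 0 := by
      rw [jacobiSym.eq_zero_iff]
      refine ⟨hg, ?_⟩
      rw [Int.gcd_natCast_natCast, Nat.gcd_comm]
      exact h
    rw [h3]; simp

private theorem can_S4 (T : ℝ) (q q' : ℕ) (h : ∀ l : ℕ, Nat.Coprime l q ↔ Nat.Coprime l q') :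
    S4 T q = S4 T q' := by
  unfold S4
  refine tsum_congr fun l => ?_
  by_cases hl : Nat.Coprime l q
  · rw [if_pos hl, if_pos ((h l).1 hl)]
  · rw [if_neg hl, if_neg fun h' => hl ((h l).2 h')]

private theorem can_sum_mu (n : ℕ) : ∑ c ∈ n.divisors, mu c = if n = 1 then 1 else 0 := by
  have h1 : ∑ d ∈ n.divisors, ArithmeticFunction.moebius d = if n = 1 then 1 else 0 := by
    rw [← ArithmeticFunction.coe_mul_zeta_apply, ArithmeticFunction.moebius_mul_coe_zeta,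
      ArithmeticFunction.one_apply]
  unfold mu
  rw [← Int.cast_sum, h1]
  split_ifs <;> simp

private theorem can_divisors_mul (m n : ℕ) (h : Nat.Coprime m n) (F : ℕ → ℝ) :
    ∑ d ∈ (m * n).divisors, F d = ∑ d1 ∈ m.divisors, ∑ d2 ∈ n.divisors, F (d1 * d2) := by
  rw [Nat.divisors_mul, Finset.mul_def, Finset.sum_image h.mul_injOn_divisors,
    Finset.sum_product]

private theorem can_mu_mul (m n : ℕ) (h : Nat.Coprime m n) :
    ∑ d ∈ (m * n).divisors, mu d / d =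
      (∑ d ∈ m.divisors, mu d / d) * ∑ d ∈ n.divisors, mu d / d := by
  rw [can_divisors_mul m n h, Finset.sum_mul_sum]
  refine Finset.sum_congr rfl fun a ha => Finset.sum_congr rfl fun b hb => ?_
  have hab : Nat.Coprime a b :=
    Nat.Coprime.coprime_dvd_left (Nat.dvd_of_mem_divisors ha)
      (Nat.Coprime.coprime_dvd_right (Nat.dvd_of_mem_divisors hb) h)
  unfold mu
  rw [ArithmeticFunction.isMultiplicative_moebius.map_mul_of_coprime hab]
  push_cast
  rw [div_mul_div_comm]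

/-- EXACT CANCELLATION of the main terms. PROOF. By `sq_U` and `coprime_sum` (with `q = r`) the left side has
main term `J k r * (M/sqrt r) * (phi(g2)/g2) * sum_{c1 | (g,k)} (mu(c1)/c1) * I0 * c1 sqrt(r/(k M)) * phi(r)/r`,
`g2 = g/(g,k)`; the sum of `mu(c1)` over `c1 | (g,k)` is `1` if `(g,k)=1` and `0` otherwise, so it equals
`1[(g,k)=1] * J k r * I0 * sqrt(M/k) * phi(g)phi(r)/(g r)`. The direct term is
`J k (n1 n2) * S4 (sqrt(M/k)) (n1 n2)`, `S4 T (n1 n2) = S4 T (lcm n1 n2)`, `lcm = g r`, main term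
`J k (n1 n2) * I0 * sqrt(M/k) * sum_{d | g r} mu(d)/d`, and `J k (n1 n2) = 1[(g,k)=1] J k r`. Checked numerically. -/
theorem cancel (M : ℝ) (hM : 0 < M) (n1 n2 k : ℕ) (h1 : Squarefree n1) (h2 : Squarefree n2)
    (o1 : n1 % 2 = 1) (h4 : n1 % 4 = n2 % 4) (hne : n1 ≠ n2) (hk : Squarefree k) :
    ∑' j : ℕ, U M n1 n2 (k * j ^ 2) - J k (n1 * n2) * S4 (Real.sqrt (M / k)) (n1 * n2) =
      remdual M k n1 n2 - remdir M k n1 n2 := by
  obtain ⟨hr1, hr2, hr3, hgr, hprod, hlcm⟩ := rr_props n1 n2 h1 h2 o1 h4 hne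
  rw [sq_U M hM n1 n2 k h1 h2 o1 h4 hne hk]
  unfold remdual remdir
  have hn1 : n1 ≠ 0 := h1.ne_zero
  have hg0 : Nat.gcd n1 n2 ≠ 0 := Nat.gcd_ne_zero_left hn1
  have hk0 : 0 < k := Nat.pos_of_ne_zero hk.ne_zero
  generalize rr n1 n2 = r at *
  generalize Nat.gcd n1 n2 = g at *
  have hkR : (0 : ℝ) < k := by exact_mod_cast hk0
  have hrR : (0 : ℝ) < r := by exact_mod_cast (by omega : 0 < r)
  -- the direct side
  have hS : S4 (Real.sqrt (M / k)) (n1 * n2) = S4 (Real.sqrt (M / k)) (g * r) := by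
    refine can_S4 _ _ _ fun l => ?_
    rw [hprod, Nat.coprime_mul_iff_right, Nat.coprime_mul_iff_right,
      Nat.coprime_pow_right_iff (by norm_num)]
  have hgr1 : 1 < g * r := lt_of_lt_of_le hr1 (Nat.le_mul_of_pos_left r (Nat.pos_of_ne_zero hg0))
  have hT : 0 < Real.sqrt (M / k) := Real.sqrt_pos.2 (div_pos hM hkR)
  have hdir : J k (n1 * n2) * S4 (Real.sqrt (M / k)) (n1 * n2) =
      J k (n1 * n2) * (I0 * Real.sqrt (M / k) * ∑ d ∈ (g * r).divisors, mu d / d) +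
      J k (n1 * n2) * ∑ d ∈ (Nat.lcm n1 n2).divisors, mu d * rho (Real.sqrt (M / k) / d) := by
    rw [hS, coprime_sum (g * r) hgr1 _ hT, hlcm, ← mul_add]
    congr 1
    rw [Finset.mul_sum, ← Finset.sum_add_distrib]
    refine Finset.sum_congr rfl fun d _ => ?_
    ring
  -- the dual side
  have hdual : ∀ c1 ∈ (Nat.gcd g k).divisors, ∀ c2 : ℕ,
      mu c1 / c1 * (mu c2 / c2) * S4 (c1 * Real.sqrt (r / (k * M))) r =
      I0 * Real.sqrt (r / (k * M)) * (mu c1 * (mu c2 / c2) * ∑ d ∈ r.divisors, mu d / d) +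
      ∑ d ∈ r.divisors, mu c1 / c1 * (mu c2 / c2) * mu d *
        rho (c1 * Real.sqrt (r / (k * M)) / d) := by
    intro c1 hc1 c2
    have hc1p : (0 : ℝ) < c1 := by exact_mod_cast Nat.pos_of_mem_divisors hc1
    have hT' : 0 < c1 * Real.sqrt (r / (k * M)) :=
      mul_pos hc1p (Real.sqrt_pos.2 (div_pos hrR (mul_pos hkR hM)))
    rw [coprime_sum r hr1 _ hT', Finset.mul_sum, Finset.mul_sum, Finset.mul_sum,
      ← Finset.sum_add_distrib]
    refine Finset.sum_congr rfl fun d _ => ?_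
    field_simp
  have hdual' : J k r * (M / Real.sqrt r) * ∑ c1 ∈ (Nat.gcd g k).divisors,
      ∑ c2 ∈ (g / Nat.gcd g k).divisors,
        mu c1 / c1 * (mu c2 / c2) * S4 (c1 * Real.sqrt (r / (k * M))) r =
      J k r * (I0 * Real.sqrt (M / k) * ((∑ c ∈ (Nat.gcd g k).divisors, mu c) *
        ((∑ c ∈ (g / Nat.gcd g k).divisors, mu c / c) * ∑ d ∈ r.divisors, mu d / d))) +
      J k r * (M / Real.sqrt r) * ∑ c1 ∈ (Nat.gcd g k).divisors,
      ∑ c2 ∈ (g / Nat.gcd g k).divisors, ∑ d ∈ r.divisors, mu c1 / c1 * (mu c2 / c2) * mu d *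
        rho (c1 * Real.sqrt (r / (k * M)) / d) := by
    have e1 : ∑ c1 ∈ (Nat.gcd g k).divisors, ∑ c2 ∈ (g / Nat.gcd g k).divisors,
        mu c1 / c1 * (mu c2 / c2) * S4 (c1 * Real.sqrt (r / (k * M))) r =
        I0 * Real.sqrt (r / (k * M)) * ((∑ c ∈ (Nat.gcd g k).divisors, mu c) *
        ((∑ c ∈ (g / Nat.gcd g k).divisors, mu c / c) * ∑ d ∈ r.divisors, mu d / d)) +
        ∑ c1 ∈ (Nat.gcd g k).divisors, ∑ c2 ∈ (g / Nat.gcd g k).divisors,
        ∑ d ∈ r.divisors, mu c1 / c1 * (mu c2 / c2) * mu d *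
          rho (c1 * Real.sqrt (r / (k * M)) / d) := by
      rw [Finset.sum_mul, Finset.mul_sum, ← Finset.sum_add_distrib]
      refine Finset.sum_congr rfl fun c1 hc1 => ?_
      rw [Finset.sum_mul, Finset.mul_sum, Finset.mul_sum, ← Finset.sum_add_distrib]
      refine Finset.sum_congr rfl fun c2 _ => ?_
      rw [hdual c1 hc1 c2]
      ring
    have e2 : M / Real.sqrt r * Real.sqrt (r / (k * M)) = Real.sqrt (M / k) := by
      rw [Real.sqrt_div hrR.le, Real.sqrt_div hM.le, Real.sqrt_mul hkR.le]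
      have q1 : Real.sqrt M ≠ 0 := (Real.sqrt_pos.2 hM).ne'
      have q2 : Real.sqrt r ≠ 0 := (Real.sqrt_pos.2 hrR).ne'
      have q3 : Real.sqrt k ≠ 0 := (Real.sqrt_pos.2 hkR).ne'
      have q4 : Real.sqrt M * Real.sqrt M = M := Real.mul_self_sqrt hM.le
      field_simp
      rw [Real.sq_sqrt hM.le]
    rw [e1, mul_add, ← e2]
    ring
  -- the main terms
  have hmain : J k r * (I0 * Real.sqrt (M / k) * ((∑ c ∈ (Nat.gcd g k).divisors, mu c) *
        ((∑ c ∈ (g / Nat.gcd g k).divisors, mu c / c) * ∑ d ∈ r.divisors, mu d / d))) =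
      J k (n1 * n2) * (I0 * Real.sqrt (M / k) * ∑ d ∈ (g * r).divisors, mu d / d) := by
    have hJ : J k (n1 * n2) = (if Nat.gcd g k = 1 then 1 else 0) * J k r := by
      rw [hprod, pow_two, can_mul k (g * g) r (mul_ne_zero hg0 hg0) (by omega),
        can_mul k g g hg0 hg0, can_sq k g hg0]
    rw [hJ, can_sum_mu, can_mu_mul g r hgr]
    by_cases he : Nat.gcd g k = 1
    · rw [if_pos he, he, Nat.div_one]
      ring
    · rw [if_neg he]
      ring
  rw [hdual', hdir, hmain]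
  ring

end HBQ
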