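import Pool.Agent.Lib.HBQ.Cop

set_option autoImplicit false

namespace HBQ

private theorem Exp_W_nonneg (x : ℝ) : 0 ≤ W x := (Real.exp_pos _).le

private theorem Exp_summable_W (M : ℝ) (hM : 0 < M) : Summable fun m : ℕ => W ((m : ℝ) / M) := by
  have hr : Real.exp (-(Real.pi / M)) < 1 := by
    rw [Real.exp_lt_one_iff]
    have : 0 < Real.pi / M := div_pos Real.pi_pos hM
    linarith
  have hg : Summable fun l : ℕ => Real.exp Real.pi * Real.exp (-(Real.pi / M)) ^ l :=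
    (summable_geometric_of_lt_one (Real.exp_pos _).le hr).mul_left _
  refine Summable.of_nonneg_of_le (fun l => Exp_W_nonneg _) (fun l => ?_) hg
  rw [← Real.exp_nat_mul, ← Real.exp_add]
  unfold W
  refine Real.exp_le_exp.2 ?_
  have h1 : (l : ℝ) / M ≤ ((l : ℝ) / M) ^ 2 + 1 := by
    nlinarith [sq_nonneg ((l : ℝ) / M - 1 / 2)]
  have h2 : (l : ℝ) * -(Real.pi / M) = -(Real.pi * (l / M)) := by ring
  rw [h2]
  have := mul_le_mul_of_nonneg_left h1 Real.pi_pos.le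
  linarith

private theorem Exp_J_mul (m n1 n2 : ℕ) (h1 : n1 ≠ 0) (h2 : n2 ≠ 0) :
    J m (n1 * n2) = J m n1 * J m n2 := by
  unfold J
  rw [jacobiSym.mul_right' _ h1 h2]
  push_cast; ring

private theorem Exp_J_abs (m n : ℕ) : |J m n| ≤ 1 := by
  unfold J
  rcases jacobiSym.trichotomy (m : ℤ) n with h | h | h <;> rw [h] <;> simp

private theorem Exp_J_sq (l n : ℕ) :
    J l n ^ 2 = if Nat.Coprime l n ∨ n = 0 then 1 else 0 := by
  unfold J
  rcases eq_or_ne n 0 with hn | hn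
  · subst hn
    simp [jacobiSym.zero_right]
  · by_cases h : Nat.Coprime l n
    · have h1 : (l : ℤ).gcd n = 1 := by simpa [Int.gcd_natCast_natCast] using h
      have h2 := jacobiSym.sq_one h1
      rw [if_pos (Or.inl h)]
      exact_mod_cast h2
    · have h1 : (l : ℤ).gcd n ≠ 1 := by simpa [Int.gcd_natCast_natCast] using h
      have h2 : jacobiSym (l : ℤ) n = 0 := jacobiSym.eq_zero_iff.2 ⟨hn, h1⟩
      rw [if_neg (by tauto), h2]
      simp

private theorem Exp_J_kl (k l n : ℕ) (hn : n ≠ 0) :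
    J (k * l ^ 2) n = if Nat.Coprime l n then J k n else 0 := by
  have h : J (k * l ^ 2) n = J k n * J l n ^ 2 := by
    unfold J
    push_cast
    rw [jacobiSym.mul_left, jacobiSym.pow_left]
    push_cast; ring
  rw [h, Exp_J_sq]
  by_cases hc : Nat.Coprime l n
  · rw [if_pos (Or.inl hc), if_pos hc, mul_one]
  · rw [if_neg (not_or.2 ⟨hc, hn⟩), if_neg hc, mul_zero]

private theorem Exp_square (a : ℕ → ℝ) (L : ℕ) (u : ℕ → ℝ) :
    ∑ n1 ∈ Finset.Icc 1 L, ∑ n2 ∈ Finset.Icc 1 L, a n1 * a n2 * (u n1 * u n2)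
      = (∑ n ∈ Finset.Icc 1 L, a n * u n) ^ 2 := by
  rw [sq, Finset.sum_mul_sum]
  refine Finset.sum_congr rfl fun x _ => Finset.sum_congr rfl fun y _ => ?_
  ring

private theorem Exp_summable_WJ (M : ℝ) (hM : 0 < M) (n : ℕ) :
    Summable fun m : ℕ => W ((m : ℝ) / M) * J m n := by
  refine Summable.of_norm_bounded (Exp_summable_W M hM) fun m => ?_
  rw [Real.norm_eq_abs, abs_mul, abs_of_nonneg (Exp_W_nonneg _)]
  exact mul_le_of_le_one_right (Exp_W_nonneg _) (Exp_J_abs _ _)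

/-- `W (m / M) A(m)^2` -/
private noncomputable def ExpG (a : ℕ → ℝ) (L Mn : ℕ) (m : ℕ) : ℝ :=
  W ((m : ℝ) / Mn) * A a L m ^ 2

private theorem ExpG_nonneg (a : ℕ → ℝ) (L Mn m : ℕ) : 0 ≤ ExpG a L Mn m :=
  mul_nonneg (Exp_W_nonneg _) (sq_nonneg _)

private theorem ExpG_eq (a : ℕ → ℝ) (L Mn m : ℕ) : ExpG a L Mn m
    = ∑ n1 ∈ Finset.Icc 1 L, ∑ n2 ∈ Finset.Icc 1 L,
      a n1 * a n2 * (W ((m : ℝ) / Mn) * J m (n1 * n2)) := by
  unfold ExpG A
  rw [← Exp_square, Finset.mul_sum]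
  refine Finset.sum_congr rfl fun x hx => ?_
  rw [Finset.mul_sum]
  refine Finset.sum_congr rfl fun y hy => ?_
  rw [Finset.mem_Icc] at hx hy
  rw [Exp_J_mul m x y (by omega) (by omega)]
  ring

private theorem ExpG_hasSum (a : ℕ → ℝ) (L Mn : ℕ) (hM : 1 ≤ Mn) :
    HasSum (ExpG a L Mn) (∑ n1 ∈ Finset.Icc 1 L, ∑ n2 ∈ Finset.Icc 1 L,
      a n1 * a n2 * ∑' m : ℕ, W ((m : ℝ) / Mn) * J m (n1 * n2)) := by
  have e : ExpG a L Mn = fun m : ℕ => ∑ n1 ∈ Finset.Icc 1 L, ∑ n2 ∈ Finset.Icc 1 L,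
      a n1 * a n2 * (W ((m : ℝ) / Mn) * J m (n1 * n2)) := by
    ext m; exact ExpG_eq a L Mn m
  rw [e]
  have hM' : (0 : ℝ) < Mn := by exact_mod_cast hM
  exact hasSum_sum fun n1 _ => hasSum_sum fun n2 _ =>
    (Exp_summable_WJ Mn hM' (n1 * n2)).hasSum.mul_left _

/-- the sum over `l` for fixed `k` -/
private theorem Exp_inner (N i k Mn : ℕ) (a : ℕ → ℝ) (hN : 1 ≤ N) (hM : 1 ≤ Mn) (hk : 1 ≤ k)
    (ha : Good N i a) :
    HasSum (fun l : ℕ => if 1 ≤ l then ExpG a (2 * N) Mn (k * l ^ 2) else 0)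
      (∑ n1 ∈ Finset.Icc 1 (2 * N), ∑ n2 ∈ Finset.Icc 1 (2 * N),
          a n1 * a n2 * (J k (n1 * n2) * S4 (Real.sqrt ((Mn : ℝ) / k)) (n1 * n2))) := by
  have hM' : (0 : ℝ) < Mn := by exact_mod_cast hM
  have hk' : (0 : ℝ) < k := by exact_mod_cast hk
  set T := Real.sqrt ((Mn : ℝ) / k) with hT
  have hT0 : 0 < T := Real.sqrt_pos.2 (div_pos hM' hk')
  have hTsq : T ^ 2 = (Mn : ℝ) / k := Real.sq_sqrt (div_pos hM' hk').le
  have e : (fun l : ℕ => if 1 ≤ l then ExpG a (2 * N) Mn (k * l ^ 2) else 0)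
      = fun l : ℕ => ∑ n1 ∈ Finset.Icc 1 (2 * N), ∑ n2 ∈ Finset.Icc 1 (2 * N),
          a n1 * a n2 * (J k (n1 * n2) * if Nat.Coprime l (n1 * n2) then f (l / T) else 0) := by
    ext l
    rcases Nat.eq_zero_or_pos l with hl | hl
    · subst hl
      rw [if_neg (by omega)]
      symm
      refine Finset.sum_eq_zero fun x hx => Finset.sum_eq_zero fun y hy => ?_
      by_cases hx0 : a x = 0
      · rw [hx0]; ring
      · have hx1 := (ha.2 x hx0).1
        rw [Finset.mem_Icc] at hx hy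
        have : ¬ Nat.Coprime 0 (x * y) := by
          rw [Nat.coprime_zero_left]
          intro h
          have := Nat.eq_one_of_mul_eq_one_right h
          omega
        rw [if_neg this]; ring
    · rw [if_pos (show 1 ≤ l from hl), ExpG_eq]
      refine Finset.sum_congr rfl fun x hx => Finset.sum_congr rfl fun y hy => ?_
      rw [Finset.mem_Icc] at hx hy
      have hxy : x * y ≠ 0 := Nat.mul_ne_zero (by omega) (by omega)
      rw [Exp_J_kl k l (x * y) hxy]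
      have hW : W (((k * l ^ 2 : ℕ) : ℝ) / Mn) = f (l / T) := by
        unfold W f
        congr 1
        have h4 : ((l : ℝ) / T) ^ 4 = (((k * l ^ 2 : ℕ) : ℝ) / Mn) ^ 2 := by
          have : ((l : ℝ) / T) ^ 4 = ((l : ℝ) ^ 2 / T ^ 2) ^ 2 := by
            rw [div_pow, div_pow, ← pow_mul, ← pow_mul]
          rw [this, hTsq]
          push_cast
          congr 1
          field_simp
        rw [h4]
      rw [hW]
      split_ifs <;> ring
  rw [e]
  refine hasSum_sum fun n1 _ => hasSum_sum fun n2 _ => ?_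
  exact (((summable_S4 (n1 * n2) T hT0).hasSum).mul_left _).mul_left _

private theorem Exp_unique {k k' l l' : ℕ} (hk : Squarefree k) (hk' : Squarefree k')
    (hl : 1 ≤ l) (hl' : 1 ≤ l') (h : k * l ^ 2 = k' * l' ^ 2) : k = k' ∧ l = l' := by
  have hg : 0 < Nat.gcd l l' := Nat.gcd_pos_of_pos_left _ hl
  obtain ⟨g, u, v, hg0, huv, hu, hv⟩ := Nat.exists_coprime' (m := l) (n := l') hg
  subst hu; subst hv
  have h1 : k * u ^ 2 = k' * v ^ 2 := by
    have : (k * u ^ 2) * g ^ 2 = (k' * v ^ 2) * g ^ 2 := by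
      calc (k * u ^ 2) * g ^ 2 = k * (u * g) ^ 2 := by ring
        _ = k' * (v * g) ^ 2 := h
        _ = (k' * v ^ 2) * g ^ 2 := by ring
    exact Nat.eq_of_mul_eq_mul_right (by positivity) this
  have hv1 : v = 1 := by
    have h2 : v ^ 2 ∣ k := by
      have : v ^ 2 ∣ k * u ^ 2 := by rw [h1]; exact Dvd.intro_left _ rfl
      exact (Nat.Coprime.pow 2 2 huv.symm).dvd_of_dvd_mul_right this
    exact Nat.isUnit_iff.1 (hk v (by rwa [← sq]))
  have hu1 : u = 1 := by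
    have h2 : u ^ 2 ∣ k' := by
      have : u ^ 2 ∣ k' * v ^ 2 := by rw [← h1]; exact Dvd.intro_left _ rfl
      exact (Nat.Coprime.pow 2 2 huv).dvd_of_dvd_mul_right this
    exact Nat.isUnit_iff.1 (hk' u (by rwa [← sq]))
  subst hv1; subst hu1
  simp only [one_pow, mul_one] at h1
  exact ⟨h1, rfl⟩

/-- PROOF. Both sides come from `sum_{m >= 1} W(m/M) A(m)^2`, `A(m) = A a (2N) m` (note `n > N >= 1` on the
support, so `J 0 n = 0` and `m = 0` does not matter; everything is summable by Gaussian decay). Expanding the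
square gives the right side. The `m = k l^2` (`k` squarefree `<= K1`, `l >= 1`) and the odd squarefree
`m in (K1, Mn]` are distinct positive integers, and `A(k l^2) = sum_{(n,l)=1} a_n J k n`,
`W(k l^2/M) = f(l / sqrt(M/k))`, so `sum_{l>=1} W(k l^2/M) A(k l^2)^2 = sum_{n1,n2} a a J k (n1 n2) S4 (sqrt(M/k)) (n1 n2)`. -/
theorem expand_ineq (N i K1 Mn : ℕ) (a : ℕ → ℝ) (hN : 1 ≤ N) (hM : 1 ≤ Mn) (ha : Good N i a) :
    ∑ k ∈ (Finset.Ioc K1 Mn).filter (fun k => Squarefree k ∧ k % 2 = 1),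
        W ((k : ℝ) / Mn) * A a (2 * N) k ^ 2 +
      ∑ k ∈ (Finset.Icc 1 K1).filter Squarefree,
        ∑ n1 ∈ Finset.Icc 1 (2 * N), ∑ n2 ∈ Finset.Icc 1 (2 * N),
          a n1 * a n2 * (J k (n1 * n2) * S4 (Real.sqrt ((Mn : ℝ) / k)) (n1 * n2)) ≤
    ∑ n1 ∈ Finset.Icc 1 (2 * N), ∑ n2 ∈ Finset.Icc 1 (2 * N),
      a n1 * a n2 * ∑' m : ℕ, W ((m : ℝ) / Mn) * J m (n1 * n2) := by
  have hG := ExpG_hasSum a (2 * N) Mn hM
  set S1 := (Finset.Ioc K1 Mn).filter (fun k => Squarefree k ∧ k % 2 = 1) with hS1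
  set S2 := (Finset.Icc 1 K1).filter Squarefree with hS2
  have hlim : Filter.Tendsto (fun L : ℕ => ∑ k ∈ S1, ExpG a (2 * N) Mn k +
      ∑ k ∈ S2, ∑ l ∈ Finset.range L, (if 1 ≤ l then ExpG a (2 * N) Mn (k * l ^ 2) else 0))
      Filter.atTop (nhds (∑ k ∈ S1, ExpG a (2 * N) Mn k +
      ∑ k ∈ S2, ∑ n1 ∈ Finset.Icc 1 (2 * N), ∑ n2 ∈ Finset.Icc 1 (2 * N),
          a n1 * a n2 * (J k (n1 * n2) * S4 (Real.sqrt ((Mn : ℝ) / k)) (n1 * n2)))) := by
    refine tendsto_const_nhds.add (tendsto_finsetSum _ fun k hk => ?_)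
    have hk1 : 1 ≤ k := (Finset.mem_Icc.1 (Finset.mem_filter.1 hk).1).1
    exact (Exp_inner N i k Mn a hN hM hk1 ha).tendsto_sum_nat
  refine le_of_tendsto' hlim fun L => ?_
  -- the finite inequality
  rw [← hG.tsum_eq]
  let P := S2 ×ˢ (Finset.range L).filter fun l => 1 ≤ l
  let φ : ℕ × ℕ → ℕ := fun q => q.1 * q.2 ^ 2
  have h1 : ∑ k ∈ S2, ∑ l ∈ Finset.range L,
      (if 1 ≤ l then ExpG a (2 * N) Mn (k * l ^ 2) else 0)
      = ∑ m ∈ P.image φ, ExpG a (2 * N) Mn m := by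
    rw [Finset.sum_image, Finset.sum_product]
    · refine Finset.sum_congr rfl fun k _ => ?_
      rw [Finset.sum_filter]
    · intro p hp q hq h
      simp only [P, Finset.coe_product, Set.mem_prod, Finset.mem_coe, Finset.mem_filter, S2] at hp hq
      have := Exp_unique hp.1.2 hq.1.2 hp.2.2 hq.2.2 h
      exact Prod.ext this.1 this.2
  have hdisj : Disjoint S1 (P.image φ) := by
    rw [Finset.disjoint_left]
    intro m hm hm'
    rw [Finset.mem_image] at hm'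
    obtain ⟨q, hq, rfl⟩ := hm'
    simp only [P, Finset.mem_product, Finset.mem_filter, S2, Finset.mem_Icc] at hq
    simp only [S1, Finset.mem_filter, Finset.mem_Ioc, φ] at hm
    have hu : IsUnit q.2 := hm.2.1 q.2 (by rw [← sq]; exact Dvd.intro_left _ rfl)
    rw [Nat.isUnit_iff] at hu
    rw [hu] at hm
    simp only [one_pow, mul_one] at hm
    omega
  rw [h1, ← Finset.sum_union hdisj]
  exact hG.summable.sum_le_tsum _ fun m _ => ExpG_nonneg _ _ _ _

/-- PROOF. `J m (n^2)` is `0` or `1`, `0` for `m = 0`; `sum_{m>=1} W(m/M) <= M int_0^oo W = M/2`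
(antitone comparison `AntitoneOn.sum_le_integral`, `integral_gaussian_Ioi`). -/
theorem V_diag (M : ℝ) (hM : 0 < M) (n : ℕ) (hn : 1 < n) :
    ∑' m : ℕ, W ((m : ℝ) / M) * J m (n * n) ≤ M := by
  have hs := Exp_summable_WJ M hM (n * n)
  rw [hs.tsum_eq_zero_add]
  have hJ : ∀ m : ℕ, J m (n * n) = J m n ^ 2 := by
    intro m
    rw [Exp_J_mul m n n (by omega) (by omega), sq]
  have h0 : J 0 (n * n) = 0 := by
    rw [hJ]
    unfold J
    rw [Nat.cast_zero, jacobiSym.zero_left hn]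
    simp
  rw [h0, mul_zero, zero_add]
  have hsW := (summable_nat_add_iff 1).2 (Exp_summable_W M hM)
  have h1 : ∑' m : ℕ, W (((m + 1 : ℕ) : ℝ) / M) * J (m + 1) (n * n)
      ≤ ∑' m : ℕ, W (((m + 1 : ℕ) : ℝ) / M) := by
    refine Summable.tsum_le_tsum (fun m => ?_) ((summable_nat_add_iff 1).2 hs) hsW
    refine mul_le_of_le_one_right (Exp_W_nonneg _) ?_
    rw [hJ, Exp_J_sq]
    split_ifs <;> norm_num
  refine h1.trans ?_
  refine hsW.tsum_le_of_sum_range_le fun m => ?_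
  have hanti : AntitoneOn (fun x : ℝ => W (x / M)) (Set.Icc (0 : ℝ) (0 + m)) := by
    intro x hx y hy hxy
    unfold W
    refine Real.exp_le_exp.2 (neg_le_neg (mul_le_mul_of_nonneg_left ?_ Real.pi_pos.le))
    have hx0 : 0 ≤ x / M := div_nonneg hx.1 hM.le
    exact pow_le_pow_left₀ hx0 (div_le_div_of_nonneg_right hxy hM.le) 2
  have h2 := hanti.sum_le_integral
  simp only [zero_add] at h2
  refine h2.trans ?_
  have hfun : (fun x : ℝ => W (x / M)) = fun x : ℝ => Real.exp (-(Real.pi / M ^ 2) * x ^ 2) := by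
    ext x; unfold W; congr 1; field_simp
  have hb : 0 < Real.pi / M ^ 2 := by positivity
  have hint : MeasureTheory.Integrable (fun x : ℝ => W (x / M)) := by
    rw [hfun]; exact integrable_exp_neg_mul_sq hb
  rw [intervalIntegral.integral_of_le (Nat.cast_nonneg m)]
  have h3 : ∫ x in Set.Ioc (0 : ℝ) m, W (x / M) ≤ ∫ x in Set.Ioi (0 : ℝ), W (x / M) := by
    refine MeasureTheory.setIntegral_mono_set hint.integrableOn ?_ ?_
    · filter_upwards with x
      exact Exp_W_nonneg _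
    · exact Filter.Eventually.of_forall fun x hx => hx.1
  refine h3.trans ?_
  rw [hfun]
  have h4 := integral_gaussian_Ioi (Real.pi / M ^ 2)
  rw [h4]
  have h5 : Real.pi / (Real.pi / M ^ 2) = M ^ 2 := by field_simp
  rw [h5, Real.sqrt_sq hM.le]
  linarith

end HBQ
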