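import Pool.Agent.Lib.HBQ.Dual

set_option autoImplicit false

namespace HBQ

private theorem ta_unique (k k' j j' : ℕ) (hk : Squarefree k) (hk' : Squarefree k') (hj : j ≠ 0)
    (hj' : j' ≠ 0) (h : k * j ^ 2 = k' * j' ^ 2) : k = k' := by
  refine Nat.eq_of_factorization_eq hk.ne_zero hk'.ne_zero fun p => ?_
  have h1 := congrArg (fun n => n.factorization p) h
  simp only [Nat.factorization_mul hk.ne_zero (pow_ne_zero 2 hj),
    Nat.factorization_mul hk'.ne_zero (pow_ne_zero 2 hj'), Nat.factorization_pow,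
    Finsupp.add_apply, Finsupp.smul_apply, smul_eq_mul] at h1
  have h2 := hk.natFactorization_le_one p
  have h3 := hk'.natFactorization_le_one p
  omega

private theorem ta_inj (k : ℕ) (hk : 0 < k) : Function.Injective (fun j : ℕ => k * j ^ 2) := by
  intro a b h
  have h1 : a ^ 2 = b ^ 2 := Nat.eq_of_mul_eq_mul_left hk h
  exact Nat.pow_left_injective (by norm_num : (2 : ℕ) ≠ 0) h1

private theorem ta_tsum (u : ℕ → ℝ) (k : ℕ) (hk : 0 < k) :
    ∑' j : ℕ, u (k * j ^ 2) =
      ∑' H : ℕ, (Set.range (fun j : ℕ => k * j ^ 2)).indicator u H := by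
  have h := (ta_inj k hk).tsum_eq (f := (Set.range (fun j : ℕ => k * j ^ 2)).indicator u)
    (by
      intro x hx
      by_contra hx'
      exact hx (Set.indicator_of_notMem hx' _))
  rw [← h]
  refine tsum_congr fun j => ?_
  exact (Set.indicator_of_mem (s := Set.range (fun j : ℕ => k * j ^ 2)) ⟨j, rfl⟩ u).symm

/-- the coefficientwise difference -/
private theorem ta_diff (u : ℕ → ℝ) (h0 : u 0 = 0) (K1 H : ℕ) :
    |u H - ∑ k ∈ (Finset.Icc 1 K1).filter Squarefree,
        (Set.range (fun j : ℕ => k * j ^ 2)).indicator u H| ≤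
      if K1 < H then |u H| else 0 := by
  classical
  by_cases hH : H = 0
  · subst hH
    have : ∀ k ∈ (Finset.Icc 1 K1).filter Squarefree,
        (Set.range (fun j : ℕ => k * j ^ 2)).indicator u 0 = 0 := by
      intro k _
      by_cases hm : (0 : ℕ) ∈ Set.range (fun j : ℕ => k * j ^ 2)
      · rw [Set.indicator_of_mem hm, h0]
      · rw [Set.indicator_of_notMem hm]
    rw [Finset.sum_eq_zero this, h0]
    simp
  · obtain ⟨a, b, hab, ha⟩ := Nat.sq_mul_squarefree H
    have hb0 : b ≠ 0 := by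
      rintro rfl
      apply hH
      rw [← hab]; simp
    have hab' : H = a * b ^ 2 := by rw [← hab]; ring
    have hmem : ∀ k, Squarefree k → (H ∈ Set.range (fun j : ℕ => k * j ^ 2) ↔ k = a) := by
      intro k hk
      constructor
      · rintro ⟨j, hj⟩
        have hj0 : j ≠ 0 := by
          rintro rfl
          apply hH
          rw [← hj]; simp
        exact ta_unique k a j b hk ha hj0 hb0 (hj.trans hab')
      · rintro rfl
        exact ⟨b, hab'.symm⟩
    have hsum : ∑ k ∈ (Finset.Icc 1 K1).filter Squarefree,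
        (Set.range (fun j : ℕ => k * j ^ 2)).indicator u H = if a ≤ K1 then u H else 0 := by
      have e : ∀ k ∈ (Finset.Icc 1 K1).filter Squarefree,
          (Set.range (fun j : ℕ => k * j ^ 2)).indicator u H = if k = a then u H else 0 := by
        intro k hk
        have hk' := (Finset.mem_filter.mp hk).2
        by_cases hm : H ∈ Set.range (fun j : ℕ => k * j ^ 2)
        · rw [Set.indicator_of_mem hm, if_pos ((hmem k hk').mp hm)]
        · rw [Set.indicator_of_notMem hm, if_neg (fun h => hm ((hmem k hk').mpr h))]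
      rw [Finset.sum_congr rfl e, Finset.sum_ite_eq' _ a]
      have : a ∈ (Finset.Icc 1 K1).filter Squarefree ↔ a ≤ K1 := by
        simp only [Finset.mem_filter, Finset.mem_Icc]
        constructor
        · exact fun h => h.1.2
        · exact fun h => ⟨⟨Nat.pos_of_ne_zero ha.ne_zero, h⟩, ha⟩
      simp only [this]
    rw [hsum]
    by_cases hK : K1 < H
    · rw [if_pos hK]
      split_ifs
      · simp
      · simp
    · rw [if_neg hK]
      have haH : a ≤ K1 := by
        have h1 : a ≤ H := by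
          rw [hab']
          exact Nat.le_mul_of_pos_right a (by positivity)
        omega
      rw [if_pos haH]
      simp

private theorem ta_geom (K1 : ℕ) (β C : ℝ) (hβ : 0 < β) (hC : 0 ≤ C) :
    ∃ S : ℝ, HasSum (fun H : ℕ => if K1 < H then C * Real.exp (-(β * H)) else 0) S ∧
      S ≤ C * Real.exp (-(β * K1)) / β := by
  set q : ℝ := Real.exp (-β) with hq
  have hq0 : 0 ≤ q := (Real.exp_pos _).le
  have hq1 : q < 1 := by
    rw [hq, Real.exp_lt_one_iff]
    linarith
  have hgs := hasSum_geometric_of_lt_one hq0 hq1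
  refine ⟨C * q ^ (K1 + 1) * (1 - q)⁻¹, ?_, ?_⟩
  · have hinj : Function.Injective (fun i : ℕ => i + (K1 + 1)) := fun a b h => by
      simpa using h
    rw [← hinj.hasSum_iff (f := fun H : ℕ => if K1 < H then C * Real.exp (-(β * H)) else 0)]
    · have h2 := hgs.mul_left (C * q ^ (K1 + 1))
      have h3 : ((fun H : ℕ => if K1 < H then C * Real.exp (-(β * H)) else 0) ∘
          fun i : ℕ => i + (K1 + 1)) = fun i : ℕ => C * q ^ (K1 + 1) * q ^ i := by
        funext i
        simp only [Function.comp]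
        rw [if_pos (by omega)]
        have : Real.exp (-(β * ((i + (K1 + 1) : ℕ) : ℝ))) = q ^ (i + (K1 + 1)) := by
          rw [hq, ← Real.exp_nat_mul]
          congr 1
          ring
        rw [this, pow_add]
        ring
      rw [h3]
      exact h2
    · intro x hx
      rw [if_neg]
      intro hlt
      exact hx ⟨x - (K1 + 1), by simp only; omega⟩
  · have h1 : q * (1 - q)⁻¹ ≤ 1 / β := by
      have h2 : 0 < 1 - q := by linarith
      rw [← div_eq_mul_inv, div_le_div_iff₀ h2 hβ]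
      have h3 : β + 1 ≤ Real.exp β := Real.add_one_le_exp β
      have h4 : q * Real.exp β = 1 := by
        rw [hq, ← Real.exp_add]; simp
      nlinarith [mul_le_mul_of_nonneg_left h3 hq0]
    have h5 : q ^ K1 = Real.exp (-(β * K1)) := by
      rw [hq, ← Real.exp_nat_mul]
      congr 1
      ring
    calc C * q ^ (K1 + 1) * (1 - q)⁻¹ = C * q ^ K1 * (q * (1 - q)⁻¹) := by ring
      _ ≤ C * q ^ K1 * (1 / β) := by
          apply mul_le_mul_of_nonneg_left h1
          positivity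
      _ = C * Real.exp (-(β * K1)) / β := by rw [h5]; ring

private theorem ta_J_le (a b : ℕ) : |J a b| ≤ 1 := by
  unfold J
  rcases jacobiSym.trichotomy (a : ℤ) b with h | h | h <;> rw [h] <;> simp

private theorem ta_mu_le (d : ℕ) : |mu d| ≤ 1 := by
  unfold mu
  have h := ArithmeticFunction.abs_moebius_le_one (n := d)
  exact_mod_cast h

private theorem ta_U_bound (N K1 n1 n2 H : ℕ) (M Y : ℝ) (hN : 1 ≤ N) (hM : 1 ≤ M)
    (hK : 4 * (N : ℝ) ^ 2 * Y ≤ K1 * M) (hn1 : 0 < n1)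
    (hr : 0 < rr n1 n2) (hprod : n1 * n2 = Nat.gcd n1 n2 ^ 2 * rr n1 n2)
    (b1 : n1 ≤ 2 * N) (b2 : n2 ≤ 2 * N) (hH : K1 < H) :
    |U M n1 n2 H| ≤ 2 * N * M * Real.exp (-((Real.pi * Y * M / (4 * (N : ℝ) ^ 2)) * H)) := by
  have hN' : (1 : ℝ) ≤ N := by exact_mod_cast hN
  have hg : 0 < Nat.gcd n1 n2 := Nat.gcd_pos_of_pos_left n2 hn1
  have hr' : (1 : ℝ) ≤ (rr n1 n2 : ℝ) := by exact_mod_cast hr
  have hH' : (K1 : ℝ) ≤ H := by exact_mod_cast hH.le
  set e : ℝ := Real.exp (-((Real.pi * Y * M / (4 * (N : ℝ) ^ 2)) * H)) with he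
  unfold U
  rw [abs_mul]
  have hterm : ∀ c ∈ (Nat.gcd (Nat.gcd n1 n2) H).divisors,
      |mu c * (M / (c * Real.sqrt (rr n1 n2))) * W (H * M / ((c : ℝ) ^ 2 * rr n1 n2))| ≤ M * e := by
    intro c hc
    have hc0 : 0 < c := Nat.pos_of_mem_divisors hc
    have hc1 : (1 : ℝ) ≤ c := by exact_mod_cast hc0
    have hcg : c ≤ Nat.gcd n1 n2 :=
      Nat.le_of_dvd hg ((Nat.dvd_of_mem_divisors hc).trans (Nat.gcd_dvd_left _ _))
    have hs1 : 1 ≤ Real.sqrt (rr n1 n2 : ℝ) := by
      rw [Real.one_le_sqrt]; exact hr'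
    have hM0 : 0 ≤ M := by linarith
    have hA : |M / (c * Real.sqrt (rr n1 n2))| ≤ M := by
      rw [abs_of_nonneg (by positivity)]
      apply div_le_self hM0
      nlinarith
    have hcr : (c : ℝ) ^ 2 * rr n1 n2 ≤ 4 * (N : ℝ) ^ 2 := by
      have h1 : c ^ 2 * rr n1 n2 ≤ (2 * N) * (2 * N) := by
        calc c ^ 2 * rr n1 n2 ≤ Nat.gcd n1 n2 ^ 2 * rr n1 n2 :=
              Nat.mul_le_mul_right _ (Nat.pow_le_pow_left hcg 2)
          _ = n1 * n2 := hprod.symm
          _ ≤ _ := Nat.mul_le_mul b1 b2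
      have h2 : ((c ^ 2 * rr n1 n2 : ℕ) : ℝ) ≤ (((2 * N) * (2 * N) : ℕ) : ℝ) := by
        exact_mod_cast h1
      push_cast at h2
      linarith
    have hcr0 : 0 < (c : ℝ) ^ 2 * rr n1 n2 := by positivity
    have hx : (H : ℝ) * M / (4 * (N : ℝ) ^ 2) ≤ H * M / ((c : ℝ) ^ 2 * rr n1 n2) :=
      div_le_div_of_nonneg_left (by positivity) hcr0 hcr
    have hYx : Y ≤ (H : ℝ) * M / (4 * (N : ℝ) ^ 2) := by
      rw [le_div_iff₀ (by positivity)]
      calc Y * (4 * (N : ℝ) ^ 2) = 4 * (N : ℝ) ^ 2 * Y := by ring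
        _ ≤ K1 * M := hK
        _ ≤ H * M := mul_le_mul_of_nonneg_right hH' hM0
    have hW : |W (H * M / ((c : ℝ) ^ 2 * rr n1 n2))| ≤ e := by
      unfold W
      rw [abs_of_nonneg (Real.exp_pos _).le, he]
      apply Real.exp_le_exp.mpr
      have h3 : Y * ((H : ℝ) * M / (4 * (N : ℝ) ^ 2)) ≤
          (H * M / ((c : ℝ) ^ 2 * rr n1 n2)) ^ 2 := by
        rw [sq (H * M / ((c : ℝ) ^ 2 * rr n1 n2))]
        exact mul_le_mul (hYx.trans hx) hx (by positivity) (by positivity)
      have h4 : Real.pi * Y * M / (4 * (N : ℝ) ^ 2) * H =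
          Real.pi * (Y * ((H : ℝ) * M / (4 * (N : ℝ) ^ 2))) := by ring
      rw [h4]
      have := mul_le_mul_of_nonneg_left h3 Real.pi_pos.le
      linarith
    rw [abs_mul, abs_mul]
    calc |mu c| * |M / (c * Real.sqrt (rr n1 n2))| * |W (H * M / ((c : ℝ) ^ 2 * rr n1 n2))|
        ≤ 1 * M * e := by
          apply mul_le_mul _ hW (abs_nonneg _) (by positivity)
          exact mul_le_mul (ta_mu_le c) hA (abs_nonneg _) zero_le_one
      _ = M * e := by ring
  have hcard : ((Nat.gcd (Nat.gcd n1 n2) H).divisors.card : ℝ) ≤ 2 * N := by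
    have h1 : (Nat.gcd (Nat.gcd n1 n2) H).divisors.card ≤ 2 * N :=
      calc (Nat.gcd (Nat.gcd n1 n2) H).divisors.card ≤ Nat.gcd (Nat.gcd n1 n2) H :=
            Nat.card_divisors_le_self _
        _ ≤ Nat.gcd n1 n2 := Nat.gcd_le_left _ hg
        _ ≤ n1 := Nat.gcd_le_left _ hn1
        _ ≤ 2 * N := b1
    exact_mod_cast h1
  have hsum : |∑ c ∈ (Nat.gcd (Nat.gcd n1 n2) H).divisors,
      mu c * (M / (c * Real.sqrt (rr n1 n2))) * W (H * M / ((c : ℝ) ^ 2 * rr n1 n2))| ≤
      2 * N * (M * e) := by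
    calc _ ≤ ∑ c ∈ (Nat.gcd (Nat.gcd n1 n2) H).divisors,
          |mu c * (M / (c * Real.sqrt (rr n1 n2))) * W (H * M / ((c : ℝ) ^ 2 * rr n1 n2))| :=
            Finset.abs_sum_le_sum_abs _ _
      _ ≤ ∑ _c ∈ (Nat.gcd (Nat.gcd n1 n2) H).divisors, M * e := Finset.sum_le_sum hterm
      _ = ((Nat.gcd (Nat.gcd n1 n2) H).divisors.card : ℝ) * (M * e) := by
            rw [Finset.sum_const, nsmul_eq_mul]
      _ ≤ _ := by
            apply mul_le_mul_of_nonneg_right hcard
            have : 0 < e := Real.exp_pos _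
            positivity
  calc _ ≤ 1 * (2 * N * (M * e)) :=
        mul_le_mul (ta_J_le _ _) hsum (abs_nonneg _) zero_le_one
    _ = _ := by ring

/-- Tail of the dual sum. PROOF. Every `H >= 1` is `k j^2` with `k` squarefree in exactly one way
(Mathlib `Nat.sq_mul_squarefree`), `U(0) = 0`; so the difference is the sum of `U(H)` over the `H` whose squarefree part exceeds
`K1`, in particular `H > K1`. `c^2 r <= g^2 r = n1 n2 <= 4N^2`, `M/(c sqrt r) <= M`, at most `g <= 2N` values `c`: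
`|U(H)| <= 2N M exp(-pi x^2)`, `x = H M/(4N^2) >= Y`, `exp(-pi x^2) <= exp(-pi Y x)`, geometric series,
`q/(1-q) <= 1/beta` for `q = exp(-beta)`. Result `8 N^3/(pi Y) exp(-pi Y^2)`. -/
theorem tail_bound (N K1 n1 n2 : ℕ) (M Y : ℝ) (hN : 1 ≤ N) (hM : 1 ≤ M) (hY : 1 ≤ Y)
    (hK : 4 * (N : ℝ) ^ 2 * Y ≤ K1 * M) (h1 : Squarefree n1) (h2 : Squarefree n2)
    (o1 : n1 % 2 = 1) (h4 : n1 % 4 = n2 % 4) (hne : n1 ≠ n2) (b1 : n1 ≤ 2 * N) (b2 : n2 ≤ 2 * N) :
    |∑' H : ℕ, U M n1 n2 H -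
        ∑ k ∈ (Finset.Icc 1 K1).filter Squarefree, ∑' j : ℕ, U M n1 n2 (k * j ^ 2)| ≤
      8 * (N : ℝ) ^ 3 * Real.exp (-(Real.pi * Y ^ 2)) := by
  obtain ⟨p1, p2, p3, p4, p5, p6⟩ := rr_props n1 n2 h1 h2 o1 h4 hne
  have hn1 : 0 < n1 := Nat.pos_of_ne_zero h1.ne_zero
  have hN' : (1 : ℝ) ≤ N := by exact_mod_cast hN
  have hM0 : 0 < M := by linarith
  have hsU := summable_U M hM0 n1 n2 h1 h2 o1 h4 hne
  have hU0 : U M n1 n2 0 = 0 := by
    unfold U
    have : J 0 (rr n1 n2) = 0 := by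
      unfold J
      simp [jacobiSym.zero_left p1]
    rw [this]
    ring
  have hind : ∀ k : ℕ, Summable
      (fun H : ℕ => (Set.range (fun j : ℕ => k * j ^ 2)).indicator (fun H => U M n1 n2 H) H) :=
    fun k => hsU.indicator _
  have hdiff : ∑' H : ℕ, U M n1 n2 H -
        ∑ k ∈ (Finset.Icc 1 K1).filter Squarefree, ∑' j : ℕ, U M n1 n2 (k * j ^ 2) =
      ∑' H : ℕ, (U M n1 n2 H - ∑ k ∈ (Finset.Icc 1 K1).filter Squarefree,
        (Set.range (fun j : ℕ => k * j ^ 2)).indicator (fun H => U M n1 n2 H) H) := by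
    rw [Summable.tsum_sub hsU (summable_sum fun k _ => hind k),
      Summable.tsum_finsetSum (fun k _ => hind k)]
    congr 1
    refine Finset.sum_congr rfl fun k hk => ?_
    exact ta_tsum (fun H => U M n1 n2 H) k (Finset.mem_Icc.mp (Finset.mem_filter.mp hk).1).1
  rw [hdiff]
  set β : ℝ := Real.pi * Y * M / (4 * (N : ℝ) ^ 2) with hβ
  have hβ0 : 0 < β := by
    rw [hβ]
    have := Real.pi_pos
    positivity
  obtain ⟨S, hS, hSle⟩ := ta_geom K1 β (2 * N * M) hβ0 (by positivity)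
  have hb : ‖∑' H : ℕ, (U M n1 n2 H - ∑ k ∈ (Finset.Icc 1 K1).filter Squarefree,
        (Set.range (fun j : ℕ => k * j ^ 2)).indicator (fun H => U M n1 n2 H) H)‖ ≤ S := by
    refine tsum_of_norm_bounded hS fun H => ?_
    rw [Real.norm_eq_abs]
    refine (ta_diff (fun H => U M n1 n2 H) hU0 K1 H).trans ?_
    by_cases hH : K1 < H
    · rw [if_pos hH, if_pos hH]
      exact ta_U_bound N K1 n1 n2 H M Y hN hM hK hn1 (by omega) p5 b1 b2 hH
    · rw [if_neg hH, if_neg hH]
  rw [Real.norm_eq_abs] at hb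
  refine hb.trans (hSle.trans ?_)
  have hexp : Real.exp (-(β * K1)) ≤ Real.exp (-(Real.pi * Y ^ 2)) := by
    apply Real.exp_le_exp.mpr
    have h5 : Real.pi * Y ^ 2 ≤ β * K1 := by
      rw [hβ]
      have h6 : Real.pi * Y * M / (4 * (N : ℝ) ^ 2) * K1 =
          Real.pi * Y * ((K1 * M) / (4 * (N : ℝ) ^ 2)) := by ring
      rw [h6]
      have h7 : Y ≤ (K1 * M) / (4 * (N : ℝ) ^ 2) := by
        rw [le_div_iff₀ (by positivity)]
        linarith
      have h8 : 0 ≤ Real.pi * Y := by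
        have := Real.pi_pos
        positivity
      calc Real.pi * Y ^ 2 = Real.pi * Y * Y := by ring
        _ ≤ _ := mul_le_mul_of_nonneg_left h7 h8
    linarith
  have hπ : (1 : ℝ) ≤ Real.pi * Y := by
    have := Real.pi_gt_three
    nlinarith
  calc 2 * N * M * Real.exp (-(β * K1)) / β
      ≤ 2 * N * M * Real.exp (-(Real.pi * Y ^ 2)) / β := by
        apply div_le_div_of_nonneg_right _ hβ0.le
        exact mul_le_mul_of_nonneg_left hexp (by positivity)
    _ = 8 * (N : ℝ) ^ 3 * Real.exp (-(Real.pi * Y ^ 2)) * (1 / (Real.pi * Y)) := by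
        rw [hβ]
        have := Real.pi_pos
        have hY0 : 0 < Y := by linarith
        have hN0 : 0 < (N : ℝ) := by linarith
        field_simp
        ring
    _ ≤ 8 * (N : ℝ) ^ 3 * Real.exp (-(Real.pi * Y ^ 2)) * 1 := by
        apply mul_le_mul_of_nonneg_left _ (by positivity)
        rw [div_le_one (by positivity)]
        exact hπ
    _ = _ := by ring

end HBQ
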