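import Pool.Agent.Lib.HBQ.Cancel
import Pool.Agent.Lib.HBQ.Tail
import Pool.Agent.Lib.HBQ.Expand

set_option autoImplicit false

namespace HBQ

open Finset

private lemma core1_split (T : Finset ℕ) (g : ℕ → ℕ → ℝ) :
    ∑ n1 ∈ T, ∑ n2 ∈ T, g n1 n2 = ∑ n ∈ T, g n n + ∑ n1 ∈ T, ∑ n2 ∈ T.erase n1, g n1 n2 := by
  rw [← Finset.sum_add_distrib]
  apply Finset.sum_congr rfl
  intro n1 h1
  rw [Finset.add_sum_erase T (fun n2 => g n1 n2) h1]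

lemma E_nonneg (a : ℕ → ℝ) (N : ℕ) : 0 ≤ E a N := Finset.sum_nonneg (fun _ _ => sq_nonneg _)

private lemma core1_abs_sum (a : ℕ → ℝ) (N : ℕ) (t : ℕ → ℕ → ℝ) (δ : ℝ) (hδ : 0 ≤ δ)
    (ht : ∀ n1 ∈ Finset.Icc 1 (2 * N), ∀ n2 ∈ (Finset.Icc 1 (2 * N)).erase n1,
      a n1 * a n2 ≠ 0 → |t n1 n2| ≤ δ) :
    ∑ n1 ∈ Finset.Icc 1 (2 * N), ∑ n2 ∈ (Finset.Icc 1 (2 * N)).erase n1, a n1 * a n2 * t n1 n2 ≤
      2 * N * δ * E a (2 * N) := by
  have h1 : ∀ n1 ∈ Finset.Icc 1 (2 * N), ∀ n2 ∈ (Finset.Icc 1 (2 * N)).erase n1,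
      a n1 * a n2 * t n1 n2 ≤ δ * ((a n1 ^ 2 + a n2 ^ 2) / 2) := by
    intro n1 h1 n2 h2
    have h5 : |a n1 * a n2| ≤ (a n1 ^ 2 + a n2 ^ 2) / 2 := by
      rw [abs_le]
      constructor <;> nlinarith [sq_nonneg (a n1 + a n2), sq_nonneg (a n1 - a n2)]
    by_cases h0 : a n1 * a n2 = 0
    · rw [h0, zero_mul]; positivity
    · have h3 := ht n1 h1 n2 h2 h0
      calc a n1 * a n2 * t n1 n2 ≤ |a n1 * a n2 * t n1 n2| := le_abs_self _
        _ = |a n1 * a n2| * |t n1 n2| := abs_mul _ _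
        _ ≤ ((a n1 ^ 2 + a n2 ^ 2) / 2) * δ :=
          mul_le_mul h5 h3 (abs_nonneg _) (by positivity)
        _ = _ := by ring
  calc _ ≤ ∑ n1 ∈ Finset.Icc 1 (2 * N), ∑ n2 ∈ (Finset.Icc 1 (2 * N)).erase n1,
        δ * ((a n1 ^ 2 + a n2 ^ 2) / 2) :=
        Finset.sum_le_sum (fun n1 hn1 => Finset.sum_le_sum (fun n2 hn2 => h1 n1 hn1 n2 hn2))
    _ ≤ ∑ n1 ∈ Finset.Icc 1 (2 * N), ∑ n2 ∈ Finset.Icc 1 (2 * N),
        δ * ((a n1 ^ 2 + a n2 ^ 2) / 2) := by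
        apply Finset.sum_le_sum
        intro n1 _
        apply Finset.sum_le_sum_of_subset_of_nonneg (Finset.erase_subset _ _)
        intro n2 _ _
        positivity
    _ = 2 * N * δ * E a (2 * N) := by
        unfold E
        simp_rw [← Finset.mul_sum, ← Finset.sum_div, Finset.sum_add_distrib, Finset.sum_const,
          Nat.card_Icc]
        have hc : ((2 * N + 1 - 1 : ℕ) : ℝ) = 2 * N := by
          rw [Nat.add_sub_cancel]; push_cast; ring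
        simp only [nsmul_eq_mul, hc, ← Finset.mul_sum]
        ring

/-- the basic inequality -/
theorem core1 (N i K1 Mn : ℕ) (Y : ℝ) (a : ℕ → ℝ) (hN : 1 ≤ N) (hM : 1 ≤ Mn) (hY : 1 ≤ Y)
    (hK : 4 * (N : ℝ) ^ 2 * Y ≤ K1 * Mn) (ha : Good N i a) :
    ∑ k ∈ (Finset.Ioc K1 Mn).filter (fun k => Squarefree k ∧ k % 2 = 1),
        W ((k : ℝ) / Mn) * A a (2 * N) k ^ 2 ≤
      ((Mn : ℝ) + 2 * N * (8 * (N : ℝ) ^ 3 * Real.exp (-(Real.pi * Y ^ 2)))) * E a (2 * N) +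
      ∑ k ∈ (Finset.Icc 1 K1).filter Squarefree,
        (|∑ n1 ∈ Finset.Icc 1 (2 * N), ∑ n2 ∈ Finset.Icc 1 (2 * N),
            a n1 * a n2 * remdual Mn k n1 n2| +
          |∑ n1 ∈ Finset.Icc 1 (2 * N), ∑ n2 ∈ Finset.Icc 1 (2 * N),
            a n1 * a n2 * remdir Mn k n1 n2|) +
      ∑ k ∈ Finset.Icc 1 K1,
        (|∑ n ∈ Finset.Icc 1 (2 * N), a n ^ 2 * remdual Mn k n n| +
          |∑ n ∈ Finset.Icc 1 (2 * N), a n ^ 2 * remdir Mn k n n|) := by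
  obtain ⟨T, hT⟩ : ∃ T, T = Finset.Icc 1 (2 * N) := ⟨_, rfl⟩
  have hMR : (1 : ℝ) ≤ Mn := by exact_mod_cast hM
  have hM0 : (0 : ℝ) < Mn := by linarith
  have hex := expand_ineq N i K1 Mn a hN hM ha
  have hi := ha.1
  have hodd : ∀ n, a n ≠ 0 → n % 2 = 1 := by
    intro n hn
    have := (ha.2 n hn).2.2.2
    rcases hi with hi | hi <;> omega
  -- the pairs
  obtain ⟨t, ht⟩ : ∃ t : ℕ → ℕ → ℝ, t = fun n1 n2 => ∑' H : ℕ, U Mn n1 n2 H -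
        ∑ k ∈ (Finset.Icc 1 K1).filter Squarefree, ∑' j : ℕ, U Mn n1 n2 (k * j ^ 2) := ⟨_, rfl⟩
  have htb : ∀ n1 ∈ Finset.Icc 1 (2 * N), ∀ n2 ∈ (Finset.Icc 1 (2 * N)).erase n1,
      a n1 * a n2 ≠ 0 → |t n1 n2| ≤ 8 * (N : ℝ) ^ 3 * Real.exp (-(Real.pi * Y ^ 2)) := by
    intro n1 h1 n2 h2 h0
    have a1 : a n1 ≠ 0 := left_ne_zero_of_mul h0
    have a2 : a n2 ≠ 0 := right_ne_zero_of_mul h0
    have g1 := ha.2 n1 a1
    have g2 := ha.2 n2 a2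
    have hne : n1 ≠ n2 := fun h => (Finset.mem_erase.1 h2).1 h.symm
    rw [ht]
    exact tail_bound N K1 n1 n2 Mn Y hN hMR hY hK g1.2.2.1 g2.2.2.1 (hodd n1 a1)
      (by rw [g1.2.2.2, g2.2.2.2]) hne g1.2.1 g2.2.1
  have hpair : ∀ n1 ∈ Finset.Icc 1 (2 * N), ∀ n2 ∈ (Finset.Icc 1 (2 * N)).erase n1,
      a n1 * a n2 * ∑' m : ℕ, W ((m : ℝ) / Mn) * J m (n1 * n2) =
        a n1 * a n2 * t n1 n2 + ∑ k ∈ (Finset.Icc 1 K1).filter Squarefree,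
          (a n1 * a n2 * (J k (n1 * n2) * S4 (Real.sqrt ((Mn : ℝ) / k)) (n1 * n2)) +
            (a n1 * a n2 * remdual Mn k n1 n2 - a n1 * a n2 * remdir Mn k n1 n2)) := by
    intro n1 h1 n2 h2
    by_cases h0 : a n1 * a n2 = 0
    · simp [h0]
    · have a1 : a n1 ≠ 0 := left_ne_zero_of_mul h0
      have a2 : a n2 ≠ 0 := right_ne_zero_of_mul h0
      have g1 := ha.2 n1 a1
      have g2 := ha.2 n2 a2
      have hne : n1 ≠ n2 := fun h => (Finset.mem_erase.1 h2).1 h.symm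
      rw [V_eq_U Mn hM0 n1 n2 g1.2.2.1 g2.2.2.1 (hodd n1 a1) (by rw [g1.2.2.2, g2.2.2.2]) hne]
      have e1 : ∑ k ∈ (Finset.Icc 1 K1).filter Squarefree,
          (a n1 * a n2 * (J k (n1 * n2) * S4 (Real.sqrt ((Mn : ℝ) / k)) (n1 * n2)) +
            (a n1 * a n2 * remdual Mn k n1 n2 - a n1 * a n2 * remdir Mn k n1 n2)) =
          a n1 * a n2 * ∑ k ∈ (Finset.Icc 1 K1).filter Squarefree,
            ∑' j : ℕ, U Mn n1 n2 (k * j ^ 2) := by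
        rw [Finset.mul_sum]
        apply Finset.sum_congr rfl
        intro k hk
        rw [Finset.mem_filter] at hk
        have := cancel Mn hM0 n1 n2 k g1.2.2.1 g2.2.2.1 (hodd n1 a1)
          (by rw [g1.2.2.2, g2.2.2.2]) hne hk.2
        have h3 : ∑' j : ℕ, U Mn n1 n2 (k * j ^ 2) =
          J k (n1 * n2) * S4 (Real.sqrt (Mn / k)) (n1 * n2) +
            (remdual Mn k n1 n2 - remdir Mn k n1 n2) := by linarith
        rw [h3]
        ring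
      rw [e1, ht]
      ring
  -- rewrite the right side of hex
  have hR : ∑ n1 ∈ T, ∑ n2 ∈ T, a n1 * a n2 * ∑' m : ℕ, W ((m : ℝ) / Mn) * J m (n1 * n2) =
      ∑ n ∈ T, a n * a n * (∑' m : ℕ, W ((m : ℝ) / Mn) * J m (n * n)) +
      (∑ n1 ∈ T, ∑ n2 ∈ T.erase n1, a n1 * a n2 * t n1 n2 +
        ∑ k ∈ (Finset.Icc 1 K1).filter Squarefree, ∑ n1 ∈ T, ∑ n2 ∈ T.erase n1,
          (a n1 * a n2 * (J k (n1 * n2) * S4 (Real.sqrt ((Mn : ℝ) / k)) (n1 * n2)) +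
            (a n1 * a n2 * remdual Mn k n1 n2 - a n1 * a n2 * remdir Mn k n1 n2))) := by
    rw [core1_split]
    congr 1
    have e2 : ∑ k ∈ (Finset.Icc 1 K1).filter Squarefree, ∑ n1 ∈ T, ∑ n2 ∈ T.erase n1,
          (a n1 * a n2 * (J k (n1 * n2) * S4 (Real.sqrt ((Mn : ℝ) / k)) (n1 * n2)) +
            (a n1 * a n2 * remdual Mn k n1 n2 - a n1 * a n2 * remdir Mn k n1 n2)) =
        ∑ n1 ∈ T, ∑ n2 ∈ T.erase n1, ∑ k ∈ (Finset.Icc 1 K1).filter Squarefree,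
          (a n1 * a n2 * (J k (n1 * n2) * S4 (Real.sqrt ((Mn : ℝ) / k)) (n1 * n2)) +
            (a n1 * a n2 * remdual Mn k n1 n2 - a n1 * a n2 * remdir Mn k n1 n2)) := by
      rw [Finset.sum_comm]
      apply Finset.sum_congr rfl
      intro n1 _
      rw [Finset.sum_comm]
    rw [e2, ← Finset.sum_add_distrib]
    apply Finset.sum_congr rfl
    intro n1 h1
    rw [← Finset.sum_add_distrib]
    apply Finset.sum_congr rfl
    intro n2 h2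
    rw [hT] at h1 h2
    exact hpair n1 h1 n2 h2
  have hL : ∀ k, ∑ n1 ∈ T, ∑ n2 ∈ T,
          a n1 * a n2 * (J k (n1 * n2) * S4 (Real.sqrt ((Mn : ℝ) / k)) (n1 * n2)) =
      ∑ n ∈ T, a n * a n * (J k (n * n) * S4 (Real.sqrt ((Mn : ℝ) / k)) (n * n)) +
      ∑ n1 ∈ T, ∑ n2 ∈ T.erase n1,
        a n1 * a n2 * (J k (n1 * n2) * S4 (Real.sqrt ((Mn : ℝ) / k)) (n1 * n2)) :=
    fun k => core1_split T _
  -- diagonal of the direct part is nonnegative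
  have hpos : ∀ k, 0 ≤ ∑ n ∈ T, a n * a n * (J k (n * n) * S4 (Real.sqrt ((Mn : ℝ) / k)) (n * n)) := by
    intro k
    apply Finset.sum_nonneg
    intro n hn
    apply mul_nonneg (mul_self_nonneg _)
    apply mul_nonneg
    · unfold J
      have hn0 : NeZero n := ⟨by rw [hT, Finset.mem_Icc] at hn; omega⟩
      rw [jacobiSym.mul_right]
      push_cast
      exact mul_self_nonneg _
    · unfold S4
      apply tsum_nonneg
      intro l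
      split_ifs
      · exact (Real.exp_pos _).le
      · exact le_rfl
  -- diagonal of V
  have hdiag : ∑ n ∈ T, a n * a n * (∑' m : ℕ, W ((m : ℝ) / Mn) * J m (n * n)) ≤
      (Mn : ℝ) * E a (2 * N) := by
    unfold E
    rw [← hT, Finset.mul_sum]
    apply Finset.sum_le_sum
    intro n _
    by_cases h0 : a n = 0
    · simp [h0]
    · have h1 := (ha.2 n h0).1
      have h2 := V_diag Mn hM0 n (by omega)
      calc a n * a n * (∑' m : ℕ, W ((m : ℝ) / Mn) * J m (n * n)) ≤ a n * a n * Mn :=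
            mul_le_mul_of_nonneg_left h2 (mul_self_nonneg _)
        _ = (Mn : ℝ) * a n ^ 2 := by ring
  have htail : ∑ n1 ∈ T, ∑ n2 ∈ T.erase n1, a n1 * a n2 * t n1 n2 ≤
      2 * N * (8 * (N : ℝ) ^ 3 * Real.exp (-(Real.pi * Y ^ 2))) * E a (2 * N) := by
    rw [hT]
    exact core1_abs_sum a N t _ (by positivity) htb
  -- off-diagonal remainders
  have hoff : ∀ (R : ℕ → ℕ → ℝ), ∑ n1 ∈ T, ∑ n2 ∈ T.erase n1, a n1 * a n2 * R n1 n2 =
      ∑ n1 ∈ T, ∑ n2 ∈ T, a n1 * a n2 * R n1 n2 - ∑ n ∈ T, a n ^ 2 * R n n := by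
    intro R
    rw [core1_split]
    have : ∑ n ∈ T, a n * a n * R n n = ∑ n ∈ T, a n ^ 2 * R n n :=
      Finset.sum_congr rfl (fun n _ => by ring)
    rw [this]; ring
  have hk : ∀ k, ∑ n1 ∈ T, ∑ n2 ∈ T.erase n1,
          (a n1 * a n2 * (J k (n1 * n2) * S4 (Real.sqrt ((Mn : ℝ) / k)) (n1 * n2)) +
            (a n1 * a n2 * remdual Mn k n1 n2 - a n1 * a n2 * remdir Mn k n1 n2)) ≤
      ∑ n1 ∈ T, ∑ n2 ∈ T, a n1 * a n2 * (J k (n1 * n2) * S4 (Real.sqrt ((Mn : ℝ) / k)) (n1 * n2)) +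
      ((|∑ n1 ∈ T, ∑ n2 ∈ T, a n1 * a n2 * remdual Mn k n1 n2| +
        |∑ n1 ∈ T, ∑ n2 ∈ T, a n1 * a n2 * remdir Mn k n1 n2|) +
      (|∑ n ∈ T, a n ^ 2 * remdual Mn k n n| + |∑ n ∈ T, a n ^ 2 * remdir Mn k n n|)) := by
    intro k
    have e3 : ∑ n1 ∈ T, ∑ n2 ∈ T.erase n1,
          (a n1 * a n2 * (J k (n1 * n2) * S4 (Real.sqrt ((Mn : ℝ) / k)) (n1 * n2)) +
            (a n1 * a n2 * remdual Mn k n1 n2 - a n1 * a n2 * remdir Mn k n1 n2)) =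
        ∑ n1 ∈ T, ∑ n2 ∈ T.erase n1,
          a n1 * a n2 * (J k (n1 * n2) * S4 (Real.sqrt ((Mn : ℝ) / k)) (n1 * n2)) +
        (∑ n1 ∈ T, ∑ n2 ∈ T.erase n1, a n1 * a n2 * remdual Mn k n1 n2 -
         ∑ n1 ∈ T, ∑ n2 ∈ T.erase n1, a n1 * a n2 * remdir Mn k n1 n2) := by
      simp only [Finset.sum_add_distrib, Finset.sum_sub_distrib]
    rw [e3, hoff (fun n1 n2 => remdual Mn k n1 n2), hoff (fun n1 n2 => remdir Mn k n1 n2), hL k]
    have p1 := hpos k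
    have q1 := le_abs_self (∑ n1 ∈ T, ∑ n2 ∈ T, a n1 * a n2 * remdual Mn k n1 n2)
    have q2 := neg_abs_le (∑ n1 ∈ T, ∑ n2 ∈ T, a n1 * a n2 * remdir Mn k n1 n2)
    have q3 := neg_abs_le (∑ n ∈ T, a n ^ 2 * remdual Mn k n n)
    have q4 := le_abs_self (∑ n ∈ T, a n ^ 2 * remdir Mn k n n)
    linarith
  have hsum := Finset.sum_le_sum (fun k (_ : k ∈ (Finset.Icc 1 K1).filter Squarefree) => hk k)
  rw [Finset.sum_add_distrib, Finset.sum_add_distrib] at hsum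
  have hmono : ∑ k ∈ (Finset.Icc 1 K1).filter Squarefree,
      (|∑ n ∈ T, a n ^ 2 * remdual Mn k n n| + |∑ n ∈ T, a n ^ 2 * remdir Mn k n n|) ≤
      ∑ k ∈ Finset.Icc 1 K1,
      (|∑ n ∈ T, a n ^ 2 * remdual Mn k n n| + |∑ n ∈ T, a n ^ 2 * remdir Mn k n n|) := by
    apply Finset.sum_le_sum_of_subset_of_nonneg (Finset.filter_subset _ _)
    intro k _ _
    positivity
  rw [← hT] at hex ⊢
  rw [hR] at hex
  linarith

end HBQ
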