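import Pool.Agent.Lib.HBQ.Rho

set_option autoImplicit false

namespace HBQ

private theorem diag_abs_J_le (k n : ℕ) : |J k n| ≤ 1 := by
  unfold J
  rcases jacobiSym.trichotomy (k : ℤ) n with h | h | h <;> rw [h] <;> norm_num

private theorem diag_abs_mu_le (d : ℕ) : |mu d| ≤ 1 := by
  unfold mu
  rw [← Int.cast_abs]
  exact_mod_cast ArithmeticFunction.abs_moebius_le_one

private theorem diag_sum_inv_sqrt (K : ℕ) :
    ∑ k ∈ Finset.Icc 1 K, 1 / Real.sqrt k ≤ 2 * Real.sqrt K := by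
  induction K with
  | zero => simp
  | succ K ih =>
    rw [← Finset.insert_Icc_right_eq_Icc_add_one (by omega), Finset.sum_insert (by simp)]
    have h1 : (0 : ℝ) < Real.sqrt ((K + 1 : ℕ) : ℝ) := Real.sqrt_pos.2 (by positivity)
    have h2 : Real.sqrt (K : ℝ) ≤ Real.sqrt ((K + 1 : ℕ) : ℝ) :=
      Real.sqrt_le_sqrt (by push_cast; linarith)
    have h3 : Real.sqrt ((K + 1 : ℕ) : ℝ) ^ 2 = (K : ℝ) + 1 := by
      rw [Real.sq_sqrt (by positivity)]
      push_cast
      rfl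
    have h4 : Real.sqrt (K : ℝ) ^ 2 = K := Real.sq_sqrt (by positivity)
    have h5 : (0 : ℝ) ≤ Real.sqrt (K : ℝ) := Real.sqrt_nonneg _
    have h6 : 1 / Real.sqrt ((K + 1 : ℕ) : ℝ) ≤
        2 * (Real.sqrt ((K + 1 : ℕ) : ℝ) - Real.sqrt (K : ℝ)) := by
      rw [div_le_iff₀ h1]
      nlinarith
    linarith

/-- Diagonal terms. PROOF. `gcd n n = lcm n n = n`, `rr n n = 1`, `J k 1 = 1`, `|J| <= 1`,
`|rho(x)| <= C min(1,x)`: `|remdir M k n n| <= C D`, and
`|remdual M k n n| <= M sum_{c1 | n} (1/c1) sum_{c2 | n/(n,k)} |rho(c1 sqrt(1/(k M)))| <= C D^2 sqrt(M/k)`;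
`sum_{k <= K1} k^(-1/2) <= 2 sqrt(K1)`. -/
theorem diag_bound : ∃ C0 : ℝ, 0 < C0 ∧ ∀ (N i K1 D : ℕ) (M : ℝ) (a : ℕ → ℝ),
    1 ≤ N → 0 < M → Good N i a → (∀ n ∈ Finset.Icc 1 (2 * N), n.divisors.card ≤ D) →
    ∑ k ∈ Finset.Icc 1 K1, (|∑ n ∈ Finset.Icc 1 (2 * N), a n ^ 2 * remdual M k n n| +
        |∑ n ∈ Finset.Icc 1 (2 * N), a n ^ 2 * remdir M k n n|) ≤
      C0 * (D : ℝ) ^ 2 * (Real.sqrt (M * K1) + K1) * E a (2 * N) := by
  obtain ⟨C, hC, hrho⟩ := rho_bound
  refine ⟨2 * C, by positivity, ?_⟩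
  intro N i K1 D M a _ hM _ hD
  have hdir : ∀ k ∈ Finset.Icc 1 K1, ∀ n ∈ Finset.Icc 1 (2 * N), |remdir M k n n| ≤ C * D := by
    intro k hk n hn
    rw [Finset.mem_Icc] at hk
    have hk0 : (0 : ℝ) < k := by exact_mod_cast hk.1
    unfold remdir
    rw [abs_mul]
    refine le_trans (mul_le_of_le_one_left (abs_nonneg _) (diag_abs_J_le _ _)) ?_
    refine le_trans (Finset.abs_sum_le_sum_abs _ _) ?_
    have h1 : ∀ d ∈ (Nat.lcm n n).divisors, |mu d * rho (Real.sqrt (M / k) / d)| ≤ C := by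
      intro d hd
      have hd0 : (0 : ℝ) < d := by exact_mod_cast Nat.pos_of_mem_divisors hd
      rw [abs_mul]
      refine le_trans (mul_le_of_le_one_left (abs_nonneg _) (diag_abs_mu_le _)) ?_
      refine le_trans (hrho _ (by positivity)) ?_
      exact mul_le_of_le_one_right hC.le (min_le_left _ _)
    refine le_trans (Finset.sum_le_sum h1) ?_
    rw [Finset.sum_const, nsmul_eq_mul, mul_comm, Nat.lcm_self]
    exact mul_le_mul_of_nonneg_left (by exact_mod_cast hD n hn) hC.le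
  have hdual : ∀ k ∈ Finset.Icc 1 K1, ∀ n ∈ Finset.Icc 1 (2 * N),
      |remdual M k n n| ≤ C * (D : ℝ) ^ 2 * (Real.sqrt M * (1 / Real.sqrt k)) := by
    intro k hk n hn
    have hn' := hn
    rw [Finset.mem_Icc] at hk hn
    have hk0 : (0 : ℝ) < k := by exact_mod_cast hk.1
    have hrr : rr n n = 1 := by
      unfold rr
      rw [Nat.gcd_self, Nat.div_self hn.1]
    unfold remdual
    rw [hrr, Nat.gcd_self, abs_mul, abs_mul]
    have hJ : |J k 1| ≤ 1 := diag_abs_J_le _ _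
    have hM1 : |M / Real.sqrt ((1 : ℕ) : ℝ)| = M := by
      rw [Nat.cast_one, Real.sqrt_one, div_one, abs_of_pos hM]
    rw [hM1]
    set s : ℝ := Real.sqrt (((1 : ℕ) : ℝ) / (k * M)) with hs
    have hs0 : 0 < s := Real.sqrt_pos.2 (by positivity)
    have hMs : M * s = Real.sqrt M * (1 / Real.sqrt k) := by
      have e : M * s = Real.sqrt (M ^ 2 * (((1 : ℕ) : ℝ) / (k * M))) := by
        rw [Real.sqrt_mul (by positivity), Real.sqrt_sq hM.le]
      have e2 : M ^ 2 * (((1 : ℕ) : ℝ) / (k * M)) = M / k := by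
        field_simp
        push_cast
        ring
      rw [e, e2, Real.sqrt_div hM.le]
      ring
    have hcard : (Nat.gcd n k).divisors.card ≤ D ∧
        (n / Nat.gcd n k).divisors.card ≤ D := by
      have hn0 : n ≠ 0 := by omega
      constructor
      · exact le_trans (Finset.card_le_card (Nat.divisors_subset_of_dvd hn0
          (Nat.gcd_dvd_left n k))) (hD n hn')
      · exact le_trans (Finset.card_le_card (Nat.divisors_subset_of_dvd hn0
          (Nat.div_dvd_of_dvd (Nat.gcd_dvd_left n k)))) (hD n hn')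
    have hterm : ∀ c1 ∈ (Nat.gcd n k).divisors, ∀ c2 ∈ (n / Nat.gcd n k).divisors,
        ∀ d ∈ (1 : ℕ).divisors,
        |mu c1 / c1 * (mu c2 / c2) * mu d * rho (c1 * s / d)| ≤ C * s := by
      intro c1 hc1 c2 hc2 d hd
      have h1 : (0 : ℝ) < c1 := by exact_mod_cast Nat.pos_of_mem_divisors hc1
      have h2 : (1 : ℝ) ≤ c2 := by exact_mod_cast Nat.pos_of_mem_divisors hc2
      have h3 : (1 : ℝ) ≤ d := by exact_mod_cast Nat.pos_of_mem_divisors hd
      have h4 : |mu c1 / c1| ≤ 1 / c1 := by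
        rw [abs_div, abs_of_pos h1]
        exact div_le_div_of_nonneg_right (diag_abs_mu_le _) h1.le
      have h5 : |mu c2 / c2| ≤ 1 := by
        rw [abs_div, abs_of_pos (show (0 : ℝ) < (c2 : ℝ) by linarith)]
        exact div_le_one_of_le₀ (le_trans (diag_abs_mu_le _) h2) (by linarith)
      have h6 : |rho (c1 * s / d)| ≤ C * (c1 * s) := by
        refine le_trans (hrho _ (by positivity)) ?_
        refine mul_le_mul_of_nonneg_left (le_trans (min_le_right _ _) ?_) hC.le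
        exact div_le_self (by positivity) h3
      rw [abs_mul, abs_mul, abs_mul]
      calc |mu c1 / c1| * |mu c2 / c2| * |mu d| * |rho (c1 * s / d)|
          ≤ 1 / c1 * 1 * 1 * (C * (c1 * s)) := by
            gcongr
            exact diag_abs_mu_le d
        _ = C * s := by
            field_simp
    have hsum : |∑ c1 ∈ (Nat.gcd n k).divisors, ∑ c2 ∈ (n / Nat.gcd n k).divisors,
        ∑ d ∈ (1 : ℕ).divisors, mu c1 / c1 * (mu c2 / c2) * mu d * rho (c1 * s / d)| ≤
        D * (D * (C * s)) := by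
      refine le_trans (Finset.abs_sum_le_sum_abs _ _) ?_
      have h7 : ∀ c1 ∈ (Nat.gcd n k).divisors, |∑ c2 ∈ (n / Nat.gcd n k).divisors,
          ∑ d ∈ (1 : ℕ).divisors, mu c1 / c1 * (mu c2 / c2) * mu d * rho (c1 * s / d)| ≤
          D * (C * s) := by
        intro c1 hc1
        refine le_trans (Finset.abs_sum_le_sum_abs _ _) ?_
        have h8 : ∀ c2 ∈ (n / Nat.gcd n k).divisors, |∑ d ∈ (1 : ℕ).divisors,
            mu c1 / c1 * (mu c2 / c2) * mu d * rho (c1 * s / d)| ≤ C * s := by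
          intro c2 hc2
          refine le_trans (Finset.abs_sum_le_sum_abs _ _) ?_
          refine le_trans (Finset.sum_le_sum (hterm c1 hc1 c2 hc2)) ?_
          simp
        refine le_trans (Finset.sum_le_sum h8) ?_
        rw [Finset.sum_const, nsmul_eq_mul]
        exact mul_le_mul_of_nonneg_right (by exact_mod_cast hcard.2) (by positivity)
      refine le_trans (Finset.sum_le_sum h7) ?_
      rw [Finset.sum_const, nsmul_eq_mul]
      exact mul_le_mul_of_nonneg_right (by exact_mod_cast hcard.1) (by positivity)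
    refine le_trans (mul_le_mul (mul_le_of_le_one_left hM.le hJ) hsum (abs_nonneg _) hM.le) ?_
    rw [← hMs]
    apply le_of_eq
    ring
  have hE : 0 ≤ E a (2 * N) := Finset.sum_nonneg fun _ _ => sq_nonneg _
  have hD2 : (D : ℝ) ≤ (D : ℝ) ^ 2 := by
    rcases Nat.eq_zero_or_pos D with h | h
    · rw [h]
      simp
    · have h1 : (1 : ℝ) ≤ D := by exact_mod_cast h
      nlinarith
  have gen : ∀ (g : ℕ → ℝ) (B : ℝ), (∀ n ∈ Finset.Icc 1 (2 * N), |g n| ≤ B) →
      |∑ n ∈ Finset.Icc 1 (2 * N), a n ^ 2 * g n| ≤ B * E a (2 * N) := by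
    intro g B hg
    refine le_trans (Finset.abs_sum_le_sum_abs _ _) ?_
    unfold E
    rw [Finset.mul_sum]
    refine Finset.sum_le_sum fun n hn => ?_
    rw [abs_mul, abs_of_nonneg (sq_nonneg _), mul_comm]
    exact mul_le_mul_of_nonneg_right (hg n hn) (sq_nonneg _)
  have hk : ∀ k ∈ Finset.Icc 1 K1,
      (|∑ n ∈ Finset.Icc 1 (2 * N), a n ^ 2 * remdual M k n n| +
        |∑ n ∈ Finset.Icc 1 (2 * N), a n ^ 2 * remdir M k n n|) ≤
      C * (D : ℝ) ^ 2 * E a (2 * N) * (Real.sqrt M * (1 / Real.sqrt k)) +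
        C * (D : ℝ) ^ 2 * E a (2 * N) := by
    intro k hk
    have h1 := gen (fun n => remdual M k n n) _ (hdual k hk)
    have h2 := gen (fun n => remdir M k n n) _ (hdir k hk)
    have h3 : C * D * E a (2 * N) ≤ C * (D : ℝ) ^ 2 * E a (2 * N) := by gcongr
    nlinarith
  refine le_trans (Finset.sum_le_sum hk) ?_
  rw [Finset.sum_add_distrib, ← Finset.mul_sum, ← Finset.mul_sum, Finset.sum_const,
    Nat.card_Icc, nsmul_eq_mul, Nat.add_sub_cancel, Real.sqrt_mul hM.le]
  have h4 := diag_sum_inv_sqrt K1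
  have h5 : Real.sqrt M * ∑ k ∈ Finset.Icc 1 K1, 1 / Real.sqrt k ≤
      Real.sqrt M * (2 * Real.sqrt K1) :=
    mul_le_mul_of_nonneg_left h4 (Real.sqrt_nonneg _)
  have h6 : 0 ≤ C * (D : ℝ) ^ 2 * E a (2 * N) := by positivity
  have h7 := mul_le_mul_of_nonneg_left h5 h6
  have h8 : 0 ≤ C * (D : ℝ) ^ 2 * E a (2 * N) * K1 := by positivity
  nlinarith

end HBQ
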