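import Pool.Agent.Lib.HBQ.Defs

set_option autoImplicit false

open MeasureTheory Set Filter Topology

namespace HBQ

/-- `e n t = t^(4n) exp(-pi t^4)` -/
private noncomputable def e (n : ℕ) (t : ℝ) : ℝ := t ^ (4 * n) * Real.exp (-(Real.pi * t ^ 4))

private noncomputable def d (n : ℕ) (t : ℝ) : ℝ :=
  ((4 * n : ℕ) : ℝ) * t ^ (4 * n - 1) * Real.exp (-(Real.pi * t ^ 4)) +
    t ^ (4 * n) * (Real.exp (-(Real.pi * t ^ 4)) * (-(Real.pi * (4 * t ^ 3))))

private lemma hasDeriv_e (n : ℕ) (t : ℝ) : HasDerivAt (e n) (d n t) t := by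
  have h1 : HasDerivAt (fun t : ℝ => t ^ (4 * n)) (((4 * n : ℕ) : ℝ) * t ^ (4 * n - 1)) t :=
    hasDerivAt_pow (4 * n) t
  have h2 : HasDerivAt (fun t : ℝ => t ^ 4) (((4 : ℕ) : ℝ) * t ^ (4 - 1)) t := hasDerivAt_pow 4 t
  have h3 := ((h2.const_mul Real.pi).neg).exp
  have h4 := h1.mul h3
  refine h4.congr_deriv ?_
  simp only [d]
  norm_num

private lemma mul_d (n : ℕ) (t : ℝ) :
    t * d n t = (4 * n : ℝ) * e n t - 4 * Real.pi * e (n + 1) t := by
  simp only [d, e]
  have h : (4 * n : ℝ) * (t * t ^ (4 * n - 1)) = (4 * n : ℝ) * t ^ (4 * n) := by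
    rcases Nat.eq_zero_or_pos n with rfl | hn
    · simp
    · have : t * t ^ (4 * n - 1) = t ^ (4 * n) := by
        rw [← pow_succ']
        congr 1
        omega
      rw [this]
  push_cast
  have e1 : t ^ (4 * (n + 1)) = t ^ (4 * n) * t ^ 4 := by
    rw [← pow_add]
    congr 1
  rw [e1]
  linear_combination (Real.exp (-(Real.pi * t ^ 4))) * h

private lemma cont_e (n : ℕ) : Continuous (e n) := by
  unfold e
  fun_prop

private lemma cont_d (n : ℕ) : Continuous (d n) := by
  unfold d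
  fun_prop

private lemma e_nonneg (n : ℕ) {t : ℝ} (ht : 0 ≤ t) : 0 ≤ e n t := by
  unfold e
  positivity

private lemma int_pow (k : ℕ) :
    IntegrableOn (fun t : ℝ => t ^ k * Real.exp (-(Real.pi * t ^ 4))) (Ioi 0) := by
  have h := integrableOn_rpow_mul_exp_neg_mul_rpow (p := 4) (s := (k : ℝ)) (b := Real.pi)
    (by have : (0 : ℝ) ≤ k := Nat.cast_nonneg k
        linarith) (by norm_num) Real.pi_pos
  refine h.congr_fun ?_ measurableSet_Ioi
  intro t ht
  have e4 : t ^ (4 : ℝ) = t ^ 4 := by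
    have := Real.rpow_natCast t 4
    exact_mod_cast this
  simp only [Real.rpow_natCast, e4, neg_mul]

private lemma int_e (n : ℕ) : IntegrableOn (e n) (Ioi 0) := int_pow (4 * n)

private lemma int_d (n : ℕ) : IntegrableOn (d n) (Ioi 0) := by
  have h1 := (int_pow (4 * n - 1)).const_mul ((4 * n : ℕ) : ℝ)
  have h2 := (int_pow (4 * n + 3)).const_mul (-(4 * Real.pi))
  have h3 : IntegrableOn (fun t : ℝ =>
      ((4 * n : ℕ) : ℝ) * (t ^ (4 * n - 1) * Real.exp (-(Real.pi * t ^ 4))) +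
      -(4 * Real.pi) * (t ^ (4 * n + 3) * Real.exp (-(Real.pi * t ^ 4)))) (Ioi 0) := h1.add h2
  refine h3.congr_fun ?_ measurableSet_Ioi
  intro t _
  simp only [d, pow_add]
  ring

private lemma e_le (n : ℕ) {u : ℝ} (hu : 0 < u) : e n u ≤ ((n + 1).factorial : ℝ) / u ^ 2 := by
  rw [le_div_iff₀ (by positivity)]
  unfold e
  have hexp : Real.exp (-(Real.pi * u ^ 4)) * Real.exp (Real.pi * u ^ 4) = 1 := by
    rw [← Real.exp_add]
    simp
  have key : u ^ (4 * n) * u ^ 2 ≤ ((n + 1).factorial : ℝ) * Real.exp (Real.pi * u ^ 4) := by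
    have h1 := Real.pow_div_factorial_le_exp (Real.pi * u ^ 4) (by positivity) (n + 1)
    have hf : (0 : ℝ) < ((n + 1).factorial : ℝ) := by exact_mod_cast Nat.factorial_pos _
    rw [div_le_iff₀ hf] at h1
    rcases le_or_gt u 1 with h | h
    · have h2 : u ^ (4 * n) * u ^ 2 ≤ 1 := by
        rw [← pow_add]
        exact pow_le_one₀ hu.le h
      have h3 : (1 : ℝ) ≤ Real.exp (Real.pi * u ^ 4) := Real.one_le_exp (by positivity)
      have h4 : (1 : ℝ) ≤ ((n + 1).factorial : ℝ) := by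
        exact_mod_cast Nat.factorial_pos _
      nlinarith
    · have h2 : u ^ (4 * n) * u ^ 2 ≤ (u ^ 4) ^ (n + 1) := by
        rw [← pow_add, ← pow_mul]
        exact pow_le_pow_right₀ h.le (by omega)
      have h3 : (u ^ 4) ^ (n + 1) ≤ (Real.pi * u ^ 4) ^ (n + 1) := by
        apply pow_le_pow_left₀ (by positivity)
        have := Real.pi_gt_three
        nlinarith [pow_pos hu 4]
      calc _ ≤ _ := h2
        _ ≤ _ := h3
        _ ≤ _ := h1
        _ = _ := by ring
  calc u ^ (4 * n) * Real.exp (-(Real.pi * u ^ 4)) * u ^ 2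
      = (u ^ (4 * n) * u ^ 2) * Real.exp (-(Real.pi * u ^ 4)) := by ring
    _ ≤ (((n + 1).factorial : ℝ) * Real.exp (Real.pi * u ^ 4)) * Real.exp (-(Real.pi * u ^ 4)) :=
        mul_le_mul_of_nonneg_right key (Real.exp_pos _).le
    _ = ((n + 1).factorial : ℝ) *
        (Real.exp (-(Real.pi * u ^ 4)) * Real.exp (Real.pi * u ^ 4)) := by ring
    _ = _ := by rw [hexp, mul_one]

private noncomputable def S (n : ℕ) (x : ℝ) : ℝ := ∑' j : ℕ, e n (((j : ℝ) + 1) / x)
private noncomputable def I (n : ℕ) : ℝ := ∫ t in Ioi (0 : ℝ), e n t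
private noncomputable def R (n : ℕ) (x : ℝ) : ℝ := S n x - I n * x

private noncomputable def Z : ℝ := ∑' j : ℕ, 1 / ((j : ℝ) + 1) ^ 2

private lemma summ_sq : Summable (fun j : ℕ => 1 / ((j : ℝ) + 1) ^ 2) := by
  have h := (summable_nat_add_iff (f := fun n : ℕ => 1 / (n : ℝ) ^ 2) 1).2
    (Real.summable_one_div_nat_pow.2 (by norm_num))
  simpa using h

private lemma term_le (n : ℕ) {x : ℝ} (hx : 0 < x) (j : ℕ) :
    e n (((j : ℝ) + 1) / x) ≤ ((n + 1).factorial : ℝ) * x ^ 2 * (1 / ((j : ℝ) + 1) ^ 2) := by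
  have hj : (0 : ℝ) < (j : ℝ) + 1 := by positivity
  refine (e_le n (div_pos hj hx)).trans (le_of_eq ?_)
  rw [div_pow]
  field_simp

private lemma summ_e (n : ℕ) {x : ℝ} (hx : 0 < x) :
    Summable (fun j : ℕ => e n (((j : ℝ) + 1) / x)) := by
  refine Summable.of_nonneg_of_le (fun j => e_nonneg n (by positivity)) (term_le n hx)
    (summ_sq.mul_left _)

private lemma S_nonneg (n : ℕ) {x : ℝ} (hx : 0 < x) : 0 ≤ S n x :=
  tsum_nonneg (fun j => e_nonneg n (by positivity))

private lemma I_nonneg (n : ℕ) : 0 ≤ I n :=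
  setIntegral_nonneg measurableSet_Ioi (fun _ ht => e_nonneg n (le_of_lt ht))

private lemma S_le (n : ℕ) {x : ℝ} (hx : 0 < x) :
    S n x ≤ ((n + 1).factorial : ℝ) * x ^ 2 * Z := by
  unfold S Z
  rw [← tsum_mul_left]
  exact Summable.tsum_le_tsum (term_le n hx) (summ_e n hx) (summ_sq.mul_left _)

/-- comparison of a sum with an integral -/
private lemma gen_bound (g g' : ℝ → ℝ) (hg : ∀ t, HasDerivAt g (g' t) t) (hc : Continuous g')
    (hgi : IntegrableOn g (Ioi 0)) (hgi' : IntegrableOn g' (Ioi 0)) (x : ℝ) (hx : 0 < x)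
    (hs : Summable fun j : ℕ => g (((j : ℝ) + 1) / x)) :
    |(∑' j : ℕ, g (((j : ℝ) + 1) / x)) - (∫ t in Ioi (0 : ℝ), g t) * x| ≤
      ∫ t in Ioi (0 : ℝ), |g' t| := by
  have hgc : Continuous g := continuous_iff_continuousAt.2 fun t => (hg t).continuousAt
  set h : ℝ → ℝ := fun s => g (s / x) with hh
  set h' : ℝ → ℝ := fun s => g' (s / x) / x with hh'
  have hhc : Continuous h := by fun_prop
  have hhc' : Continuous h' := by fun_prop
  have hder : ∀ s, HasDerivAt h (h' s) s := by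
    intro s
    have h1 : HasDerivAt (fun s : ℝ => s / x) (1 / x) s := (hasDerivAt_id s).div_const x
    have h2 := (hg (s / x)).comp s h1
    refine h2.congr_deriv ?_
    simp only [hh']
    ring
  have hterm : ∀ j : ℕ, |h ((j : ℝ) + 1) - ∫ s in (j : ℝ)..((j + 1 : ℕ) : ℝ), h s| ≤
      ∫ s in (j : ℝ)..((j + 1 : ℕ) : ℝ), |h' s| := by
    intro j
    push_cast
    have hle : (j : ℝ) ≤ (j : ℝ) + 1 := by linarith
    have e1 : h ((j : ℝ) + 1) - ∫ s in (j : ℝ)..((j : ℝ) + 1), h s =
        ∫ s in (j : ℝ)..((j : ℝ) + 1), (h ((j : ℝ) + 1) - h s) := by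
      rw [intervalIntegral.integral_sub (by simp) (hhc.intervalIntegrable _ _)]
      simp
    rw [e1]
    have h2 := intervalIntegral.norm_integral_le_of_norm_le_const (a := (j : ℝ))
      (b := (j : ℝ) + 1) (C := ∫ s in (j : ℝ)..((j : ℝ) + 1), |h' s|)
      (f := fun s => h ((j : ℝ) + 1) - h s) (by
        intro s hsm
        rw [uIoc_of_le hle] at hsm
        have h3 : h ((j : ℝ) + 1) - h s = ∫ y in s..((j : ℝ) + 1), h' y :=
          (intervalIntegral.integral_eq_sub_of_hasDerivAt (fun y _ => hder y)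
            (hhc'.intervalIntegrable _ _)).symm
        rw [h3]
        refine (intervalIntegral.norm_integral_le_integral_norm hsm.2).trans ?_
        have h4 : (∫ y in (j : ℝ)..s, |h' y|) + ∫ y in s..((j : ℝ) + 1), |h' y| =
            ∫ y in (j : ℝ)..((j : ℝ) + 1), |h' y| :=
          intervalIntegral.integral_add_adjacent_intervals (hhc'.abs.intervalIntegrable _ _)
            (hhc'.abs.intervalIntegrable _ _)
        have h5 : 0 ≤ ∫ y in (j : ℝ)..s, |h' y| :=
          intervalIntegral.integral_nonneg hsm.1.le (fun y _ => abs_nonneg _)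
        simp only [Real.norm_eq_abs]
        linarith)
    rw [Real.norm_eq_abs] at h2
    simpa using h2
  have hpart : ∀ N : ℕ, |(∑ j ∈ Finset.range N, h ((j : ℝ) + 1)) - ∫ s in (0 : ℝ)..(N : ℝ), h s| ≤
      ∫ t in Ioi (0 : ℝ), |g' t| := by
    intro N
    have e1 : ∑ j ∈ Finset.range N, (∫ s in (j : ℝ)..((j + 1 : ℕ) : ℝ), h s) =
        ∫ s in (0 : ℝ)..(N : ℝ), h s := by
      have := intervalIntegral.sum_integral_adjacent_intervals (f := h) (μ := volume)
        (a := fun k : ℕ => (k : ℝ)) (n := N) (fun k _ => hhc.intervalIntegrable _ _)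
      simpa using this
    have e2 : ∑ j ∈ Finset.range N, (∫ s in (j : ℝ)..((j + 1 : ℕ) : ℝ), |h' s|) =
        ∫ s in (0 : ℝ)..(N : ℝ), |h' s| := by
      have := intervalIntegral.sum_integral_adjacent_intervals (f := fun s => |h' s|)
        (μ := volume) (a := fun k : ℕ => (k : ℝ)) (n := N)
        (fun k _ => hhc'.abs.intervalIntegrable _ _)
      simpa using this
    rw [← e1, ← Finset.sum_sub_distrib]
    refine (Finset.abs_sum_le_sum_abs _ _).trans ?_
    refine (Finset.sum_le_sum fun j _ => hterm j).trans ?_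
    rw [e2]
    have e3 : ∫ s in (0 : ℝ)..(N : ℝ), |h' s| = ∫ t in (0 : ℝ)..((N : ℝ) / x), |g' t| := by
      have e4 : ∀ s, |h' s| = (fun t => |g' t| / x) (s / x) := by
        intro s
        simp only [hh', abs_div, abs_of_pos hx]
      simp_rw [e4]
      rw [intervalIntegral.integral_comp_div (fun t => |g' t| / x) hx.ne']
      simp only [zero_div, smul_eq_mul]
      rw [← intervalIntegral.integral_const_mul]
      congr 1
      funext t
      field_simp
    rw [e3, intervalIntegral.integral_of_le (by positivity)]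
    exact setIntegral_mono_set hgi'.norm (Eventually.of_forall fun t => abs_nonneg _)
      (Ioc_subset_Ioi_self).eventuallyLE
  have t1 : Tendsto (fun N : ℕ => ∑ j ∈ Finset.range N, h ((j : ℝ) + 1)) atTop
      (𝓝 (∑' j : ℕ, g (((j : ℝ) + 1) / x))) := hs.hasSum.tendsto_sum_nat
  have t2 : Tendsto (fun N : ℕ => ∫ s in (0 : ℝ)..(N : ℝ), h s) atTop
      (𝓝 ((∫ t in Ioi (0 : ℝ), g t) * x)) := by
    have e5 : ∀ N : ℕ, ∫ s in (0 : ℝ)..(N : ℝ), h s = (∫ t in (0 : ℝ)..((N : ℝ) / x), g t) * x := by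
      intro N
      simp only [hh]
      rw [intervalIntegral.integral_comp_div _ hx.ne']
      simp [mul_comm]
    simp_rw [e5]
    refine Tendsto.mul_const x ?_
    exact intervalIntegral_tendsto_integral_Ioi 0 hgi
      (Tendsto.atTop_div_const hx tendsto_natCast_atTop_atTop)
  exact le_of_tendsto (t1.sub t2).abs (Eventually.of_forall hpart)

private lemma R_bound (n : ℕ) : ∃ C : ℝ, 0 < C ∧ ∀ x : ℝ, 0 < x → |R n x| ≤ C * min 1 x := by
  refine ⟨(∫ t in Ioi (0 : ℝ), |d n t|) + ((n + 1).factorial : ℝ) * Z + I n + 1, ?_, ?_⟩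
  · have h1 : 0 ≤ ∫ t in Ioi (0 : ℝ), |d n t| :=
      setIntegral_nonneg measurableSet_Ioi (fun t _ => abs_nonneg _)
    have h2 : 0 ≤ Z := tsum_nonneg (fun j => by positivity)
    have h3 := I_nonneg n
    positivity
  · intro x hx
    have h1 : 0 ≤ ∫ t in Ioi (0 : ℝ), |d n t| :=
      setIntegral_nonneg measurableSet_Ioi (fun t _ => abs_nonneg _)
    have h2 : 0 ≤ Z := tsum_nonneg (fun j => by positivity)
    have h3 := I_nonneg n
    have hf : (0 : ℝ) ≤ ((n + 1).factorial : ℝ) := by positivity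
    rcases le_or_gt x 1 with h | h
    · rw [min_eq_right h]
      have h4 := S_le n hx
      have h5 := S_nonneg n hx
      have h6 : ((n + 1).factorial : ℝ) * x ^ 2 * Z ≤ ((n + 1).factorial : ℝ) * Z * x := by
        have : x ^ 2 ≤ x := by nlinarith
        have h7 : 0 ≤ ((n + 1).factorial : ℝ) * Z := by positivity
        nlinarith
      have h8 : 0 ≤ I n * x := by positivity
      have h9 : 0 ≤ (∫ t in Ioi (0 : ℝ), |d n t|) * x := by positivity
      have h10 : 0 ≤ ((n + 1).factorial : ℝ) * Z * x := by positivity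
      rw [abs_le]
      unfold R
      constructor <;> nlinarith
    · rw [min_eq_left h.le, mul_one]
      have h4 := gen_bound (e n) (d n) (hasDeriv_e n) (cont_d n) (int_e n) (int_d n) x hx
        (summ_e n hx)
      have h5 : 0 ≤ ((n + 1).factorial : ℝ) * Z := by positivity
      unfold R S I
      unfold I at h3
      linarith

private lemma I_rel (n : ℕ) : (4 * n + 1 : ℝ) * I n = 4 * Real.pi * I (n + 1) := by
  have h1 : ∀ t : ℝ, HasDerivAt (fun t => t * e n t)
      ((4 * n + 1 : ℝ) * e n t - 4 * Real.pi * e (n + 1) t) t := by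
    intro t
    have := (hasDerivAt_id t).mul (hasDeriv_e n t)
    refine this.congr_deriv ?_
    simp only [id]
    linear_combination mul_d n t
  have hi : IntegrableOn (fun t => (4 * n + 1 : ℝ) * e n t - 4 * Real.pi * e (n + 1) t)
      (Ioi 0) := ((int_e n).const_mul _).sub ((int_e (n + 1)).const_mul _)
  have ht : Tendsto (fun t => t * e n t) atTop (𝓝 0) := by
    have h2 : Tendsto (fun t : ℝ => ((n + 1).factorial : ℝ) / t) atTop (𝓝 0) :=
      Tendsto.div_atTop tendsto_const_nhds tendsto_id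
    refine squeeze_zero' ?_ ?_ h2
    · filter_upwards [eventually_gt_atTop 0] with t ht
      exact mul_nonneg ht.le (e_nonneg n ht.le)
    · filter_upwards [eventually_gt_atTop 0] with t ht
      have h3 := mul_le_mul_of_nonneg_left (e_le n ht) ht.le
      refine h3.trans (le_of_eq ?_)
      field_simp
  have h4 := integral_Ioi_of_hasDerivAt_of_tendsto (a := 0)
    (f := fun t => t * e n t) (h1 0).continuousAt.continuousWithinAt (fun t _ => h1 t) hi ht
  rw [integral_sub ((int_e n).const_mul _) ((int_e (n + 1)).const_mul _),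
    integral_const_mul, integral_const_mul] at h4
  simp only [zero_mul, sub_zero] at h4
  unfold I
  linarith

private lemma hasDeriv_S (n : ℕ) {x : ℝ} (hx : 0 < x) :
    HasDerivAt (S n) ((-(4 * n : ℝ) * S n x + 4 * Real.pi * S (n + 1) x) / x) x := by
  have hterm : ∀ (j : ℕ) (y : ℝ), 0 < y →
      HasDerivAt (fun y => e n (((j : ℝ) + 1) / y))
        ((-(4 * n : ℝ) * e n (((j : ℝ) + 1) / y) +
          4 * Real.pi * e (n + 1) (((j : ℝ) + 1) / y)) / y) y := by
    intro j y hy
    have h1 : HasDerivAt (fun y : ℝ => ((j : ℝ) + 1) / y) (-((j : ℝ) + 1) / y ^ 2) y := by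
      have := (hasDerivAt_inv hy.ne').const_mul ((j : ℝ) + 1)
      refine (this.congr_deriv ?_)
      field_simp
    have h2 := (hasDeriv_e n (((j : ℝ) + 1) / y)).comp y h1
    refine h2.congr_deriv ?_
    have h3 := mul_d n (((j : ℝ) + 1) / y)
    have h4 : d n (((j : ℝ) + 1) / y) * (-((j : ℝ) + 1) / y ^ 2) =
        -((((j : ℝ) + 1) / y) * d n (((j : ℝ) + 1) / y)) / y := by
      field_simp
    rw [h4, h3]
    ring
  have hS : (-(4 * n : ℝ) * S n x + 4 * Real.pi * S (n + 1) x) / x =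
      ∑' j : ℕ, ((-(4 * n : ℝ) * e n (((j : ℝ) + 1) / x) +
          4 * Real.pi * e (n + 1) (((j : ℝ) + 1) / x)) / x) := by
    rw [tsum_div_const, Summable.tsum_add ((summ_e n hx).mul_left _)
      ((summ_e (n + 1) hx).mul_left _), tsum_mul_left, tsum_mul_left]
    rfl
  rw [hS]
  set D : ℝ := (4 * n : ℝ) * ((n + 1).factorial : ℝ) + 4 * Real.pi * ((n + 1 + 1).factorial : ℝ)
    with hD
  have hD0 : 0 ≤ D := by positivity
  refine hasDerivAt_tsum_of_isPreconnected
    (g' := fun (j : ℕ) (y : ℝ) => ((-(4 * n : ℝ) * e n (((j : ℝ) + 1) / y) +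
          4 * Real.pi * e (n + 1) (((j : ℝ) + 1) / y)) / y))
    (u := fun j : ℕ => D * (2 * x) ^ 2 / (x / 2) * (1 / ((j : ℝ) + 1) ^ 2))
    (t := Ioo (x / 2) (2 * x)) (y₀ := x) (summ_sq.mul_left _) isOpen_Ioo isPreconnected_Ioo
    ?_ ?_ ?_ (summ_e n hx) ?_
  · intro j y hy
    exact hterm j y (lt_trans (by linarith) hy.1)
  · intro j y hy
    have hy0 : 0 < y := lt_trans (by linarith) hy.1
    have hj : (0 : ℝ) < (j : ℝ) + 1 := by positivity
    rw [norm_div, Real.norm_eq_abs, Real.norm_eq_abs, abs_of_pos hy0]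
    have b1 := term_le n hy0 j
    have b2 := term_le (n + 1) hy0 j
    have b3 : 0 ≤ e n (((j : ℝ) + 1) / y) := e_nonneg n (by positivity)
    have b4 : 0 ≤ e (n + 1) (((j : ℝ) + 1) / y) := e_nonneg (n + 1) (by positivity)
    have b5 : |-(4 * n : ℝ) * e n (((j : ℝ) + 1) / y) +
        4 * Real.pi * e (n + 1) (((j : ℝ) + 1) / y)| ≤ D * y ^ 2 * (1 / ((j : ℝ) + 1) ^ 2) := by
      have c1 : |-(4 * n : ℝ) * e n (((j : ℝ) + 1) / y)| =
          (4 * n : ℝ) * e n (((j : ℝ) + 1) / y) := by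
        rw [neg_mul, abs_neg, abs_of_nonneg (by positivity)]
      have c2 : |4 * Real.pi * e (n + 1) (((j : ℝ) + 1) / y)| =
          4 * Real.pi * e (n + 1) (((j : ℝ) + 1) / y) := by
        rw [abs_of_nonneg (by positivity)]
      refine (abs_add_le _ _).trans ?_
      rw [c1, c2]
      have c3 := mul_le_mul_of_nonneg_left b1 (show (0 : ℝ) ≤ 4 * n by positivity)
      have c4 := mul_le_mul_of_nonneg_left b2 (show (0 : ℝ) ≤ 4 * Real.pi by positivity)
      refine (add_le_add c3 c4).trans (le_of_eq ?_)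
      rw [hD]
      ring
    rw [div_le_iff₀ hy0]
    refine b5.trans ?_
    have c5 : D * y ^ 2 ≤ D * (2 * x) ^ 2 := by
      apply mul_le_mul_of_nonneg_left _ hD0
      exact pow_le_pow_left₀ hy0.le hy.2.le 2
    have c6 : (0 : ℝ) ≤ 1 / ((j : ℝ) + 1) ^ 2 := by positivity
    have c7 : D * (2 * x) ^ 2 ≤ D * (2 * x) ^ 2 / (x / 2) * y := by
      have : D * (2 * x) ^ 2 / (x / 2) * y = D * (2 * x) ^ 2 * (y / (x / 2)) := by ring
      rw [this]
      have h7 : 1 ≤ y / (x / 2) := by
        rw [one_le_div (by positivity)]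
        exact hy.1.le
      have h8 : 0 ≤ D * (2 * x) ^ 2 := by positivity
      nlinarith
    calc D * y ^ 2 * (1 / ((j : ℝ) + 1) ^ 2)
        ≤ (D * (2 * x) ^ 2 / (x / 2) * y) * (1 / ((j : ℝ) + 1) ^ 2) :=
          mul_le_mul_of_nonneg_right (c5.trans c7) c6
      _ = _ := by ring
  · exact ⟨by linarith, by linarith⟩
  · exact ⟨by linarith, by linarith⟩

private lemma hasDeriv_R (n : ℕ) {x : ℝ} (hx : 0 < x) :
    HasDerivAt (R n) ((-(4 * n : ℝ) * R n x + 4 * Real.pi * R (n + 1) x) / x) x := by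
  have h1 := (hasDeriv_S n hx).sub ((hasDerivAt_id x).const_mul (I n))
  refine h1.congr_deriv ?_
  have h2 := I_rel n
  simp only [R]
  field_simp
  linear_combination (-x) * h2

private lemma rho_eq (x : ℝ) : rho x = R 0 x := by
  have hf : ∀ t, f t = e 0 t := by
    intro t
    simp [f, e]
  unfold rho R S I I0
  simp only [hf]

theorem rho_bound : ∃ C : ℝ, 0 < C ∧ ∀ x : ℝ, 0 < x → |rho x| ≤ C * min 1 x := by
  obtain ⟨C, hC, h⟩ := R_bound 0
  exact ⟨C, hC, fun x hx => by rw [rho_eq]; exact h x hx⟩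

theorem rho_sep : ∃ C : ℝ, 0 < C ∧ ∀ L : ℝ, 0 < L → ∃ F1 F2 : ℝ → ℝ,
    (∀ w : ℝ, HasDerivAt (fun w : ℝ => Real.exp (-w / 2) * rho (L * Real.exp (w / 2))) (F1 w) w) ∧
    (∀ w : ℝ, HasDerivAt F1 (F2 w) w) ∧ Continuous F2 ∧
    ∀ w ∈ Set.Icc (0 : ℝ) (2 * Real.log 2),
      |Real.exp (-w / 2) * rho (L * Real.exp (w / 2))| ≤ C * min 1 L ∧
      |F1 w| ≤ C * min 1 L ∧ |F2 w| ≤ C * min 1 L := by
  obtain ⟨C0, hC0, h0⟩ := R_bound 0
  obtain ⟨C1, hC1, h1⟩ := R_bound 1
  obtain ⟨C2, hC2, h2⟩ := R_bound 2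
  refine ⟨2 * (C0 + 24 * Real.pi * C1 + 16 * Real.pi ^ 2 * C2), by positivity, ?_⟩
  intro L hL
  have hX : ∀ w : ℝ, 0 < L * Real.exp (w / 2) := fun w => by positivity
  have hE : ∀ w : ℝ, HasDerivAt (fun w : ℝ => Real.exp (-w / 2))
      (-(1 / 2) * Real.exp (-w / 2)) w := by
    intro w
    have := (((hasDerivAt_id w).neg).div_const 2).exp
    refine this.congr_deriv ?_
    simp only [Pi.neg_apply, id]
    ring
  have hXd : ∀ w : ℝ, HasDerivAt (fun w : ℝ => L * Real.exp (w / 2))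
      ((L * Real.exp (w / 2)) / 2) w := by
    intro w
    have := ((((hasDerivAt_id w)).div_const 2).exp).const_mul L
    refine this.congr_deriv ?_
    simp only [id]
    ring
  have hR : ∀ (n : ℕ) (w : ℝ), HasDerivAt (fun w : ℝ => R n (L * Real.exp (w / 2)))
      (-(2 * n : ℝ) * R n (L * Real.exp (w / 2)) +
        2 * Real.pi * R (n + 1) (L * Real.exp (w / 2))) w := by
    intro n w
    have h3 := (hasDeriv_R n (hX w)).comp w (hXd w)
    refine h3.congr_deriv ?_
    have := (hX w).ne'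
    field_simp
    ring
  refine ⟨fun w => Real.exp (-w / 2) * (-(1 / 2) * R 0 (L * Real.exp (w / 2)) +
      2 * Real.pi * R 1 (L * Real.exp (w / 2))),
    fun w => Real.exp (-w / 2) * ((1 / 4) * R 0 (L * Real.exp (w / 2)) -
      6 * Real.pi * R 1 (L * Real.exp (w / 2)) +
      4 * Real.pi ^ 2 * R 2 (L * Real.exp (w / 2))), ?_, ?_, ?_, ?_⟩
  · intro w
    have h4 := (hE w).mul (hR 0 w)
    simp only [rho_eq]
    refine h4.congr_deriv ?_
    push_cast
    ring
  · intro w
    have h5 := ((hR 0 w).const_mul (-(1 / 2) : ℝ)).add ((hR 1 w).const_mul (2 * Real.pi))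
    have h4 := (hE w).mul h5
    refine h4.congr_deriv ?_
    simp only [Pi.add_apply]
    push_cast
    ring
  · have hc : ∀ n : ℕ, Continuous (fun w : ℝ => R n (L * Real.exp (w / 2))) := fun n =>
      continuous_iff_continuousAt.2 fun w => (hR n w).continuousAt
    have c0 := hc 0
    have c1 := hc 1
    have c2 := hc 2
    fun_prop
  · intro w hw
    have hb : ∀ (n : ℕ) (C : ℝ), 0 < C → (∀ x : ℝ, 0 < x → |R n x| ≤ C * min 1 x) →
        |R n (L * Real.exp (w / 2))| ≤ C * (2 * min 1 L) := by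
      intro n C hC hn
      refine (hn _ (hX w)).trans ?_
      apply mul_le_mul_of_nonneg_left _ hC.le
      have h6 : Real.exp (w / 2) ≤ 2 := by
        have : w / 2 ≤ Real.log 2 := by linarith [hw.2]
        calc Real.exp (w / 2) ≤ Real.exp (Real.log 2) := Real.exp_le_exp.2 this
          _ = 2 := Real.exp_log (by norm_num)
      have h7 : L * Real.exp (w / 2) ≤ 2 * L := by nlinarith
      rcases le_total 1 L with h | h
      · rw [min_eq_left h]
        exact (min_le_left _ _).trans (by norm_num)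
      · rw [min_eq_right h]
        exact (min_le_right _ _).trans h7
    have b0 := hb 0 C0 hC0 h0
    have b1 := hb 1 C1 hC1 h1
    have b2 := hb 2 C2 hC2 h2
    have hm : 0 < min 1 L := lt_min one_pos hL
    have hexp : Real.exp (-w / 2) ≤ 1 := by
      apply Real.exp_le_one_iff.2
      have := hw.1
      linarith
    have hexp0 : 0 ≤ Real.exp (-w / 2) := (Real.exp_pos _).le
    have hmul : ∀ (y B : ℝ), |y| ≤ B → |Real.exp (-w / 2) * y| ≤ B := by
      intro y B hy
      rw [abs_mul, abs_of_nonneg hexp0]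
      have := abs_nonneg y
      nlinarith
    have hpi := Real.pi_pos
    have p0 : 0 < C0 * min 1 L := by positivity
    have p1 : 0 < Real.pi * (C1 * min 1 L) := by positivity
    have p2 : 0 < Real.pi ^ 2 * (C2 * min 1 L) := by positivity
    have q1 : |Real.pi * R 1 (L * Real.exp (w / 2))| ≤ Real.pi * (C1 * (2 * min 1 L)) := by
      rw [abs_mul, abs_of_pos hpi]
      exact mul_le_mul_of_nonneg_left b1 hpi.le
    have q2 : |Real.pi ^ 2 * R 2 (L * Real.exp (w / 2))| ≤ Real.pi ^ 2 * (C2 * (2 * min 1 L)) := by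
      rw [abs_mul, abs_of_pos (pow_pos hpi 2)]
      exact mul_le_mul_of_nonneg_left b2 (by positivity)
    rw [abs_le] at b0 q1 q2
    refine ⟨?_, ?_, ?_⟩
    · apply hmul
      rw [rho_eq, abs_le]
      constructor <;> nlinarith
    · apply hmul
      rw [abs_le]
      constructor <;> nlinarith
    · apply hmul
      rw [abs_le]
      constructor <;> nlinarith

end HBQ
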