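import Pool.Agent.Lib.HBQ.LSaux
import Pool.Agent.Lib.HBQ.Rho

set_option autoImplicit false

namespace HBQ

private theorem dir_abs_mu_le (d : ℕ) : |mu d| ≤ 1 := by
  unfold mu
  rw [← Int.cast_abs]
  exact_mod_cast ArithmeticFunction.abs_moebius_le_one

private theorem dir_J_mul_right (k a b : ℕ) (ha : a ≠ 0) (hb : b ≠ 0) :
    J k (a * b) = J k a * J k b := by
  unfold J
  have : NeZero a := ⟨ha⟩
  have : NeZero b := ⟨hb⟩
  rw [jacobiSym.mul_right]
  push_cast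
  rfl

/-- parametrisation of the divisors of the lcm -/
private theorem dir_lcm (B n1 n2 : ℕ) (h1 : Squarefree n1) (h2 : Squarefree n2)
    (hn1 : n1 ≤ B) (hn2 : n2 ≤ B) (g : ℕ → ℝ) :
    ∑ d ∈ (Nat.lcm n1 n2).divisors, g d =
      ∑ p ∈ Finset.Icc 1 B ×ˢ Finset.Icc 1 B,
        (if p.1 ∣ n1 ∧ Nat.Coprime p.2 n1 then (1 : ℝ) else 0) *
        (if p.2 ∣ n2 then (1 : ℝ) else 0) * g (p.1 * p.2) := by
  have h10 : n1 ≠ 0 := h1.ne_zero
  have h20 : n2 ≠ 0 := h2.ne_zero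
  have hsq : Squarefree (Nat.lcm n1 n2) := by
    rw [Nat.squarefree_iff_prime_squarefree]
    intro p hp hpp
    have h3 : p * p ∣ n1 ∨ p * p ∣ n2 := by
      have h4 := (Nat.Prime.pow_dvd_iff_le_factorization hp (Nat.lcm_ne_zero h10 h20)).1
        (by rw [pow_two]; exact hpp : p ^ 2 ∣ _)
      rw [Nat.factorization_lcm h10 h20, Finsupp.sup_apply, le_sup_iff] at h4
      rcases h4 with h4 | h4
      · left
        rw [← pow_two]
        exact (Nat.Prime.pow_dvd_iff_le_factorization hp h10).2 h4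
      · right
        rw [← pow_two]
        exact (Nat.Prime.pow_dvd_iff_le_factorization hp h20).2 h4
    rcases h3 with h3 | h3
    · exact Nat.squarefree_iff_prime_squarefree.1 h1 p hp h3
    · exact Nat.squarefree_iff_prime_squarefree.1 h2 p hp h3
  have e1 : ∀ p : ℕ × ℕ, (if p.1 ∣ n1 ∧ Nat.Coprime p.2 n1 then (1 : ℝ) else 0) *
        (if p.2 ∣ n2 then (1 : ℝ) else 0) * g (p.1 * p.2) =
      if (p.1 ∣ n1 ∧ Nat.Coprime p.2 n1) ∧ p.2 ∣ n2 then g (p.1 * p.2) else 0 := by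
    intro p
    by_cases ha : p.1 ∣ n1 ∧ Nat.Coprime p.2 n1 <;> by_cases hb : p.2 ∣ n2 <;> simp [ha, hb]
  simp only [e1]
  rw [← Finset.sum_filter]
  refine Finset.sum_bij' (fun d _ => (Nat.gcd d n1, d / Nat.gcd d n1)) (fun p _ => p.1 * p.2)
    ?_ ?_ ?_ ?_ ?_
  · intro d hd
    have hdd := Nat.dvd_of_mem_divisors hd
    have hd0 : 0 < d := Nat.pos_of_mem_divisors hd
    have hg0 : 0 < Nat.gcd d n1 := Nat.gcd_pos_of_pos_left _ hd0
    have hq : d / Nat.gcd d n1 * Nat.gcd d n1 = d := Nat.div_mul_cancel (Nat.gcd_dvd_left _ _)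
    have hdsq : Squarefree d := hsq.squarefree_of_dvd hdd
    have hcop : Nat.Coprime (d / Nat.gcd d n1) n1 := by
      refine Nat.coprime_of_dvd fun p hp hp1 hp2 => ?_
      have h5 : p ∣ d := hp1.trans (Dvd.intro _ hq)
      have h6 : p ∣ Nat.gcd d n1 := Nat.dvd_gcd h5 hp2
      have h7 : p * p ∣ d := by
        rw [← hq]
        exact mul_dvd_mul hp1 h6
      exact Nat.squarefree_iff_prime_squarefree.1 hdsq p hp h7
    have hdn : d ∣ n1 * n2 := hdd.trans (Nat.lcm_dvd_mul n1 n2)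
    have h2' : d / Nat.gcd d n1 ∣ n2 := by
      have h8 : d / Nat.gcd d n1 ∣ n1 * n2 := (Dvd.intro _ hq).trans hdn
      exact hcop.dvd_of_dvd_mul_left h8
    have hq0 : 0 < d / Nat.gcd d n1 := by
      rcases Nat.eq_zero_or_pos (d / Nat.gcd d n1) with h | h
      · rw [h, zero_mul] at hq
        omega
      · exact h
    refine Finset.mem_filter.2 ⟨Finset.mem_product.2 ⟨Finset.mem_Icc.2 ⟨hg0, ?_⟩,
      Finset.mem_Icc.2 ⟨hq0, ?_⟩⟩, ⟨Nat.gcd_dvd_right _ _, hcop⟩, h2'⟩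
    · exact (Nat.le_of_dvd (Nat.pos_of_ne_zero h10) (Nat.gcd_dvd_right _ _)).trans hn1
    · exact (Nat.le_of_dvd (Nat.pos_of_ne_zero h20) h2').trans hn2
  · intro p hp
    obtain ⟨_, ⟨ha, hb⟩, hc⟩ := Finset.mem_filter.1 hp
    rw [Nat.mem_divisors]
    refine ⟨?_, Nat.lcm_ne_zero h10 h20⟩
    have h8 : Nat.Coprime p.1 p.2 := (hb.coprime_dvd_right ha).symm
    exact h8.mul_dvd_of_dvd_of_dvd (ha.trans (Nat.dvd_lcm_left _ _))
      (hc.trans (Nat.dvd_lcm_right _ _))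
  · intro d hd
    change Nat.gcd d n1 * (d / Nat.gcd d n1) = d
    exact Nat.mul_div_cancel' (Nat.gcd_dvd_left _ _)
  · intro p hp
    obtain ⟨hm, ⟨ha, hb⟩, hc⟩ := Finset.mem_filter.1 hp
    rw [Finset.mem_product, Finset.mem_Icc] at hm
    have h8 : Nat.gcd (p.1 * p.2) n1 = p.1 := by
      rw [Nat.Coprime.gcd_mul_right_cancel p.1 hb]
      exact Nat.gcd_eq_left ha
    change (Nat.gcd (p.1 * p.2) n1, p.1 * p.2 / Nat.gcd (p.1 * p.2) n1) = p
    rw [h8, Nat.mul_div_cancel_left _ hm.1.1]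
  · intro d hd
    change g d = g (Nat.gcd d n1 * (d / Nat.gcd d n1))
    rw [Nat.mul_div_cancel' (Nat.gcd_dvd_left _ _)]

/-- the separated form of the direct remainder -/
private theorem dir_sep (N i k : ℕ) (M : ℝ) (a : ℕ → ℝ) (ha : Good N i a) :
    ∑ n1 ∈ Finset.Icc 1 (2 * N), ∑ n2 ∈ Finset.Icc 1 (2 * N), a n1 * a n2 * remdir M k n1 n2 =
      ∑ p ∈ Finset.Icc 1 (2 * N) ×ˢ Finset.Icc 1 (2 * N),
        mu (p.1 * p.2) * rho (Real.sqrt (M / k) / (p.1 * p.2 : ℕ)) *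
        ((∑ n ∈ (Finset.Icc 1 (2 * N)).filter (fun n => p.1 ∣ n),
            (if Nat.Coprime p.2 n then a n else 0) * J k n) *
          (∑ n ∈ (Finset.Icc 1 (2 * N)).filter (fun n => p.2 ∣ n), a n * J k n)) := by
  have e1 : ∀ n1 ∈ Finset.Icc 1 (2 * N), ∀ n2 ∈ Finset.Icc 1 (2 * N),
      a n1 * a n2 * remdir M k n1 n2 =
      ∑ p ∈ Finset.Icc 1 (2 * N) ×ˢ Finset.Icc 1 (2 * N),
        mu (p.1 * p.2) * rho (Real.sqrt (M / k) / (p.1 * p.2 : ℕ)) *
        ((if p.1 ∣ n1 then (if Nat.Coprime p.2 n1 then a n1 else 0) * J k n1 else 0) *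
        (if p.2 ∣ n2 then a n2 * J k n2 else 0)) := by
    intro n1 h1 n2 h2
    rw [Finset.mem_Icc] at h1 h2
    by_cases ha1 : a n1 = 0
    · rw [ha1, zero_mul, zero_mul]
      symm
      refine Finset.sum_eq_zero fun p _ => ?_
      simp
    by_cases ha2 : a n2 = 0
    · rw [ha2, mul_zero, zero_mul]
      symm
      refine Finset.sum_eq_zero fun p _ => ?_
      simp
    have hs1 := (ha.2 n1 ha1).2.2.1
    have hs2 := (ha.2 n2 ha2).2.2.1
    unfold remdir
    rw [dir_lcm (2 * N) n1 n2 hs1 hs2 h1.2 h2.2, dir_J_mul_right k n1 n2 hs1.ne_zero hs2.ne_zero,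
      Finset.mul_sum, Finset.mul_sum]
    refine Finset.sum_congr rfl fun p _ => ?_
    by_cases hA : p.1 ∣ n1
    · by_cases hB : Nat.Coprime p.2 n1
      · rw [if_pos ⟨hA, hB⟩, if_pos hA, if_pos hB]
        by_cases hC : p.2 ∣ n2
        · rw [if_pos hC, if_pos hC]
          ring
        · rw [if_neg hC, if_neg hC]
          ring
      · rw [if_neg (fun h => hB h.2), if_pos hA, if_neg hB]
        ring
    · rw [if_neg (fun h => hA h.1), if_neg hA]
      ring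
  rw [Finset.sum_congr rfl fun n1 h1 => Finset.sum_congr rfl fun n2 h2 => e1 n1 h1 n2 h2]
  rw [← Finset.sum_product' (s := Finset.Icc 1 (2 * N)) (t := Finset.Icc 1 (2 * N))
    (f := fun n1 n2 => ∑ p ∈ Finset.Icc 1 (2 * N) ×ˢ Finset.Icc 1 (2 * N),
        mu (p.1 * p.2) * rho (Real.sqrt (M / k) / (p.1 * p.2 : ℕ)) *
        ((if p.1 ∣ n1 then (if Nat.Coprime p.2 n1 then a n1 else 0) * J k n1 else 0) *
        (if p.2 ∣ n2 then a n2 * J k n2 else 0))), Finset.sum_comm]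
  refine Finset.sum_congr rfl fun p _ => ?_
  rw [← Finset.mul_sum, Finset.sum_filter, Finset.sum_filter, Finset.sum_mul_sum,
    ← Finset.sum_product']

/-- one variable -/
private theorem dir_ls (N K d : ℕ) (X kap : ℝ) (hX : 0 ≤ X) (hkap : 0 ≤ kap) (a b : ℕ → ℝ)
    (hb : ∀ n, b n ≠ 0 → Squarefree n ∧ n % 2 = 1) (hab : ∀ n, b n ^ 2 ≤ a n ^ 2)
    (hK : 1 ≤ K) (hd : 1 ≤ d)
    (hLS : ∀ L : ℕ, 1 ≤ L → L ≤ 2 * N → LS (2 * K) L (X * (L + kap))) :
    ∑ k ∈ (Finset.Ico K (2 * K)).filter Squarefree,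
        (∑ n ∈ (Finset.Icc 1 (2 * N)).filter (fun n => d ∣ n), b n * J k n) ^ 2 ≤
      2 * X * (2 * N / d + kap) *
        ∑ n ∈ (Finset.Icc 1 (2 * N)).filter (fun n => d ∣ n), a n ^ 2 := by
  have h1 := ls_mult (2 * K) (2 * N) d hd (X * ((2 * N / d : ℕ) + kap)) (by positivity)
    (fun h => hLS _ h (Nat.div_le_self _ _)) b hb
  have h2 : ∑ k ∈ (Finset.Ico K (2 * K)).filter Squarefree,
        (∑ n ∈ (Finset.Icc 1 (2 * N)).filter (fun n => d ∣ n), b n * J k n) ^ 2 ≤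
      ∑ k ∈ (Finset.Icc 1 (2 * K)).filter Squarefree,
        (∑ n ∈ (Finset.Icc 1 (2 * N)).filter (fun n => d ∣ n), b n * J k n) ^ 2 := by
    refine Finset.sum_le_sum_of_subset_of_nonneg ?_ fun _ _ _ => sq_nonneg _
    refine Finset.filter_subset_filter _ fun k hk => ?_
    rw [Finset.mem_Ico] at hk
    exact Finset.mem_Icc.2 ⟨by omega, by omega⟩
  have h3 : ∑ n ∈ (Finset.Icc 1 (2 * N)).filter (fun n => d ∣ n), b n ^ 2 ≤
      ∑ n ∈ (Finset.Icc 1 (2 * N)).filter (fun n => d ∣ n), a n ^ 2 :=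
    Finset.sum_le_sum fun n _ => hab n
  have h4 : ((2 * N / d : ℕ) : ℝ) ≤ 2 * N / d := by
    have h5 := Nat.cast_div_le (α := ℝ) (m := 2 * N) (n := d)
    push_cast at h5
    exact h5
  have h6 : 0 ≤ ∑ n ∈ (Finset.Icc 1 (2 * N)).filter (fun n => d ∣ n), b n ^ 2 :=
    Finset.sum_nonneg fun _ _ => sq_nonneg _
  refine h2.trans (h1.trans ?_)
  have h7 : 2 * (X * (((2 * N / d : ℕ) : ℝ) + kap)) ≤ 2 * X * (2 * N / d + kap) := by
    rw [mul_assoc 2 X]
    gcongr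
  exact mul_le_mul h7 h3 h6 (by positivity)

private theorem dir_sum_inv (n : ℕ) :
    ∑ d ∈ Finset.Icc 1 n, 1 / (d : ℝ) ≤ 1 + Real.log n := by
  have h1 := harmonic_le_one_add_log n
  rw [harmonic_eq_sum_Icc] at h1
  push_cast at h1
  simpa [one_div] using h1

private theorem dir_num {N p1 p2 : ℕ} {kap T m : ℝ} (hp1 : 1 ≤ p1) (hp2 : 1 ≤ p2)
    (hkap : 0 ≤ kap) (hT : 0 ≤ T) (hm0 : 0 ≤ m) (hm1 : m ≤ 1)
    (hmT : m ≤ T / (p1 * p2 : ℕ)) :
    m * (Real.sqrt (2 * N / p1 + kap) * Real.sqrt (2 * N / p2 + kap)) ≤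
      3 * (N + Real.sqrt (N * kap * T) + kap * Real.sqrt T) *
        (1 / Real.sqrt p1 * (1 / Real.sqrt p2)) := by
  have hp1' : (1 : ℝ) ≤ p1 := by exact_mod_cast hp1
  have hp2' : (1 : ℝ) ≤ p2 := by exact_mod_cast hp2
  set s1 := Real.sqrt (p1 : ℝ) with hs1
  set s2 := Real.sqrt (p2 : ℝ) with hs2
  have hs1' : 1 ≤ s1 := Real.one_le_sqrt.2 hp1'
  have hs2' : 1 ≤ s2 := Real.one_le_sqrt.2 hp2'
  have hs10 : 0 < s1 := by linarith
  have hs20 : 0 < s2 := by linarith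
  have hN : (0 : ℝ) ≤ N := Nat.cast_nonneg N
  have hmm : m ≤ Real.sqrt T * (1 / s1 * (1 / s2)) := by
    have h1 : m ≤ Real.sqrt (T / (p1 * p2 : ℕ)) := by
      have h2 : m ^ 2 ≤ T / (p1 * p2 : ℕ) := by nlinarith
      exact Real.le_sqrt_of_sq_le h2
    refine h1.trans (le_of_eq ?_)
    rw [Nat.cast_mul, Real.sqrt_div hT, Real.sqrt_mul (by positivity), ← hs1, ← hs2]
    field_simp
  have hu : ∀ s p : ℝ, 0 < p → s = Real.sqrt p →
      Real.sqrt (2 * N / p + kap) ≤ Real.sqrt (2 * N) * (1 / s) + Real.sqrt kap := by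
    intro s p hp hs
    have h1 : Real.sqrt (2 * N / p + kap) ≤ Real.sqrt (2 * N / p) + Real.sqrt kap := by
      rw [Real.sqrt_le_left (by positivity)]
      have h2 := Real.sq_sqrt (show 0 ≤ 2 * N / p by positivity)
      have h3 := Real.sq_sqrt hkap
      have h4 : 0 ≤ Real.sqrt (2 * N / p) * Real.sqrt kap := by positivity
      nlinarith
    rw [Real.sqrt_div (by positivity), ← hs] at h1
    refine h1.trans (le_of_eq ?_)
    ring
  have h1 := hu s1 p1 (by linarith) hs1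
  have h2 := hu s2 p2 (by linarith) hs2
  set r := Real.sqrt (2 * N : ℝ) with hr
  set q := Real.sqrt kap with hq
  set t := Real.sqrt T with ht
  set i1 := 1 / s1 with hi1
  set i2 := 1 / s2 with hi2
  have hi10 : 0 < i1 := by positivity
  have hi20 : 0 < i2 := by positivity
  have hi11 : i1 ≤ 1 := by
    rw [hi1, div_le_one hs10]
    exact hs1'
  have hi21 : i2 ≤ 1 := by
    rw [hi2, div_le_one hs20]
    exact hs2'
  have hr0 : 0 ≤ r := Real.sqrt_nonneg _
  have hq0 : 0 ≤ q := Real.sqrt_nonneg _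
  have ht0 : 0 ≤ t := Real.sqrt_nonneg _
  have hr2 : r * r = 2 * N := Real.mul_self_sqrt (by positivity)
  have hq2 : q * q = kap := Real.mul_self_sqrt hkap
  have hR : Real.sqrt (N * kap * T) = Real.sqrt N * q * t := by
    rw [Real.sqrt_mul (by positivity), Real.sqrt_mul hN]
  have hrN : r ≤ 3 / 2 * Real.sqrt N := by
    rw [hr, Real.sqrt_le_left (by positivity), mul_pow, Real.sq_sqrt hN]
    nlinarith
  rw [hR]
  have h3 : m * (Real.sqrt (2 * N / p1 + kap) * Real.sqrt (2 * N / p2 + kap)) ≤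
      m * ((r * i1 + q) * (r * i2 + q)) := by gcongr
  refine h3.trans ?_
  have e1 : m * ((r * i1 + q) * (r * i2 + q)) =
      m * (r * r * (i1 * i2)) + m * (r * q * (i1 + i2)) + m * (q * q) := by ring
  rw [e1, hr2, hq2]
  have hii : 0 < i1 * i2 := by positivity
  have h4 : m * (2 * N * (i1 * i2)) ≤ 2 * N * (i1 * i2) :=
    mul_le_of_le_one_left (by positivity) hm1
  have h5 : m * (r * q * (i1 + i2)) ≤ t * (i1 * i2) * (3 / 2 * Real.sqrt N * q * 2) := by
    refine mul_le_mul hmm ?_ (by positivity) (by positivity)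
    gcongr
    linarith
  have h6 : m * kap ≤ t * (i1 * i2) * kap := mul_le_mul_of_nonneg_right hmm hkap
  have h7 : 0 ≤ N * (i1 * i2) := by positivity
  have h8 : 0 ≤ kap * t * (i1 * i2) := by positivity
  nlinarith

/-- Direct remainder, dyadic block of `k`. PROOF. For squarefree `n1, n2`, the divisors `d` of `lcm n1 n2` are
the products `d1 d2` with `d1 = gcd(d, n1) | n1`, `d2 | n2`, `gcd(d2, n1) = 1`; this separates `n1` and `n2`:
`|sum| <= sum_{d1,d2 <= 2N} |rho(sqrt(M/k)/(d1 d2))| |X(k)| |Y(k)|`, `X(k) = sum_{d1 | n1, (d2,n1)=1} a J k n1`,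
`Y(k) = sum_{d2 | n2} a J k n2`. `|rho| <= C min(1, T/(d1 d2))`, `T = sqrt(M/K)`. Cauchy in `k` and
`ls_mult` (`LS (2K) L` with `L = 2N/d`): `sum_k X^2 <= 2 X (2N/d1 + kap) alpha(d1)^2`,
`alpha(d)^2 = sum_{d | n} a_n^2`. Expand `sqrt((p+kap)(q+kap)) <= sqrt(pq) + sqrt(p kap) + sqrt(q kap) + kap` and use
`min(1,T/(d1 d2)) <= 1` for the first term, `<= sqrt(T/(d1 d2))` for the others: everything is at most
`(N + sqrt(N kap T) + kap sqrt T) * const * (d1 d2)^(-1/2) alpha(d1) alpha(d2)`, and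
`(sum_d d^(-1/2) alpha(d))^2 <= (sum_{d<=2N} 1/d) (sum_d alpha(d)^2) <= (1 + log 2N) D E`. -/
theorem dir_bound : ∃ C0 : ℝ, 0 < C0 ∧ ∀ (N K i D : ℕ) (M X kap : ℝ) (a : ℕ → ℝ),
    1 ≤ N → 1 ≤ K → 0 < M → 0 ≤ X → 0 ≤ kap → Good N i a →
    (∀ n ∈ Finset.Icc 1 (2 * N), n.divisors.card ≤ D) →
    (∀ L : ℕ, 1 ≤ L → L ≤ 2 * N → LS (2 * K) L (X * (L + kap))) →
    ∑ k ∈ (Finset.Ico K (2 * K)).filter Squarefree,
        |∑ n1 ∈ Finset.Icc 1 (2 * N), ∑ n2 ∈ Finset.Icc 1 (2 * N),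
          a n1 * a n2 * remdir M k n1 n2| ≤
      C0 * X * D * (1 + Real.log (2 * N)) *
        (N + Real.sqrt (N * kap * Real.sqrt (M / K)) + kap * Real.sqrt (Real.sqrt (M / K))) *
        E a (2 * N) := by
  obtain ⟨C, hC, hrho⟩ := rho_bound
  refine ⟨6 * C, by positivity, ?_⟩
  intro N K i D M X kap a hN hK hM hX hkap ha hD hLS
  set T : ℝ := Real.sqrt (M / K) with hT
  have hK0 : (0 : ℝ) < K := by exact_mod_cast hK
  have hT0 : 0 < T := Real.sqrt_pos.2 (by positivity)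
  set P := Finset.Icc 1 (2 * N) ×ˢ Finset.Icc 1 (2 * N) with hP
  set S := (Finset.Ico K (2 * K)).filter Squarefree with hS
  let al : ℕ → ℝ := fun d =>
    Real.sqrt (∑ n ∈ (Finset.Icc 1 (2 * N)).filter (fun n => d ∣ n), a n ^ 2)
  let m : ℕ × ℕ → ℝ := fun p => min 1 (T / (p.1 * p.2 : ℕ))
  let XX : ℕ × ℕ → ℕ → ℝ := fun p k => ∑ n ∈ (Finset.Icc 1 (2 * N)).filter (fun n => p.1 ∣ n),
    (if Nat.Coprime p.2 n then a n else 0) * J k n
  let YY : ℕ × ℕ → ℕ → ℝ := fun p k => ∑ n ∈ (Finset.Icc 1 (2 * N)).filter (fun n => p.2 ∣ n),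
    a n * J k n
  have hodd : ∀ n, a n ≠ 0 → Squarefree n ∧ n % 2 = 1 := by
    intro n hn
    obtain ⟨h1, h2⟩ := ha
    obtain ⟨_, _, h5, h6⟩ := h2 n hn
    refine ⟨h5, ?_⟩
    rcases h1 with h1 | h1 <;> omega
  have hpt : ∀ k ∈ S, |∑ n1 ∈ Finset.Icc 1 (2 * N), ∑ n2 ∈ Finset.Icc 1 (2 * N),
      a n1 * a n2 * remdir M k n1 n2| ≤ ∑ p ∈ P, C * m p * (|XX p k| * |YY p k|) := by
    intro k hk
    rw [dir_sep N i k M a ha]
    refine le_trans (Finset.abs_sum_le_sum_abs _ _) (Finset.sum_le_sum fun p hp => ?_)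
    rw [Finset.mem_product, Finset.mem_Icc, Finset.mem_Icc] at hp
    have hk1 := (Finset.mem_filter.1 hk).1
    rw [Finset.mem_Ico] at hk1
    have hk0 : (0 : ℝ) < k := by
      have : 0 < k := by omega
      exact_mod_cast this
    have hpp : (0 : ℝ) < (p.1 * p.2 : ℕ) := by
      have : 0 < p.1 * p.2 := Nat.mul_pos hp.1.1 hp.2.1
      exact_mod_cast this
    rw [abs_mul, abs_mul, abs_mul]
    refine mul_le_mul_of_nonneg_right ?_ (by positivity)
    refine le_trans (mul_le_of_le_one_left (abs_nonneg _) (dir_abs_mu_le _)) ?_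
    refine le_trans (hrho _ (by positivity)) ?_
    refine mul_le_mul_of_nonneg_left (min_le_min le_rfl ?_) hC.le
    refine div_le_div_of_nonneg_right ?_ hpp.le
    refine Real.sqrt_le_sqrt ?_
    refine div_le_div_of_nonneg_left hM.le hK0 ?_
    exact_mod_cast hk1.1
  refine le_trans (Finset.sum_le_sum hpt) ?_
  rw [Finset.sum_comm]
  have hp1 : ∀ p ∈ P, ∑ k ∈ S, C * m p * (|XX p k| * |YY p k|) ≤
      6 * C * X * (N + Real.sqrt (N * kap * T) + kap * Real.sqrt T) *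
        (al p.1 * (1 / Real.sqrt p.1) * (al p.2 * (1 / Real.sqrt p.2))) := by
    intro p hp
    rw [hP, Finset.mem_product, Finset.mem_Icc, Finset.mem_Icc] at hp
    rw [← Finset.mul_sum]
    have hm0 : 0 ≤ m p := le_min zero_le_one (by positivity)
    have h1 : ∑ k ∈ S, |XX p k| * |YY p k| ≤
        Real.sqrt (∑ k ∈ S, XX p k ^ 2) * Real.sqrt (∑ k ∈ S, YY p k ^ 2) := by
      have h2 := Real.sum_mul_le_sqrt_mul_sqrt S (fun k => |XX p k|) (fun k => |YY p k|)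
      simpa only [sq_abs] using h2
    have h3 : ∑ k ∈ S, XX p k ^ 2 ≤ 2 * X * (2 * N / p.1 + kap) *
        ∑ n ∈ (Finset.Icc 1 (2 * N)).filter (fun n => p.1 ∣ n), a n ^ 2 := by
      refine dir_ls N K p.1 X kap hX hkap a (fun n => if Nat.Coprime p.2 n then a n else 0)
        ?_ ?_ hK hp.1.1 hLS
      · intro n hn
        refine hodd n fun h => hn ?_
        change (if Nat.Coprime p.2 n then a n else 0) = 0
        rw [h, ite_self]
      · intro n
        change (if Nat.Coprime p.2 n then a n else 0) ^ 2 ≤ _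
        split_ifs
        · exact le_rfl
        · rw [zero_pow two_ne_zero]
          exact sq_nonneg _
    have h4 : ∑ k ∈ S, YY p k ^ 2 ≤ 2 * X * (2 * N / p.2 + kap) *
        ∑ n ∈ (Finset.Icc 1 (2 * N)).filter (fun n => p.2 ∣ n), a n ^ 2 :=
      dir_ls N K p.2 X kap hX hkap a a hodd (fun n => le_rfl) hK hp.2.1 hLS
    have h5 : Real.sqrt (∑ k ∈ S, XX p k ^ 2) ≤
        Real.sqrt (2 * X) * Real.sqrt (2 * N / p.1 + kap) * al p.1 := by
      refine (Real.sqrt_le_sqrt h3).trans (le_of_eq ?_)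
      rw [Real.sqrt_mul (by positivity), Real.sqrt_mul (by positivity)]
    have h6 : Real.sqrt (∑ k ∈ S, YY p k ^ 2) ≤
        Real.sqrt (2 * X) * Real.sqrt (2 * N / p.2 + kap) * al p.2 := by
      refine (Real.sqrt_le_sqrt h4).trans (le_of_eq ?_)
      rw [Real.sqrt_mul (by positivity), Real.sqrt_mul (by positivity)]
    have h7 : ∑ k ∈ S, |XX p k| * |YY p k| ≤
        2 * X * (Real.sqrt (2 * N / p.1 + kap) * Real.sqrt (2 * N / p.2 + kap)) *
          (al p.1 * al p.2) := by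
      refine h1.trans ((mul_le_mul h5 h6 (Real.sqrt_nonneg _) (by positivity)).trans
        (le_of_eq ?_))
      have e := Real.mul_self_sqrt (show 0 ≤ 2 * X by positivity)
      linear_combination (Real.sqrt (2 * N / p.1 + kap) * Real.sqrt (2 * N / p.2 + kap) *
        (al p.1 * al p.2)) * e
    have h8 := dir_num (N := N) (p1 := p.1) (p2 := p.2) (kap := kap) (T := T) (m := m p)
      hp.1.1 hp.2.1 hkap hT0.le hm0 (min_le_left _ _) (min_le_right _ _)
    have hal : 0 ≤ al p.1 * al p.2 := mul_nonneg (Real.sqrt_nonneg _) (Real.sqrt_nonneg _)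
    calc C * m p * ∑ k ∈ S, |XX p k| * |YY p k|
        ≤ C * m p * (2 * X * (Real.sqrt (2 * N / p.1 + kap) * Real.sqrt (2 * N / p.2 + kap)) *
          (al p.1 * al p.2)) := mul_le_mul_of_nonneg_left h7 (by positivity)
      _ = C * (2 * X) * (al p.1 * al p.2) *
          (m p * (Real.sqrt (2 * N / p.1 + kap) * Real.sqrt (2 * N / p.2 + kap))) := by ring
      _ ≤ C * (2 * X) * (al p.1 * al p.2) *
          (3 * (N + Real.sqrt (N * kap * T) + kap * Real.sqrt T) *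
            (1 / Real.sqrt p.1 * (1 / Real.sqrt p.2))) :=
          mul_le_mul_of_nonneg_left h8 (by positivity)
      _ = _ := by ring
  refine le_trans (Finset.sum_le_sum hp1) ?_
  rw [← Finset.mul_sum]
  have h9 : ∑ p ∈ P, al p.1 * (1 / Real.sqrt p.1) * (al p.2 * (1 / Real.sqrt p.2)) =
      (∑ d ∈ Finset.Icc 1 (2 * N), al d * (1 / Real.sqrt d)) ^ 2 := by
    rw [pow_two, Finset.sum_mul_sum, hP, Finset.sum_product]
  rw [h9]
  have h10 := Finset.sum_mul_sq_le_sq_mul_sq (Finset.Icc 1 (2 * N)) al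
    (fun d : ℕ => 1 / Real.sqrt (d : ℝ))
  have h11 : ∑ d ∈ Finset.Icc 1 (2 * N), (1 / Real.sqrt (d : ℝ)) ^ 2 ≤
      1 + Real.log (2 * N) := by
    have h12 := dir_sum_inv (2 * N)
    push_cast at h12
    refine le_trans (le_of_eq ?_) h12
    refine Finset.sum_congr rfl fun d _ => ?_
    rw [div_pow, one_pow, Real.sq_sqrt (Nat.cast_nonneg d)]
  have h13 : ∑ d ∈ Finset.Icc 1 (2 * N), al d ^ 2 ≤ D * E a (2 * N) := by
    have h14 : ∀ d ∈ Finset.Icc 1 (2 * N), al d ^ 2 =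
        ∑ n ∈ Finset.Icc 1 (2 * N), if d ∣ n then a n ^ 2 else 0 := by
      intro d _
      rw [← Finset.sum_filter]
      exact Real.sq_sqrt (Finset.sum_nonneg fun _ _ => sq_nonneg _)
    rw [Finset.sum_congr rfl h14, Finset.sum_comm]
    unfold E
    rw [Finset.mul_sum]
    refine Finset.sum_le_sum fun n hn => ?_
    rw [← Finset.sum_filter, Finset.sum_const, nsmul_eq_mul]
    refine mul_le_mul_of_nonneg_right ?_ (sq_nonneg _)
    have h15 : ((Finset.Icc 1 (2 * N)).filter (fun d => d ∣ n)).card ≤ D := by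
      refine le_trans (Finset.card_le_card ?_) (hD n hn)
      intro d hd
      rw [Finset.mem_Icc] at hn
      exact Nat.mem_divisors.2 ⟨(Finset.mem_filter.1 hd).2, by omega⟩
    exact_mod_cast h15
  have hE : 0 ≤ E a (2 * N) := Finset.sum_nonneg fun _ _ => sq_nonneg _
  have hlog : 0 ≤ 1 + Real.log (2 * N) := by
    have h1 : (1 : ℝ) ≤ 2 * N := by
      have h2 : (1 : ℝ) ≤ N := by exact_mod_cast hN
      linarith
    have := Real.log_nonneg h1
    linarith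
  have h16 : (∑ d ∈ Finset.Icc 1 (2 * N), al d * (1 / Real.sqrt d)) ^ 2 ≤
      D * E a (2 * N) * (1 + Real.log (2 * N)) := by
    refine h10.trans (mul_le_mul h13 h11 (Finset.sum_nonneg fun _ _ => sq_nonneg _)
      (by positivity))
  have h17 := mul_le_mul_of_nonneg_left h16
    (show 0 ≤ 6 * C * X * (N + Real.sqrt (N * kap * T) + kap * Real.sqrt T) by positivity)
  refine h17.trans (le_of_eq ?_)
  ring

end HBQ
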