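import Pool.Agent.Lib.HBQ.Defs

set_option autoImplicit false

namespace HBQ

/-- the seminorm used in the proof -/
private noncomputable def sN (S I1 I2 : Finset ℕ) (x y : ℕ → ℕ → ℝ) (g : ℕ → ℕ → ℝ) : ℝ :=
  ∑ k ∈ S, |∑ i ∈ I1, ∑ j ∈ I2, x k i * y k j * g i j|

private theorem sN_congr (S I1 I2 : Finset ℕ) (x y : ℕ → ℕ → ℝ) (g h : ℕ → ℕ → ℝ)
    (hgh : ∀ i ∈ I1, ∀ j ∈ I2, g i j = h i j) : sN S I1 I2 x y g = sN S I1 I2 x y h := by
  unfold sN
  refine Finset.sum_congr rfl (fun k _ => ?_)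
  congr 1
  refine Finset.sum_congr rfl (fun i hi => Finset.sum_congr rfl (fun j hj => ?_))
  rw [hgh i hi j hj]

private theorem sN_add (S I1 I2 : Finset ℕ) (x y : ℕ → ℕ → ℝ) (g h : ℕ → ℕ → ℝ) :
    sN S I1 I2 x y (fun i j => g i j + h i j) ≤ sN S I1 I2 x y g + sN S I1 I2 x y h := by
  unfold sN
  rw [← Finset.sum_add_distrib]
  refine Finset.sum_le_sum (fun k _ => ?_)
  refine le_trans (le_of_eq ?_) (abs_add_le _ _)
  congr 1
  rw [← Finset.sum_add_distrib]
  refine Finset.sum_congr rfl (fun i _ => ?_)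
  rw [← Finset.sum_add_distrib]
  exact Finset.sum_congr rfl (fun j _ => by ring)

private theorem sN_mul (S I1 I2 : Finset ℕ) (x y : ℕ → ℕ → ℝ) (c : ℝ) (g : ℕ → ℕ → ℝ) :
    sN S I1 I2 x y (fun i j => c * g i j) = |c| * sN S I1 I2 x y g := by
  unfold sN
  rw [Finset.mul_sum]
  refine Finset.sum_congr rfl (fun k _ => ?_)
  rw [← abs_mul, Finset.mul_sum]
  congr 1
  refine Finset.sum_congr rfl (fun i _ => ?_)
  rw [Finset.mul_sum]
  exact Finset.sum_congr rfl (fun j _ => by ring)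

private theorem sN_base (S I1 I2 : Finset ℕ) (x y : ℕ → ℕ → ℝ) (Z : ℝ)
    (hZ : ∀ u v : ℕ → ℝ, (∀ i, |u i| ≤ 1) → (∀ j, |v j| ≤ 1) →
      ∑ k ∈ S, |∑ i ∈ I1, x k i * u i| * |∑ j ∈ I2, y k j * v j| ≤ Z)
    (g : ℕ → ℕ → ℝ) (u v : ℕ → ℝ) (hu : ∀ i ∈ I1, |u i| ≤ 1) (hv : ∀ j ∈ I2, |v j| ≤ 1)
    (hg : ∀ i ∈ I1, ∀ j ∈ I2, g i j = u i * v j) : sN S I1 I2 x y g ≤ Z := by
  classical
  have h1 := hZ (fun i => if i ∈ I1 then u i else 0) (fun j => if j ∈ I2 then v j else 0)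
    (fun i => by
      by_cases h : i ∈ I1
      · simp only [h, if_true]
        exact hu i h
      · simp [h])
    (fun j => by
      by_cases h : j ∈ I2
      · simp only [h, if_true]
        exact hv j h
      · simp [h])
  refine le_trans (le_of_eq ?_) h1
  unfold sN
  refine Finset.sum_congr rfl (fun k _ => ?_)
  rw [← abs_mul, Finset.sum_mul_sum]
  congr 1
  refine Finset.sum_congr rfl (fun i hi => Finset.sum_congr rfl (fun j hj => ?_))
  rw [hg i hi j hj]
  simp only [hi, hj, if_true]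
  ring

private theorem sN_fin (S I1 I2 : Finset ℕ) (x y : ℕ → ℕ → ℝ) (g : ℕ → ℕ → ℕ → ℝ) (b : ℕ → ℝ)
    (hb : ∀ n, sN S I1 I2 x y (g n) ≤ b n) (m : ℕ) :
    sN S I1 I2 x y (fun i j => ∑ n ∈ Finset.range m, g n i j) ≤ ∑ n ∈ Finset.range m, b n := by
  induction m with
  | zero =>
      simp [sN]
  | succ m ih =>
      simp only [Finset.sum_range_succ]
      refine le_trans (sN_add S I1 I2 x y _ _) ?_
      exact add_le_add ih (hb m)

private theorem sN_lim (S I1 I2 : Finset ℕ) (x y : ℕ → ℕ → ℝ) (g : ℕ → ℕ → ℕ → ℝ)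
    (h : ℕ → ℕ → ℝ) (b : ℕ → ℝ) (B : ℝ) (hbB : HasSum b B) (hb0 : ∀ n, 0 ≤ b n)
    (hb : ∀ n, sN S I1 I2 x y (g n) ≤ b n)
    (hg : ∀ i ∈ I1, ∀ j ∈ I2, HasSum (fun n => g n i j) (h i j)) :
    sN S I1 I2 x y h ≤ B := by
  have hlim : Filter.Tendsto (fun m => sN S I1 I2 x y
      (fun i j => ∑ n ∈ Finset.range m, g n i j)) Filter.atTop
      (nhds (sN S I1 I2 x y h)) := by
    unfold sN
    refine tendsto_finsetSum _ (fun k _ => ?_)
    refine Filter.Tendsto.abs ?_
    refine tendsto_finsetSum _ (fun i hi => tendsto_finsetSum _ (fun j hj => ?_))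
    exact (hg i hi j hj).tendsto_sum_nat.const_mul _
  refine le_of_tendsto hlim (Filter.Eventually.of_forall (fun m => ?_))
  refine le_trans (sN_fin S I1 I2 x y g b hb m) ?_
  exact sum_le_hasSum _ (fun n _ => hb0 n) hbB

/-- Fourier series of the quadratic Bernoulli polynomial -/
private theorem sep_fourier (l u : ℝ) (hl : 0 < l) (hu : |u| ≤ l) :
    HasSum (fun n : ℕ => 1 / (n : ℝ) ^ 2 * Real.cos (2 * Real.pi * n * (u / l)))
      (Real.pi ^ 2 * ((|u| / l) ^ 2 - |u| / l + 1 / 6)) := by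
  have hx : |u| / l ∈ Set.Icc (0 : ℝ) 1 :=
    ⟨by positivity, (div_le_one hl).mpr hu⟩
  have h := hasSum_one_div_nat_pow_mul_cos (k := 1) one_ne_zero hx
  have e1 : (fun n : ℕ => 1 / (n : ℝ) ^ (2 * 1) * Real.cos (2 * Real.pi * n * (|u| / l))) =
      (fun n : ℕ => 1 / (n : ℝ) ^ 2 * Real.cos (2 * Real.pi * n * (u / l))) := by
    funext n
    rw [mul_one]
    congr 1
    rcases abs_cases u with ⟨h1, _⟩ | ⟨h1, _⟩
    · rw [h1]
    · rw [h1, neg_div, mul_neg, Real.cos_neg]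
  rw [e1] at h
  convert h using 1
  have hev : ∀ z : ℝ, (Polynomial.map (algebraMap ℚ ℝ) (Polynomial.bernoulli (2 * 1))).eval z =
      z ^ 2 - z + 1 / 6 := by
    intro z
    rw [mul_one]
    simp only [Polynomial.bernoulli, Finset.sum_range_succ, Finset.sum_range_zero,
      Polynomial.map_add, Polynomial.eval_add, Polynomial.map_monomial, Polynomial.eval_monomial,
      zero_add, bernoulli_zero, _root_.bernoulli_one, _root_.bernoulli_two]
    norm_num
    ring
  have hf : (((2 * 1).factorial : ℕ) : ℝ) = 2 := by norm_num [Nat.factorial]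
  rw [hev, hf]
  ring

private theorem sep_log : 1 ≤ 2 * Real.log 2 ∧ 2 * Real.log 2 ≤ 2 := by
  have h1 := Real.log_two_gt_d9
  have h2 := Real.log_two_lt_d9
  constructor <;> linarith

/-- the kernel `(w - tau)_+` is separable with an absolute constant -/
private theorem sep_kernel (S I1 I2 : Finset ℕ) (x y : ℕ → ℕ → ℝ) (s t : ℕ → ℝ) (Z : ℝ)
    (hs : ∀ i ∈ I1, 0 ≤ s i ∧ s i ≤ Real.log 2) (ht : ∀ j ∈ I2, 0 ≤ t j ∧ t j ≤ Real.log 2)
    (hZ : ∀ u v : ℕ → ℝ, (∀ i, |u i| ≤ 1) → (∀ j, |v j| ≤ 1) →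
      ∑ k ∈ S, |∑ i ∈ I1, x k i * u i| * |∑ j ∈ I2, y k j * v j| ≤ Z) :
    (sN S I1 I2 x y (fun _ _ => 1) ≤ Z) ∧ (sN S I1 I2 x y (fun i j => s i + t j) ≤ 2 * Z) ∧
    ∀ τ ∈ Set.Icc (0 : ℝ) (2 * Real.log 2),
      sN S I1 I2 x y (fun i j => max (s i + t j - τ) 0) ≤ 11 * Z := by
  obtain ⟨hl1, hl2⟩ := sep_log
  set l : ℝ := 2 * Real.log 2 with hl
  have hl0 : 0 < l := by linarith
  have hs1 : ∀ i ∈ I1, |s i| ≤ 1 := by
    intro i hi
    obtain ⟨h1, h2⟩ := hs i hi
    rw [abs_of_nonneg h1]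
    linarith
  have ht1 : ∀ j ∈ I2, |t j| ≤ 1 := by
    intro j hj
    obtain ⟨h1, h2⟩ := ht j hj
    rw [abs_of_nonneg h1]
    linarith
  have hone : ∀ (I : Finset ℕ), ∀ i ∈ I, |(fun _ : ℕ => (1 : ℝ)) i| ≤ 1 := by
    intro I i _
    simp
  have hZ0 : 0 ≤ Z := by
    have := hZ (fun _ => 0) (fun _ => 0) (by simp) (by simp)
    simpa using this
  have base := sN_base S I1 I2 x y Z hZ
  have n1 : sN S I1 I2 x y (fun _ _ => 1) ≤ Z :=
    base _ (fun _ => 1) (fun _ => 1) (hone _) (hone _) (fun i _ j _ => by ring)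
  have nw : sN S I1 I2 x y (fun i j => s i + t j) ≤ 2 * Z := by
    have h1 : sN S I1 I2 x y (fun i _ => s i) ≤ Z :=
      base _ s (fun _ => 1) hs1 (hone _) (fun i _ j _ => by ring)
    have h2 : sN S I1 I2 x y (fun _ j => t j) ≤ Z :=
      base _ (fun _ => 1) t (hone _) ht1 (fun i _ j _ => by ring)
    have := sN_add S I1 I2 x y (fun i _ => s i) (fun _ j => t j)
    linarith
  have nw2 : sN S I1 I2 x y (fun i j => (s i + t j) ^ 2) ≤ 4 * Z := by
    have h1 : sN S I1 I2 x y (fun i _ => s i ^ 2) ≤ Z :=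
      base _ (fun i => s i ^ 2) (fun _ => 1)
        (fun i hi => by
          rw [abs_pow]
          exact pow_le_one₀ (abs_nonneg _) (hs1 i hi)) (hone _) (fun i _ j _ => by ring)
    have h2 : sN S I1 I2 x y (fun _ j => t j ^ 2) ≤ Z :=
      base _ (fun _ => 1) (fun j => t j ^ 2) (hone _)
        (fun j hj => by
          rw [abs_pow]
          exact pow_le_one₀ (abs_nonneg _) (ht1 j hj)) (fun i _ j _ => by ring)
    have h3 : sN S I1 I2 x y (fun i j => s i * t j) ≤ Z :=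
      base _ s t hs1 ht1 (fun i _ j _ => rfl)
    have h4 : sN S I1 I2 x y (fun i j => 2 * (s i * t j)) ≤ 2 * Z := by
      rw [sN_mul, abs_of_pos two_pos]
      linarith
    have h5 := sN_add S I1 I2 x y (fun i _ => s i ^ 2) (fun _ j => t j ^ 2)
    have h6 := sN_add S I1 I2 x y (fun i j => s i ^ 2 + t j ^ 2) (fun i j => 2 * (s i * t j))
    have h7 : sN S I1 I2 x y (fun i j => (s i + t j) ^ 2) =
        sN S I1 I2 x y (fun i j => s i ^ 2 + t j ^ 2 + 2 * (s i * t j)) :=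
      sN_congr _ _ _ _ _ _ _ (fun i _ j _ => by ring)
    rw [h7]
    linarith
  have ncos : ∀ α β : ℝ, sN S I1 I2 x y (fun i j => Real.cos (α * (s i + t j) + β)) ≤ 2 * Z := by
    intro α β
    have h1 : sN S I1 I2 x y (fun i j => Real.cos (α * s i + β) * Real.cos (α * t j)) ≤ Z :=
      base _ (fun i => Real.cos (α * s i + β)) (fun j => Real.cos (α * t j))
        (fun i _ => Real.abs_cos_le_one _) (fun j _ => Real.abs_cos_le_one _)
        (fun i _ j _ => rfl)
    have h2 : sN S I1 I2 x y (fun i j => -Real.sin (α * s i + β) * Real.sin (α * t j)) ≤ Z :=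
      base _ (fun i => -Real.sin (α * s i + β)) (fun j => Real.sin (α * t j))
        (fun i _ => by
          rw [abs_neg]
          exact Real.abs_sin_le_one _) (fun j _ => Real.abs_sin_le_one _)
        (fun i _ j _ => rfl)
    have h3 := sN_add S I1 I2 x y (fun i j => Real.cos (α * s i + β) * Real.cos (α * t j))
      (fun i j => -Real.sin (α * s i + β) * Real.sin (α * t j))
    have h4 : sN S I1 I2 x y (fun i j => Real.cos (α * (s i + t j) + β)) =
        sN S I1 I2 x y (fun i j => Real.cos (α * s i + β) * Real.cos (α * t j) +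
          -Real.sin (α * s i + β) * Real.sin (α * t j)) := by
      refine sN_congr _ _ _ _ _ _ _ (fun i _ j _ => ?_)
      have : α * (s i + t j) + β = (α * s i + β) + α * t j := by ring
      rw [this, Real.cos_add]
      ring
    rw [h4]
    linarith
  refine ⟨n1, nw, ?_⟩
  intro τ hτ
  obtain ⟨hτ0, hτl⟩ := hτ
  -- u = s + t - tau
  have nu : sN S I1 I2 x y (fun i j => s i + t j - τ) ≤ 4 * Z := by
    have h1 : sN S I1 I2 x y (fun _ _ => (-τ) * 1) ≤ 2 * Z := by
      rw [sN_mul, abs_neg, abs_of_nonneg hτ0]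
      nlinarith
    have h2 := sN_add S I1 I2 x y (fun i j => s i + t j) (fun _ _ => (-τ) * 1)
    have h3 : sN S I1 I2 x y (fun i j => s i + t j - τ) =
        sN S I1 I2 x y (fun i j => s i + t j + (-τ) * 1) :=
      sN_congr _ _ _ _ _ _ _ (fun i _ j _ => by ring)
    rw [h3]
    linarith
  have nu2 : sN S I1 I2 x y (fun i j => (s i + t j - τ) ^ 2) ≤ 16 * Z := by
    have h1 : sN S I1 I2 x y (fun _ _ => τ ^ 2 * 1) ≤ 4 * Z := by
      rw [sN_mul, abs_of_nonneg (sq_nonneg τ)]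
      have hτ4 : τ ^ 2 ≤ 4 := by nlinarith
      have h0 : 0 ≤ sN S I1 I2 x y (fun _ _ => 1) := Finset.sum_nonneg (fun _ _ => abs_nonneg _)
      nlinarith
    have h2 : sN S I1 I2 x y (fun i j => (-(2 * τ)) * (s i + t j)) ≤ 8 * Z := by
      rw [sN_mul, abs_neg, abs_of_nonneg (by linarith)]
      have h0 : 0 ≤ sN S I1 I2 x y (fun i j => s i + t j) :=
        Finset.sum_nonneg (fun _ _ => abs_nonneg _)
      nlinarith
    have h3 := sN_add S I1 I2 x y (fun i j => (s i + t j) ^ 2) (fun _ _ => τ ^ 2 * 1)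
    have h4 := sN_add S I1 I2 x y (fun i j => (s i + t j) ^ 2 + τ ^ 2 * 1)
      (fun i j => (-(2 * τ)) * (s i + t j))
    have h5 : sN S I1 I2 x y (fun i j => (s i + t j - τ) ^ 2) =
        sN S I1 I2 x y (fun i j => (s i + t j) ^ 2 + τ ^ 2 * 1 + (-(2 * τ)) * (s i + t j)) :=
      sN_congr _ _ _ _ _ _ _ (fun i _ j _ => by ring)
    rw [h5]
    linarith
  have hul : ∀ i ∈ I1, ∀ j ∈ I2, |s i + t j - τ| ≤ l := by
    intro i hi j hj
    obtain ⟨h1, h2⟩ := hs i hi
    obtain ⟨h3, h4⟩ := ht j hj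
    rw [abs_le]
    constructor <;> linarith
  -- the Fourier series
  have hbas : HasSum (fun n : ℕ => 1 / (n : ℝ) ^ 2 * (2 * Z)) (Real.pi ^ 2 / 6 * (2 * Z)) :=
    hasSum_zeta_two.mul_right _
  have nP : sN S I1 I2 x y (fun i j => Real.pi ^ 2 *
      ((|s i + t j - τ| / l) ^ 2 - |s i + t j - τ| / l + 1 / 6)) ≤ Real.pi ^ 2 / 6 * (2 * Z) := by
    refine sN_lim S I1 I2 x y
      (fun n i j => 1 / (n : ℝ) ^ 2 * Real.cos (2 * Real.pi * n * ((s i + t j - τ) / l))) _
      (fun n => 1 / (n : ℝ) ^ 2 * (2 * Z)) _ hbas (fun n => by positivity) (fun n => ?_)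
      (fun i hi j hj => sep_fourier l (s i + t j - τ) hl0 (hul i hi j hj))
    rw [sN_mul, abs_of_nonneg (by positivity)]
    refine mul_le_mul_of_nonneg_left ?_ (by positivity)
    refine le_trans (le_of_eq ?_) (ncos (2 * Real.pi * n / l) (-(2 * Real.pi * n * τ / l)))
    refine sN_congr _ _ _ _ _ _ _ (fun i _ j _ => ?_)
    congr 1
    ring
  -- assemble
  have hK : sN S I1 I2 x y (fun i j => max (s i + t j - τ) 0) =
      sN S I1 I2 x y (fun i j => (1 / (2 * l)) * (s i + t j - τ) ^ 2 + (l / 12) * 1 +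
        (1 / 2) * (s i + t j - τ) + (-(l / (2 * Real.pi ^ 2))) * (Real.pi ^ 2 *
      ((|s i + t j - τ| / l) ^ 2 - |s i + t j - τ| / l + 1 / 6))) := by
    refine sN_congr _ _ _ _ _ _ _ (fun i _ j _ => ?_)
    generalize s i + t j - τ = u
    have hpi : Real.pi ≠ 0 := Real.pi_ne_zero
    have h1 : max u 0 = (u + |u|) / 2 := by
      rcases le_total u 0 with h | h
      · rw [max_eq_right h, abs_of_nonpos h]
        ring
      · rw [max_eq_left h, abs_of_nonneg h]
        ring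
    have h2 : u ^ 2 = |u| ^ 2 := (sq_abs u).symm
    rw [h1, h2]
    field_simp
    ring
  rw [hK]
  have a1 := sN_add S I1 I2 x y (fun i j => (1 / (2 * l)) * (s i + t j - τ) ^ 2)
    (fun _ _ => (l / 12) * 1)
  have a2 := sN_add S I1 I2 x y (fun i j => (1 / (2 * l)) * (s i + t j - τ) ^ 2 + (l / 12) * 1)
    (fun i j => (1 / 2) * (s i + t j - τ))
  have a3 := sN_add S I1 I2 x y (fun i j => (1 / (2 * l)) * (s i + t j - τ) ^ 2 + (l / 12) * 1 +
        (1 / 2) * (s i + t j - τ)) (fun i j => (-(l / (2 * Real.pi ^ 2))) * (Real.pi ^ 2 *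
      ((|s i + t j - τ| / l) ^ 2 - |s i + t j - τ| / l + 1 / 6)))
  have b1 : sN S I1 I2 x y (fun i j => (1 / (2 * l)) * (s i + t j - τ) ^ 2) ≤ 8 * Z := by
    rw [sN_mul, abs_of_nonneg (by positivity)]
    have h1 : 1 / (2 * l) ≤ 1 / 2 := by
      apply one_div_le_one_div_of_le <;> linarith
    have h0 : 0 ≤ sN S I1 I2 x y (fun i j => (s i + t j - τ) ^ 2) :=
      Finset.sum_nonneg (fun _ _ => abs_nonneg _)
    nlinarith
  have b2 : sN S I1 I2 x y (fun _ _ => (l / 12) * 1) ≤ Z / 6 := by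
    rw [sN_mul, abs_of_nonneg (by positivity)]
    have h0 : 0 ≤ sN S I1 I2 x y (fun _ _ => 1) := Finset.sum_nonneg (fun _ _ => abs_nonneg _)
    nlinarith
  have b3 : sN S I1 I2 x y (fun i j => (1 / 2) * (s i + t j - τ)) ≤ 2 * Z := by
    rw [sN_mul, abs_of_nonneg (by positivity)]
    linarith
  have b4 : sN S I1 I2 x y (fun i j => (-(l / (2 * Real.pi ^ 2))) * (Real.pi ^ 2 *
      ((|s i + t j - τ| / l) ^ 2 - |s i + t j - τ| / l + 1 / 6))) ≤ Z / 3 := by
    rw [sN_mul, abs_neg, abs_of_nonneg (by positivity)]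
    have hpi : 0 < Real.pi ^ 2 := by positivity
    calc l / (2 * Real.pi ^ 2) * sN S I1 I2 x y (fun i j => Real.pi ^ 2 *
      ((|s i + t j - τ| / l) ^ 2 - |s i + t j - τ| / l + 1 / 6))
        ≤ l / (2 * Real.pi ^ 2) * (Real.pi ^ 2 / 6 * (2 * Z)) :=
          mul_le_mul_of_nonneg_left nP (by positivity)
      _ = l * Z / 6 := by
          field_simp
      _ ≤ Z / 3 := by nlinarith
  linarith

/-- Taylor formula with the kernel `(w - tau)_+` -/
private theorem sep_taylor (F F1 F2 : ℝ → ℝ) (l w : ℝ)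
    (h1 : ∀ w : ℝ, HasDerivAt F (F1 w) w ∧ HasDerivAt F1 (F2 w) w) (h2 : Continuous F2)
    (hw0 : 0 ≤ w) (hwl : w ≤ l) :
    F w = F 0 + w * F1 0 + ∫ τ in (0 : ℝ)..l, F2 τ * max (w - τ) 0 := by
  have hc : Continuous (fun τ => F2 τ * max (w - τ) 0) := by fun_prop
  rw [← intervalIntegral.integral_add_adjacent_intervals (b := w)
    (hc.intervalIntegrable _ _) (hc.intervalIntegrable _ _)]
  have e1 : ∫ τ in w..l, F2 τ * max (w - τ) 0 = 0 := by
    rw [intervalIntegral.integral_congr (g := fun _ => 0)]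
    · simp
    · intro τ hτ
      rw [Set.uIcc_of_le hwl] at hτ
      have : max (w - τ) 0 = 0 := max_eq_right (by linarith [hτ.1])
      simp [this]
  have e2 : ∫ τ in (0 : ℝ)..w, F2 τ * max (w - τ) 0 = ∫ τ in (0 : ℝ)..w, F2 τ * (w - τ) := by
    refine intervalIntegral.integral_congr (fun τ hτ => ?_)
    rw [Set.uIcc_of_le hw0] at hτ
    have : max (w - τ) 0 = w - τ := max_eq_left (by linarith [hτ.2])
    simp only [this]
  have e3 : ∫ τ in (0 : ℝ)..w, F2 τ * (w - τ) =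
      (F1 w * (w - w) + F w) - (F1 0 * (w - 0) + F 0) := by
    refine intervalIntegral.integral_eq_sub_of_hasDerivAt
      (f := fun τ => F1 τ * (w - τ) + F τ) (fun τ _ => ?_) ?_
    · have h3 : HasDerivAt (fun τ : ℝ => w - τ) (-1) τ := by
        simpa using (hasDerivAt_id τ).const_sub w
      have h4 : HasDerivAt (fun τ => F1 τ * (w - τ) + F τ)
          (F2 τ * (w - τ) + F1 τ * (-1) + F1 τ) τ := ((h1 τ).2.mul h3).add (h1 τ).1
      have h5 : F2 τ * (w - τ) + F1 τ * (-1) + F1 τ = F2 τ * (w - τ) := by ring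
      rw [h5] at h4
      exact h4
    · exact (h2.mul (continuous_const.sub continuous_id)).intervalIntegrable _ _
  rw [e1, e2, e3]
  ring

/-- SEPARATION OF VARIABLES. PROOF. With `l = 2 log 2`, for `w` in `[0,l]`:
`F(w) = F(0) + w F'(0) + (1/2) int_0^l F''(t) (|w - t| + (w - t)) dt`. For `|u| <= l`, `x = u/l`:
`|x| = x^2 + 1/6 - (1/pi^2) sum_{n>=1} cos(2 pi n x)/n^2` (Mathlib `hasSum_one_div_nat_pow_mul_cos`, Bernoulli
polynomial `B_2` on `[0,1]`, both sides even). Put `w = s i + t j`: `1, w, w^2` and `cos(2 pi n (w - t)/l)` are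
sums of at most 4 products `u_i v_j` (times constants bounded by an absolute constant) with `|u|,|v| <= 1`
(`cos(A+B) = cos A cos B - sin A sin B`), and `sum 1/n^2` converges. Integrate over `t` and sum over `k`. -/
theorem sep : ∃ C0 : ℝ, 0 < C0 ∧ ∀ (S I1 I2 : Finset ℕ) (x y : ℕ → ℕ → ℝ) (s t : ℕ → ℝ)
    (F F1 F2 : ℕ → ℝ → ℝ) (B Z : ℝ), 0 ≤ B →
    (∀ i ∈ I1, 0 ≤ s i ∧ s i ≤ Real.log 2) → (∀ j ∈ I2, 0 ≤ t j ∧ t j ≤ Real.log 2) →
    (∀ k ∈ S, ∀ w : ℝ, HasDerivAt (F k) (F1 k w) w ∧ HasDerivAt (F1 k) (F2 k w) w) →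
    (∀ k ∈ S, Continuous (F2 k)) →
    (∀ k ∈ S, ∀ w ∈ Set.Icc (0 : ℝ) (2 * Real.log 2), |F k w| ≤ B ∧ |F1 k w| ≤ B ∧ |F2 k w| ≤ B) →
    (∀ u v : ℕ → ℝ, (∀ i, |u i| ≤ 1) → (∀ j, |v j| ≤ 1) →
      ∑ k ∈ S, |∑ i ∈ I1, x k i * u i| * |∑ j ∈ I2, y k j * v j| ≤ Z) →
    ∑ k ∈ S, |∑ i ∈ I1, ∑ j ∈ I2, x k i * y k j * F k (s i + t j)| ≤ C0 * B * Z := by
  refine ⟨25, by norm_num, ?_⟩
  intro S I1 I2 x y s t F F1 F2 B Z hB hs ht hF hF2 hb hZ
  obtain ⟨n1, nw, nK⟩ := sep_kernel S I1 I2 x y s t Z hs ht hZ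
  obtain ⟨hl1, hl2⟩ := sep_log
  set l : ℝ := 2 * Real.log 2 with hl
  have hl0 : 0 < l := by linarith
  have hZ0 : 0 ≤ Z := by
    have := hZ (fun _ => 0) (fun _ => 0) (by simp) (by simp)
    simpa using this
  -- notation for the three linear functionals
  set T : ℕ → (ℕ → ℕ → ℝ) → ℝ := fun k g => ∑ i ∈ I1, ∑ j ∈ I2, x k i * y k j * g i j with hT
  have hsN : ∀ g, sN S I1 I2 x y g = ∑ k ∈ S, |T k g| := fun g => rfl
  have hK : ∀ k ∈ S, T k (fun i j => F k (s i + t j)) =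
      F k 0 * T k (fun _ _ => 1) + F1 k 0 * T k (fun i j => s i + t j) +
        ∫ τ in (0 : ℝ)..l, F2 k τ * T k (fun i j => max (s i + t j - τ) 0) := by
    intro k hk
    have hint : ∫ τ in (0 : ℝ)..l, F2 k τ * T k (fun i j => max (s i + t j - τ) 0) =
        ∑ i ∈ I1, ∑ j ∈ I2, x k i * y k j *
          ∫ τ in (0 : ℝ)..l, F2 k τ * max (s i + t j - τ) 0 := by
      have hc := hF2 k hk
      have hcc : ∀ i j, Continuous (fun τ => F2 k τ * max (s i + t j - τ) 0) := by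
        intro i j
        fun_prop
      have e1 : ∀ τ, F2 k τ * T k (fun i j => max (s i + t j - τ) 0) =
          ∑ i ∈ I1, ∑ j ∈ I2, x k i * y k j * (F2 k τ * max (s i + t j - τ) 0) := by
        intro τ
        simp only [hT]
        rw [Finset.mul_sum]
        refine Finset.sum_congr rfl (fun i _ => ?_)
        rw [Finset.mul_sum]
        exact Finset.sum_congr rfl (fun j _ => by ring)
      simp only [e1]
      rw [intervalIntegral.integral_finsetSum]
      · refine Finset.sum_congr rfl (fun i _ => ?_)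
        rw [intervalIntegral.integral_finsetSum]
        · refine Finset.sum_congr rfl (fun j _ => ?_)
          rw [intervalIntegral.integral_const_mul]
        · intro j _
          exact ((hcc i j).const_mul _).intervalIntegrable _ _
      · intro i _
        refine Continuous.intervalIntegrable ?_ _ _
        exact continuous_finsetSum _ (fun j _ => (hcc i j).const_mul _)
    rw [hint]
    simp only [hT]
    rw [Finset.mul_sum, Finset.mul_sum, ← Finset.sum_add_distrib, ← Finset.sum_add_distrib]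
    refine Finset.sum_congr rfl (fun i hi => ?_)
    rw [Finset.mul_sum, Finset.mul_sum, ← Finset.sum_add_distrib, ← Finset.sum_add_distrib]
    refine Finset.sum_congr rfl (fun j hj => ?_)
    obtain ⟨p1, p2⟩ := hs i hi
    obtain ⟨p3, p4⟩ := ht j hj
    rw [sep_taylor (F k) (F1 k) (F2 k) l (s i + t j) (hF k hk) (hF2 k hk) (by linarith)
      (by linarith)]
    ring
  have h0l : (0 : ℝ) ∈ Set.Icc (0 : ℝ) l := ⟨le_refl _, hl0.le⟩
  have hTc : ∀ k, Continuous (fun τ => T k (fun i j => max (s i + t j - τ) 0)) := by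
    intro k
    simp only [hT]
    refine continuous_finsetSum _ (fun i _ => continuous_finsetSum _ (fun j _ => ?_))
    fun_prop
  have hbd : ∀ k ∈ S, |T k (fun i j => F k (s i + t j))| ≤
      B * |T k (fun _ _ => 1)| + B * |T k (fun i j => s i + t j)| +
        ∫ τ in (0 : ℝ)..l, B * |T k (fun i j => max (s i + t j - τ) 0)| := by
    intro k hk
    rw [hK k hk]
    have c1 : |F k 0 * T k (fun _ _ => 1)| ≤ B * |T k (fun _ _ => 1)| := by
      rw [abs_mul]
      exact mul_le_mul_of_nonneg_right (hb k hk 0 h0l).1 (abs_nonneg _)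
    have c2 : |F1 k 0 * T k (fun i j => s i + t j)| ≤ B * |T k (fun i j => s i + t j)| := by
      rw [abs_mul]
      exact mul_le_mul_of_nonneg_right (hb k hk 0 h0l).2.1 (abs_nonneg _)
    have c3 : |∫ τ in (0 : ℝ)..l, F2 k τ * T k (fun i j => max (s i + t j - τ) 0)| ≤
        ∫ τ in (0 : ℝ)..l, B * |T k (fun i j => max (s i + t j - τ) 0)| := by
      refine le_trans (intervalIntegral.abs_integral_le_integral_abs hl0.le) ?_
      refine intervalIntegral.integral_mono_on hl0.le ?_ ?_ (fun τ hτ => ?_)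
      · exact (((hF2 k hk).mul (hTc k)).abs).intervalIntegrable _ _
      · exact ((hTc k).abs.const_mul B).intervalIntegrable _ _
      · rw [abs_mul]
        exact mul_le_mul_of_nonneg_right (hb k hk τ hτ).2.2 (abs_nonneg _)
    have c4 := abs_add_le (F k 0 * T k (fun _ _ => 1) + F1 k 0 * T k (fun i j => s i + t j))
      (∫ τ in (0 : ℝ)..l, F2 k τ * T k (fun i j => max (s i + t j - τ) 0))
    have c5 := abs_add_le (F k 0 * T k (fun _ _ => 1)) (F1 k 0 * T k (fun i j => s i + t j))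
    linarith
  have hsum : ∑ k ∈ S, |T k (fun i j => F k (s i + t j))| ≤
      B * ∑ k ∈ S, |T k (fun _ _ => 1)| + B * ∑ k ∈ S, |T k (fun i j => s i + t j)| +
        ∑ k ∈ S, ∫ τ in (0 : ℝ)..l, B * |T k (fun i j => max (s i + t j - τ) 0)| := by
    rw [Finset.mul_sum, Finset.mul_sum, ← Finset.sum_add_distrib, ← Finset.sum_add_distrib]
    exact Finset.sum_le_sum hbd
  have hI : ∑ k ∈ S, ∫ τ in (0 : ℝ)..l, B * |T k (fun i j => max (s i + t j - τ) 0)| ≤
      l * (B * (11 * Z)) := by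
    rw [← intervalIntegral.integral_finsetSum]
    · have e2 : ∫ _ in (0 : ℝ)..l, B * (11 * Z) = l * (B * (11 * Z)) := by
        rw [intervalIntegral.integral_const, sub_zero, smul_eq_mul]
      rw [← e2]
      refine intervalIntegral.integral_mono_on hl0.le ?_ ?_ (fun τ hτ => ?_)
      · refine Continuous.intervalIntegrable ?_ _ _
        exact continuous_finsetSum _ (fun k _ => (hTc k).abs.const_mul B)
      · exact intervalIntegrable_const
      · rw [← Finset.mul_sum]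
        exact mul_le_mul_of_nonneg_left (nK τ hτ) hB
    · intro k _
      exact ((hTc k).abs.const_mul B).intervalIntegrable _ _
  have n1' : ∑ k ∈ S, |T k (fun _ _ => 1)| ≤ Z := n1
  have nw' : ∑ k ∈ S, |T k (fun i j => s i + t j)| ≤ 2 * Z := nw
  have hBZ : 0 ≤ B * Z := mul_nonneg hB hZ0
  have d1 := mul_le_mul_of_nonneg_left n1' hB
  have d2 := mul_le_mul_of_nonneg_left nw' hB
  have d3 : l * (B * (11 * Z)) ≤ 22 * (B * Z) := by nlinarith
  have hgoal : ∑ k ∈ S, |∑ i ∈ I1, ∑ j ∈ I2, x k i * y k j * F k (s i + t j)| =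
      ∑ k ∈ S, |T k (fun i j => F k (s i + t j))| := rfl
  rw [hgoal]
  linarith

end HBQ
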