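import Pool.Agent.Lib.HBQ.LSaux
import Pool.Agent.Lib.HBQ.Rho
import Pool.Agent.Lib.HBQ.Sep

set_option autoImplicit false

namespace HBQ

private lemma good_sq {N i : ℕ} {a : ℕ → ℝ} (ha : Good N i a) {g m : ℕ} (h : a (g * m) ≠ 0) :
    Squarefree m ∧ m % 2 = 1 := by
  obtain ⟨_, _, h3, h4⟩ := ha.2 _ h
  constructor
  · exact h3.squarefree_of_dvd (Dvd.intro_left g rfl)
  · rcases Nat.mod_two_eq_zero_or_one m with h0 | h0
    · exfalso
      have h5 : (g * m) % 2 = 0 := by rw [Nat.mul_mod, h0]; simp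
      rcases ha.1 with hi | hi <;> omega
    · exact h0

/-- one factor, after the Cauchy inequality in `k` -/
private lemma side (N K i g q : ℕ) (X kap : ℝ) (a : ℕ → ℝ) (hX : 0 ≤ X) (hkap : 0 ≤ kap)
    (ha : Good N i a) (hq : 1 ≤ q)
    (hLS : ∀ L : ℕ, 1 ≤ L → L ≤ 2 * N → LS (2 * K) L (X * (L + kap)))
    (u : ℕ → ℝ) (hu : ∀ j, |u j| ≤ 1) :
    ∑ k ∈ (Finset.Ico K (2 * K)).filter Squarefree,
      |∑ m ∈ (Finset.Icc 1 (2 * N / g)).filter (fun m => q ∣ m), a (g * m) * J k m * u m| ^ 2 ≤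
    2 * X * (2 * N / ((g : ℝ) * q) + kap) *
      ∑ m ∈ (Finset.Icc 1 (2 * N / g)).filter (fun m => q ∣ m), a (g * m) ^ 2 := by
  set L : ℕ := 2 * N / g / q with hL
  have hL1 : L ≤ 2 * N := (Nat.div_le_self _ _).trans (Nat.div_le_self _ _)
  have hL2 : (L : ℝ) ≤ 2 * N / ((g : ℝ) * q) := by
    rw [hL, Nat.div_div_eq_div_mul]
    refine (Nat.cast_div_le).trans ?_
    push_cast
    exact le_refl _
  have hX' : 0 ≤ X * ((L : ℝ) + kap) := by positivity
  have hb : ∀ n, (fun m => a (g * m) * u m) n ≠ 0 → Squarefree n ∧ n % 2 = 1 := by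
    intro n hn
    exact good_sq ha (left_ne_zero_of_mul hn)
  have h1 := ls_mult (2 * K) (2 * N / g) q hq (X * ((L : ℝ) + kap)) hX' (fun h => hLS L h hL1)
    (fun m => a (g * m) * u m) hb
  have hS : ∑ k ∈ (Finset.Ico K (2 * K)).filter Squarefree,
      |∑ m ∈ (Finset.Icc 1 (2 * N / g)).filter (fun m => q ∣ m), a (g * m) * J k m * u m| ^ 2 ≤
      ∑ k ∈ (Finset.Icc 1 (2 * K)).filter Squarefree,
        (∑ n ∈ (Finset.Icc 1 (2 * N / g)).filter (fun n => q ∣ n),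
          (fun m => a (g * m) * u m) n * J k n) ^ 2 := by
    have e1 : ∀ k : ℕ, |∑ m ∈ (Finset.Icc 1 (2 * N / g)).filter (fun m => q ∣ m),
        a (g * m) * J k m * u m| ^ 2 = (∑ n ∈ (Finset.Icc 1 (2 * N / g)).filter (fun n => q ∣ n),
          (fun m => a (g * m) * u m) n * J k n) ^ 2 := by
      intro k
      rw [sq_abs]
      congr 1
      apply Finset.sum_congr rfl
      intro m _
      ring
    simp_rw [e1]
    apply Finset.sum_le_sum_of_subset_of_nonneg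
    · intro k hk
      rw [Finset.mem_filter, Finset.mem_Ico] at hk
      rw [Finset.mem_filter, Finset.mem_Icc]
      exact ⟨⟨by omega, by omega⟩, hk.2⟩
    · intro k _ _
      positivity
  have hB : ∑ n ∈ (Finset.Icc 1 (2 * N / g)).filter (fun n => q ∣ n),
      (fun m => a (g * m) * u m) n ^ 2 ≤
      ∑ m ∈ (Finset.Icc 1 (2 * N / g)).filter (fun m => q ∣ m), a (g * m) ^ 2 := by
    apply Finset.sum_le_sum
    intro m _
    have h2 : u m ^ 2 ≤ 1 := by
      have := hu m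
      rw [← sq_abs]
      nlinarith [abs_nonneg (u m)]
    calc (a (g * m) * u m) ^ 2 = a (g * m) ^ 2 * u m ^ 2 := by ring
      _ ≤ a (g * m) ^ 2 * 1 := mul_le_mul_of_nonneg_left h2 (sq_nonneg _)
      _ = a (g * m) ^ 2 := mul_one _
  have hB0 : 0 ≤ ∑ m ∈ (Finset.Icc 1 (2 * N / g)).filter (fun m => q ∣ m), a (g * m) ^ 2 :=
    Finset.sum_nonneg fun m _ => sq_nonneg _
  refine hS.trans (h1.trans ?_)
  have hc : 2 * (X * ((L : ℝ) + kap)) ≤ 2 * X * (2 * N / ((g : ℝ) * q) + kap) := by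
    have : X * ((L : ℝ) + kap) ≤ X * (2 * N / ((g : ℝ) * q) + kap) :=
      mul_le_mul_of_nonneg_left (by linarith) hX
    linarith
  exact mul_le_mul hc hB (Finset.sum_nonneg fun m _ => sq_nonneg _) (by positivity)

/-- One block of the dual remainder with all outer parameters fixed. PROOF. If `a (g m) <> 0` then
`N < g m <= 2N`; put `s(m) = log(g m / N)` in `(0, log 2]` (and `0` otherwise). Then
`M (m1 m2)^(-1/2) rho(c1 sqrt(m1 m2/(k M))/(d1 d2)) = M (g/N) exp(-w/2) rho(L_k exp(w/2))`, `w = s(m1)+s(m2)`,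
`L_k = c1 N/(g sqrt(k M) d1 d2) <= L_K` for `k >= K`. Use `rho_sep` for `F k`, `B = C min(1, L_K)`, and `sep` with
`x k m = a(g m) J k m`, `S` = the block. For `Z`: Cauchy in `k` and `ls_mult` with coefficients
`b m = a(g m) u m` (`g m` squarefree odd implies `m` squarefree odd), `q = q1` (resp. `q2`), range
`Icc 1 (2N/g)`, `LS (2K) (2N/g/q) (X (2N/(g q) + kap))` (monotone in the constant). -/
theorem dual_block : ∃ C0 : ℝ, 0 < C0 ∧ ∀ (N K i g c1 d1 d2 q1 q2 : ℕ) (M X kap : ℝ) (a : ℕ → ℝ),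
    1 ≤ N → 1 ≤ K → 0 < M → 0 ≤ X → 0 ≤ kap → Good N i a →
    1 ≤ g → 1 ≤ c1 → 1 ≤ d1 → 1 ≤ d2 → 1 ≤ q1 → 1 ≤ q2 →
    (∀ L : ℕ, 1 ≤ L → L ≤ 2 * N → LS (2 * K) L (X * (L + kap))) →
    ∑ k ∈ (Finset.Ico K (2 * K)).filter Squarefree,
        |∑ m1 ∈ (Finset.Icc 1 (2 * N / g)).filter (fun m => q1 ∣ m),
          ∑ m2 ∈ (Finset.Icc 1 (2 * N / g)).filter (fun m => q2 ∣ m),
            a (g * m1) * a (g * m2) * (J k m1 * J k m2) *
              (M / Real.sqrt ((m1 : ℝ) * m2) *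
                rho (c1 * Real.sqrt ((m1 : ℝ) * m2 / (k * M)) / ((d1 : ℝ) * d2)))| ≤
      C0 * X * M * ((g : ℝ) / N) *
        min 1 ((c1 : ℝ) * N / (g * Real.sqrt (K * M) * ((d1 : ℝ) * d2))) *
        (Real.sqrt (2 * N / ((g : ℝ) * q1) + kap) * Real.sqrt (2 * N / ((g : ℝ) * q2) + kap)) *
        (Real.sqrt (∑ m ∈ (Finset.Icc 1 (2 * N / g)).filter (fun m => q1 ∣ m), a (g * m) ^ 2) *
          Real.sqrt (∑ m ∈ (Finset.Icc 1 (2 * N / g)).filter (fun m => q2 ∣ m), a (g * m) ^ 2)) := by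
  obtain ⟨C, hC, hrs⟩ := rho_sep
  obtain ⟨C0, hC0, hsep⟩ := sep
  choose! G1 G2 hG using hrs
  refine ⟨2 * C0 * C, by positivity, ?_⟩
  intro N K i g c1 d1 d2 q1 q2 M X kap a hN hK hM hX hkap ha hg hc1 hd1 hd2 hq1 hq2 hLS
  have hNr : (0 : ℝ) < N := by exact_mod_cast hN
  have hKr : (0 : ℝ) < K := by exact_mod_cast hK
  have hgr : (0 : ℝ) < g := by exact_mod_cast hg
  have hc1r : (0 : ℝ) < c1 := by exact_mod_cast hc1
  have hd1r : (0 : ℝ) < d1 := by exact_mod_cast hd1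
  have hd2r : (0 : ℝ) < d2 := by exact_mod_cast hd2
  set I1 : Finset ℕ := (Finset.Icc 1 (2 * N / g)).filter (fun m => q1 ∣ m) with hI1
  set I2 : Finset ℕ := (Finset.Icc 1 (2 * N / g)).filter (fun m => q2 ∣ m) with hI2
  set Lk : ℕ → ℝ := fun k => (c1 : ℝ) * N / (g * Real.sqrt (k * M) * ((d1 : ℝ) * d2)) with hLk
  set s : ℕ → ℝ := fun m => Real.log (max 1 (min 2 ((g : ℝ) * m / N))) with hs
  set x : ℕ → ℕ → ℝ := fun k m => a (g * m) * J k m with hx
  set F : ℕ → ℝ → ℝ := fun k w => Real.exp (-w / 2) * rho (Lk k * Real.exp (w / 2)) with hF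
  set S : Finset ℕ := (Finset.Ico K (2 * K)).filter Squarefree with hS
  have hLpos : ∀ k : ℕ, 1 ≤ k → 0 < Lk k := by
    intro k hk
    have hkr : (0 : ℝ) < k := by exact_mod_cast hk
    have : 0 < Real.sqrt (k * M) := Real.sqrt_pos.2 (by positivity)
    simp only [hLk]
    positivity
  have hSmem : ∀ k ∈ S, K ≤ k ∧ 1 ≤ k := by
    intro k hk
    rw [hS, Finset.mem_filter, Finset.mem_Ico] at hk
    exact ⟨hk.1.1, by omega⟩
  have hLle : ∀ k ∈ S, Lk k ≤ Lk K := by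
    intro k hk
    have h1 := (hSmem k hk).1
    have h2 : Real.sqrt (K * M) ≤ Real.sqrt (k * M) := by
      apply Real.sqrt_le_sqrt
      have : (K : ℝ) ≤ k := by exact_mod_cast h1
      exact mul_le_mul_of_nonneg_right this hM.le
    have h3 : 0 < Real.sqrt (K * M) := Real.sqrt_pos.2 (by positivity)
    simp only [hLk]
    apply div_le_div_of_nonneg_left (by positivity) (by positivity)
    apply mul_le_mul_of_nonneg_right _ (by positivity)
    exact mul_le_mul_of_nonneg_left h2 hgr.le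
  set B : ℝ := C * min 1 (Lk K) with hB
  have hB0 : 0 ≤ B := by
    have := (hLpos K hK).le
    rw [hB]
    exact mul_nonneg hC.le (le_min zero_le_one this)
  have hs1 : ∀ m : ℕ, 0 ≤ s m ∧ s m ≤ Real.log 2 := by
    intro m
    simp only [hs]
    refine ⟨Real.log_nonneg (le_max_left _ _), Real.log_le_log (lt_of_lt_of_le one_pos (le_max_left _ _)) ?_⟩
    exact max_le (by norm_num) (min_le_left _ _)
  set P1 : ℝ := Real.sqrt (2 * N / ((g : ℝ) * q1) + kap) with hP1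
  set P2 : ℝ := Real.sqrt (2 * N / ((g : ℝ) * q2) + kap) with hP2
  set A1 : ℝ := Real.sqrt (∑ m ∈ I1, a (g * m) ^ 2) with hA1
  set A2 : ℝ := Real.sqrt (∑ m ∈ I2, a (g * m) ^ 2) with hA2
  have hmain := hsep S I1 I2 x x s s F (fun k => G1 (Lk k)) (fun k => G2 (Lk k)) B
    (2 * X * (P1 * P2) * (A1 * A2)) hB0 (fun m _ => hs1 m) (fun m _ => hs1 m)
    (by
      intro k hk w
      obtain ⟨h1, h2, _, _⟩ := hG (Lk k) (hLpos k (hSmem k hk).2)
      exact ⟨h1 w, h2 w⟩)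
    (by
      intro k hk
      exact (hG (Lk k) (hLpos k (hSmem k hk).2)).2.2.1)
    (by
      intro k hk w hw
      obtain ⟨_, _, _, h4⟩ := hG (Lk k) (hLpos k (hSmem k hk).2)
      have hmin : C * min 1 (Lk k) ≤ B := by
        rw [hB]
        exact mul_le_mul_of_nonneg_left (min_le_min_left _ (hLle k hk)) hC.le
      obtain ⟨g1, g2, g3⟩ := h4 w hw
      exact ⟨g1.trans hmin, g2.trans hmin, g3.trans hmin⟩)
    (by
      intro u v hu hv
      have e1 := side N K i g q1 X kap a hX hkap ha hq1 hLS u hu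
      have e2 := side N K i g q2 X kap a hX hkap ha hq2 hLS v hv
      rw [← hI1, ← hS] at e1
      rw [← hI2, ← hS] at e2
      have hq1n : (0 : ℝ) ≤ 2 * N / ((g : ℝ) * q1) + kap := by positivity
      have hq2n : (0 : ℝ) ≤ 2 * N / ((g : ℝ) * q2) + kap := by positivity
      have hs1n : (0 : ℝ) ≤ ∑ m ∈ I1, a (g * m) ^ 2 := Finset.sum_nonneg fun m _ => sq_nonneg _
      have hs2n : (0 : ℝ) ≤ ∑ m ∈ I2, a (g * m) ^ 2 := Finset.sum_nonneg fun m _ => sq_nonneg _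
      calc ∑ k ∈ S, |∑ i ∈ I1, x k i * u i| * |∑ j ∈ I2, x k j * v j|
          ≤ Real.sqrt (∑ k ∈ S, |∑ i ∈ I1, x k i * u i| ^ 2) *
              Real.sqrt (∑ k ∈ S, |∑ j ∈ I2, x k j * v j| ^ 2) :=
            Real.sum_mul_le_sqrt_mul_sqrt _ _ _
        _ ≤ Real.sqrt (2 * X * (2 * N / ((g : ℝ) * q1) + kap) * ∑ m ∈ I1, a (g * m) ^ 2) *
              Real.sqrt (2 * X * (2 * N / ((g : ℝ) * q2) + kap) * ∑ m ∈ I2, a (g * m) ^ 2) :=
            mul_le_mul (Real.sqrt_le_sqrt e1) (Real.sqrt_le_sqrt e2) (Real.sqrt_nonneg _)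
              (Real.sqrt_nonneg _)
        _ = (Real.sqrt (2 * X) * P1 * A1) * (Real.sqrt (2 * X) * P2 * A2) := by
            have f1 : Real.sqrt (2 * X * (2 * N / ((g : ℝ) * q1) + kap) * ∑ m ∈ I1, a (g * m) ^ 2) =
                Real.sqrt (2 * X) * P1 * A1 := by
              rw [Real.sqrt_mul (mul_nonneg (by positivity) hq1n), Real.sqrt_mul (by positivity : 0 ≤ 2 * X)]
            have f2 : Real.sqrt (2 * X * (2 * N / ((g : ℝ) * q2) + kap) * ∑ m ∈ I2, a (g * m) ^ 2) =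
                Real.sqrt (2 * X) * P2 * A2 := by
              rw [Real.sqrt_mul (mul_nonneg (by positivity) hq2n), Real.sqrt_mul (by positivity : 0 ≤ 2 * X)]
            rw [f1, f2]
        _ = (Real.sqrt (2 * X) * Real.sqrt (2 * X)) * (P1 * P2) * (A1 * A2) := by ring
        _ = 2 * X * (P1 * P2) * (A1 * A2) := by rw [Real.mul_self_sqrt (by positivity)])
  -- the identity for one `k`
  have hid : ∀ k ∈ S, (∑ m1 ∈ I1, ∑ m2 ∈ I2, a (g * m1) * a (g * m2) * (J k m1 * J k m2) *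
              (M / Real.sqrt ((m1 : ℝ) * m2) *
                rho (c1 * Real.sqrt ((m1 : ℝ) * m2 / (k * M)) / ((d1 : ℝ) * d2)))) =
      (M * ((g : ℝ) / N)) * ∑ m1 ∈ I1, ∑ m2 ∈ I2, x k m1 * x k m2 * F k (s m1 + s m2) := by
    intro k hk
    have hk1 := (hSmem k hk).2
    have hkr : (0 : ℝ) < k := by exact_mod_cast hk1
    rw [Finset.mul_sum]
    apply Finset.sum_congr rfl
    intro m1 hm1
    rw [Finset.mul_sum]
    apply Finset.sum_congr rfl
    intro m2 hm2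
    simp only [hx]
    by_cases h1 : a (g * m1) = 0
    · rw [h1]; ring
    by_cases h2 : a (g * m2) = 0
    · rw [h2]; ring
    obtain ⟨b1, b2, _, _⟩ := ha.2 _ h1
    obtain ⟨b3, b4, _, _⟩ := ha.2 _ h2
    have hm1p : (0 : ℝ) < m1 := by
      rw [hI1, Finset.mem_filter, Finset.mem_Icc] at hm1
      exact_mod_cast hm1.1.1
    have hm2p : (0 : ℝ) < m2 := by
      rw [hI2, Finset.mem_filter, Finset.mem_Icc] at hm2
      exact_mod_cast hm2.1.1
    have hsval : ∀ m : ℕ, N < g * m → g * m ≤ 2 * N → s m = Real.log ((g : ℝ) * m / N) := by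
      intro m hlo hhi
      have hlo' : (N : ℝ) < (g : ℝ) * m := by exact_mod_cast hlo
      have hhi' : (g : ℝ) * m ≤ 2 * N := by exact_mod_cast hhi
      have k1 : 1 ≤ (g : ℝ) * m / N := by rw [le_div_iff₀ hNr]; linarith
      have k2 : (g : ℝ) * m / N ≤ 2 := by rw [div_le_iff₀ hNr]; linarith
      simp only [hs]
      rw [min_eq_right k2, max_eq_right k1]
    have hw : Real.exp (s m1 + s m2) = ((g : ℝ) / N) ^ 2 * ((m1 : ℝ) * m2) := by
      rw [Real.exp_add, hsval m1 b1 b2, hsval m2 b3 b4, Real.exp_log (by positivity),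
        Real.exp_log (by positivity)]
      ring
    have hhalf : Real.exp ((s m1 + s m2) / 2) = (g : ℝ) / N * Real.sqrt ((m1 : ℝ) * m2) := by
      rw [Real.exp_half, hw, Real.sqrt_mul (by positivity), Real.sqrt_sq (by positivity)]
    have hnhalf : Real.exp (-(s m1 + s m2) / 2) = ((g : ℝ) / N * Real.sqrt ((m1 : ℝ) * m2))⁻¹ := by
      rw [neg_div, Real.exp_neg, hhalf]
    have hsq0 : 0 < Real.sqrt ((m1 : ℝ) * m2) := Real.sqrt_pos.2 (by positivity)
    have hsk : 0 < Real.sqrt (k * M) := Real.sqrt_pos.2 (by positivity)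
    have harg : c1 * Real.sqrt ((m1 : ℝ) * m2 / (k * M)) / ((d1 : ℝ) * d2) =
        Lk k * Real.exp ((s m1 + s m2) / 2) := by
      rw [hhalf, Real.sqrt_div (by positivity)]
      simp only [hLk]
      field_simp
    simp only [hF]
    rw [← harg, hnhalf]
    field_simp
  calc ∑ k ∈ S, |∑ m1 ∈ I1, ∑ m2 ∈ I2, a (g * m1) * a (g * m2) * (J k m1 * J k m2) *
              (M / Real.sqrt ((m1 : ℝ) * m2) *
                rho (c1 * Real.sqrt ((m1 : ℝ) * m2 / (k * M)) / ((d1 : ℝ) * d2)))|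
      = ∑ k ∈ S, (M * ((g : ℝ) / N)) *
          |∑ m1 ∈ I1, ∑ m2 ∈ I2, x k m1 * x k m2 * F k (s m1 + s m2)| := by
        apply Finset.sum_congr rfl
        intro k hk
        rw [hid k hk, abs_mul, abs_of_pos (by positivity : (0 : ℝ) < M * ((g : ℝ) / N))]
    _ = (M * ((g : ℝ) / N)) *
          ∑ k ∈ S, |∑ m1 ∈ I1, ∑ m2 ∈ I2, x k m1 * x k m2 * F k (s m1 + s m2)| := by
        rw [Finset.mul_sum]
    _ ≤ (M * ((g : ℝ) / N)) * (C0 * B * (2 * X * (P1 * P2) * (A1 * A2))) :=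
        mul_le_mul_of_nonneg_left hmain (by positivity)
    _ = 2 * C0 * C * X * M * ((g : ℝ) / N) * min 1 (Lk K) * (P1 * P2) * (A1 * A2) := by
        rw [hB]; ring

end HBQ
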