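import Pool.Agent.Lib.HBQ.DualA
import Pool.Agent.Lib.HBQ.DualB

set_option autoImplicit false

namespace HBQ

private lemma harm (n : ℕ) : ∑ d ∈ Finset.Icc 1 n, 1 / (d : ℝ) ≤ 1 + Real.log n := by
  have h1 := harmonic_le_one_add_log n
  rw [harmonic_eq_sum_Icc] at h1
  push_cast at h1
  simpa [one_div] using h1

private lemma cnt_le (N D : ℕ) (hD : ∀ n ∈ Finset.Icc 1 N, n.divisors.card ≤ D) (m : ℕ)
    (hm : m ∈ Finset.Icc 1 N) : ∑ e ∈ Finset.Icc 1 N, (if e ∣ m then (1 : ℝ) else 0) ≤ D := by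
  rw [Finset.sum_ite, Finset.sum_const_zero, add_zero, Finset.sum_const, nsmul_eq_mul, mul_one]
  have h1 : ((Finset.Icc 1 N).filter (fun e => e ∣ m)).card ≤ m.divisors.card := by
    apply Finset.card_le_card
    intro e he
    rw [Finset.mem_filter] at he
    rw [Nat.mem_divisors]
    rw [Finset.mem_Icc] at hm
    exact ⟨he.2, by omega⟩
  exact_mod_cast h1.trans (hD m hm)

/-- `sum_g sum_{m <= 2N/g} h (g m) <= D sum_n h n` -/
private lemma sum_gm (N D : ℕ) (hD : ∀ n ∈ Finset.Icc 1 N, n.divisors.card ≤ D) (h : ℕ → ℝ)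
    (hh : ∀ n, 0 ≤ h n) :
    ∑ g ∈ Finset.Icc 1 N, ∑ m ∈ Finset.Icc 1 (N / g), h (g * m) ≤
      D * ∑ n ∈ Finset.Icc 1 N, h n := by
  have h1 : ∀ g ∈ Finset.Icc 1 N, ∑ m ∈ Finset.Icc 1 (N / g), h (g * m) ≤
      ∑ n ∈ Finset.Icc 1 N, if g ∣ n then h n else 0 := by
    intro g hg
    rw [Finset.mem_Icc] at hg
    have h2 : ∑ m ∈ Finset.Icc 1 (N / g), h (g * m) =
        ∑ n ∈ (Finset.Icc 1 (N / g)).image (fun m => g * m), h n := by
      rw [Finset.sum_image]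
      intro x _ y _ hxy
      exact Nat.eq_of_mul_eq_mul_left (by omega) hxy
    rw [h2, ← Finset.sum_filter]
    apply Finset.sum_le_sum_of_subset_of_nonneg
    · intro n hn
      rw [Finset.mem_image] at hn
      obtain ⟨m, hm, rfl⟩ := hn
      rw [Finset.mem_Icc] at hm
      rw [Finset.mem_filter, Finset.mem_Icc]
      refine ⟨⟨Nat.mul_pos hg.1 hm.1, ?_⟩, Dvd.intro m rfl⟩
      exact (Nat.mul_le_mul_left g hm.2).trans (Nat.mul_div_le N g)
    · intro n _ _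
      exact hh n
  refine (Finset.sum_le_sum h1).trans ?_
  rw [Finset.sum_comm, Finset.mul_sum]
  apply Finset.sum_le_sum
  intro n hn
  have h3 : ∑ g ∈ Finset.Icc 1 N, (if g ∣ n then h n else 0) =
      (∑ g ∈ Finset.Icc 1 N, (if g ∣ n then (1 : ℝ) else 0)) * h n := by
    rw [Finset.sum_mul]
    apply Finset.sum_congr rfl
    intro g _
    split_ifs <;> simp
  rw [h3]
  exact mul_le_mul_of_nonneg_right (cnt_le N D hD n hn) (hh n)

/-- the sum over the divisors `e`, `d` -/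
private lemma sum_ed (N D g : ℕ) (hD : ∀ n ∈ Finset.Icc 1 N, n.divisors.card ≤ D) (h : ℕ → ℝ)
    (hh : ∀ n, 0 ≤ h n) :
    ∑ e ∈ Finset.Icc 1 N, ∑ d ∈ Finset.Icc 1 N,
      ∑ m ∈ (Finset.Icc 1 (N / g)).filter (fun m => Nat.lcm e d ∣ m), h m ≤
      (D : ℝ) ^ 2 * ∑ m ∈ Finset.Icc 1 (N / g), h m := by
  have h1 : ∀ e d : ℕ, ∑ m ∈ (Finset.Icc 1 (N / g)).filter (fun m => Nat.lcm e d ∣ m), h m =
      ∑ m ∈ Finset.Icc 1 (N / g), (if e ∣ m then (1 : ℝ) else 0) * (if d ∣ m then (1 : ℝ) else 0) *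
        h m := by
    intro e d
    rw [Finset.sum_filter]
    apply Finset.sum_congr rfl
    intro m _
    by_cases h2 : e ∣ m
    · by_cases h3 : d ∣ m
      · rw [if_pos (Nat.lcm_dvd h2 h3), if_pos h2, if_pos h3]; ring
      · rw [if_neg (fun h4 => h3 ((Nat.dvd_lcm_right e d).trans h4)), if_neg h3]; ring
    · rw [if_neg (fun h4 => h2 ((Nat.dvd_lcm_left e d).trans h4)), if_neg h2]; ring
  have h2 : ∑ e ∈ Finset.Icc 1 N, ∑ d ∈ Finset.Icc 1 N,
      ∑ m ∈ (Finset.Icc 1 (N / g)).filter (fun m => Nat.lcm e d ∣ m), h m =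
      ∑ m ∈ Finset.Icc 1 (N / g), (∑ e ∈ Finset.Icc 1 N, if e ∣ m then (1 : ℝ) else 0) *
        (∑ d ∈ Finset.Icc 1 N, if d ∣ m then (1 : ℝ) else 0) * h m := by
    calc ∑ e ∈ Finset.Icc 1 N, ∑ d ∈ Finset.Icc 1 N,
          ∑ m ∈ (Finset.Icc 1 (N / g)).filter (fun m => Nat.lcm e d ∣ m), h m
        = ∑ e ∈ Finset.Icc 1 N, ∑ d ∈ Finset.Icc 1 N, ∑ m ∈ Finset.Icc 1 (N / g),
            (if e ∣ m then (1 : ℝ) else 0) * (if d ∣ m then (1 : ℝ) else 0) * h m := by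
          apply Finset.sum_congr rfl
          intro e _
          apply Finset.sum_congr rfl
          intro d _
          exact h1 e d
      _ = ∑ e ∈ Finset.Icc 1 N, ∑ m ∈ Finset.Icc 1 (N / g), ∑ d ∈ Finset.Icc 1 N,
            (if e ∣ m then (1 : ℝ) else 0) * (if d ∣ m then (1 : ℝ) else 0) * h m := by
          apply Finset.sum_congr rfl
          intro e _
          rw [Finset.sum_comm]
      _ = ∑ m ∈ Finset.Icc 1 (N / g), ∑ e ∈ Finset.Icc 1 N, ∑ d ∈ Finset.Icc 1 N,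
            (if e ∣ m then (1 : ℝ) else 0) * (if d ∣ m then (1 : ℝ) else 0) * h m := by
          rw [Finset.sum_comm]
      _ = _ := by
          apply Finset.sum_congr rfl
          intro m _
          rw [Finset.sum_mul_sum, Finset.sum_mul]
          apply Finset.sum_congr rfl
          intro e _
          rw [Finset.sum_mul]
  rw [h2, Finset.mul_sum]
  apply Finset.sum_le_sum
  intro m hm
  have hm' : m ∈ Finset.Icc 1 N := by
    rw [Finset.mem_Icc] at hm ⊢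
    exact ⟨hm.1, hm.2.trans (Nat.div_le_self N g)⟩
  have h3 := cnt_le N D hD m hm'
  have h4 : 0 ≤ ∑ e ∈ Finset.Icc 1 N, (if e ∣ m then (1 : ℝ) else 0) :=
    Finset.sum_nonneg fun e _ => by split_ifs <;> norm_num
  apply mul_le_mul_of_nonneg_right _ (hh m)
  rw [sq]
  exact mul_le_mul h3 h3 h4 (h4.trans h3)

/-- the weight of one block -/
private lemma weight (N K g c1 d1 d2 q1 q2 : ℕ) (M kap : ℝ) (hN : 1 ≤ N) (hK : 1 ≤ K) (hM : 0 < M)
    (hkap : 0 ≤ kap) (hg : 1 ≤ g) (hc1 : 1 ≤ c1) (hd1 : 1 ≤ d1) (hd2 : 1 ≤ d2) (hq1 : d1 ≤ q1)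
    (hq2 : d2 ≤ q2) :
    (1 / (c1 : ℝ)) * (M * ((g : ℝ) / N) *
        min 1 ((c1 : ℝ) * N / (g * Real.sqrt (K * M) * ((d1 : ℝ) * d2))) *
        (Real.sqrt (2 * N / ((g : ℝ) * q1) + kap) * Real.sqrt (2 * N / ((g : ℝ) * q2) + kap))) ≤
      3 * (M + Real.sqrt (M / K) * (Real.sqrt (N * kap) + kap)) *
        ((1 / Real.sqrt d1) * (1 / Real.sqrt d2)) := by
  have hNr : (0 : ℝ) < N := by exact_mod_cast hN
  have hKr : (0 : ℝ) < K := by exact_mod_cast hK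
  have hgr : (1 : ℝ) ≤ g := by exact_mod_cast hg
  have hgr0 : (0 : ℝ) < g := by linarith
  have hc1r : (1 : ℝ) ≤ c1 := by exact_mod_cast hc1
  have hc1r0 : (0 : ℝ) < c1 := by linarith
  have hd1r : (1 : ℝ) ≤ d1 := by exact_mod_cast hd1
  have hd2r : (1 : ℝ) ≤ d2 := by exact_mod_cast hd2
  have hd1r0 : (0 : ℝ) < d1 := by linarith
  have hd2r0 : (0 : ℝ) < d2 := by linarith
  have hq1r : (d1 : ℝ) ≤ q1 := by exact_mod_cast hq1
  have hq2r : (d2 : ℝ) ≤ q2 := by exact_mod_cast hq2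
  have hq1r0 : (0 : ℝ) < q1 := by linarith
  have hq2r0 : (0 : ℝ) < q2 := by linarith
  have hs1 : 1 ≤ Real.sqrt d1 := Real.one_le_sqrt.2 hd1r
  have hs2 : 1 ≤ Real.sqrt d2 := Real.one_le_sqrt.2 hd2r
  have hs10 : 0 < Real.sqrt d1 := by linarith
  have hs20 : 0 < Real.sqrt d2 := by linarith
  have hKM : 0 < Real.sqrt (K * M) := Real.sqrt_pos.2 (by positivity)
  have hadd : ∀ x y : ℝ, 0 ≤ x → 0 ≤ y → Real.sqrt (x + y) ≤ Real.sqrt x + Real.sqrt y := by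
    intro x y hx hy
    rw [Real.sqrt_le_iff]
    refine ⟨by positivity, ?_⟩
    have e1 := Real.sq_sqrt hx
    have e2 := Real.sq_sqrt hy
    nlinarith [mul_nonneg (Real.sqrt_nonneg x) (Real.sqrt_nonneg y)]
  -- p = 2N/(g q1) is at most 2N/(g d1)
  have hp : ∀ d q : ℝ, 0 < d → d ≤ q → Real.sqrt (2 * N / ((g : ℝ) * q) + kap) ≤
      Real.sqrt (2 * N / g) * (1 / Real.sqrt d) + Real.sqrt kap := by
    intro d q hd hdq
    have hq : 0 < q := lt_of_lt_of_le hd hdq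
    refine (hadd _ _ (by positivity) hkap).trans ?_
    have e1 : Real.sqrt (2 * N / ((g : ℝ) * q)) ≤ Real.sqrt (2 * N / g) * (1 / Real.sqrt d) := by
      have e2 : (2 * (N : ℝ) / g) * (1 / d) = 2 * N / (g * d) := by
        field_simp
      calc Real.sqrt (2 * N / ((g : ℝ) * q)) ≤ Real.sqrt (2 * N / ((g : ℝ) * d)) := by
            apply Real.sqrt_le_sqrt
            apply div_le_div_of_nonneg_left (by positivity) (by positivity)
            exact mul_le_mul_of_nonneg_left hdq hgr0.le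
        _ = Real.sqrt (2 * N / g) * (1 / Real.sqrt d) := by
            rw [← e2, Real.sqrt_mul (by positivity), Real.sqrt_div zero_le_one, Real.sqrt_one]
    linarith
  have hP1 := hp d1 q1 hd1r0 hq1r
  have hP2 := hp d2 q2 hd2r0 hq2r
  set s1 : ℝ := 1 / Real.sqrt d1 with hs1d
  set s2 : ℝ := 1 / Real.sqrt d2 with hs2d
  have hs1p : 0 < s1 := by rw [hs1d]; positivity
  have hs2p : 0 < s2 := by rw [hs2d]; positivity
  have hs1l : s1 ≤ 1 := by rw [hs1d, div_le_one hs10]; exact hs1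
  have hs2l : s2 ≤ 1 := by rw [hs2d, div_le_one hs20]; exact hs2
  set G : ℝ := Real.sqrt (2 * N / g) with hG
  set T : ℝ := Real.sqrt kap with hT
  have hG0 : 0 ≤ G := Real.sqrt_nonneg _
  have hT0 : 0 ≤ T := Real.sqrt_nonneg _
  have hGG : G * G = 2 * N / g := Real.mul_self_sqrt (by positivity)
  have hTT : T * T = kap := Real.mul_self_sqrt hkap
  set mn : ℝ := min 1 ((c1 : ℝ) * N / (g * Real.sqrt (K * M) * ((d1 : ℝ) * d2))) with hmn
  have hmn1 : mn ≤ 1 := min_le_left _ _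
  have hmn0 : 0 ≤ mn := le_min zero_le_one (by positivity)
  have hmn2 : mn ≤ (c1 : ℝ) * N / (g * Real.sqrt (K * M)) * (s1 * s2) := by
    refine (min_le_right _ _).trans ?_
    have e1 : (c1 : ℝ) * N / (g * Real.sqrt (K * M) * ((d1 : ℝ) * d2)) =
        (c1 : ℝ) * N / (g * Real.sqrt (K * M)) * ((1 / (d1 : ℝ)) * (1 / (d2 : ℝ))) := by
      field_simp
    rw [e1]
    apply mul_le_mul_of_nonneg_left _ (by positivity)
    have e2 : ∀ d : ℝ, 0 < d → 1 ≤ d → 1 / d ≤ 1 / Real.sqrt d := by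
      intro d hd hd1
      apply one_div_le_one_div_of_le (Real.sqrt_pos.2 hd)
      rw [Real.sqrt_le_iff]
      exact ⟨hd.le, by nlinarith⟩
    exact mul_le_mul (e2 d1 hd1r0 hd1r) (e2 d2 hd2r0 hd2r) (by positivity) hs1p.le
  have hMK : Real.sqrt (M / K) = M / Real.sqrt (K * M) := by
    rw [Real.sqrt_div hM.le, Real.sqrt_mul hKr.le]
    have e1 : Real.sqrt K ≠ 0 := (Real.sqrt_pos.2 hKr).ne'
    have e2 : Real.sqrt M ≠ 0 := (Real.sqrt_pos.2 hM).ne'
    rw [div_eq_div_iff e1 (mul_ne_zero e1 e2)]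
    calc Real.sqrt M * (Real.sqrt K * Real.sqrt M)
        = (Real.sqrt M * Real.sqrt M) * Real.sqrt K := by ring
      _ = M * Real.sqrt K := by rw [Real.mul_self_sqrt hM.le]
  -- the product of the two roots
  have hprod : Real.sqrt (2 * N / ((g : ℝ) * q1) + kap) * Real.sqrt (2 * N / ((g : ℝ) * q2) + kap) ≤
      G * G * (s1 * s2) + (2 * (G * T) + T * T) := by
    have e1 : Real.sqrt (2 * N / ((g : ℝ) * q1) + kap) * Real.sqrt (2 * N / ((g : ℝ) * q2) + kap) ≤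
        (G * s1 + T) * (G * s2 + T) :=
      mul_le_mul hP1 hP2 (Real.sqrt_nonneg _) (by positivity)
    have e2 : G * s1 * T ≤ G * T := by
      have := mul_le_mul_of_nonneg_left hs1l (mul_nonneg hG0 hT0)
      linarith
    have e3 : G * s2 * T ≤ G * T := by
      have := mul_le_mul_of_nonneg_left hs2l (mul_nonneg hG0 hT0)
      linarith
    have e4 : (G * s1 + T) * (G * s2 + T) = G * G * (s1 * s2) + (G * s1 * T + G * s2 * T + T * T) := by
      ring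
    rw [e4] at e1
    linarith
  have hGT : 2 * (G * T) ≤ 3 * Real.sqrt (N * kap) := by
    have e1 : G * T = Real.sqrt (2 * N / g * kap) := by
      rw [hG, hT, ← Real.sqrt_mul (by positivity)]
    rw [e1]
    have e2 : Real.sqrt (2 * N / g * kap) ≤ Real.sqrt (9 / 4 * (N * kap)) := by
      apply Real.sqrt_le_sqrt
      have e3 : 2 * (N : ℝ) / g ≤ 2 * N := div_le_self (by positivity) hgr
      have e4 : 2 * (N : ℝ) / g * kap ≤ 2 * N * kap := mul_le_mul_of_nonneg_right e3 hkap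
      have e5 : 0 ≤ (N : ℝ) * kap := by positivity
      linarith
    have e6 : Real.sqrt (9 / 4 * (N * kap)) = 3 / 2 * Real.sqrt (N * kap) := by
      rw [Real.sqrt_mul (by norm_num), show (9 : ℝ) / 4 = (3 / 2) ^ 2 by norm_num,
        Real.sqrt_sq (by norm_num)]
    linarith
  have hc1i : 1 / (c1 : ℝ) ≤ 1 := by
    rw [div_le_one hc1r0]; exact hc1r
  -- first part
  have hA : (1 / (c1 : ℝ)) * (M * ((g : ℝ) / N) * mn * (G * G * (s1 * s2))) ≤ 2 * M * (s1 * s2) := by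
    have e1 : M * ((g : ℝ) / N) * mn * (G * G * (s1 * s2)) = mn * (2 * M * (s1 * s2)) := by
      rw [hGG]; field_simp
    rw [e1]
    have e2 : 0 ≤ 2 * M * (s1 * s2) := by positivity
    calc (1 / (c1 : ℝ)) * (mn * (2 * M * (s1 * s2))) ≤ 1 * (1 * (2 * M * (s1 * s2))) :=
          mul_le_mul hc1i (mul_le_mul_of_nonneg_right hmn1 e2) (mul_nonneg hmn0 e2) zero_le_one
      _ = 2 * M * (s1 * s2) := by ring
  have hB : (1 / (c1 : ℝ)) * (M * ((g : ℝ) / N) * mn * (2 * (G * T) + T * T)) ≤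
      Real.sqrt (M / K) * (3 * Real.sqrt (N * kap) + kap) * (s1 * s2) := by
    have e0 : 0 ≤ 2 * (G * T) + T * T := by positivity
    have e1 : 2 * (G * T) + T * T ≤ 3 * Real.sqrt (N * kap) + kap := by rw [hTT]; linarith
    have e2 : (1 / (c1 : ℝ)) * (M * ((g : ℝ) / N) * mn) ≤ Real.sqrt (M / K) * (s1 * s2) := by
      calc (1 / (c1 : ℝ)) * (M * ((g : ℝ) / N) * mn) ≤ (1 / (c1 : ℝ)) * (M * ((g : ℝ) / N) *
            ((c1 : ℝ) * N / (g * Real.sqrt (K * M)) * (s1 * s2))) := by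
            apply mul_le_mul_of_nonneg_left _ (by positivity)
            exact mul_le_mul_of_nonneg_left hmn2 (by positivity)
        _ = M / Real.sqrt (K * M) * (s1 * s2) := by field_simp
        _ = Real.sqrt (M / K) * (s1 * s2) := by rw [hMK]
    calc (1 / (c1 : ℝ)) * (M * ((g : ℝ) / N) * mn * (2 * (G * T) + T * T))
        = ((1 / (c1 : ℝ)) * (M * ((g : ℝ) / N) * mn)) * (2 * (G * T) + T * T) := by ring
      _ ≤ (Real.sqrt (M / K) * (s1 * s2)) * (3 * Real.sqrt (N * kap) + kap) :=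
          mul_le_mul e2 e1 e0 (by positivity)
      _ = Real.sqrt (M / K) * (3 * Real.sqrt (N * kap) + kap) * (s1 * s2) := by ring
  have hpre : 0 ≤ (1 / (c1 : ℝ)) * (M * ((g : ℝ) / N) * mn) := by positivity
  calc (1 / (c1 : ℝ)) * (M * ((g : ℝ) / N) * mn *
        (Real.sqrt (2 * N / ((g : ℝ) * q1) + kap) * Real.sqrt (2 * N / ((g : ℝ) * q2) + kap)))
      = ((1 / (c1 : ℝ)) * (M * ((g : ℝ) / N) * mn)) *
        (Real.sqrt (2 * N / ((g : ℝ) * q1) + kap) * Real.sqrt (2 * N / ((g : ℝ) * q2) + kap)) := by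
        ring
    _ ≤ ((1 / (c1 : ℝ)) * (M * ((g : ℝ) / N) * mn)) *
        (G * G * (s1 * s2) + (2 * (G * T) + T * T)) := mul_le_mul_of_nonneg_left hprod hpre
    _ = (1 / (c1 : ℝ)) * (M * ((g : ℝ) / N) * mn * (G * G * (s1 * s2))) +
        (1 / (c1 : ℝ)) * (M * ((g : ℝ) / N) * mn * (2 * (G * T) + T * T)) := by ring
    _ ≤ 2 * M * (s1 * s2) + Real.sqrt (M / K) * (3 * Real.sqrt (N * kap) + kap) * (s1 * s2) :=
        add_le_add hA hB
    _ ≤ 3 * (M + Real.sqrt (M / K) * (Real.sqrt (N * kap) + kap)) * (s1 * s2) := by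
        have e1 : 0 ≤ M * (s1 * s2) := by positivity
        have e2 : 0 ≤ Real.sqrt (M / K) * kap * (s1 * s2) := by positivity
        have e3 : 3 * (M + Real.sqrt (M / K) * (Real.sqrt (N * kap) + kap)) * (s1 * s2) =
            (2 * M * (s1 * s2) + Real.sqrt (M / K) * (3 * Real.sqrt (N * kap) + kap) * (s1 * s2)) +
              (M * (s1 * s2) + 2 * (Real.sqrt (M / K) * kap * (s1 * s2))) := by ring
        rw [e3]
        linarith

/-- Dual remainder, dyadic block. PROOF. `dual_decomp`, exchange sums, `dual_block` with `q_i = lcm e d_i`.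
Expand `sqrt((p+kap)(q+kap)) <= sqrt(pq) + sqrt(p kap) + sqrt(q kap) + kap`, `p = 2N/(g q1)`, `q = 2N/(g q2)`;
use `min <= 1` for the first term, `min <= c1 N/(g sqrt(K M) d1 d2)` for the others. Up to constants the weight
(times `1/c1`) is
`M/(c1 sqrt(q1 q2))`, `sqrt(M/K) sqrt(N kap)/(d1 d2)` (twice), `sqrt(M/K) kap/(d1 d2)`.
With `beta(q) = sqrt(sum_{q | m} a(g m)^2)`: `sum_{d1,d2} (q1 q2)^(-1/2) beta(q1) beta(q2)
= (sum_d lcm(e,d)^(-1/2) beta(lcm e d))^2 <= (sum_d 1/d)(sum_d beta(lcm e d)^2)`, similarly for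
`(d1 d2)^(-1)`; `sum_{g,e,d <= 2N} tau(g) beta(lcm e d)^2 <= D * sum_n a_n^2 #{(g,e,d) all dividing n} <= D^4 E`. -/
theorem dual_bound : ∃ C0 : ℝ, 0 < C0 ∧ ∀ (N K i D : ℕ) (M X kap : ℝ) (a : ℕ → ℝ),
    1 ≤ N → 1 ≤ K → 0 < M → 0 ≤ X → 0 ≤ kap → Good N i a →
    (∀ n ∈ Finset.Icc 1 (2 * N), n.divisors.card ≤ D) →
    (∀ L : ℕ, 1 ≤ L → L ≤ 2 * N → LS (2 * K) L (X * (L + kap))) →
    ∑ k ∈ (Finset.Ico K (2 * K)).filter Squarefree,
        |∑ n1 ∈ Finset.Icc 1 (2 * N), ∑ n2 ∈ Finset.Icc 1 (2 * N),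
          a n1 * a n2 * remdual M k n1 n2| ≤
      C0 * X * (D : ℝ) ^ 4 * (1 + Real.log (2 * N)) *
        (M + Real.sqrt (M / K) * (Real.sqrt (N * kap) + kap)) * E a (2 * N) := by
  obtain ⟨C1, hC1, hblk⟩ := dual_block
  refine ⟨3 * C1, by positivity, ?_⟩
  intro N K i D M X kap a hN hK hM hX hkap ha hD hLS
  set S : Finset ℕ := (Finset.Ico K (2 * K)).filter Squarefree with hS
  set I : Finset ℕ := Finset.Icc 1 (2 * N) with hI
  set Wt : ℝ := 3 * (M + Real.sqrt (M / K) * (Real.sqrt (N * kap) + kap)) with hWt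
  have hWt0 : 0 ≤ Wt := by rw [hWt]; positivity
  set al : ℕ → ℕ → ℝ := fun g q =>
    ∑ m ∈ (Finset.Icc 1 (2 * N / g)).filter (fun m => q ∣ m), a (g * m) ^ 2 with hal
  have hal0 : ∀ g q, 0 ≤ al g q := fun g q => Finset.sum_nonneg fun m _ => sq_nonneg _
  set blk : ℕ → ℕ → ℕ → ℕ → ℕ → ℕ → ℝ := fun k g c1 e d1 d2 =>
    |∑ m1 ∈ (Finset.Icc 1 (2 * N / g)).filter (fun m => Nat.lcm e d1 ∣ m),
            ∑ m2 ∈ (Finset.Icc 1 (2 * N / g)).filter (fun m => Nat.lcm e d2 ∣ m),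
              a (g * m1) * a (g * m2) * (J k m1 * J k m2) *
                (M / Real.sqrt ((m1 : ℝ) * m2) *
                  rho (c1 * Real.sqrt ((m1 : ℝ) * m2 / (k * M)) / ((d1 : ℝ) * d2)))| with hblkd
  -- the block bound
  have hB : ∀ g ∈ I, ∀ c1 ∈ g.divisors, ∀ e ∈ I, ∀ d1 ∈ I, ∀ d2 ∈ I,
      ∑ k ∈ S, (1 / (c1 : ℝ)) * blk k g c1 e d1 d2 ≤
        C1 * X * Wt * (((1 / Real.sqrt d1) * Real.sqrt (al g (Nat.lcm e d1))) *
          ((1 / Real.sqrt d2) * Real.sqrt (al g (Nat.lcm e d2)))) := by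
    intro g hg c1 hc1 e he d1 hd1 d2 hd2
    rw [hI, Finset.mem_Icc] at hg he hd1 hd2
    have hc1' : 1 ≤ c1 := Nat.pos_of_mem_divisors hc1
    have hq1 : d1 ≤ Nat.lcm e d1 :=
      Nat.le_of_dvd (Nat.lcm_pos (by omega) (by omega)) (Nat.dvd_lcm_right e d1)
    have hq2 : d2 ≤ Nat.lcm e d2 :=
      Nat.le_of_dvd (Nat.lcm_pos (by omega) (by omega)) (Nat.dvd_lcm_right e d2)
    have h1 := hblk N K i g c1 d1 d2 (Nat.lcm e d1) (Nat.lcm e d2) M X kap a hN hK hM hX hkap ha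
      hg.1 hc1' hd1.1 hd2.1 (by omega) (by omega) hLS
    have h2 := weight N K g c1 d1 d2 (Nat.lcm e d1) (Nat.lcm e d2) M kap hN hK hM hkap hg.1 hc1'
      hd1.1 hd2.1 hq1 hq2
    rw [← Finset.mul_sum]
    have h3 : 0 ≤ C1 * X * (Real.sqrt (al g (Nat.lcm e d1)) * Real.sqrt (al g (Nat.lcm e d2))) := by
      positivity
    have hc1r : 0 ≤ 1 / (c1 : ℝ) := by positivity
    refine (mul_le_mul_of_nonneg_left h1 hc1r).trans ?_
    refine le_trans (le_of_eq ?_) ((mul_le_mul_of_nonneg_left h2 h3).trans (le_of_eq ?_))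
    · simp only [hal]; ring
    · rw [← hWt]; ring
  -- first the decomposition for every `k`
  have hdec : ∀ k ∈ S, |∑ n1 ∈ I, ∑ n2 ∈ I, a n1 * a n2 * remdual M k n1 n2| ≤
      ∑ g ∈ I, ∑ c1 ∈ g.divisors, ∑ e ∈ I, ∑ d1 ∈ I, ∑ d2 ∈ I,
        (1 / (c1 : ℝ)) * blk k g c1 e d1 d2 := by
    intro k hk
    rw [hS, Finset.mem_filter, Finset.mem_Ico] at hk
    exact dual_decomp N i k M a hN hM (by omega) ha
  have hswap : ∑ k ∈ S, ∑ g ∈ I, ∑ c1 ∈ g.divisors, ∑ e ∈ I, ∑ d1 ∈ I, ∑ d2 ∈ I,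
        (1 / (c1 : ℝ)) * blk k g c1 e d1 d2 =
      ∑ g ∈ I, ∑ c1 ∈ g.divisors, ∑ e ∈ I, ∑ d1 ∈ I, ∑ d2 ∈ I, ∑ k ∈ S,
        (1 / (c1 : ℝ)) * blk k g c1 e d1 d2 := by
    rw [Finset.sum_comm]
    apply Finset.sum_congr rfl; intro g _
    rw [Finset.sum_comm]
    apply Finset.sum_congr rfl; intro c1 _
    rw [Finset.sum_comm]
    apply Finset.sum_congr rfl; intro e _
    rw [Finset.sum_comm]
    apply Finset.sum_congr rfl; intro d1 _
    rw [Finset.sum_comm]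
  have hharm : ∑ d ∈ I, 1 / (d : ℝ) ≤ 1 + Real.log (2 * N) := by
    have := harm (2 * N)
    push_cast at this
    exact this
  have hharm0 : 0 ≤ ∑ d ∈ I, 1 / (d : ℝ) := Finset.sum_nonneg fun d _ => by positivity
  have hlog0 : 0 ≤ 1 + Real.log (2 * N) := hharm0.trans hharm
  -- the sum over `d1`, `d2`
  have hdd : ∀ g e : ℕ, ∑ d1 ∈ I, ∑ d2 ∈ I,
      (((1 / Real.sqrt d1) * Real.sqrt (al g (Nat.lcm e d1))) *
          ((1 / Real.sqrt d2) * Real.sqrt (al g (Nat.lcm e d2)))) ≤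
      (1 + Real.log (2 * N)) * ∑ d ∈ I, al g (Nat.lcm e d) := by
    intro g e
    have h1 : ∑ d1 ∈ I, ∑ d2 ∈ I,
      (((1 / Real.sqrt d1) * Real.sqrt (al g (Nat.lcm e d1))) *
          ((1 / Real.sqrt d2) * Real.sqrt (al g (Nat.lcm e d2)))) =
        (∑ d ∈ I, (1 / Real.sqrt d) * Real.sqrt (al g (Nat.lcm e d))) ^ 2 := by
      rw [sq, Finset.sum_mul_sum]
    rw [h1]
    refine (Finset.sum_mul_sq_le_sq_mul_sq _ _ _).trans ?_
    have h2 : ∑ d ∈ I, (1 / Real.sqrt (d : ℝ)) ^ 2 = ∑ d ∈ I, 1 / (d : ℝ) := by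
      apply Finset.sum_congr rfl
      intro d _
      rw [div_pow, one_pow, Real.sq_sqrt (Nat.cast_nonneg d)]
    have h3 : ∑ d ∈ I, Real.sqrt (al g (Nat.lcm e d)) ^ 2 = ∑ d ∈ I, al g (Nat.lcm e d) := by
      apply Finset.sum_congr rfl
      intro d _
      rw [Real.sq_sqrt (hal0 _ _)]
    rw [h2, h3]
    exact mul_le_mul_of_nonneg_right hharm (Finset.sum_nonneg fun d _ => hal0 _ _)
  -- the sum over `e`
  have hee : ∀ g : ℕ, ∑ e ∈ I, ∑ d ∈ I, al g (Nat.lcm e d) ≤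
      (D : ℝ) ^ 2 * ∑ m ∈ Finset.Icc 1 (2 * N / g), a (g * m) ^ 2 := by
    intro g
    exact sum_ed (2 * N) D g hD (fun m => a (g * m) ^ 2) (fun m => sq_nonneg _)
  have hgg : ∑ g ∈ I, ∑ m ∈ Finset.Icc 1 (2 * N / g), a (g * m) ^ 2 ≤ D * E a (2 * N) :=
    sum_gm (2 * N) D hD (fun n => a n ^ 2) (fun n => sq_nonneg _)
  have hpre : 0 ≤ C1 * X * Wt := by positivity
  calc ∑ k ∈ S, |∑ n1 ∈ I, ∑ n2 ∈ I, a n1 * a n2 * remdual M k n1 n2|
      ≤ ∑ k ∈ S, ∑ g ∈ I, ∑ c1 ∈ g.divisors, ∑ e ∈ I, ∑ d1 ∈ I, ∑ d2 ∈ I,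
        (1 / (c1 : ℝ)) * blk k g c1 e d1 d2 := Finset.sum_le_sum hdec
    _ = ∑ g ∈ I, ∑ c1 ∈ g.divisors, ∑ e ∈ I, ∑ d1 ∈ I, ∑ d2 ∈ I, ∑ k ∈ S,
        (1 / (c1 : ℝ)) * blk k g c1 e d1 d2 := hswap
    _ ≤ ∑ g ∈ I, ∑ c1 ∈ g.divisors, ∑ e ∈ I, ∑ d1 ∈ I, ∑ d2 ∈ I,
        C1 * X * Wt * (((1 / Real.sqrt d1) * Real.sqrt (al g (Nat.lcm e d1))) *
          ((1 / Real.sqrt d2) * Real.sqrt (al g (Nat.lcm e d2)))) := by
        apply Finset.sum_le_sum; intro g hg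
        apply Finset.sum_le_sum; intro c1 hc1
        apply Finset.sum_le_sum; intro e he
        apply Finset.sum_le_sum; intro d1 hd1
        apply Finset.sum_le_sum; intro d2 hd2
        exact hB g hg c1 hc1 e he d1 hd1 d2 hd2
    _ = ∑ g ∈ I, ∑ c1 ∈ g.divisors, ∑ e ∈ I, C1 * X * Wt * ∑ d1 ∈ I, ∑ d2 ∈ I,
        (((1 / Real.sqrt d1) * Real.sqrt (al g (Nat.lcm e d1))) *
          ((1 / Real.sqrt d2) * Real.sqrt (al g (Nat.lcm e d2)))) := by
        apply Finset.sum_congr rfl; intro g _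
        apply Finset.sum_congr rfl; intro c1 _
        apply Finset.sum_congr rfl; intro e _
        rw [Finset.mul_sum]
        apply Finset.sum_congr rfl; intro d1 _
        rw [Finset.mul_sum]
    _ ≤ ∑ g ∈ I, ∑ c1 ∈ g.divisors, ∑ e ∈ I, C1 * X * Wt *
        ((1 + Real.log (2 * N)) * ∑ d ∈ I, al g (Nat.lcm e d)) := by
        apply Finset.sum_le_sum; intro g _
        apply Finset.sum_le_sum; intro c1 _
        apply Finset.sum_le_sum; intro e _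
        exact mul_le_mul_of_nonneg_left (hdd g e) hpre
    _ = ∑ g ∈ I, (g.divisors.card : ℝ) * (C1 * X * Wt * (1 + Real.log (2 * N)) *
        ∑ e ∈ I, ∑ d ∈ I, al g (Nat.lcm e d)) := by
        apply Finset.sum_congr rfl; intro g _
        rw [Finset.sum_const, nsmul_eq_mul]
        congr 1
        rw [Finset.mul_sum]
        apply Finset.sum_congr rfl; intro e _
        ring
    _ ≤ ∑ g ∈ I, (D : ℝ) * (C1 * X * Wt * (1 + Real.log (2 * N)) *
        ((D : ℝ) ^ 2 * ∑ m ∈ Finset.Icc 1 (2 * N / g), a (g * m) ^ 2)) := by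
        apply Finset.sum_le_sum; intro g hg
        have h1 : (g.divisors.card : ℝ) ≤ D := by exact_mod_cast hD g hg
        have h2 : 0 ≤ ∑ e ∈ I, ∑ d ∈ I, al g (Nat.lcm e d) :=
          Finset.sum_nonneg fun e _ => Finset.sum_nonneg fun d _ => hal0 _ _
        apply mul_le_mul h1 _ (by positivity) (Nat.cast_nonneg D)
        exact mul_le_mul_of_nonneg_left (hee g) (by positivity)
    _ = C1 * X * Wt * (1 + Real.log (2 * N)) * (D : ℝ) ^ 3 *
        ∑ g ∈ I, ∑ m ∈ Finset.Icc 1 (2 * N / g), a (g * m) ^ 2 := by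
        rw [Finset.mul_sum]
        apply Finset.sum_congr rfl; intro g _
        ring
    _ ≤ C1 * X * Wt * (1 + Real.log (2 * N)) * (D : ℝ) ^ 3 * (D * E a (2 * N)) := by
        apply mul_le_mul_of_nonneg_left hgg
        positivity
    _ = 3 * C1 * X * (D : ℝ) ^ 4 * (1 + Real.log (2 * N)) *
        (M + Real.sqrt (M / K) * (Real.sqrt (N * kap) + kap)) * E a (2 * N) := by
        rw [hWt]; ring

end HBQ
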