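import Pool.Agent.Lib.HBQ.Core1
import Pool.Agent.Lib.HBQ.Dir
import Pool.Agent.Lib.HBQ.DualC
import Pool.Agent.Lib.HBQ.Diag
import Pool.Agent.Lib.MP_0b15c0_nt.DivisorBound

set_option autoImplicit false

namespace HBQ

open Finset

/-- the induction hypothesis -/
def HH (ξ : ℝ) : Prop := ∀ ε : ℝ, 0 < ε → ∃ C : ℝ, 0 < C ∧ ∀ M N : ℕ, 1 ≤ M → 1 ≤ N →
  LS M N (C * ((M : ℝ) * N) ^ ε * ((N : ℝ) + (M : ℝ) ^ ξ))

lemma LS_mono {M N : ℕ} {X X' : ℝ} (h : LS M N X) (hX : X ≤ X') : LS M N X' := by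
  intro a ha
  refine le_trans (h a ha) ?_
  exact mul_le_mul_of_nonneg_right hX (E_nonneg _ _)

/-- elementary inequalities for one dyadic block -/
lemma block_alg {M N K K1 ξ kap : ℝ} (hN : 1 ≤ N) (hNM : N ≤ M) (hK : 1 ≤ K) (hKK : K ≤ K1)
    (hK1 : N ^ 2 ≤ K1 * M) (h1 : 1 ≤ ξ) (h2 : ξ ≤ 2) (hkap : kap = (2 * K) ^ ξ) :
    N + Real.sqrt (N * kap * Real.sqrt (M / K)) + kap * Real.sqrt (Real.sqrt (M / K)) ≤
      8 * (M + M / N * K1 ^ ξ) ∧
    M + Real.sqrt (M / K) * (Real.sqrt (N * kap) + kap) ≤ 8 * (M + M / N * K1 ^ ξ) := by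
  have hN0 : 0 < N := by linarith
  have hM0 : 0 < M := by linarith
  have hK0 : 0 < K := by linarith
  have hK10 : 0 < K1 := by linarith
  -- kap ≤ 4 K q, K1^ξ = K1 q1, q ≤ q1
  obtain ⟨q, hq⟩ : ∃ q, q = K ^ (ξ - 1) := ⟨_, rfl⟩
  obtain ⟨q1, hq1⟩ : ∃ q1, q1 = K1 ^ (ξ - 1) := ⟨_, rfl⟩
  have hqpos : 0 < q := hq ▸ Real.rpow_pos_of_pos hK0 _
  have hq1pos : 0 < q1 := hq1 ▸ Real.rpow_pos_of_pos hK10 _
  have hqq : q ≤ q1 := by
    rw [hq, hq1]
    exact Real.rpow_le_rpow hK0.le hKK (by linarith)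
  have e1 : K ^ ξ = K * q := by
    rw [hq]
    conv_rhs => rw [← Real.rpow_one K, ← Real.rpow_mul hK0.le, one_mul]
    rw [← Real.rpow_add hK0]
    congr 1; ring
  have e2 : K1 ^ ξ = K1 * q1 := by
    rw [hq1]
    conv_rhs => rw [← Real.rpow_one K1, ← Real.rpow_mul hK10.le, one_mul]
    rw [← Real.rpow_add hK10]
    congr 1; ring
  have e3 : kap ≤ 4 * (K * q) := by
    rw [hkap, Real.mul_rpow (by norm_num) hK0.le, e1]
    have : (2 : ℝ) ^ ξ ≤ 4 := by
      calc (2 : ℝ) ^ ξ ≤ 2 ^ (2 : ℝ) := Real.rpow_le_rpow_of_exponent_le (by norm_num) h2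
        _ = 4 := by norm_num
    have h3 : 0 ≤ K * q := by positivity
    nlinarith
  have hkap0 : 0 ≤ kap := by rw [hkap]; positivity
  have hNK1 : N / K1 ≤ M / N := by
    rw [div_le_div_iff₀ hK10 hN0]
    nlinarith
  have hMK1 : M / K1 ≤ (M / N) ^ 2 := by
    rw [div_pow, div_le_div_iff₀ hK10 (by positivity)]
    nlinarith
  have hMN1 : 1 ≤ M / N := by rw [le_div_iff₀ hN0]; linarith
  obtain ⟨Z, hZ⟩ : ∃ Z, Z = M / N * K1 ^ ξ := ⟨_, rfl⟩
  have hZ' : Z = M / N * (K1 * q1) := by rw [hZ, e2]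
  have hZpos : 0 < Z := by rw [hZ']; positivity
  have hZge : K1 * q1 ≤ Z := by
    rw [hZ']
    exact le_mul_of_one_le_left (by positivity) hMN1
  -- sqrt (M/K) * K ≤ K1 * (M/N)
  have s1 : Real.sqrt (M / K) * K ≤ K1 * (M / N) := by
    have : Real.sqrt (M / K) * K = Real.sqrt (M * K) := by
      rw [← Real.sqrt_sq hK0.le, ← Real.sqrt_mul (by positivity), Real.sqrt_sq hK0.le]
      congr 1
      field_simp
    rw [this]
    apply Real.sqrt_le_iff.2
    constructor
    · positivity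
    · calc M * K ≤ M * K1 := by gcongr
        _ = K1 ^ 2 * (M / K1) := by field_simp
        _ ≤ K1 ^ 2 * (M / N) ^ 2 := by gcongr
        _ = _ := by ring
  have s2 : Real.sqrt (Real.sqrt (M / K)) * K ≤ K1 * (M / N) := by
    -- (M/K)^(1/4) K ≤ max ...
    rcases le_total 1 (M / K) with hc | hc
    · have h3 : 1 ≤ Real.sqrt (M / K) := by rw [Real.one_le_sqrt]; exact hc
      have h4 : Real.sqrt (Real.sqrt (M / K)) ≤ Real.sqrt (M / K) := by
        apply Real.sqrt_le_iff.2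
        constructor
        · positivity
        · nlinarith
      calc _ ≤ Real.sqrt (M / K) * K := by gcongr
        _ ≤ _ := s1
    · have h4 : Real.sqrt (Real.sqrt (M / K)) ≤ 1 := by
        apply Real.sqrt_le_iff.2
        refine ⟨by norm_num, ?_⟩
        apply Real.sqrt_le_iff.2
        refine ⟨by norm_num, ?_⟩
        simpa using hc
      calc _ ≤ 1 * K := by gcongr
        _ ≤ K1 * (M / N) := by nlinarith
  have t1 : kap * Real.sqrt (Real.sqrt (M / K)) ≤ 4 * Z := by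
    calc kap * Real.sqrt (Real.sqrt (M / K)) ≤ 4 * (K * q) * Real.sqrt (Real.sqrt (M / K)) := by
          gcongr
      _ = 4 * q * (Real.sqrt (Real.sqrt (M / K)) * K) := by ring
      _ ≤ 4 * q1 * (K1 * (M / N)) := by gcongr
      _ = 4 * Z := by rw [hZ']; ring
  have t2 : Real.sqrt (M / K) * kap ≤ 4 * Z := by
    calc Real.sqrt (M / K) * kap ≤ Real.sqrt (M / K) * (4 * (K * q)) := by gcongr
      _ = 4 * q * (Real.sqrt (M / K) * K) := by ring
      _ ≤ 4 * q1 * (K1 * (M / N)) := by gcongr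
      _ = 4 * Z := by rw [hZ']; ring
  have t3 : Real.sqrt (N * kap * Real.sqrt (M / K)) ≤ M + Z := by
    apply Real.sqrt_le_iff.2
    constructor
    · positivity
    · have : N * kap * Real.sqrt (M / K) ≤ 4 * (M * (K1 * q1)) := by
        calc N * kap * Real.sqrt (M / K) ≤ N * (4 * (K * q)) * Real.sqrt (M / K) := by gcongr
          _ = 4 * N * q * (Real.sqrt (M / K) * K) := by ring
          _ ≤ 4 * N * q1 * (K1 * (M / N)) := by gcongr
          _ = 4 * (M * (K1 * q1)) := by field_simp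
      have h5 : M * (K1 * q1) ≤ M * Z := by gcongr
      nlinarith [sq_nonneg (M - Z)]
  have t4 : Real.sqrt (M / K) * Real.sqrt (N * kap) ≤ M + Z := by
    rw [← Real.sqrt_mul (by positivity)]
    apply Real.sqrt_le_iff.2
    constructor
    · positivity
    · have : M / K * (N * kap) ≤ 4 * (M * Z) := by
        calc M / K * (N * kap) ≤ M / K * (N * (4 * (K * q))) := by gcongr
          _ = 4 * (M * (N * q)) := by field_simp
          _ ≤ 4 * (M * (N * q1)) := by gcongr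
          _ = 4 * (M * (N / K1 * (K1 * q1))) := by field_simp
          _ ≤ 4 * (M * (M / N * (K1 * q1))) := by gcongr
          _ = _ := by rw [hZ']
      nlinarith [sq_nonneg (M - Z)]
  rw [← hZ]
  constructor
  · linarith
  · have : Real.sqrt (M / K) * (Real.sqrt (N * kap) + kap) =
      Real.sqrt (M / K) * Real.sqrt (N * kap) + Real.sqrt (M / K) * kap := by ring
    rw [this]; linarith

lemma sum_dyadic (K1 : ℕ) (hK1 : 1 ≤ K1) (g : ℕ → ℝ) (hg : ∀ k, 0 ≤ g k) (B : ℝ)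
    (h : ∀ j : ℕ, 2 ^ j ≤ K1 → ∑ k ∈ (Finset.Ico (2 ^ j) (2 * 2 ^ j)).filter Squarefree, g k ≤ B) :
    ∑ k ∈ (Finset.Icc 1 K1).filter Squarefree, g k ≤ (Nat.log 2 K1 + 1 : ℕ) * B := by
  have hmaps : ∀ k ∈ (Finset.Icc 1 K1).filter Squarefree, Nat.log 2 k ∈
      Finset.range (Nat.log 2 K1 + 1) := by
    intro k hk
    rw [Finset.mem_filter, Finset.mem_Icc] at hk
    rw [Finset.mem_range]
    exact Nat.lt_succ_of_le (Nat.log_mono_right hk.1.2)
  rw [← Finset.sum_fiberwise_of_maps_to hmaps g]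
  calc ∑ j ∈ Finset.range (Nat.log 2 K1 + 1),
        ∑ k ∈ ((Finset.Icc 1 K1).filter Squarefree).filter (fun k => Nat.log 2 k = j), g k
      ≤ ∑ j ∈ Finset.range (Nat.log 2 K1 + 1), B := by
        apply Finset.sum_le_sum
        intro j hj
        rw [Finset.mem_range] at hj
        refine le_trans ?_ (h j ?_)
        · apply Finset.sum_le_sum_of_subset_of_nonneg
          · intro k hk
            rw [Finset.mem_filter, Finset.mem_filter, Finset.mem_Icc] at hk
            rw [Finset.mem_filter, Finset.mem_Ico]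
            obtain ⟨⟨⟨h1, h2⟩, h3⟩, h4⟩ := hk
            refine ⟨⟨?_, ?_⟩, h3⟩
            · rw [← h4]; exact Nat.pow_log_le_self 2 (by omega)
            · have := Nat.lt_pow_succ_log_self (by norm_num : 1 < 2) k
              rw [h4, pow_succ] at this
              omega
          · intro k _ _; exact hg k
        · calc 2 ^ j ≤ 2 ^ Nat.log 2 K1 := Nat.pow_le_pow_right (by norm_num) (by omega)
            _ ≤ K1 := Nat.pow_log_le_self 2 (by omega)
    _ = _ := by rw [Finset.sum_const, Finset.card_range, nsmul_eq_mul]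

end HBQ
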