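import Pool.Agent.Lib.HBQ.Core2

set_option autoImplicit false

namespace HBQ

open Finset

/-- Gaussian beats powers -/
lemma exp_beats {e : ℝ} (he : 0 < e) : ∃ C : ℝ, 0 < C ∧ ∀ P : ℝ, 1 ≤ P →
    P ^ 2 * Real.exp (-(Real.pi * (P ^ e) ^ 2)) ≤ C := by
  obtain ⟨n, hn⟩ := exists_nat_ge (1 / e)
  refine ⟨(n.factorial : ℝ), by exact_mod_cast n.factorial_pos, fun P hP => ?_⟩
  have hP0 : 0 < P := by linarith
  obtain ⟨s, hs⟩ : ∃ s, s = P ^ e := ⟨_, rfl⟩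
  have hs1 : 1 ≤ s := hs ▸ Real.one_le_rpow hP he.le
  rw [← hs]
  have hne : 1 ≤ n * e := by
    have := (div_le_iff₀ he).1 hn
    linarith
  have h1 : P ≤ s ^ n := by
    rw [hs, ← Real.rpow_natCast, ← Real.rpow_mul hP0.le]
    calc P = P ^ (1 : ℝ) := (Real.rpow_one P).symm
      _ ≤ P ^ (e * n) := Real.rpow_le_rpow_of_exponent_le hP (by linarith)
  have h2 : (s ^ 2) ^ n / n.factorial ≤ Real.exp (s ^ 2) := Real.pow_div_factorial_le_exp _ (by positivity) n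
  have hf : (0 : ℝ) < n.factorial := by exact_mod_cast n.factorial_pos
  have h3 : (s ^ 2) ^ n ≤ n.factorial * Real.exp (s ^ 2) := by
    rw [div_le_iff₀ hf] at h2
    linarith
  have h4 : Real.exp (-(Real.pi * s ^ 2)) ≤ Real.exp (-(s ^ 2)) := by
    apply Real.exp_le_exp.2
    have := Real.pi_gt_three
    nlinarith [sq_nonneg s]
  calc P ^ 2 * Real.exp (-(Real.pi * s ^ 2)) ≤ (s ^ n) ^ 2 * Real.exp (-(s ^ 2)) := by gcongr
    _ = (s ^ 2) ^ n * Real.exp (-(s ^ 2)) := by rw [← pow_mul, ← pow_mul, mul_comm n 2]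
    _ ≤ (n.factorial * Real.exp (s ^ 2)) * Real.exp (-(s ^ 2)) := by gcongr
    _ = n.factorial := by rw [mul_assoc, ← Real.exp_add]; simp

theorem core3 (ξ : ℝ) (h1 : 1 ≤ ξ) (h2 : ξ ≤ 2) (hH : HH ξ) : ∀ ε : ℝ, 0 < ε → ∃ C : ℝ, 0 < C ∧
    ∀ (N Mn i : ℕ) (a : ℕ → ℝ), 1 ≤ N → N ≤ Mn → (Mn : ℝ) ≤ 4 * (N : ℝ) ^ 2 → Good N i a →
      ∑ k ∈ (Finset.Icc 1 Mn).filter (fun k => Squarefree k ∧ k % 2 = 1), A a (2 * N) k ^ 2 ≤
        C * ((Mn : ℝ) * N) ^ ε * (Mn + Mn / N * ((N : ℝ) ^ 2 / Mn) ^ ξ) * E a (2 * N) := by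
  intro ε hε
  obtain ⟨e, he⟩ : ∃ e, e = min 1 (ε / 10) := ⟨_, rfl⟩
  have he0 : 0 < e := by rw [he]; positivity
  have he1 : e ≤ 1 := by rw [he]; exact min_le_left _ _
  have he10 : 10 * e ≤ ε := by
    have : e ≤ ε / 10 := by rw [he]; exact min_le_right _ _
    linarith
  obtain ⟨C1, hC1, hLS⟩ := hH e he0
  obtain ⟨C2, hC2, hdiv⟩ := Pool.Agent.Lib.MP0b15c0.divisor_bound he0
  obtain ⟨C5, hC5, hexp⟩ := exp_beats he0
  obtain ⟨Cd, hCd, hdir⟩ := dir_bound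
  obtain ⟨Cu, hCu, hdual⟩ := dual_bound
  obtain ⟨Cg, hCg, hdiag⟩ := diag_bound
  obtain ⟨G, hG⟩ : ∃ G, G = 2 * C2 + 1 := ⟨_, rfl⟩
  have hG1 : 1 ≤ G := by rw [hG]; linarith
  obtain ⟨L1, hL1⟩ : ∃ L1, L1 = 7 + 4 / e := ⟨_, rfl⟩
  have hL10 : 1 ≤ L1 := by rw [hL1]; have : 0 < 4 / e := by positivity
                           linarith
  refine ⟨2048 * C1 + Real.exp Real.pi * (1 + 16 * C5 + Cg * G ^ 2 * 11 +
    L1 * (Cd * (32 * C1) * G * L1 * 512 + Cu * (32 * C1) * G ^ 4 * L1 * 512)), by positivity, ?_⟩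
  intro N Mn i a hN hNM hM4 ha
  have hM1 : 1 ≤ Mn := le_trans hN hNM
  have hNR : (1 : ℝ) ≤ N := by exact_mod_cast hN
  have hNMR : (N : ℝ) ≤ Mn := by exact_mod_cast hNM
  have hMR : (1 : ℝ) ≤ Mn := by linarith
  have hN0 : (0 : ℝ) < N := by linarith
  have hM0 : (0 : ℝ) < Mn := by linarith
  obtain ⟨P, hP⟩ : ∃ P, P = (Mn : ℝ) * N := ⟨_, rfl⟩
  have hP1 : 1 ≤ P := by rw [hP]; exact one_le_mul_of_one_le_of_one_le hMR hNR
  have hP0 : 0 < P := by linarith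
  obtain ⟨s, hs⟩ : ∃ s, s = P ^ e := ⟨_, rfl⟩
  have hs1 : 1 ≤ s := hs ▸ Real.one_le_rpow hP1 he0.le
  have hs0 : 0 < s := by linarith
  have hsP : s ≤ P := by
    rw [hs]
    calc P ^ e ≤ P ^ (1 : ℝ) := Real.rpow_le_rpow_of_exponent_le hP1 he1
      _ = P := Real.rpow_one P
  have hN2P : (N : ℝ) ^ 2 ≤ P := by rw [hP, pow_two]; gcongr
  have hNP : (N : ℝ) ≤ P := by rw [hP]; exact le_mul_of_one_le_left hN0.le hMR
  have hs10 : s ^ 10 ≤ P ^ ε := by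
    rw [hs, ← Real.rpow_natCast, ← Real.rpow_mul hP0.le]
    exact Real.rpow_le_rpow_of_exponent_le hP1 (by push_cast; linarith)
  -- K1
  obtain ⟨K1, hK1⟩ : ∃ K1, K1 = ⌈4 * (N : ℝ) ^ 2 * s / Mn⌉₊ := ⟨_, rfl⟩
  have hKlow : 4 * (N : ℝ) ^ 2 * s ≤ K1 * Mn := by
    have := Nat.le_ceil (4 * (N : ℝ) ^ 2 * s / Mn)
    rw [← hK1, div_le_iff₀ hM0] at this
    exact this
  have hq1 : 1 ≤ 4 * (N : ℝ) ^ 2 * s / Mn := by
    rw [le_div_iff₀ hM0, one_mul]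
    calc (Mn : ℝ) ≤ 4 * (N : ℝ) ^ 2 := hM4
      _ ≤ 4 * (N : ℝ) ^ 2 * s := le_mul_of_one_le_right (by positivity) hs1
  have hKup : (K1 : ℝ) ≤ 8 * (N : ℝ) ^ 2 * s / Mn := by
    have := (Nat.ceil_lt_add_one (by positivity : 0 ≤ 4 * (N : ℝ) ^ 2 * s / Mn)).le
    rw [← hK1] at this
    calc (K1 : ℝ) ≤ 4 * (N : ℝ) ^ 2 * s / Mn + 1 := this
      _ ≤ 4 * (N : ℝ) ^ 2 * s / Mn + 4 * (N : ℝ) ^ 2 * s / Mn := by linarith
      _ = _ := by ring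
  have hK1pos : 1 ≤ K1 := by
    rw [hK1]
    exact Nat.one_le_ceil_iff.2 (by linarith)
  have hK1R : (1 : ℝ) ≤ K1 := by exact_mod_cast hK1pos
  have hK1N : (K1 : ℝ) ≤ 8 * N * s := by
    refine le_trans hKup ?_
    rw [div_le_iff₀ hM0]
    calc 8 * (N : ℝ) ^ 2 * s = (8 * N * s) * N := by ring
      _ ≤ (8 * N * s) * Mn := mul_le_mul_of_nonneg_left hNMR (by positivity)
  have hKN2 : (N : ℝ) ^ 2 ≤ K1 * Mn := by
    refine le_trans ?_ hKlow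
    calc (N : ℝ) ^ 2 = (N : ℝ) ^ 2 * 1 := (mul_one _).symm
      _ ≤ (N : ℝ) ^ 2 * (4 * s) := mul_le_mul_of_nonneg_left (by linarith) (sq_nonneg _)
      _ = 4 * (N : ℝ) ^ 2 * s := by ring
  -- 4 K1 N ≤ 32 P^2
  have h4KN : 4 * (K1 : ℝ) * N ≤ 32 * P ^ 2 := by
    calc 4 * (K1 : ℝ) * N ≤ 4 * (8 * N * s) * N := by gcongr
      _ = 32 * (N ^ 2 * s) := by ring
      _ ≤ 32 * (P * P) := by gcongr
      _ = _ := by ring
  have hpow32 : ∀ z : ℝ, 0 ≤ z → z ≤ 32 * P ^ 2 → z ^ e ≤ 32 * s ^ 2 := by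
    intro z hz0 hz
    calc z ^ e ≤ (32 * P ^ 2) ^ e := Real.rpow_le_rpow hz0 hz he0.le
      _ = 32 ^ e * (P ^ 2) ^ e := Real.mul_rpow (by norm_num) (by positivity)
      _ ≤ 32 * s ^ 2 := by
        have g1 : (32 : ℝ) ^ e ≤ 32 := by
          calc (32 : ℝ) ^ e ≤ 32 ^ (1 : ℝ) := Real.rpow_le_rpow_of_exponent_le (by norm_num) he1
            _ = 32 := Real.rpow_one _
        have g2 : (P ^ 2) ^ e = s ^ 2 := by
          rw [hs, ← Real.rpow_natCast, ← Real.rpow_mul hP0.le, ← Real.rpow_natCast,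
            ← Real.rpow_mul hP0.le, mul_comm]
        rw [g2]
        gcongr
  -- Z
  obtain ⟨Z, hZ⟩ : ∃ Z, Z = (Mn : ℝ) + Mn / N * ((N : ℝ) ^ 2 / Mn) ^ ξ := ⟨_, rfl⟩
  have hZM : (Mn : ℝ) ≤ Z := by
    rw [hZ]
    have : 0 ≤ (Mn : ℝ) / N * ((N : ℝ) ^ 2 / Mn) ^ ξ := by positivity
    linarith
  have hZ1 : 1 ≤ Z := by linarith
  have hZ0 : 0 < Z := by linarith
  have hKξ : (K1 : ℝ) ^ ξ ≤ 64 * s ^ 2 * ((N : ℝ) ^ 2 / Mn) ^ ξ := by
    calc (K1 : ℝ) ^ ξ ≤ (8 * s * ((N : ℝ) ^ 2 / Mn)) ^ ξ := by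
          apply Real.rpow_le_rpow (by positivity) _ (by linarith)
          calc (K1 : ℝ) ≤ 8 * (N : ℝ) ^ 2 * s / Mn := hKup
            _ = _ := by ring
      _ = (8 * s) ^ ξ * ((N : ℝ) ^ 2 / Mn) ^ ξ := Real.mul_rpow (by positivity) (by positivity)
      _ ≤ 64 * s ^ 2 * ((N : ℝ) ^ 2 / Mn) ^ ξ := by
        have g1 : (8 * s) ^ ξ ≤ 64 * s ^ 2 := by
          calc (8 * s) ^ ξ ≤ (8 * s) ^ (2 : ℝ) :=
                Real.rpow_le_rpow_of_exponent_le (by linarith) h2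
            _ = 64 * s ^ 2 := by rw [Real.rpow_two]; ring
        gcongr
  have hs2 : 1 ≤ s ^ 2 := one_le_pow₀ hs1
  have hMZ : (Mn : ℝ) + Mn / N * (K1 : ℝ) ^ ξ ≤ 64 * s ^ 2 * Z := by
    rw [hZ]
    have g1 : (Mn : ℝ) / N * (K1 : ℝ) ^ ξ ≤ Mn / N * (64 * s ^ 2 * ((N : ℝ) ^ 2 / Mn) ^ ξ) := by
      gcongr
    have g2 : (Mn : ℝ) ≤ 64 * s ^ 2 * Mn := le_mul_of_one_le_left hM0.le (by linarith)
    have g3 : 64 * s ^ 2 * (Mn + Mn / N * ((N : ℝ) ^ 2 / Mn) ^ ξ) =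
      64 * s ^ 2 * Mn + Mn / N * (64 * s ^ 2 * ((N : ℝ) ^ 2 / Mn) ^ ξ) := by ring
    rw [g3]
    exact add_le_add g2 g1
  have hMN1 : 1 ≤ (Mn : ℝ) / N := by rw [le_div_iff₀ hN0]; linarith
  have hE := E_nonneg a (2 * N)
  obtain ⟨Ea, hEa⟩ : ∃ Ea, Ea = E a (2 * N) := ⟨_, rfl⟩
  rw [← hEa] at hE
  -- support
  have hsupp : ∀ n, a n ≠ 0 → n ≤ 2 * N ∧ Squarefree n ∧ n % 2 = 1 := by
    intro n hn
    have := ha.2 n hn
    refine ⟨this.2.1, this.2.2.1, ?_⟩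
    rcases ha.1 with h | h <;> omega
  -- part A
  have hA : ∑ k ∈ (Finset.Icc 1 K1).filter (fun k => Squarefree k ∧ k % 2 = 1),
      A a (2 * N) k ^ 2 ≤ 2048 * C1 * s ^ 4 * Z * Ea := by
    have g0 := hLS K1 (2 * N) hK1pos (by omega) a hsupp
    refine le_trans g0 ?_
    rw [← hEa]
    apply mul_le_mul_of_nonneg_right _ hE
    have g1 : ((K1 : ℝ) * ((2 * N : ℕ) : ℝ)) ^ e ≤ 32 * s ^ 2 := by
      apply hpow32 _ (by positivity)
      push_cast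
      have g0 : 0 ≤ (K1 : ℝ) * N := by positivity
      calc (K1 : ℝ) * (2 * N) = 2 * (K1 * N) := by ring
        _ ≤ 4 * (K1 * N) := by linarith
        _ = 4 * (K1 : ℝ) * N := by ring
        _ ≤ _ := h4KN
    have g2 : (((2 * N : ℕ) : ℝ) + (K1 : ℝ) ^ ξ) ≤ 64 * s ^ 2 * Z := by
      push_cast
      have g3 : (K1 : ℝ) ^ ξ ≤ Mn / N * (K1 : ℝ) ^ ξ := le_mul_of_one_le_left (by positivity) hMN1
      have g4 : (Mn : ℝ) / N * (K1 : ℝ) ^ ξ ≤ Mn / N * (64 * s ^ 2 * ((N : ℝ) ^ 2 / Mn) ^ ξ) := by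
        gcongr
      have g5 : 2 * (N : ℝ) ≤ 64 * s ^ 2 * Mn := by
        calc 2 * (N : ℝ) ≤ 2 * Mn := by linarith
          _ ≤ 64 * s ^ 2 * Mn := mul_le_mul_of_nonneg_right (by linarith) hM0.le
      rw [hZ]
      have g6 : 64 * s ^ 2 * (Mn + Mn / N * ((N : ℝ) ^ 2 / Mn) ^ ξ) =
        64 * s ^ 2 * Mn + Mn / N * (64 * s ^ 2 * ((N : ℝ) ^ 2 / Mn) ^ ξ) := by ring
      rw [g6]
      exact add_le_add g5 (le_trans g3 g4)
    calc C1 * ((K1 : ℝ) * ((2 * N : ℕ) : ℝ)) ^ e * (((2 * N : ℕ) : ℝ) + (K1 : ℝ) ^ ξ)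
        ≤ C1 * (32 * s ^ 2) * (64 * s ^ 2 * Z) := by gcongr
      _ = 2048 * C1 * s ^ 4 * Z := by ring
  -- divisors
  obtain ⟨D, hD⟩ : ∃ D, D = ⌊G * s⌋₊ := ⟨_, rfl⟩
  have hDle : (D : ℝ) ≤ G * s := by rw [hD]; exact Nat.floor_le (by positivity)
  have h2Ne : ((2 * N : ℕ) : ℝ) ^ e ≤ 2 * s := by
    push_cast
    calc (2 * (N : ℝ)) ^ e ≤ (2 * P) ^ e := Real.rpow_le_rpow (by positivity) (by linarith) he0.le
      _ = 2 ^ e * P ^ e := Real.mul_rpow (by norm_num) hP0.le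
      _ ≤ 2 * s := by
        have g1 : (2 : ℝ) ^ e ≤ 2 := by
          calc (2 : ℝ) ^ e ≤ 2 ^ (1 : ℝ) := Real.rpow_le_rpow_of_exponent_le (by norm_num) he1
            _ = 2 := Real.rpow_one _
        rw [← hs]
        gcongr
  have hDdiv : ∀ n ∈ Finset.Icc 1 (2 * N), n.divisors.card ≤ D := by
    intro n hn
    rw [Finset.mem_Icc] at hn
    rw [hD]
    apply Nat.le_floor
    calc (n.divisors.card : ℝ) ≤ C2 * (n : ℝ) ^ e := hdiv n (by omega)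
      _ ≤ C2 * ((2 * N : ℕ) : ℝ) ^ e := by
        apply mul_le_mul_of_nonneg_left _ hC2.le
        exact Real.rpow_le_rpow (Nat.cast_nonneg _) (by exact_mod_cast hn.2) he0.le
      _ ≤ C2 * (2 * s) := by gcongr
      _ ≤ G * s := by
        rw [hG]
        have : (2 * C2 + 1) * s = C2 * (2 * s) + s := by ring
        linarith
  -- logs
  have hlog : 1 + Real.log (2 * N) ≤ L1 * s := by
    have g1 := Real.log_le_rpow_div (by positivity : (0 : ℝ) ≤ 2 * N) he0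
    have g2 : (2 * (N : ℝ)) ^ e ≤ 2 * s := by exact_mod_cast h2Ne
    have g3 : (2 * (N : ℝ)) ^ e / e ≤ 2 * s / e := by gcongr
    rw [hL1]
    have g4 : 2 * s / e ≤ 4 / e * s := by
      have : 4 / e * s = 2 * (2 * s / e) := by ring
      rw [this]
      have : 0 ≤ 2 * s / e := by positivity
      linarith
    have g7 : (7 + 4 / e) * s = 7 * s + 4 / e * s := by ring
    linarith
  have hlog0 : 0 ≤ 1 + Real.log (2 * N) := by
    have : 0 ≤ Real.log (2 * N) := Real.log_nonneg (by linarith)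
    linarith
  have hlogK : ((Nat.log 2 K1 + 1 : ℕ) : ℝ) ≤ L1 * s := by
    have g0 : (2 : ℝ) ^ Nat.log 2 K1 ≤ K1 := by
      exact_mod_cast Nat.pow_log_le_self 2 (by omega)
    have g1 : (Nat.log 2 K1 : ℝ) * Real.log 2 ≤ Real.log K1 := by
      rw [← Real.log_pow]
      exact Real.log_le_log (by positivity) g0
    have g2 : Real.log K1 ≤ Real.log (8 * P ^ 2) := by
      apply Real.log_le_log (by linarith)
      calc (K1 : ℝ) ≤ 8 * N * s := hK1N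
        _ ≤ 8 * P * P := by gcongr
        _ = _ := by ring
    have g3 : Real.log (8 * P ^ 2) = 3 * Real.log 2 + 2 * Real.log P := by
      rw [Real.log_mul (by norm_num) (by positivity), Real.log_pow,
        show (8 : ℝ) = 2 ^ 3 by norm_num, Real.log_pow]
      push_cast; ring
    have g4 := Real.log_le_rpow_div hP0.le he0
    rw [← hs] at g4
    have g5 := Real.log_two_gt_d9
    have g6 : 0 ≤ s / e := by positivity
    have g7 : (Nat.log 2 K1 : ℝ) ≤ 3 + 4 * (s / e) := by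
      have g8 : 4 * (s / e) * (1 / 2) ≤ 4 * (s / e) * Real.log 2 :=
        mul_le_mul_of_nonneg_left (by linarith) (by linarith)
      have : (Nat.log 2 K1 : ℝ) * Real.log 2 ≤ (3 + 4 * (s / e)) * Real.log 2 := by
        rw [add_mul]; linarith
      exact le_of_mul_le_mul_right this (by linarith)
    push_cast
    rw [hL1]
    have : 4 / e * s = 4 * (s / e) := by ring
    have g9 : (7 + 4 / e) * s = 7 * s + 4 / e * s := by ring
    linarith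
  -- LS for blocks
  have hblockLS : ∀ j : ℕ, 2 ^ j ≤ K1 → ∀ L : ℕ, 1 ≤ L → L ≤ 2 * N →
      LS (2 * 2 ^ j) L (32 * C1 * s ^ 2 * (L + (2 * ((2 ^ j : ℕ) : ℝ)) ^ ξ)) := by
    intro j hj L hL hLN
    have g0 := hLS (2 * 2 ^ j) L (by have := @Nat.one_le_two_pow j; omega) hL
    apply LS_mono g0
    have g1 : (((2 * 2 ^ j : ℕ) : ℝ) * L) ^ e ≤ 32 * s ^ 2 := by
      apply hpow32 _ (by positivity)
      refine le_trans ?_ h4KN
      have g2 : ((2 * 2 ^ j : ℕ) : ℝ) ≤ 2 * K1 := by exact_mod_cast (by omega : 2 * 2 ^ j ≤ 2 * K1)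
      have g3 : (L : ℝ) ≤ 2 * N := by exact_mod_cast hLN
      calc ((2 * 2 ^ j : ℕ) : ℝ) * L ≤ (2 * K1) * (2 * N) := by gcongr
        _ = _ := by ring
    have g4 : (((2 * 2 ^ j : ℕ) : ℝ)) ^ ξ = (2 * ((2 ^ j : ℕ) : ℝ)) ^ ξ := by push_cast; rfl
    rw [g4]
    calc C1 * (((2 * 2 ^ j : ℕ) : ℝ) * L) ^ e * (L + (2 * ((2 ^ j : ℕ) : ℝ)) ^ ξ)
        ≤ C1 * (32 * s ^ 2) * (L + (2 * ((2 ^ j : ℕ) : ℝ)) ^ ξ) := by gcongr
      _ = _ := by ring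
  have hX0 : 0 ≤ 32 * C1 * s ^ 2 := by positivity
  -- blocks
  have hBdir : ∑ k ∈ (Finset.Icc 1 K1).filter Squarefree,
      |∑ n1 ∈ Finset.Icc 1 (2 * N), ∑ n2 ∈ Finset.Icc 1 (2 * N), a n1 * a n2 * remdir Mn k n1 n2| ≤
      (Nat.log 2 K1 + 1 : ℕ) * (Cd * (32 * C1) * G * L1 * 512 * s ^ 6 * Z * Ea) := by
    apply sum_dyadic K1 hK1pos _ (fun k => abs_nonneg _)
    intro j hj
    have hjR : (1 : ℝ) ≤ ((2 ^ j : ℕ) : ℝ) := by exact_mod_cast Nat.one_le_two_pow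
    have hjK : ((2 ^ j : ℕ) : ℝ) ≤ K1 := by exact_mod_cast hj
    have g0 := hdir N (2 ^ j) i D Mn (32 * C1 * s ^ 2) ((2 * ((2 ^ j : ℕ) : ℝ)) ^ ξ) a hN
      Nat.one_le_two_pow hM0 hX0 (by positivity) ha hDdiv (hblockLS j hj)
    refine le_trans g0 ?_
    rw [← hEa]
    apply mul_le_mul_of_nonneg_right _ hE
    have g1 := (block_alg hNR hNMR hjR hjK hKN2 h1 h2 rfl).1
    calc Cd * (32 * C1 * s ^ 2) * D * (1 + Real.log (2 * N)) *
          (N + Real.sqrt (N * (2 * ((2 ^ j : ℕ) : ℝ)) ^ ξ * Real.sqrt (Mn / ((2 ^ j : ℕ) : ℝ))) +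
            (2 * ((2 ^ j : ℕ) : ℝ)) ^ ξ * Real.sqrt (Real.sqrt (Mn / ((2 ^ j : ℕ) : ℝ))))
        ≤ Cd * (32 * C1 * s ^ 2) * (G * s) * (L1 * s) * (8 * (64 * s ^ 2 * Z)) := by
          gcongr
          exact le_trans g1 (by gcongr)
      _ = Cd * (32 * C1) * G * L1 * 512 * s ^ 6 * Z := by ring
  have hBdual : ∑ k ∈ (Finset.Icc 1 K1).filter Squarefree,
      |∑ n1 ∈ Finset.Icc 1 (2 * N), ∑ n2 ∈ Finset.Icc 1 (2 * N), a n1 * a n2 * remdual Mn k n1 n2| ≤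
      (Nat.log 2 K1 + 1 : ℕ) * (Cu * (32 * C1) * G ^ 4 * L1 * 512 * s ^ 9 * Z * Ea) := by
    apply sum_dyadic K1 hK1pos _ (fun k => abs_nonneg _)
    intro j hj
    have hjR : (1 : ℝ) ≤ ((2 ^ j : ℕ) : ℝ) := by exact_mod_cast Nat.one_le_two_pow
    have hjK : ((2 ^ j : ℕ) : ℝ) ≤ K1 := by exact_mod_cast hj
    have g0 := hdual N (2 ^ j) i D Mn (32 * C1 * s ^ 2) ((2 * ((2 ^ j : ℕ) : ℝ)) ^ ξ) a hN
      Nat.one_le_two_pow hM0 hX0 (by positivity) ha hDdiv (hblockLS j hj)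
    refine le_trans g0 ?_
    rw [← hEa]
    apply mul_le_mul_of_nonneg_right _ hE
    have g1 := (block_alg hNR hNMR hjR hjK hKN2 h1 h2 rfl).2
    calc Cu * (32 * C1 * s ^ 2) * (D : ℝ) ^ 4 * (1 + Real.log (2 * N)) *
          (Mn + Real.sqrt (Mn / ((2 ^ j : ℕ) : ℝ)) *
            (Real.sqrt (N * (2 * ((2 ^ j : ℕ) : ℝ)) ^ ξ) + (2 * ((2 ^ j : ℕ) : ℝ)) ^ ξ))
        ≤ Cu * (32 * C1 * s ^ 2) * (G * s) ^ 4 * (L1 * s) * (8 * (64 * s ^ 2 * Z)) := by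
          gcongr
          exact le_trans g1 (by gcongr)
      _ = Cu * (32 * C1) * G ^ 4 * L1 * 512 * s ^ 9 * Z := by ring
  -- diagonal
  have hBdiag : ∑ k ∈ Finset.Icc 1 K1,
        (|∑ n ∈ Finset.Icc 1 (2 * N), a n ^ 2 * remdual Mn k n n| +
          |∑ n ∈ Finset.Icc 1 (2 * N), a n ^ 2 * remdir Mn k n n|) ≤
      Cg * G ^ 2 * 11 * s ^ 3 * Z * Ea := by
    refine le_trans (hdiag N i K1 D Mn a hN hM0 ha hDdiv) ?_
    rw [← hEa]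
    apply mul_le_mul_of_nonneg_right _ hE
    have g1 : Real.sqrt (Mn * K1) ≤ 3 * (s * Z) := by
      apply Real.sqrt_le_iff.2
      constructor
      · positivity
      · have g2 : (Mn : ℝ) * K1 ≤ 8 * (N : ℝ) ^ 2 * s := by
          have := mul_le_mul_of_nonneg_left hKup hM0.le
          calc (Mn : ℝ) * K1 ≤ Mn * (8 * (N : ℝ) ^ 2 * s / Mn) := this
            _ = _ := by field_simp
        have g3 : (N : ℝ) ^ 2 ≤ Z ^ 2 := by
          apply pow_le_pow_left₀ hN0.le; linarith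
        calc (Mn : ℝ) * K1 ≤ 8 * (N : ℝ) ^ 2 * s := g2
          _ ≤ 8 * Z ^ 2 * s := by gcongr
          _ ≤ (3 * (s * Z)) ^ 2 := by
            have g5 : s ≤ s ^ 2 := le_self_pow₀ hs1 (by norm_num)
            calc 8 * Z ^ 2 * s ≤ 8 * Z ^ 2 * s ^ 2 := mul_le_mul_of_nonneg_left g5 (by positivity)
              _ ≤ 9 * Z ^ 2 * s ^ 2 := by
                have : 0 ≤ Z ^ 2 * s ^ 2 := by positivity
                linarith
              _ = (3 * (s * Z)) ^ 2 := by ring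
    have g4 : (K1 : ℝ) ≤ 8 * (s * Z) := by
      calc (K1 : ℝ) ≤ 8 * N * s := hK1N
        _ ≤ 8 * Z * s := by gcongr; linarith
        _ = _ := by ring
    calc Cg * (D : ℝ) ^ 2 * (Real.sqrt (Mn * K1) + K1)
        ≤ Cg * (G * s) ^ 2 * (3 * (s * Z) + 8 * (s * Z)) := by gcongr
      _ = Cg * G ^ 2 * 11 * s ^ 3 * Z := by ring
  -- tail
  have htail : 2 * (N : ℝ) * (8 * (N : ℝ) ^ 3 * Real.exp (-(Real.pi * s ^ 2))) ≤ 16 * C5 * Z := by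
    have g1 := hexp P hP1
    rw [← hs] at g1
    have g2 : (N : ℝ) ^ 4 ≤ P ^ 2 := by
      calc (N : ℝ) ^ 4 = ((N : ℝ) ^ 2) ^ 2 := by ring
        _ ≤ P ^ 2 := by gcongr
    calc 2 * (N : ℝ) * (8 * (N : ℝ) ^ 3 * Real.exp (-(Real.pi * s ^ 2)))
        = 16 * ((N : ℝ) ^ 4 * Real.exp (-(Real.pi * s ^ 2))) := by ring
      _ ≤ 16 * (P ^ 2 * Real.exp (-(Real.pi * s ^ 2))) := by gcongr
      _ ≤ 16 * C5 := by linarith
      _ ≤ 16 * C5 * Z := le_mul_of_one_le_right (by positivity) hZ1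
  have hcore := core1 N i K1 Mn s a hN hM1 hs1 hKlow ha
  rw [Finset.sum_add_distrib, ← hEa] at hcore
  -- part B
  have hpi : 0 < Real.exp Real.pi := Real.exp_pos _
  have hB : ∑ k ∈ (Finset.Ioc K1 Mn).filter (fun k => Squarefree k ∧ k % 2 = 1),
      A a (2 * N) k ^ 2 ≤ Real.exp Real.pi *
      ∑ k ∈ (Finset.Ioc K1 Mn).filter (fun k => Squarefree k ∧ k % 2 = 1),
        W ((k : ℝ) / Mn) * A a (2 * N) k ^ 2 := by
    rw [Finset.mul_sum]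
    apply Finset.sum_le_sum
    intro k hk
    rw [Finset.mem_filter, Finset.mem_Ioc] at hk
    have g1 : (k : ℝ) / Mn ≤ 1 := by
      rw [div_le_one hM0]; exact_mod_cast hk.1.2
    have g2 : 0 ≤ (k : ℝ) / Mn := by positivity
    have g3 : 1 ≤ Real.exp Real.pi * W ((k : ℝ) / Mn) := by
      unfold W
      rw [← Real.exp_add]
      apply Real.one_le_exp
      have := Real.pi_pos
      have h5 : ((k : ℝ) / Mn) ^ 2 ≤ 1 := pow_le_one₀ g2 g1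
      have h6 : Real.pi * ((k : ℝ) / Mn) ^ 2 ≤ Real.pi * 1 := mul_le_mul_of_nonneg_left h5 this.le
      linarith
    calc A a (2 * N) k ^ 2 ≤ (Real.exp Real.pi * W ((k : ℝ) / Mn)) * A a (2 * N) k ^ 2 :=
          le_mul_of_one_le_left (sq_nonneg _) g3
      _ = _ := by ring
  have hsplit : ∑ k ∈ (Finset.Icc 1 Mn).filter (fun k => Squarefree k ∧ k % 2 = 1),
      A a (2 * N) k ^ 2 ≤
      ∑ k ∈ (Finset.Icc 1 K1).filter (fun k => Squarefree k ∧ k % 2 = 1), A a (2 * N) k ^ 2 +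
      ∑ k ∈ (Finset.Ioc K1 Mn).filter (fun k => Squarefree k ∧ k % 2 = 1), A a (2 * N) k ^ 2 := by
    have hdisj : Disjoint ((Finset.Icc 1 K1).filter (fun k => Squarefree k ∧ k % 2 = 1))
        ((Finset.Ioc K1 Mn).filter (fun k => Squarefree k ∧ k % 2 = 1)) := by
      rw [Finset.disjoint_left]
      intro k h3 h4
      rw [Finset.mem_filter, Finset.mem_Icc] at h3
      rw [Finset.mem_filter, Finset.mem_Ioc] at h4
      omega
    rw [← Finset.sum_union hdisj]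
    apply Finset.sum_le_sum_of_subset_of_nonneg
    · intro k hk
      rw [Finset.mem_filter, Finset.mem_Icc] at hk
      rw [Finset.mem_union, Finset.mem_filter, Finset.mem_filter, Finset.mem_Icc, Finset.mem_Ioc]
      rcases Nat.lt_or_ge K1 k with h | h
      · right; exact ⟨⟨h, hk.1.2⟩, hk.2⟩
      · left; exact ⟨⟨hk.1.1, h⟩, hk.2⟩
    · intro k _ _; exact sq_nonneg _
  rw [← hEa, ← hP, ← hZ]
  have hlogK0 : (0 : ℝ) ≤ ((Nat.log 2 K1 + 1 : ℕ) : ℝ) := Nat.cast_nonneg _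
  have b1 : ((Nat.log 2 K1 + 1 : ℕ) : ℝ) * (Cd * (32 * C1) * G * L1 * 512 * s ^ 6 * Z * Ea) ≤
      L1 * (Cd * (32 * C1) * G * L1 * 512) * s ^ 10 * Z * Ea := by
    calc _ ≤ (L1 * s) * (Cd * (32 * C1) * G * L1 * 512 * s ^ 6 * Z * Ea) := by gcongr
      _ = L1 * (Cd * (32 * C1) * G * L1 * 512) * s ^ 7 * Z * Ea := by ring
      _ ≤ _ := by gcongr; norm_num
  have b2 : ((Nat.log 2 K1 + 1 : ℕ) : ℝ) * (Cu * (32 * C1) * G ^ 4 * L1 * 512 * s ^ 9 * Z * Ea) ≤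
      L1 * (Cu * (32 * C1) * G ^ 4 * L1 * 512) * s ^ 10 * Z * Ea := by
    calc _ ≤ (L1 * s) * (Cu * (32 * C1) * G ^ 4 * L1 * 512 * s ^ 9 * Z * Ea) := by gcongr
      _ = _ := by ring
  have hs10' : 1 ≤ s ^ 10 := one_le_pow₀ hs1
  have b3 : Cg * G ^ 2 * 11 * s ^ 3 * Z * Ea ≤ Cg * G ^ 2 * 11 * s ^ 10 * Z * Ea := by
    gcongr; norm_num
  have b4 : ((Mn : ℝ) + 2 * N * (8 * (N : ℝ) ^ 3 * Real.exp (-(Real.pi * s ^ 2)))) * Ea ≤
      (1 + 16 * C5) * s ^ 10 * Z * Ea := by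
    apply mul_le_mul_of_nonneg_right _ hE
    calc _ ≤ Z + 16 * C5 * Z := by linarith
      _ = (1 + 16 * C5) * Z := by ring
      _ ≤ (1 + 16 * C5) * Z * s ^ 10 := le_mul_of_one_le_right (by positivity) hs10'
      _ = _ := by ring
  have b5 : 2048 * C1 * s ^ 4 * Z * Ea ≤ 2048 * C1 * s ^ 10 * Z * Ea := by
    gcongr; norm_num
  have hW : ∑ k ∈ (Finset.Ioc K1 Mn).filter (fun k => Squarefree k ∧ k % 2 = 1),
        W ((k : ℝ) / Mn) * A a (2 * N) k ^ 2 ≤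
      (1 + 16 * C5 + Cg * G ^ 2 * 11 + L1 * (Cd * (32 * C1) * G * L1 * 512 +
        Cu * (32 * C1) * G ^ 4 * L1 * 512)) * s ^ 10 * Z * Ea := by
    have e1 : (1 + 16 * C5 + Cg * G ^ 2 * 11 + L1 * (Cd * (32 * C1) * G * L1 * 512 +
        Cu * (32 * C1) * G ^ 4 * L1 * 512)) * s ^ 10 * Z * Ea =
        (1 + 16 * C5) * s ^ 10 * Z * Ea + Cg * G ^ 2 * 11 * s ^ 10 * Z * Ea +
        (L1 * (Cd * (32 * C1) * G * L1 * 512) * s ^ 10 * Z * Ea +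
        L1 * (Cu * (32 * C1) * G ^ 4 * L1 * 512) * s ^ 10 * Z * Ea) := by ring
    rw [e1]
    linarith
  calc _ ≤ 2048 * C1 * s ^ 10 * Z * Ea + Real.exp Real.pi *
        ((1 + 16 * C5 + Cg * G ^ 2 * 11 + L1 * (Cd * (32 * C1) * G * L1 * 512 +
        Cu * (32 * C1) * G ^ 4 * L1 * 512)) * s ^ 10 * Z * Ea) := by
        have := mul_le_mul_of_nonneg_left hW hpi.le
        linarith
    _ = (2048 * C1 + Real.exp Real.pi * (1 + 16 * C5 + Cg * G ^ 2 * 11 +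
    L1 * (Cd * (32 * C1) * G * L1 * 512 + Cu * (32 * C1) * G ^ 4 * L1 * 512))) * s ^ 10 * Z * Ea := by
        ring
    _ ≤ _ := by
        gcongr

end HBQ
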