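import Mathlib

set_option autoImplicit false

/-!
Definitions for the quadratic large sieve of Heath-Brown (helper43).
-/

namespace HBQ

/-- Gaussian weight -/
noncomputable def W (x : ℝ) : ℝ := Real.exp (-(Real.pi * x ^ 2))

/-- quartic weight: `W (k * l ^ 2 / M) = f (l / sqrt (M / k))` -/
noncomputable def f (t : ℝ) : ℝ := Real.exp (-(Real.pi * t ^ 4))

noncomputable def I0 : ℝ := ∫ t in Set.Ioi (0 : ℝ), f t

/-- remainder in the summation of `f (j / x)` over `j ≥ 1` -/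
noncomputable def rho (x : ℝ) : ℝ := (∑' j : ℕ, f (((j : ℝ) + 1) / x)) - I0 * x

/-- the Jacobi symbol `(k / n)` as a real number -/
noncomputable def J (k n : ℕ) : ℝ := ((jacobiSym (k : ℤ) n : ℤ) : ℝ)

noncomputable def mu (d : ℕ) : ℝ := ((ArithmeticFunction.moebius d : ℤ) : ℝ)

/-- for squarefree `n1, n2`: `n1 n2 / gcd(n1,n2)^2` -/
def rr (n1 n2 : ℕ) : ℕ := (n1 / Nat.gcd n1 n2) * (n2 / Nat.gcd n1 n2)

/-- the dual term (after Poisson summation) -/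
noncomputable def U (M : ℝ) (n1 n2 H : ℕ) : ℝ :=
  J H (rr n1 n2) * ∑ c ∈ (Nat.gcd (Nat.gcd n1 n2) H).divisors,
    mu c * (M / (c * Real.sqrt (rr n1 n2))) * W (H * M / ((c : ℝ) ^ 2 * rr n1 n2))

noncomputable def remdir (M : ℝ) (k n1 n2 : ℕ) : ℝ :=
  J k (n1 * n2) * ∑ d ∈ (Nat.lcm n1 n2).divisors, mu d * rho (Real.sqrt (M / k) / d)

noncomputable def remdual (M : ℝ) (k n1 n2 : ℕ) : ℝ :=
  J k (rr n1 n2) * (M / Real.sqrt (rr n1 n2)) *
    ∑ c1 ∈ (Nat.gcd (Nat.gcd n1 n2) k).divisors,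
      ∑ c2 ∈ (Nat.gcd n1 n2 / Nat.gcd (Nat.gcd n1 n2) k).divisors,
        ∑ d ∈ (rr n1 n2).divisors,
          mu c1 / c1 * (mu c2 / c2) * mu d *
            rho (c1 * Real.sqrt (rr n1 n2 / (k * M)) / d)

/-- `sum_{l, (l,q)=1} f (l / T)` (for `q > 1` the term `l = 0` is excluded) -/
noncomputable def S4 (T : ℝ) (q : ℕ) : ℝ := ∑' l : ℕ, if Nat.Coprime l q then f (l / T) else 0

noncomputable def E (a : ℕ → ℝ) (N : ℕ) : ℝ := ∑ n ∈ Finset.Icc 1 N, a n ^ 2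

noncomputable def A (a : ℕ → ℝ) (N k : ℕ) : ℝ := ∑ n ∈ Finset.Icc 1 N, a n * J k n

/-- the quadratic large sieve inequality with constant `X` -/
def LS (M N : ℕ) (X : ℝ) : Prop :=
  ∀ a : ℕ → ℝ, (∀ n, a n ≠ 0 → n ≤ N ∧ Squarefree n ∧ n % 2 = 1) →
    ∑ k ∈ (Finset.Icc 1 M).filter (fun k => Squarefree k ∧ k % 2 = 1), A a N k ^ 2 ≤ X * E a N

/-- coefficients supported on odd squarefree `n ∈ (N, 2N]` in one class mod 4 -/
def Good (N i : ℕ) (a : ℕ → ℝ) : Prop :=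
  (i = 1 ∨ i = 3) ∧ ∀ n, a n ≠ 0 → N < n ∧ n ≤ 2 * N ∧ Squarefree n ∧ n % 4 = i

end HBQ
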