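import Pool.Agent.Lib.HBQ.Poisson

set_option autoImplicit false

namespace HBQ

private theorem du_mod4 (g r n1 n2 : ℕ) (o1 : n1 % 2 = 1) (h4 : n1 % 4 = n2 % 4)
    (hg : g ∣ n1) (h : n1 * n2 = g ^ 2 * r) : r % 4 = 1 := by
  have ho : g % 2 = 1 := by
    obtain ⟨a, rfl⟩ := hg
    rcases Nat.mod_two_eq_zero_or_one g with h0 | h0
    · rw [Nat.mul_mod, h0] at o1; simp at o1
    · exact h0
  have hp : (n1 * n2) % 4 = 1 := by
    have h5 : n1 % 4 = 1 ∨ n1 % 4 = 3 := by omega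
    rw [Nat.mul_mod, ← h4]
    rcases h5 with h5 | h5 <;> rw [h5]
  have hgg : (g ^ 2) % 4 = 1 := by
    have h5 : g % 4 = 1 ∨ g % 4 = 3 := by omega
    rw [Nat.pow_mod]
    rcases h5 with h5 | h5 <;> rw [h5]
  rw [h, Nat.mul_mod, hgg] at hp
  simpa using hp

/-- arithmetic of `g = gcd n1 n2`, `r = rr n1 n2` -/
theorem rr_props (n1 n2 : ℕ) (h1 : Squarefree n1) (h2 : Squarefree n2) (o1 : n1 % 2 = 1)
    (h4 : n1 % 4 = n2 % 4) (hne : n1 ≠ n2) :
    1 < rr n1 n2 ∧ Squarefree (rr n1 n2) ∧ rr n1 n2 % 4 = 1 ∧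
      Nat.Coprime (Nat.gcd n1 n2) (rr n1 n2) ∧
      n1 * n2 = Nat.gcd n1 n2 ^ 2 * rr n1 n2 ∧ Nat.lcm n1 n2 = Nat.gcd n1 n2 * rr n1 n2 := by
  have hn1 : 0 < n1 := Nat.pos_of_ne_zero h1.ne_zero
  have hn2 : 0 < n2 := Nat.pos_of_ne_zero h2.ne_zero
  have hg : 0 < Nat.gcd n1 n2 := Nat.gcd_pos_of_pos_left n2 hn1
  have hcop : Nat.Coprime (n1 / Nat.gcd n1 n2) (n2 / Nat.gcd n1 n2) :=
    Nat.coprime_div_gcd_div_gcd hg
  have e1 : Nat.gcd n1 n2 * (n1 / Nat.gcd n1 n2) = n1 := Nat.mul_div_cancel' (Nat.gcd_dvd_left _ _)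
  have e2 : Nat.gcd n1 n2 * (n2 / Nat.gcd n1 n2) = n2 := Nat.mul_div_cancel' (Nat.gcd_dvd_right _ _)
  have hprod : n1 * n2 = Nat.gcd n1 n2 ^ 2 * rr n1 n2 := by
    unfold rr
    calc n1 * n2 = (Nat.gcd n1 n2 * (n1 / Nat.gcd n1 n2)) *
          (Nat.gcd n1 n2 * (n2 / Nat.gcd n1 n2)) := by rw [e1, e2]
      _ = _ := by ring
  have hm4 := du_mod4 _ _ n1 n2 o1 h4 (Nat.gcd_dvd_left n1 n2) hprod
  have s1 : Squarefree (Nat.gcd n1 n2 * (n1 / Nat.gcd n1 n2)) := by rw [e1]; exact h1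
  have s2 : Squarefree (Nat.gcd n1 n2 * (n2 / Nat.gcd n1 n2)) := by rw [e2]; exact h2
  rw [Nat.squarefree_mul_iff] at s1 s2
  refine ⟨?_, ?_, hm4, ?_, hprod, ?_⟩
  · by_contra hlt
    have hr0 : rr n1 n2 ≠ 0 := by
      intro h0
      rw [h0] at hm4
      omega
    have h0 : rr n1 n2 = 1 := by omega
    unfold rr at h0
    have ha := Nat.dvd_one.mp (Dvd.intro _ h0)
    have hb := Nat.dvd_one.mp (Dvd.intro_left _ h0)
    rw [ha] at e1
    rw [hb] at e2
    exact hne (by omega)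
  · unfold rr
    rw [Nat.squarefree_mul_iff]
    exact ⟨hcop, s1.2.2, s2.2.2⟩
  · unfold rr
    exact Nat.Coprime.mul_right s1.1 s2.1
  · have hgl := Nat.gcd_mul_lcm n1 n2
    rw [hprod] at hgl
    have : Nat.gcd n1 n2 * Nat.lcm n1 n2 = Nat.gcd n1 n2 * (Nat.gcd n1 n2 * rr n1 n2) := by
      rw [hgl]; ring
    exact Nat.eq_of_mul_eq_mul_left hg this

private theorem duJ_mul (m a b : ℕ) (hb : a ≠ 0) (hb' : b ≠ 0) : J m (a * b) = J m a * J m b := by
  unfold J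
  rw [jacobiSym.mul_right' _ hb hb']
  push_cast
  ring

private theorem duJ_mul_left (a b m : ℕ) : J (a * b) m = J a m * J b m := by
  unfold J
  push_cast
  rw [jacobiSym.mul_left]
  push_cast
  ring

private theorem duJ_zero (r : ℕ) (hr : 1 < r) : J 0 r = 0 := by
  unfold J
  simp [jacobiSym.zero_left hr]

private theorem duJ_sq (m g : ℕ) (hg : g ≠ 0) :
    J m g ^ 2 = if Nat.gcd g m = 1 then 1 else 0 := by
  unfold J
  split_ifs with h
  · have h1 : jacobiSym (m : ℤ) g ^ 2 = 1 :=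
      jacobiSym.sq_one (a := (m : ℤ)) (b := g)
        (by simpa [Int.gcd_natCast_natCast, Nat.gcd_comm] using h)
    have h2 : ((jacobiSym (m : ℤ) g : ℤ) : ℝ) ^ 2 = ((jacobiSym (m : ℤ) g ^ 2 : ℤ) : ℝ) := by
      push_cast; ring
    rw [h2, h1]; simp
  · have h3 : jacobiSym (m : ℤ) g = 0 := by
      rw [jacobiSym.eq_zero_iff]
      refine ⟨hg, ?_⟩
      rw [Int.gcd_natCast_natCast, Nat.gcd_comm]
      exact h
    rw [h3]; simp

/-- the part of `U` belonging to `c` -/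
private noncomputable def duF (M : ℝ) (r c H : ℕ) : ℝ :=
  if c ∣ H then mu c * (M / (c * Real.sqrt r)) * (J H r * W (H * M / ((c : ℝ) ^ 2 * r))) else 0

private theorem du_divisors (g H : ℕ) (hg : g ≠ 0) :
    (Nat.gcd g H).divisors = g.divisors.filter (fun c => c ∣ H) := by
  ext c
  simp only [Nat.mem_divisors, Finset.mem_filter, ne_eq, Nat.gcd_eq_zero_iff, not_and]
  constructor
  · rintro ⟨h, -⟩
    exact ⟨⟨h.trans (Nat.gcd_dvd_left _ _), hg⟩, h.trans (Nat.gcd_dvd_right _ _)⟩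
  · rintro ⟨⟨h, -⟩, h'⟩
    exact ⟨Nat.dvd_gcd h h', fun h0 => absurd h0 hg⟩

private theorem du_U (M : ℝ) (n1 n2 H : ℕ) (hg : Nat.gcd n1 n2 ≠ 0) :
    U M n1 n2 H = ∑ c ∈ (Nat.gcd n1 n2).divisors, duF M (rr n1 n2) c H := by
  unfold U duF
  rw [du_divisors _ _ hg, Finset.sum_filter, Finset.mul_sum]
  refine Finset.sum_congr rfl fun c _ => ?_
  split_ifs
  · ring
  · ring

private theorem du_inj (c : ℕ) (hc : 0 < c) : Function.Injective (fun h : ℕ => c * h) :=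
  fun _ _ h => Nat.eq_of_mul_eq_mul_left hc h

private theorem duF_off (M : ℝ) (r c H : ℕ) (h : H ∉ Set.range (fun h : ℕ => c * h)) :
    duF M r c H = 0 := by
  unfold duF
  rw [if_neg]
  rintro ⟨k, rfl⟩
  exact h ⟨k, rfl⟩

private theorem duF_comp (M : ℝ) (hM : 0 < M) (r c : ℕ) (hr : 0 < r) (hc : 0 < c) (h : ℕ) :
    duF M r c (c * h) = mu c * (M / (c * Real.sqrt r)) * J c r *
      (J h r * W (h * (M / (c * r)))) := by
  unfold duF
  rw [if_pos (Dvd.intro _ rfl), duJ_mul_left]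
  have hc' : (c : ℝ) ≠ 0 := by positivity
  have hr' : (r : ℝ) ≠ 0 := by positivity
  have : ((c * h : ℕ) : ℝ) * M / ((c : ℝ) ^ 2 * r) = h * (M / (c * r)) := by
    push_cast
    field_simp
  rw [this]
  ring

private theorem duF_summable (M : ℝ) (hM : 0 < M) (r c : ℕ) (hr : 0 < r) (hc : 0 < c) :
    Summable (fun H : ℕ => duF M r c H) := by
  have h := (du_inj c hc).summable_iff (f := fun H : ℕ => duF M r c H)
    (fun x hx => duF_off M r c x hx)
  rw [← h]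
  have h2 : (fun H : ℕ => duF M r c H) ∘ (fun h : ℕ => c * h) =
      fun h : ℕ => mu c * (M / (c * Real.sqrt r)) * J c r * (J h r * W (h * (M / (c * r)))) := by
    funext k
    exact duF_comp M hM r c hr hc k
  rw [h2]
  exact (summable_JW r (M / (c * r)) (by positivity)).mul_left _

private theorem duF_tsum (M : ℝ) (hM : 0 < M) (r c : ℕ) (hr : 0 < r) (hc : 0 < c) :
    ∑' H : ℕ, duF M r c H =
      mu c * (M / (c * Real.sqrt r)) * J c r * ∑' h : ℕ, J h r * W (h * (M / (c * r))) := by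
  have h1 : ∑' H : ℕ, duF M r c H = ∑' h : ℕ, duF M r c (c * h) := by
    symm
    refine (du_inj c hc).tsum_eq (f := fun H : ℕ => duF M r c H) ?_
    intro x hx
    by_contra hx'
    exact hx (duF_off M r c x hx')
  rw [h1, ← tsum_mul_left]
  refine tsum_congr fun h => ?_
  exact duF_comp M hM r c hr hc h

theorem summable_U (M : ℝ) (hM : 0 < M) (n1 n2 : ℕ) (h1 : Squarefree n1) (h2 : Squarefree n2)
    (o1 : n1 % 2 = 1) (h4 : n1 % 4 = n2 % 4) (hne : n1 ≠ n2) :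
    Summable (fun H : ℕ => U M n1 n2 H) := by
  have hp := rr_props n1 n2 h1 h2 o1 h4 hne
  have hg : Nat.gcd n1 n2 ≠ 0 := by
    intro h0
    rw [Nat.gcd_eq_zero_iff] at h0
    exact h1.ne_zero h0.1
  have : (fun H : ℕ => U M n1 n2 H) =
      fun H : ℕ => ∑ c ∈ (Nat.gcd n1 n2).divisors, duF M (rr n1 n2) c H := by
    funext H
    exact du_U M n1 n2 H hg
  rw [this]
  refine summable_sum fun c hc => ?_
  exact duF_summable M hM _ c (by omega) (Nat.pos_of_mem_divisors hc)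

/-- the part of the direct sum belonging to `c` -/
private noncomputable def duG (M : ℝ) (r c m : ℕ) : ℝ :=
  if c ∣ m then mu c * (J m r * W (m / M)) else 0

private theorem duG_off (M : ℝ) (r c H : ℕ) (h : H ∉ Set.range (fun h : ℕ => c * h)) :
    duG M r c H = 0 := by
  unfold duG
  rw [if_neg]
  rintro ⟨k, rfl⟩
  exact h ⟨k, rfl⟩

private theorem duG_comp (M : ℝ) (r c : ℕ) (h : ℕ) :
    duG M r c (c * h) = mu c * J c r * (J h r * W (h * (c / M))) := by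
  unfold duG
  rw [if_pos (Dvd.intro _ rfl), duJ_mul_left]
  have : ((c * h : ℕ) : ℝ) / M = h * (c / M) := by
    push_cast
    ring
  rw [this]
  ring

private theorem duG_summable (M : ℝ) (hM : 0 < M) (r c : ℕ) (hc : 0 < c) :
    Summable (fun H : ℕ => duG M r c H) := by
  have h := (du_inj c hc).summable_iff (f := fun H : ℕ => duG M r c H)
    (fun x hx => duG_off M r c x hx)
  rw [← h]
  have h2 : (fun H : ℕ => duG M r c H) ∘ (fun h : ℕ => c * h) =
      fun h : ℕ => mu c * J c r * (J h r * W (h * (c / M))) := by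
    funext k
    exact duG_comp M r c k
  rw [h2]
  exact (summable_JW r (c / M) (by positivity)).mul_left _

private theorem duG_tsum (M : ℝ) (r c : ℕ) (hc : 0 < c) :
    ∑' H : ℕ, duG M r c H = mu c * J c r * ∑' h : ℕ, J h r * W (h * (c / M)) := by
  have h1 : ∑' H : ℕ, duG M r c H = ∑' h : ℕ, duG M r c (c * h) := by
    symm
    refine (du_inj c hc).tsum_eq (f := fun H : ℕ => duG M r c H) ?_
    intro x hx
    by_contra hx'
    exact hx (duG_off M r c x hx')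
  rw [h1, ← tsum_mul_left]
  refine tsum_congr fun h => ?_
  exact duG_comp M r c h

private theorem du_moebius (g m : ℕ) (hg : g ≠ 0) :
    (if Nat.gcd g m = 1 then (1 : ℝ) else 0) =
      ∑ c ∈ g.divisors, if c ∣ m then mu c else 0 := by
  rw [← Finset.sum_filter, ← du_divisors g m hg]
  have h := ArithmeticFunction.coe_zeta_mul_coe_moebius (R := ℝ)
  have h2 : ((ArithmeticFunction.zeta : ArithmeticFunction ℝ) *
      ((ArithmeticFunction.moebius : ArithmeticFunction ℤ) : ArithmeticFunction ℝ)) (Nat.gcd g m) =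
      (1 : ArithmeticFunction ℝ) (Nat.gcd g m) := by rw [h]
  rw [ArithmeticFunction.coe_zeta_mul_apply, ArithmeticFunction.one_apply] at h2
  rw [← h2]
  rfl

/-- The dual formula. PROOF. `(m/(n1 n2)) = (m/r) 1[(m,g)=1] = (m/r) sum_{c | g, c | m} mu(c)`; write
`m = c m'`, apply `poisson_jacobi` with `t = c / M`, write `H = c h`; `(c/r)(h/r) = (H/r)`. -/
theorem V_eq_U (M : ℝ) (hM : 0 < M) (n1 n2 : ℕ) (h1 : Squarefree n1) (h2 : Squarefree n2)
    (o1 : n1 % 2 = 1) (h4 : n1 % 4 = n2 % 4) (hne : n1 ≠ n2) :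
    ∑' m : ℕ, W (m / M) * J m (n1 * n2) = ∑' H : ℕ, U M n1 n2 H := by
  obtain ⟨p1, p2, p3, p4, p5, p6⟩ := rr_props n1 n2 h1 h2 o1 h4 hne
  have hg : Nat.gcd n1 n2 ≠ 0 := by
    intro h0
    rw [Nat.gcd_eq_zero_iff] at h0
    exact h1.ne_zero h0.1
  have hr0 : 0 < rr n1 n2 := by omega
  have hL : ∀ m : ℕ, W (m / M) * J m (n1 * n2) =
      ∑ c ∈ (Nat.gcd n1 n2).divisors, duG M (rr n1 n2) c m := by
    intro m
    have e1 : J m (n1 * n2) = J m (Nat.gcd n1 n2) ^ 2 * J m (rr n1 n2) := by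
      rw [p5, duJ_mul _ _ _ (pow_ne_zero 2 hg) hr0.ne', sq (Nat.gcd n1 n2), duJ_mul _ _ _ hg hg]
      ring
    rw [e1, duJ_sq _ _ hg, du_moebius _ _ hg, Finset.sum_mul, Finset.mul_sum]
    refine Finset.sum_congr rfl fun c _ => ?_
    unfold duG
    split_ifs
    · ring
    · ring
  rw [tsum_congr hL, tsum_congr (fun H => du_U M n1 n2 H hg)]
  rw [Summable.tsum_finsetSum (fun c hc =>
      duG_summable M hM (rr n1 n2) c (Nat.pos_of_mem_divisors hc)),
    Summable.tsum_finsetSum (fun c hc =>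
      duF_summable M hM (rr n1 n2) c hr0 (Nat.pos_of_mem_divisors hc))]
  refine Finset.sum_congr rfl fun c hc => ?_
  have hc0 : 0 < c := Nat.pos_of_mem_divisors hc
  rw [duG_tsum M _ c hc0, duF_tsum M hM _ c hr0 hc0,
    poisson_jacobi (rr n1 n2) p3 p2 p1 ((c : ℝ) / M) (by positivity)]
  have e2 : ∀ h : ℕ, J h (rr n1 n2) * W (h / ((c : ℝ) / M * (rr n1 n2 : ℝ))) =
      J h (rr n1 n2) * W (h * (M / (c * (rr n1 n2 : ℝ)))) := by
    intro h
    have hr' : (rr n1 n2 : ℝ) ≠ 0 := by positivity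
    have hc' : (c : ℝ) ≠ 0 := by positivity
    have : (h : ℝ) / ((c : ℝ) / M * (rr n1 n2 : ℝ)) = h * (M / (c * (rr n1 n2 : ℝ))) := by
      field_simp
    rw [this]
  rw [tsum_congr e2]
  have e3 : 1 / ((c : ℝ) / M * Real.sqrt (rr n1 n2)) = M / (c * Real.sqrt (rr n1 n2)) := by
    have hr' : Real.sqrt (rr n1 n2 : ℝ) ≠ 0 := by positivity
    have hc' : (c : ℝ) ≠ 0 := by positivity
    field_simp
  rw [e3]
  ring

end HBQ
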