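import Pool.Agent.Lib.HBQ.Defs

set_option autoImplicit false

namespace HBQ

open Finset

private lemma da_sum_divisors_mul (m n : ℕ) (h : Nat.Coprime m n) (F : ℕ → ℝ) :
    ∑ d ∈ (m * n).divisors, F d = ∑ d1 ∈ m.divisors, ∑ d2 ∈ n.divisors, F (d1 * d2) := by
  rw [Nat.divisors_mul, Finset.mul_def, Finset.sum_image h.mul_injOn_divisors,
    Finset.sum_product]

private lemma da_mu_sum (n : ℕ) : ∑ e ∈ n.divisors, mu e = if n = 1 then 1 else 0 := by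
  have h := congrArg (fun f : ArithmeticFunction ℤ => ((f n : ℤ) : ℝ))
    ArithmeticFunction.coe_zeta_mul_moebius
  simp only [ArithmeticFunction.coe_zeta_mul_apply, ArithmeticFunction.one_apply] at h
  unfold mu
  push_cast at h
  exact h

private lemma da_kappa (G : ℕ) (hG : 0 < G) : |∑ c ∈ G.divisors, mu c / c| ≤ 1 := by
  have h := (ArithmeticFunction.sum_eq_iff_sum_mul_moebius_eq (R := ℝ)
    (f := fun n => ((Nat.totient n : ℕ) : ℝ)) (g := fun n => (n : ℝ))).1 (by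
      intro n _
      have := Nat.sum_totient n
      exact_mod_cast this) G hG
  have hG' : (0 : ℝ) < G := by exact_mod_cast hG
  have e : ∑ x ∈ G.divisorsAntidiagonal, (((ArithmeticFunction.moebius x.1 : ℤ)) : ℝ) * (x.2 : ℝ) =
      G * ∑ c ∈ G.divisors, mu c / c := by
    rw [Nat.sum_divisorsAntidiagonal (fun a b =>
      (((ArithmeticFunction.moebius a : ℤ)) : ℝ) * (b : ℝ)), Finset.mul_sum]
    refine Finset.sum_congr rfl fun c hc => ?_
    have hd := Nat.dvd_of_mem_divisors hc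
    have hc0 : (c : ℝ) ≠ 0 := by
      have := Nat.pos_of_mem_divisors hc
      exact_mod_cast this.ne'
    rw [Nat.cast_div hd hc0]
    unfold mu
    ring
  rw [e] at h
  have e2 : ∑ c ∈ G.divisors, mu c / c = ((Nat.totient G : ℕ) : ℝ) / G := by
    rw [eq_div_iff hG'.ne', mul_comm]
    exact h
  rw [e2, abs_of_nonneg (by positivity), div_le_one hG']
  exact_mod_cast Nat.totient_le G

private lemma da_mu_abs (n : ℕ) : |mu n| ≤ 1 := by
  unfold mu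
  have := ArithmeticFunction.abs_moebius_le_one (n := n)
  exact_mod_cast this

private lemma da_mu_mul (m n : ℕ) (h : Nat.Coprime m n) : mu (m * n) = mu m * mu n := by
  unfold mu
  rw [ArithmeticFunction.isMultiplicative_moebius.map_mul_of_coprime h]
  push_cast
  rfl

private lemma da_sum_mult (X g : ℕ) (hg : 0 < g) (H : ℕ → ℝ) (hH : ∀ n, ¬ g ∣ n → H n = 0) :
    ∑ n ∈ Icc 1 X, H n = ∑ m ∈ Icc 1 (X / g), H (g * m) := by
  have hinj : Set.InjOn (fun m => g * m) ((Icc 1 (X / g) : Finset ℕ) : Set ℕ) := by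
    intro a _ b _ hab
    exact Nat.eq_of_mul_eq_mul_left hg hab
  rw [← Finset.sum_image (f := H) (g := fun m => g * m) hinj]
  symm
  refine Finset.sum_subset ?_ ?_
  · intro n hn
    obtain ⟨m, hm, rfl⟩ := Finset.mem_image.1 hn
    rw [Finset.mem_Icc] at hm ⊢
    constructor
    · exact Nat.mul_pos hg hm.1
    · calc g * m ≤ g * (X / g) := Nat.mul_le_mul_left g hm.2
        _ ≤ X := Nat.mul_div_le X g
  · intro n hn hn'
    apply hH
    rintro ⟨m, rfl⟩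
    apply hn'
    rw [Finset.mem_Icc] at hn
    refine Finset.mem_image.2 ⟨m, ?_, rfl⟩
    rw [Finset.mem_Icc]
    constructor
    · exact Nat.pos_of_ne_zero (by rintro rfl; simp at hn)
    · exact (Nat.le_div_iff_mul_le hg).2 (by rw [mul_comm]; exact hn.2)

private lemma da_param (X : ℕ) (F : ℕ → ℕ → ℝ) :
    ∑ n1 ∈ Icc 1 X, ∑ n2 ∈ Icc 1 X, F n1 n2 =
      ∑ g ∈ Icc 1 X, ∑ m1 ∈ Icc 1 (X / g), ∑ m2 ∈ Icc 1 (X / g),
        if Nat.Coprime m1 m2 then F (g * m1) (g * m2) else 0 := by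
  have h1 : ∀ n1 ∈ Icc 1 X, ∀ n2 ∈ Icc 1 X, F n1 n2 =
      ∑ g ∈ Icc 1 X, if Nat.gcd n1 n2 = g then F n1 n2 else 0 := by
    intro n1 hn1 n2 hn2
    rw [Finset.mem_Icc] at hn1 hn2
    rw [Finset.sum_ite_eq, if_pos]
    rw [Finset.mem_Icc]
    exact ⟨Nat.gcd_pos_of_pos_left _ (by omega), (Nat.gcd_le_left _ (by omega)).trans hn1.2⟩
  rw [Finset.sum_congr rfl fun n1 hn1 => Finset.sum_congr rfl fun n2 hn2 => h1 n1 hn1 n2 hn2]
  have h2 : ∀ n1 ∈ Icc 1 X, ∑ n2 ∈ Icc 1 X, ∑ g ∈ Icc 1 X,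
      (if Nat.gcd n1 n2 = g then F n1 n2 else 0) =
      ∑ g ∈ Icc 1 X, ∑ n2 ∈ Icc 1 X, (if Nat.gcd n1 n2 = g then F n1 n2 else 0) :=
    fun n1 _ => Finset.sum_comm
  rw [Finset.sum_congr rfl h2, Finset.sum_comm]
  refine Finset.sum_congr rfl fun g hg => ?_
  have hg0 : 0 < g := (Finset.mem_Icc.1 hg).1
  rw [da_sum_mult X g hg0 _ (by
    intro n hn
    refine Finset.sum_eq_zero fun n2 _ => ?_
    rw [if_neg]
    intro h
    exact hn (h ▸ Nat.gcd_dvd_left n n2))]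
  refine Finset.sum_congr rfl fun m1 _ => ?_
  rw [da_sum_mult X g hg0 _ (by
    intro n hn
    rw [if_neg]
    intro h
    exact hn (h ▸ Nat.gcd_dvd_right (g * m1) n))]
  refine Finset.sum_congr rfl fun m2 _ => ?_
  rw [Nat.gcd_mul_left]
  by_cases hc : Nat.Coprime m1 m2
  · rw [if_pos hc, if_pos]
    rw [Nat.Coprime.gcd_eq_one hc, mul_one]
  · rw [if_neg hc, if_neg]
    intro h
    exact hc (Nat.eq_of_mul_eq_mul_left hg0 (by rw [h, mul_one]))

private lemma da_divisors_Icc (X m : ℕ) (hm : 0 < m) (hmX : m ≤ X) (F : ℕ → ℝ) :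
    ∑ d ∈ m.divisors, F d = ∑ d ∈ Icc 1 X, if d ∣ m then F d else 0 := by
  rw [← Finset.sum_filter]
  refine Finset.sum_congr ?_ fun _ _ => rfl
  ext d
  rw [Nat.mem_divisors, Finset.mem_filter, Finset.mem_Icc]
  constructor
  · rintro ⟨h1, h2⟩
    exact ⟨⟨Nat.pos_of_dvd_of_pos h1 hm, (Nat.le_of_dvd hm h1).trans hmX⟩, h1⟩
  · rintro ⟨_, h⟩
    exact ⟨h, hm.ne'⟩

/-- the basic term -/
private noncomputable def da_term (k : ℕ) (M : ℝ) (a : ℕ → ℝ) (g c1 d1 d2 m1 m2 : ℕ) : ℝ :=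
  a (g * m1) * a (g * m2) * (J k m1 * J k m2) *
    (M / Real.sqrt ((m1 : ℝ) * m2) *
      rho (c1 * Real.sqrt ((m1 : ℝ) * m2 / (k * M)) / ((d1 : ℝ) * d2)))

private lemma da_claim (X k : ℕ) (M : ℝ) (a : ℕ → ℝ) (g : ℕ) (hg : 0 < g)
    (m1 m2 : ℕ) (hm1 : m1 ∈ Icc 1 (X / g)) (hm2 : m2 ∈ Icc 1 (X / g)) :
    (if Nat.Coprime m1 m2 then a (g * m1) * a (g * m2) * remdual M k (g * m1) (g * m2) else 0) =
      ∑ c1 ∈ (Nat.gcd g k).divisors, (mu c1 / c1 * ∑ c2 ∈ (g / Nat.gcd g k).divisors, mu c2 / c2) *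
        ∑ e ∈ Icc 1 X, ∑ d1 ∈ Icc 1 X, ∑ d2 ∈ Icc 1 X, mu e * mu d1 * mu d2 *
          (if Nat.lcm e d1 ∣ m1 then (if Nat.lcm e d2 ∣ m2 then da_term k M a g c1 d1 d2 m1 m2
            else 0) else 0) := by
  rw [Finset.mem_Icc] at hm1 hm2
  have hXg : X / g ≤ X := Nat.div_le_self X g
  have hm1X : m1 ≤ X := hm1.2.trans hXg
  have hm2X : m2 ≤ X := hm2.2.trans hXg
  have hinner : ∀ c1 : ℕ, ∑ e ∈ Icc 1 X, ∑ d1 ∈ Icc 1 X, ∑ d2 ∈ Icc 1 X, mu e * mu d1 * mu d2 *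
          (if Nat.lcm e d1 ∣ m1 then (if Nat.lcm e d2 ∣ m2 then da_term k M a g c1 d1 d2 m1 m2
            else 0) else 0) =
      (if Nat.Coprime m1 m2 then 1 else 0) * ∑ d1 ∈ m1.divisors, ∑ d2 ∈ m2.divisors,
        mu d1 * mu d2 * da_term k M a g c1 d1 d2 m1 m2 := by
    intro c1
    have hcop : (if Nat.Coprime m1 m2 then (1 : ℝ) else 0) =
        ∑ e ∈ Icc 1 X, if (e ∣ m1 ∧ e ∣ m2) then mu e else 0 := by
      have h1 := da_mu_sum (Nat.gcd m1 m2)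
      rw [da_divisors_Icc X (Nat.gcd m1 m2) (Nat.gcd_pos_of_pos_left _ hm1.1)
        ((Nat.gcd_le_left _ hm1.1).trans hm1X)] at h1
      simp only [Nat.dvd_gcd_iff] at h1
      exact h1.symm
    rw [hcop, Finset.sum_mul]
    refine Finset.sum_congr rfl fun e _ => ?_
    rw [da_divisors_Icc X m1 hm1.1 hm1X, Finset.mul_sum]
    refine Finset.sum_congr rfl fun d1 _ => ?_
    rw [da_divisors_Icc X m2 hm2.1 hm2X]
    simp only [Nat.lcm_dvd_iff]
    by_cases he1 : e ∣ m1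
    · by_cases hd1 : d1 ∣ m1
      · rw [if_pos hd1]
        by_cases he2 : e ∣ m2
        · rw [if_pos ⟨he1, he2⟩, Finset.mul_sum]
          refine Finset.sum_congr rfl fun d2 _ => ?_
          rw [if_pos ⟨he1, hd1⟩]
          by_cases hd2 : d2 ∣ m2
          · rw [if_pos ⟨he2, hd2⟩, if_pos hd2]
            ring
          · rw [if_neg (fun h => hd2 h.2), if_neg hd2, mul_zero, mul_zero]
        · rw [if_neg (fun h => he2 h.2), zero_mul]
          refine Finset.sum_eq_zero fun d2 _ => ?_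
          rw [if_pos ⟨he1, hd1⟩, if_neg (fun h => he2 h.1), mul_zero]
      · rw [if_neg hd1, mul_zero]
        refine Finset.sum_eq_zero fun d2 _ => ?_
        rw [if_neg (fun h => hd1 h.2), mul_zero]
    · rw [if_neg (fun h => he1 h.1), zero_mul]
      refine Finset.sum_eq_zero fun d2 _ => ?_
      rw [if_neg (fun h => he1 h.1), mul_zero]
  simp only [hinner]
  by_cases hc : Nat.Coprime m1 m2
  · rw [if_pos hc, if_pos hc]
    simp only [one_mul]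
    have hgcd : Nat.gcd (g * m1) (g * m2) = g := by
      rw [Nat.gcd_mul_left, Nat.Coprime.gcd_eq_one hc, mul_one]
    have hrr : rr (g * m1) (g * m2) = m1 * m2 := by
      unfold rr
      rw [hgcd, Nat.mul_div_cancel_left _ hg, Nat.mul_div_cancel_left _ hg]
    have hJ : J k (m1 * m2) = J k m1 * J k m2 := by
      unfold J
      rw [jacobiSym.mul_right' _ (by omega) (by omega)]
      push_cast
      rfl
    unfold remdual
    rw [hgcd, hrr, hJ]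
    have hstep : ∀ c1 : ℕ, ∑ c2 ∈ (g / Nat.gcd g k).divisors, ∑ d ∈ (m1 * m2).divisors,
          mu c1 / c1 * (mu c2 / c2) * mu d *
            rho (c1 * Real.sqrt ((m1 * m2 : ℕ) / (k * M)) / d) =
        (mu c1 / c1 * ∑ c2 ∈ (g / Nat.gcd g k).divisors, mu c2 / c2) *
          ∑ d1 ∈ m1.divisors, ∑ d2 ∈ m2.divisors, mu d1 * mu d2 *
            rho (c1 * Real.sqrt ((m1 : ℝ) * m2 / (k * M)) / ((d1 : ℝ) * d2)) := by
      intro c1
      rw [mul_assoc, Finset.sum_mul, Finset.mul_sum]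
      refine Finset.sum_congr rfl fun c2 _ => ?_
      rw [da_sum_divisors_mul m1 m2 hc, Finset.mul_sum, Finset.mul_sum]
      refine Finset.sum_congr rfl fun d1 hd1 => ?_
      rw [Finset.mul_sum, Finset.mul_sum]
      refine Finset.sum_congr rfl fun d2 hd2 => ?_
      have hcd : Nat.Coprime d1 d2 := (hc.coprime_dvd_left (Nat.dvd_of_mem_divisors hd1)
        ).coprime_dvd_right (Nat.dvd_of_mem_divisors hd2)
      rw [da_mu_mul d1 d2 hcd]
      push_cast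
      ring
    rw [Finset.sum_congr rfl fun c1 _ => hstep c1, Finset.mul_sum, Finset.mul_sum]
    refine Finset.sum_congr rfl fun c1 _ => ?_
    rw [← mul_assoc, ← mul_assoc]
    rw [mul_comm _ (mu c1 / c1 * ∑ c2 ∈ (g / Nat.gcd g k).divisors, mu c2 / c2)]
    rw [mul_assoc]
    congr 1
    rw [Finset.mul_sum]
    refine Finset.sum_congr rfl fun d1 _ => ?_
    rw [Finset.mul_sum]
    refine Finset.sum_congr rfl fun d2 _ => ?_
    unfold da_term
    push_cast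
    ring
  · rw [if_neg hc, if_neg hc]
    simp

private lemma da_swap (I S : Finset ℕ) (G : ℕ → ℕ → ℕ → ℕ → ℕ → ℝ) :
    ∑ m1 ∈ I, ∑ m2 ∈ I, ∑ e ∈ S, ∑ d1 ∈ S, ∑ d2 ∈ S, G e d1 d2 m1 m2 =
      ∑ e ∈ S, ∑ d1 ∈ S, ∑ d2 ∈ S, ∑ m1 ∈ I, ∑ m2 ∈ I, G e d1 d2 m1 m2 := by
  have h1 : ∀ m1 ∈ I, ∑ m2 ∈ I, ∑ e ∈ S, ∑ d1 ∈ S, ∑ d2 ∈ S, G e d1 d2 m1 m2 =
      ∑ e ∈ S, ∑ d1 ∈ S, ∑ d2 ∈ S, ∑ m2 ∈ I, G e d1 d2 m1 m2 := by
    intro m1 _
    rw [Finset.sum_comm]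
    refine Finset.sum_congr rfl fun e _ => ?_
    rw [Finset.sum_comm]
    refine Finset.sum_congr rfl fun d1 _ => ?_
    rw [Finset.sum_comm]
  rw [Finset.sum_congr rfl h1, Finset.sum_comm]
  refine Finset.sum_congr rfl fun e _ => ?_
  rw [Finset.sum_comm]
  refine Finset.sum_congr rfl fun d1 _ => ?_
  rw [Finset.sum_comm]

/-- Decomposition of the dual remainder, for one `k`. PROOF. Group by `g = gcd(n1,n2)`, `n1 = g m1`,
`n2 = g m2`, `(m1,m2) = 1`, `rr n1 n2 = m1 m2`, `J k (m1 m2) = J k m1 J k m2`. `|sum_{c2 | g/(g,k)} mu(c2)/c2| <= 1`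
(it is a product of factors `1 - 1/p`) and it does not depend on `m1, m2`; `c1` runs over divisors of
`gcd(g,k)`, hence of `g`. Divisors `d` of `m1 m2` are `d1 d2`, `d1 | m1`, `d2 | m2` (coprime). Then
`1[(m1,m2)=1] = sum_{e | m1, e | m2} mu(e)`. The condition `e | m1, d1 | m1` is `lcm e d1 | m1`. -/
theorem dual_decomp (N i k : ℕ) (M : ℝ) (a : ℕ → ℝ) (hN : 1 ≤ N) (hM : 0 < M) (hk : 1 ≤ k)
    (ha : Good N i a) :
    |∑ n1 ∈ Finset.Icc 1 (2 * N), ∑ n2 ∈ Finset.Icc 1 (2 * N), a n1 * a n2 * remdual M k n1 n2| ≤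
      ∑ g ∈ Finset.Icc 1 (2 * N), ∑ c1 ∈ g.divisors, ∑ e ∈ Finset.Icc 1 (2 * N),
        ∑ d1 ∈ Finset.Icc 1 (2 * N), ∑ d2 ∈ Finset.Icc 1 (2 * N), (1 / (c1 : ℝ)) *
          |∑ m1 ∈ (Finset.Icc 1 (2 * N / g)).filter (fun m => Nat.lcm e d1 ∣ m),
            ∑ m2 ∈ (Finset.Icc 1 (2 * N / g)).filter (fun m => Nat.lcm e d2 ∣ m),
              a (g * m1) * a (g * m2) * (J k m1 * J k m2) *
                (M / Real.sqrt ((m1 : ℝ) * m2) *
                  rho (c1 * Real.sqrt ((m1 : ℝ) * m2 / (k * M)) / ((d1 : ℝ) * d2)))| := by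
  rw [da_param (2 * N) (fun n1 n2 => a n1 * a n2 * remdual M k n1 n2)]
  refine (Finset.abs_sum_le_sum_abs _ _).trans (Finset.sum_le_sum fun g hg => ?_)
  have hg0 : 0 < g := (Finset.mem_Icc.1 hg).1
  have hGpos : 0 < g / Nat.gcd g k :=
    Nat.div_pos (Nat.gcd_le_left k hg0) (Nat.gcd_pos_of_pos_left k hg0)
  rw [Finset.sum_congr rfl fun m1 hm1 => Finset.sum_congr rfl fun m2 hm2 =>
    da_claim (2 * N) k M a g hg0 m1 m2 hm1 hm2]
  have h1 : ∑ m1 ∈ Icc 1 (2 * N / g), ∑ m2 ∈ Icc 1 (2 * N / g),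
      ∑ c1 ∈ (Nat.gcd g k).divisors, (mu c1 / c1 * ∑ c2 ∈ (g / Nat.gcd g k).divisors, mu c2 / c2) *
        ∑ e ∈ Icc 1 (2 * N), ∑ d1 ∈ Icc 1 (2 * N), ∑ d2 ∈ Icc 1 (2 * N), mu e * mu d1 * mu d2 *
          (if Nat.lcm e d1 ∣ m1 then (if Nat.lcm e d2 ∣ m2 then da_term k M a g c1 d1 d2 m1 m2
            else 0) else 0) =
      ∑ c1 ∈ (Nat.gcd g k).divisors, (mu c1 / c1 * ∑ c2 ∈ (g / Nat.gcd g k).divisors, mu c2 / c2) *
        ∑ e ∈ Icc 1 (2 * N), ∑ d1 ∈ Icc 1 (2 * N), ∑ d2 ∈ Icc 1 (2 * N), mu e * mu d1 * mu d2 *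
          ∑ m1 ∈ Icc 1 (2 * N / g), ∑ m2 ∈ Icc 1 (2 * N / g),
          (if Nat.lcm e d1 ∣ m1 then (if Nat.lcm e d2 ∣ m2 then da_term k M a g c1 d1 d2 m1 m2
            else 0) else 0) := by
    have h2 : ∀ m1 ∈ Icc 1 (2 * N / g), ∑ m2 ∈ Icc 1 (2 * N / g),
      ∑ c1 ∈ (Nat.gcd g k).divisors, (mu c1 / c1 * ∑ c2 ∈ (g / Nat.gcd g k).divisors, mu c2 / c2) *
        ∑ e ∈ Icc 1 (2 * N), ∑ d1 ∈ Icc 1 (2 * N), ∑ d2 ∈ Icc 1 (2 * N), mu e * mu d1 * mu d2 *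
          (if Nat.lcm e d1 ∣ m1 then (if Nat.lcm e d2 ∣ m2 then da_term k M a g c1 d1 d2 m1 m2
            else 0) else 0) =
      ∑ c1 ∈ (Nat.gcd g k).divisors, ∑ m2 ∈ Icc 1 (2 * N / g),
        (mu c1 / c1 * ∑ c2 ∈ (g / Nat.gcd g k).divisors, mu c2 / c2) *
        ∑ e ∈ Icc 1 (2 * N), ∑ d1 ∈ Icc 1 (2 * N), ∑ d2 ∈ Icc 1 (2 * N), mu e * mu d1 * mu d2 *
          (if Nat.lcm e d1 ∣ m1 then (if Nat.lcm e d2 ∣ m2 then da_term k M a g c1 d1 d2 m1 m2
            else 0) else 0) := fun m1 _ => Finset.sum_comm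
    rw [Finset.sum_congr rfl h2, Finset.sum_comm]
    refine Finset.sum_congr rfl fun c1 _ => ?_
    simp only [← Finset.mul_sum]
    congr 1
    rw [da_swap]
    refine Finset.sum_congr rfl fun e _ => Finset.sum_congr rfl fun d1 _ =>
      Finset.sum_congr rfl fun d2 _ => ?_
    simp only [Finset.mul_sum]
  rw [h1]
  refine (Finset.abs_sum_le_sum_abs _ _).trans ?_
  have hsub : (Nat.gcd g k).divisors ⊆ g.divisors :=
    Nat.divisors_subset_of_dvd hg0.ne' (Nat.gcd_dvd_left g k)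
  have hterm : ∀ c1 ∈ (Nat.gcd g k).divisors,
      |(mu c1 / c1 * ∑ c2 ∈ (g / Nat.gcd g k).divisors, mu c2 / c2) *
        ∑ e ∈ Icc 1 (2 * N), ∑ d1 ∈ Icc 1 (2 * N), ∑ d2 ∈ Icc 1 (2 * N), mu e * mu d1 * mu d2 *
          ∑ m1 ∈ Icc 1 (2 * N / g), ∑ m2 ∈ Icc 1 (2 * N / g),
          (if Nat.lcm e d1 ∣ m1 then (if Nat.lcm e d2 ∣ m2 then da_term k M a g c1 d1 d2 m1 m2
            else 0) else 0)| ≤
      ∑ e ∈ Finset.Icc 1 (2 * N),
        ∑ d1 ∈ Finset.Icc 1 (2 * N), ∑ d2 ∈ Finset.Icc 1 (2 * N), (1 / (c1 : ℝ)) *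
          |∑ m1 ∈ (Finset.Icc 1 (2 * N / g)).filter (fun m => Nat.lcm e d1 ∣ m),
            ∑ m2 ∈ (Finset.Icc 1 (2 * N / g)).filter (fun m => Nat.lcm e d2 ∣ m),
              a (g * m1) * a (g * m2) * (J k m1 * J k m2) *
                (M / Real.sqrt ((m1 : ℝ) * m2) *
                  rho (c1 * Real.sqrt ((m1 : ℝ) * m2 / (k * M)) / ((d1 : ℝ) * d2)))| := by
    intro c1 hc1
    have hc0 : (0 : ℝ) < c1 := by
      have := Nat.pos_of_mem_divisors hc1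
      exact_mod_cast this
    have hcoef : |mu c1 / c1 * ∑ c2 ∈ (g / Nat.gcd g k).divisors, mu c2 / c2| ≤ 1 / (c1 : ℝ) := by
      rw [abs_mul, abs_div, abs_of_pos hc0]
      calc |mu c1| / c1 * |∑ c2 ∈ (g / Nat.gcd g k).divisors, mu c2 / c2|
          ≤ 1 / (c1 : ℝ) * 1 := by
            apply mul_le_mul _ (da_kappa _ hGpos) (abs_nonneg _) (by positivity)
            exact div_le_div_of_nonneg_right (da_mu_abs c1) hc0.le
        _ = 1 / (c1 : ℝ) := mul_one _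
    rw [abs_mul]
    refine (mul_le_mul_of_nonneg_right hcoef (abs_nonneg _)).trans ?_
    simp only [← Finset.mul_sum]
    refine mul_le_mul_of_nonneg_left ?_ (by positivity)
    refine (Finset.abs_sum_le_sum_abs _ _).trans (Finset.sum_le_sum fun e _ => ?_)
    refine (Finset.abs_sum_le_sum_abs _ _).trans (Finset.sum_le_sum fun d1 _ => ?_)
    refine (Finset.abs_sum_le_sum_abs _ _).trans (Finset.sum_le_sum fun d2 _ => ?_)
    rw [abs_mul]
    have hmu : |mu e * mu d1 * mu d2| ≤ 1 := by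
      rw [abs_mul, abs_mul]
      have h1 := da_mu_abs e
      have h2 := da_mu_abs d1
      have h3 := da_mu_abs d2
      calc |mu e| * |mu d1| * |mu d2| ≤ 1 * 1 * 1 := by gcongr
        _ = 1 := by norm_num
    refine (mul_le_mul_of_nonneg_right hmu (abs_nonneg _)).trans ?_
    rw [one_mul, Finset.sum_filter]
    refine le_of_eq (congrArg _ (Finset.sum_congr rfl fun m1 _ => ?_))
    by_cases h : Nat.lcm e d1 ∣ m1
    · simp only [if_pos h]
      rw [Finset.sum_filter]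
      rfl
    · simp only [if_neg h, Finset.sum_const_zero]
  refine (Finset.sum_le_sum hterm).trans ?_
  refine Finset.sum_le_sum_of_subset_of_nonneg hsub fun c1 _ _ => ?_
  refine Finset.sum_nonneg fun e _ => Finset.sum_nonneg fun d1 _ => Finset.sum_nonneg fun d2 _ => ?_
  positivity

end HBQ
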