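import Pool.Agent.Lib.HBQ.GaussSign

set_option autoImplicit false

namespace HBQ

/-- the additive character `k ↦ exp (2 pi i k / r)` -/
private noncomputable def ec (r k : ℕ) : ℂ :=
  Complex.exp (2 * (Real.pi : ℂ) * Complex.I * (k : ℂ) / (r : ℂ))

private noncomputable def GJs (r h : ℕ) : ℂ := ∑ m ∈ Finset.range r, (J m r : ℂ) * ec r (m * h)

private noncomputable def GQs (r h : ℕ) : ℂ := ∑ x ∈ Finset.range r, ec r (h * x ^ 2)

private theorem ec_add (r k l : ℕ) : ec r (k + l) = ec r k * ec r l := by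
  unfold ec
  rw [← Complex.exp_add]
  congr 1
  push_cast
  ring

private theorem ec_mul_self (r l : ℕ) : ec r (r * l) = 1 := by
  unfold ec
  by_cases hr : r = 0
  · rw [hr]; simp
  · have hr' : (r : ℂ) ≠ 0 := by exact_mod_cast hr
    have h1 : 2 * (Real.pi : ℂ) * Complex.I * ((r * l : ℕ) : ℂ) / (r : ℂ) =
        (l : ℂ) * (2 * (Real.pi : ℂ) * Complex.I) := by
      push_cast
      field_simp
    rw [h1]
    exact Complex.exp_nat_mul_two_pi_mul_I l

private theorem ec_mod (r k : ℕ) : ec r (k % r) = ec r k := by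
  conv_rhs => rw [← Nat.mod_add_div k r]
  rw [ec_add, ec_mul_self, mul_one]

private theorem ec_scale (a b k : ℕ) (hb : b ≠ 0) : ec (a * b) (b * k) = ec a k := by
  unfold ec
  congr 1
  have hb' : (b : ℂ) ≠ 0 := by exact_mod_cast hb
  push_cast
  by_cases ha : a = 0
  · rw [ha]; simp
  · have ha' : (a : ℂ) ≠ 0 := by exact_mod_cast ha
    field_simp

private theorem J_mod (m r : ℕ) : J (m % r) r = J m r := by
  unfold J
  rw [jacobiSym.mod_left (m : ℤ)]
  push_cast
  rfl

private theorem J_mul_left (a b r : ℕ) : J (a * b) r = J a r * J b r := by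
  unfold J
  push_cast
  rw [jacobiSym.mul_left]
  push_cast
  rfl

private theorem J_mul_right (k a b : ℕ) (ha : a ≠ 0) (hb : b ≠ 0) :
    J k (a * b) = J k a * J k b := by
  unfold J
  have : NeZero a := ⟨ha⟩
  have : NeZero b := ⟨hb⟩
  rw [jacobiSym.mul_right]
  push_cast
  rfl

private theorem J_sq {a r : ℕ} (h : Nat.Coprime a r) : J a r * J a r = 1 := by
  have h1 : jacobiSym (a : ℤ) r ^ 2 = 1 := by
    apply jacobiSym.sq_one
    exact_mod_cast h
  unfold J
  rw [← Int.cast_mul, ← sq, h1, Int.cast_one]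

/-- a unit substitution in a complete sum -/
private theorem sum_unit {a c : ℕ} (ha : a ≠ 0) (hc : Nat.Coprime c a) {f : ℕ → ℂ}
    (hf : ∀ x, f (x % a) = f x) :
    ∑ u ∈ Finset.range a, f (c * u) = ∑ u ∈ Finset.range a, f u := by
  have hpos : 0 < a := Nat.pos_of_ne_zero ha
  have hinj : Set.InjOn (fun u => (c * u) % a) (Finset.range a : Set ℕ) := by
    intro u hu v hv huv
    have hu' : u < a := Finset.mem_range.mp hu
    have hv' : v < a := Finset.mem_range.mp hv
    have h1 : c * u ≡ c * v [MOD a] := huv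
    have h2 : u ≡ v [MOD a] := Nat.ModEq.cancel_left_of_coprime (by
      rw [Nat.gcd_comm]; exact hc) h1
    exact Nat.ModEq.eq_of_lt_of_lt h2 hu' hv'
  have himg : (Finset.range a).image (fun u => (c * u) % a) = Finset.range a := by
    apply Finset.eq_of_subset_of_card_le
    · intro x hx
      obtain ⟨u, _, rfl⟩ := Finset.mem_image.mp hx
      exact Finset.mem_range.mpr (Nat.mod_lt _ hpos)
    · rw [Finset.card_image_of_injOn hinj]
  conv_rhs => rw [← himg, Finset.sum_image hinj]
  exact Finset.sum_congr rfl fun u _ => (hf _).symm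

/-- Chinese remainder theorem for complete sums -/
private theorem sum_crt {a b : ℕ} (ha : a ≠ 0) (hb : b ≠ 0) (hab : Nat.Coprime a b) {f : ℕ → ℂ}
    (hf : ∀ x, f (x % (a * b)) = f x) :
    ∑ x ∈ Finset.range (a * b), f x =
      ∑ u ∈ Finset.range a, ∑ v ∈ Finset.range b, f (b * u + a * v) := by
  have hpos : 0 < a * b := Nat.mul_pos (Nat.pos_of_ne_zero ha) (Nat.pos_of_ne_zero hb)
  have hinj : Set.InjOn (fun w : ℕ × ℕ => (b * w.1 + a * w.2) % (a * b))
      (Finset.range a ×ˢ Finset.range b : Finset (ℕ × ℕ)) := by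
    rintro ⟨u, v⟩ huv ⟨u', v'⟩ huv' h
    have hu := Finset.mem_product.mp (Finset.mem_coe.mp huv)
    have hu' := Finset.mem_product.mp (Finset.mem_coe.mp huv')
    simp only [Finset.mem_range] at hu hu'
    have h1 : b * u + a * v ≡ b * u' + a * v' [MOD a * b] := h
    have h2 : b * u + a * v ≡ b * u' + a * v' [MOD a] := h1.of_mul_right b
    have h3 : b * u + a * v ≡ b * u' + a * v' [MOD b] := h1.of_mul_left a
    have h4 : b * u ≡ b * u' [MOD a] := by
      have e1 : b * u + a * v ≡ b * u [MOD a] := by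
        unfold Nat.ModEq
        rw [Nat.add_mul_mod_self_left]
      have e2 : b * u' + a * v' ≡ b * u' [MOD a] := by
        unfold Nat.ModEq
        rw [Nat.add_mul_mod_self_left]
      exact e1.symm.trans (h2.trans e2)
    have h5 : a * v ≡ a * v' [MOD b] := by
      have e1 : b * u + a * v ≡ a * v [MOD b] := by
        unfold Nat.ModEq
        rw [Nat.mul_add_mod]
      have e2 : b * u' + a * v' ≡ a * v' [MOD b] := by
        unfold Nat.ModEq
        rw [Nat.mul_add_mod]
      exact e1.symm.trans (h3.trans e2)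
    have h6 : u = u' := Nat.ModEq.eq_of_lt_of_lt
      (Nat.ModEq.cancel_left_of_coprime hab h4) hu.1 hu'.1
    have h7 : v = v' := Nat.ModEq.eq_of_lt_of_lt
      (Nat.ModEq.cancel_left_of_coprime (by rw [Nat.gcd_comm]; exact hab) h5) hu.2 hu'.2
    rw [h6, h7]
  have himg : (Finset.range a ×ˢ Finset.range b).image
      (fun w : ℕ × ℕ => (b * w.1 + a * w.2) % (a * b)) = Finset.range (a * b) := by
    apply Finset.eq_of_subset_of_card_le
    · intro x hx
      obtain ⟨u, _, rfl⟩ := Finset.mem_image.mp hx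
      exact Finset.mem_range.mpr (Nat.mod_lt _ hpos)
    · rw [Finset.card_image_of_injOn hinj, Finset.card_product, Finset.card_range,
        Finset.card_range, Finset.card_range]
  rw [← himg, Finset.sum_image hinj, Finset.sum_product]
  exact Finset.sum_congr rfl fun u _ => Finset.sum_congr rfl fun v _ => hf _

private theorem GJs_term_mod (r h x : ℕ) :
    (J (x % r) r : ℂ) * ec r (x % r * h) = (J x r : ℂ) * ec r (x * h) := by
  rw [J_mod, ← ec_mod r (x % r * h), ← ec_mod r (x * h), Nat.mod_mul_mod]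

private theorem GJs_mul (a b h : ℕ) (ha : a ≠ 0) (hb : b ≠ 0) (hab : Nat.Coprime a b) :
    GJs (a * b) h = ((J b a * J a b : ℝ) : ℂ) * (GJs a h * GJs b h) := by
  unfold GJs
  rw [sum_crt ha hb hab (f := fun m => (J m (a * b) : ℂ) * ec (a * b) (m * h))
    (fun x => GJs_term_mod (a * b) h x), Finset.sum_mul_sum, Finset.mul_sum]
  refine Finset.sum_congr rfl fun u _ => ?_
  rw [Finset.mul_sum]
  refine Finset.sum_congr rfl fun v _ => ?_
  have h1 : J (b * u + a * v) (a * b) = J b a * J u a * (J a b * J v b) := by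
    rw [J_mul_right _ a b ha hb, ← J_mod (b * u + a * v) a, Nat.add_mul_mod_self_left, J_mod,
      ← J_mod (b * u + a * v) b, Nat.mul_add_mod, J_mod, J_mul_left, J_mul_left]
  have h2 : ec (a * b) ((b * u + a * v) * h) = ec a (u * h) * ec b (v * h) := by
    have e1 : (b * u + a * v) * h = b * (u * h) + a * (v * h) := by ring
    rw [e1, ec_add, ec_scale a b _ hb]
    congr 1
    rw [mul_comm a b, ec_scale b a _ ha]
  rw [h1, h2]
  push_cast
  ring

private theorem GQs_mul (a b h : ℕ) (ha : a ≠ 0) (hb : b ≠ 0) (hab : Nat.Coprime a b) :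
    GQs (a * b) h = GQs a (h * b) * GQs b (h * a) := by
  unfold GQs
  rw [sum_crt ha hb hab (f := fun x => ec (a * b) (h * x ^ 2)), Finset.sum_mul_sum]
  · refine Finset.sum_congr rfl fun u _ => ?_
    refine Finset.sum_congr rfl fun v _ => ?_
    have e1 : h * (b * u + a * v) ^ 2 =
        b * (h * b * u ^ 2) + a * (h * a * v ^ 2) + a * b * (2 * h * u * v) := by ring
    rw [e1, ec_add, ec_mul_self, mul_one, ec_add, ec_scale a b _ hb]
    congr 1
    rw [mul_comm a b, ec_scale b a _ ha]
  · intro x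
    show ec (a * b) (h * (x % (a * b)) ^ 2) = ec (a * b) (h * x ^ 2)
    rw [← ec_mod _ (h * (x % (a * b)) ^ 2), ← ec_mod _ (h * x ^ 2), Nat.mul_mod,
      ← Nat.pow_mod, ← Nat.mul_mod]

private theorem GJs_unit (a b h : ℕ) (ha : a ≠ 0) (hab : Nat.Coprime b a) :
    GJs a (h * b) = (J b a : ℂ) * GJs a h := by
  have h1 : GJs a h = ∑ u ∈ Finset.range a, (J (b * u) a : ℂ) * ec a (b * u * h) :=
    (sum_unit ha hab (f := fun m => (J m a : ℂ) * ec a (m * h)) (GJs_term_mod a h)).symm
  rw [h1, Finset.mul_sum]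
  unfold GJs
  refine Finset.sum_congr rfl fun u _ => ?_
  rw [J_mul_left]
  have h2 : (J b a : ℂ) * (J b a : ℂ) = 1 := by
    rw [← Complex.ofReal_mul, J_sq hab, Complex.ofReal_one]
  have h3 : u * (h * b) = b * u * h := by ring
  rw [h3]
  push_cast
  rw [← mul_assoc, ← mul_assoc, h2, one_mul]

private theorem J_prime (p : ℕ) [Fact p.Prime] (m : ℕ) :
    J m p = ((legendreSym p (m : ℤ) : ℤ) : ℝ) := by
  unfold J
  rw [jacobiSym.legendreSym.to_jacobiSym]

private theorem sum_range_zmod (p : ℕ) [NeZero p] (f : ℕ → ℂ) :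
    ∑ x ∈ Finset.range p, f x = ∑ x : ZMod p, f x.val := by
  symm
  refine Finset.sum_bij (fun x _ => x.val) ?_ ?_ ?_ ?_
  · intro x _
    exact Finset.mem_range.mpr (ZMod.val_lt x)
  · intro x _ y _ hxy
    exact ZMod.val_injective p hxy
  · intro b hb
    exact ⟨(b : ZMod p), Finset.mem_univ _, ZMod.val_cast_of_lt (Finset.mem_range.mp hb)⟩
  · intro x _
    rfl

private theorem sum_J_prime (p : ℕ) (hp : p.Prime) (hp2 : p ≠ 2) :
    ∑ m ∈ Finset.range p, (J m p : ℂ) = 0 := by
  have : Fact p.Prime := ⟨hp⟩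
  rw [sum_range_zmod p (fun m => (J m p : ℂ))]
  have h1 : ∑ x : ZMod p, quadraticChar (ZMod p) x = 0 :=
    quadraticChar_sum_zero (by rw [ZMod.ringChar_zmod_n]; exact hp2)
  have h2 : ∀ x : ZMod p, (J x.val p : ℂ) = ((quadraticChar (ZMod p) x : ℤ) : ℂ) := by
    intro x
    rw [J_prime]
    unfold legendreSym
    rw [Int.cast_natCast, ZMod.natCast_zmod_val]
    push_cast
    rfl
  rw [Finset.sum_congr rfl fun x _ => h2 x, ← Int.cast_sum, h1, Int.cast_zero]

private theorem sum_ec (r h : ℕ) (hr : r ≠ 0) (hrh : ¬ r ∣ h) :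
    ∑ m ∈ Finset.range r, ec r (m * h) = 0 := by
  have h1 : ∀ m, ec r (m * h) = ec r h ^ m := by
    intro m
    induction m with
    | zero => unfold ec; simp
    | succ m ih => rw [Nat.succ_mul, ec_add, ih, pow_succ]
  rw [Finset.sum_congr rfl fun m _ => h1 m]
  have h2 : ec r h ≠ 1 := by
    intro h2
    unfold ec at h2
    rw [Complex.exp_eq_one_iff] at h2
    obtain ⟨k, hk⟩ := h2
    have hr' : (r : ℂ) ≠ 0 := by exact_mod_cast hr
    have hpi : (2 * (Real.pi : ℂ) * Complex.I) ≠ 0 := Complex.two_pi_I_ne_zero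
    rw [div_eq_iff hr'] at hk
    have h3 : (2 * (Real.pi : ℂ) * Complex.I) * (h : ℂ) =
        (2 * (Real.pi : ℂ) * Complex.I) * ((k : ℂ) * (r : ℂ)) := by
      rw [hk]; ring
    have h4 := mul_left_cancel₀ hpi h3
    have h5 : (h : ℤ) = k * r := by exact_mod_cast h4
    apply hrh
    have h6 : (r : ℤ) ∣ (h : ℤ) := ⟨k, by rw [h5]; ring⟩
    exact_mod_cast h6
  have h3 := geom_sum_mul (ec r h) r
  have h4 : ec r h ^ r = 1 := by
    rw [← h1 r]
    exact ec_mul_self r h
  rw [h4, sub_self] at h3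
  exact (mul_eq_zero.mp h3).resolve_right (sub_ne_zero.mpr h2)

private theorem GQs_prime (p h : ℕ) (hp : p.Prime) (hp2 : p ≠ 2) (hh : Nat.Coprime h p) :
    GQs p h = GJs p h := by
  have : Fact p.Prime := ⟨hp⟩
  have hph : ¬ p ∣ h := fun hd => by
    have h1 := Nat.Coprime.eq_one_of_dvd hh.symm hd
    exact hp.one_lt.ne' h1
  have hnot : ∑ m ∈ Finset.range p, ec p (m * h) = 0 := sum_ec p h hp.ne_zero hph
  have key : GQs p h = ∑ m ∈ Finset.range p, ((J m p : ℂ) + 1) * ec p (m * h) := by
    unfold GQs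
    rw [sum_range_zmod p (fun x => ec p (h * x ^ 2)),
      sum_range_zmod p (fun m => ((J m p : ℂ) + 1) * ec p (m * h))]
    have e1 : ∀ x : ZMod p, ec p (h * x.val ^ 2) = ec p ((x ^ 2).val * h) := by
      intro x
      rw [← ec_mod p (h * x.val ^ 2), ← ec_mod p ((x ^ 2).val * h)]
      congr 1
      have e2 : ((h * x.val ^ 2 : ℕ) : ZMod p) = (((x ^ 2).val * h : ℕ) : ZMod p) := by
        push_cast
        rw [ZMod.natCast_zmod_val, ZMod.natCast_zmod_val]
        ring
      exact (ZMod.natCast_eq_natCast_iff _ _ _).mp e2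
    rw [Finset.sum_congr rfl fun x _ => e1 x]
    rw [← Finset.sum_fiberwise_of_maps_to (s := (Finset.univ : Finset (ZMod p)))
      (t := (Finset.univ : Finset (ZMod p))) (g := fun x => x ^ 2)
      (fun x _ => Finset.mem_univ _)]
    refine Finset.sum_congr rfl fun m _ => ?_
    have e3 : ∀ x ∈ (Finset.univ : Finset (ZMod p)).filter (fun x => x ^ 2 = m),
        ec p ((x ^ 2).val * h) = ec p (m.val * h) := by
      intro x hx
      rw [(Finset.mem_filter.mp hx).2]
    rw [Finset.sum_congr rfl e3, Finset.sum_const, nsmul_eq_mul]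
    congr 1
    have e4 := legendreSym.card_sqrts p hp2 (m.val : ℤ)
    have e5 : (Finset.univ : Finset (ZMod p)).filter (fun x => x ^ 2 = m) =
        {x : ZMod p | x ^ 2 = (((m.val : ℕ) : ℤ) : ZMod p)}.toFinset := by
      ext x
      rw [Finset.mem_filter, Set.mem_toFinset, Set.mem_ofPred_eq, Int.cast_natCast,
        ZMod.natCast_zmod_val]
      simp
    rw [e5, J_prime]
    have e6 : (({x : ZMod p | x ^ 2 = (((m.val : ℕ) : ℤ) : ZMod p)}.toFinset.card : ℤ) : ℂ) =
        ((legendreSym p ((m.val : ℕ) : ℤ) + 1 : ℤ) : ℂ) := by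
      rw [e4]
    push_cast at e6
    rw [Int.cast_natCast] at *
    simpa using e6
  rw [key]
  simp only [add_mul, one_mul]
  rw [Finset.sum_add_distrib, hnot, add_zero]
  rfl

private theorem GQs_eq : ∀ r : ℕ, r % 2 = 1 → Squarefree r → ∀ h : ℕ, Nat.Coprime h r →
    GQs r h = GJs r h := by
  intro r
  induction r using Nat.strong_induction_on with
  | _ r ih =>
    intro hodd hsq h hh
    by_cases h1 : r = 1
    · subst h1
      unfold GQs GJs J
      simp [ec]
    · have hp := Nat.minFac_prime h1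
      obtain ⟨m, hm⟩ := Nat.minFac_dvd r
      set p := r.minFac with hpdef
      have hm0 : m ≠ 0 := by
        intro h0
        rw [h0, mul_zero] at hm
        rw [hm] at hodd
        omega
      have hcop : Nat.Coprime p m := (Nat.squarefree_mul_iff.1 (hm ▸ hsq)).1
      have hsqm : Squarefree m := (Nat.squarefree_mul_iff.1 (hm ▸ hsq)).2.2
      have hp2 : p ≠ 2 := by
        intro h2
        rw [h2] at hm
        omega
      have hmodd : m % 2 = 1 := by
        have h3 : (p * m) % 2 = 1 := by rw [← hm]; exact hodd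
        rcases Nat.mod_two_eq_zero_or_one m with h4 | h4
        · rw [Nat.mul_mod, h4] at h3
          simp at h3
        · exact h4
      have hmr : m < r := by
        rw [hm]
        have := hp.two_le
        have := Nat.pos_of_ne_zero hm0
        nlinarith
      have hhp : Nat.Coprime h p := Nat.Coprime.coprime_dvd_right (Dvd.intro m hm.symm) hh
      have hhm : Nat.Coprime h m := Nat.Coprime.coprime_dvd_right (Dvd.intro_left p hm.symm) hh
      have hp0 := hp.ne_zero
      rw [hm, GQs_mul p m h hp0 hm0 hcop, GJs_mul p m h hp0 hm0 hcop,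
        GQs_prime p (h * m) hp hp2 (Nat.Coprime.mul_left hhp hcop.symm),
        ih m hmr hmodd hsqm (h * p) (Nat.Coprime.mul_left hhm hcop),
        GJs_unit p m h hp0 hcop.symm, GJs_unit m p h hm0 hcop]
      push_cast
      ring

private theorem GJs_zero (r h : ℕ) (hodd : r % 2 = 1) (hsq : Squarefree r)
    (hh : ¬ Nat.Coprime h r) : GJs r h = 0 := by
  obtain ⟨p, hp, hph, hpr⟩ := Nat.Prime.not_coprime_iff_dvd.mp hh
  obtain ⟨m, hm⟩ := hpr
  have hm0 : m ≠ 0 := by
    intro h0
    rw [h0, mul_zero] at hm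
    rw [hm] at hodd
    omega
  have hcop : Nat.Coprime p m := (Nat.squarefree_mul_iff.1 (hm ▸ hsq)).1
  have hp2 : p ≠ 2 := by
    intro h2
    rw [h2] at hm
    omega
  rw [hm, GJs_mul p m h hp.ne_zero hm0 hcop]
  have h1 : GJs p h = 0 := by
    unfold GJs
    rw [← sum_J_prime p hp hp2]
    refine Finset.sum_congr rfl fun u _ => ?_
    obtain ⟨k, hk⟩ := hph
    have h2 : u * h = p * (u * k) := by rw [hk]; ring
    rw [h2, ec_mul_self, mul_one]
  rw [h1]
  ring

/-- Gauss sum of the Jacobi symbol, `r = 1 mod 4` squarefree (also `r = 1`), twisted by `h`.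
PROOF. (1) number of `x mod r` with `x^2 = m mod r` is `sum_{d | r} (m / d)` (`r` odd squarefree; CRT and
the prime case `1 + (m/p)`). So `sum_x exp(2 pi i x^2/r) = sum_{d | r} sum_{m mod r} (m/d) exp(2 pi i m/r)`,
and the inner sum is `0` for `d < r` (write `m = a + d b`). With `gauss_quad` this is the case `h = 1`.
(2) `h` coprime to `r`: substitute `m -> m h^(-1)`; `gcd(h,r) > 1`: the sum is `0` because `(./r)` is
primitive (or: product over primes). The file Pool/Agent/Lib/MP_0b15c0_nt/PV.lean (on main) has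
`jac s : DirichletCharacter C s` (values `(n/s)`) and `jac_primitive` (squarefree odd `s`); Mathlib has
`gaussSum_mulShift_of_isPrimitive` or similar in NumberTheory/DirichletCharacter/GaussSum.lean. -/
theorem gauss_jacobi (r : ℕ) (hr : r % 4 = 1) (hsq : Squarefree r) (h : ℕ) :
    ∑ m ∈ Finset.range r, (J m r : ℂ) *
        Complex.exp (2 * (Real.pi : ℂ) * Complex.I * ((m : ℂ) * (h : ℂ)) / (r : ℂ)) =
      (J h r : ℂ) * ((Real.sqrt r : ℝ) : ℂ) := by
  have hodd : r % 2 = 1 := by omega
  have hr0 : r ≠ 0 := by omega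
  have h1 : ∑ m ∈ Finset.range r, (J m r : ℂ) *
      Complex.exp (2 * (Real.pi : ℂ) * Complex.I * ((m : ℂ) * (h : ℂ)) / (r : ℂ)) = GJs r h := by
    unfold GJs ec
    refine Finset.sum_congr rfl fun m _ => ?_
    push_cast
    rfl
  rw [h1]
  by_cases hh : Nat.Coprime h r
  · have h2 : GJs r h = (J h r : ℂ) * GJs r 1 := by
      have := GJs_unit r h 1 hr0 hh
      rwa [one_mul] at this
    have h3 : GJs r 1 = ((Real.sqrt r : ℝ) : ℂ) := by
      rw [← GQs_eq r hodd hsq 1 (Nat.coprime_one_left r), ← gauss_quad r hr]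
      unfold GQs ec
      refine Finset.sum_congr rfl fun x _ => ?_
      push_cast
      rw [one_mul]
    rw [h2, h3]
  · have h2 : J h r = 0 := by
      have hne : NeZero r := ⟨hr0⟩
      have h3 : jacobiSym (h : ℤ) r = 0 := by
        rw [jacobiSym.eq_zero_iff_not_coprime]
        intro hc
        exact hh (by exact_mod_cast hc)
      unfold J
      rw [h3]
      simp
    rw [GJs_zero r h hodd hsq hh, h2]
    simp

end HBQ
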