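import Pool.Agent.Lib.HBQ.Defs

set_option autoImplicit false

namespace HBQ

open Filter Topology MeasureTheory

/-- `exp (2 pi i x)` for real `x` -/
private noncomputable def gsE (x : ℝ) : ℂ := Complex.exp (2 * (Real.pi : ℂ) * Complex.I * (x : ℂ))

private lemma gsE_norm (x : ℝ) : ‖gsE x‖ = 1 := by
  unfold gsE
  have : 2 * (Real.pi : ℂ) * Complex.I * (x : ℂ) = ((2 * Real.pi * x : ℝ) : ℂ) * Complex.I := by
    push_cast; ring
  rw [this, Complex.norm_exp_ofReal_mul_I]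

private lemma gsE_add (x y : ℝ) : gsE (x + y) = gsE x * gsE y := by
  unfold gsE
  rw [← Complex.exp_add]
  push_cast
  ring_nf

private lemma gsE_int (n : ℤ) : gsE (n : ℝ) = 1 := by
  unfold gsE
  have : 2 * (Real.pi : ℂ) * Complex.I * ((n : ℝ) : ℂ) = n * (2 * Real.pi * Complex.I) := by
    push_cast; ring
  rw [this, Complex.exp_int_mul_two_pi_mul_I]

private lemma gsE_cont : Continuous gsE := by
  unfold gsE
  fun_prop

private lemma gsE_deriv {g : ℝ → ℝ} {g' x : ℝ} (h : HasDerivAt g g' x) :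
    HasDerivAt (fun t => gsE (g t)) (gsE (g x) * (2 * (Real.pi : ℂ) * Complex.I * (g' : ℂ))) x := by
  unfold gsE
  exact (h.ofReal_comp.const_mul (2 * (Real.pi : ℂ) * Complex.I)).cexp

/-- integration by parts over a period -/
private lemma gs_parts (c : ℂ) (hc : c ≠ 0) (he : Complex.exp c = 1) (f f' : ℝ → ℂ)
    (h1 : ∀ x, HasDerivAt f (f' x) x) (hf' : Continuous f') :
    ∫ t in (0 : ℝ)..1, Complex.exp (c * t) * f t =
      (f 1 - f 0) / c - (∫ t in (0 : ℝ)..1, Complex.exp (c * t) * f' t) / c := by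
  have hf : Continuous f := continuous_iff_continuousAt.2 fun x => (h1 x).continuousAt
  have hE : ∀ x : ℝ, HasDerivAt (fun t : ℝ => Complex.exp (c * t) / c)
      (Complex.exp (c * x)) x := by
    intro x
    have h := ((((hasDerivAt_id x).ofReal_comp).const_mul c).cexp).div_const c
    have e : Complex.exp (c * (id x : ℝ)) * (c * ((1 : ℝ) : ℂ)) / c = Complex.exp (c * x) := by
      simp only [id, Complex.ofReal_one, mul_one]
      field_simp
    rw [e] at h
    exact h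
  have hG : ∀ x : ℝ, HasDerivAt (fun t : ℝ => Complex.exp (c * t) / c * f t)
      (Complex.exp (c * x) * f x + Complex.exp (c * x) / c * f' x) x :=
    fun x => (hE x).mul (h1 x)
  have hcont1 : Continuous fun t : ℝ => Complex.exp (c * t) * f t := by fun_prop
  have hcont2 : Continuous fun t : ℝ => Complex.exp (c * t) / c * f' t := by fun_prop
  have hF := intervalIntegral.integral_eq_sub_of_hasDerivAt (a := (0 : ℝ)) (b := 1)
    (fun x _ => hG x) ((hcont1.add hcont2).intervalIntegrable _ _)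
  rw [intervalIntegral.integral_add (hcont1.intervalIntegrable _ _)
    (hcont2.intervalIntegrable _ _)] at hF
  have e2 : ∫ t in (0 : ℝ)..1, Complex.exp (c * t) / c * f' t =
      (∫ t in (0 : ℝ)..1, Complex.exp (c * t) * f' t) / c := by
    rw [← intervalIntegral.integral_div]
    congr 1
    funext t
    ring
  rw [e2] at hF
  have e3 : Complex.exp (c * ((1 : ℝ) : ℂ)) / c * f 1 - Complex.exp (c * ((0 : ℝ) : ℂ)) / c * f 0 =
      (f 1 - f 0) / c := by
    rw [Complex.ofReal_one, mul_one, he, Complex.ofReal_zero, mul_zero, Complex.exp_zero]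
    ring
  rw [e3] at hF
  rw [← hF]
  ring

private lemma gs_int_bound (c : ℂ) (hc : ∀ t : ℝ, ‖Complex.exp (c * t)‖ = 1) (f : ℝ → ℂ) (B : ℝ)
    (hB : ∀ t ∈ Set.Icc (0 : ℝ) 1, ‖f t‖ ≤ B) :
    ‖∫ t in (0 : ℝ)..1, Complex.exp (c * t) * f t‖ ≤ B := by
  have h := intervalIntegral.norm_integral_le_of_norm_le_const (a := (0 : ℝ)) (b := 1) (C := B)
    (f := fun t : ℝ => Complex.exp (c * t) * f t) (by
      intro t ht
      rw [Set.uIoc_of_le zero_le_one] at ht
      rw [norm_mul, hc, one_mul]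
      exact hB t ⟨ht.1.le, ht.2⟩)
  simpa using h

private lemma gs_fourier (f f' f'' : ℝ → ℂ) (h1 : ∀ x, HasDerivAt f (f' x) x)
    (h2 : ∀ x, HasDerivAt f' (f'' x) x) (hc : Continuous f'') (h01 : f 0 = f 1) :
    HasSum (fun n : ℤ => ∫ t in (0 : ℝ)..1,
      Complex.exp ((-(2 * (Real.pi : ℂ) * Complex.I * n)) * t) * f t) (f 0) := by
  have : Fact ((0 : ℝ) < 1) := ⟨one_pos⟩
  have hf : Continuous f := continuous_iff_continuousAt.2 fun x => (h1 x).continuousAt
  have hf' : Continuous f' := continuous_iff_continuousAt.2 fun x => (h2 x).continuousAt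
  let g : C(AddCircle (1 : ℝ), ℂ) :=
    ⟨AddCircle.liftIco 1 0 f, AddCircle.liftIco_zero_continuous h01 hf.continuousOn⟩
  have hcoef : ∀ n : ℤ, fourierCoeff g n = ∫ t in (0 : ℝ)..1,
      Complex.exp ((-(2 * (Real.pi : ℂ) * Complex.I * n)) * t) * f t := by
    intro n
    show fourierCoeff (AddCircle.liftIco 1 0 f) n = _
    rw [fourierCoeff_eq_intervalIntegral _ _ 0, zero_add, div_one, one_smul]
    refine intervalIntegral.integral_congr_Ioo_of_le zero_le_one fun x hx => ?_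
    show fourier (-n) (x : AddCircle (1 : ℝ)) • AddCircle.liftIco 1 0 f x = _
    rw [AddCircle.liftIco_coe_apply (by rw [zero_add]; exact Set.Ioo_subset_Ico_self hx),
      fourier_coe_apply, smul_eq_mul]
    congr 2
    push_cast
    ring
  have hper : ∀ n : ℤ, Complex.exp (-(2 * (Real.pi : ℂ) * Complex.I * n)) = 1 := by
    intro n
    have : -(2 * (Real.pi : ℂ) * Complex.I * n) = ((-n : ℤ) : ℂ) * (2 * Real.pi * Complex.I) := by
      push_cast; ring
    rw [this, Complex.exp_int_mul_two_pi_mul_I]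
  have hnorm : ∀ (n : ℤ) (t : ℝ),
      ‖Complex.exp ((-(2 * (Real.pi : ℂ) * Complex.I * n)) * t)‖ = 1 := by
    intro n t
    have : (-(2 * (Real.pi : ℂ) * Complex.I * n)) * t =
        ((-(2 * Real.pi * n * t) : ℝ) : ℂ) * Complex.I := by push_cast; ring
    rw [this, Complex.norm_exp_ofReal_mul_I]
  obtain ⟨B, hB⟩ := (isCompact_Icc (a := (0 : ℝ)) (b := 1)).exists_bound_of_continuousOn
    hc.continuousOn
  have hsum : Summable (fourierCoeff g) := by
    have hs : Summable fun n : ℤ => (‖f' 1 - f' 0‖ + B) / (2 * Real.pi) ^ 2 * (1 / (n : ℝ) ^ 2) :=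
      (Real.summable_one_div_int_pow.2 (by norm_num)).mul_left _
    refine Summable.of_norm_bounded_eventually hs ?_
    filter_upwards [Filter.eventually_cofinite_ne (0 : ℤ)] with n hn
    rw [hcoef n]
    have hn' : (n : ℂ) ≠ 0 := by exact_mod_cast hn
    have hcn : -(2 * (Real.pi : ℂ) * Complex.I * n) ≠ 0 := by
      rw [neg_ne_zero]
      have := Complex.two_pi_I_ne_zero
      exact mul_ne_zero this hn'
    rw [gs_parts _ hcn (hper n) f f' h1 hf', h01, sub_self, zero_div, zero_sub,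
      gs_parts _ hcn (hper n) f' f'' h2 hc, norm_neg, norm_div]
    have hcnorm : ‖-(2 * (Real.pi : ℂ) * Complex.I * n)‖ = 2 * Real.pi * |(n : ℝ)| := by
      rw [norm_neg, norm_mul, norm_mul, norm_mul, Complex.norm_I, mul_one, Complex.norm_ofNat,
        Complex.norm_real, Real.norm_eq_abs, abs_of_pos Real.pi_pos, Complex.norm_intCast]
    have hb := gs_int_bound _ (hnorm n) f'' B hB
    have hapos : 0 < 2 * Real.pi * |(n : ℝ)| := by
      have : 0 < |(n : ℝ)| := abs_pos.2 (by exact_mod_cast hn)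
      positivity
    rw [hcnorm, div_le_iff₀ hapos]
    calc ‖(f' 1 - f' 0) / -(2 * (Real.pi : ℂ) * Complex.I * n) -
          (∫ t in (0 : ℝ)..1, Complex.exp ((-(2 * (Real.pi : ℂ) * Complex.I * n)) * t) * f'' t) /
            -(2 * (Real.pi : ℂ) * Complex.I * n)‖
        = ‖(f' 1 - f' 0) -
          (∫ t in (0 : ℝ)..1, Complex.exp ((-(2 * (Real.pi : ℂ) * Complex.I * n)) * t) * f'' t)‖ /
            (2 * Real.pi * |(n : ℝ)|) := by
          rw [← sub_div, norm_div, hcnorm]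
      _ ≤ (‖f' 1 - f' 0‖ + B) / (2 * Real.pi * |(n : ℝ)|) := by
          apply div_le_div_of_nonneg_right _ hapos.le
          exact (norm_sub_le _ _).trans (by linarith)
      _ = (‖f' 1 - f' 0‖ + B) / (2 * Real.pi) ^ 2 * (1 / (n : ℝ) ^ 2) *
            (2 * Real.pi * |(n : ℝ)|) := by
          have h3 : (n : ℝ) ^ 2 = |(n : ℝ)| ^ 2 := (sq_abs _).symm
          rw [h3]
          have h4 : |(n : ℝ)| ≠ 0 := (abs_pos.2 (by exact_mod_cast hn)).ne'
          field_simp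
  have hfin := has_pointwise_sum_fourier_series_of_summable hsum (0 : AddCircle (1 : ℝ))
  have hg0 : g (0 : AddCircle (1 : ℝ)) = f 0 := by
    show AddCircle.liftIco 1 0 f (0 : AddCircle (1 : ℝ)) = f 0
    have := AddCircle.liftIco_coe_apply (p := (1 : ℝ)) (a := 0) (f := f) (x := 0) (by simp)
    simpa using this
  rw [hg0] at hfin
  have e : (fun n : ℤ => ∫ t in (0 : ℝ)..1,
      Complex.exp ((-(2 * (Real.pi : ℂ) * Complex.I * n)) * t) * f t) =
      fun i => fourierCoeff g i • fourier i (0 : AddCircle (1 : ℝ)) := by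
    funext n
    rw [fourier_eval_zero, smul_eq_mul, mul_one, hcoef n]
  rw [e]
  exact hfin

private noncomputable def gsK (R : ℝ) : ℂ := ∫ y in (0 : ℝ)..R, gsE (y ^ 2)

private lemma gsE_sq_cont : Continuous fun y : ℝ => gsE (y ^ 2) := gsE_cont.comp (by fun_prop)

private lemma gsK_neg (R : ℝ) : gsK (-R) = -gsK R := by
  unfold gsK
  have h := intervalIntegral.integral_comp_neg (a := (0 : ℝ)) (b := R) (fun y : ℝ => gsE (y ^ 2))
  simp only [even_two.neg_pow, neg_zero] at h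
  rw [h, intervalIntegral.integral_symm]

private lemma gsK_sub (A B : ℝ) : ∫ y in A..B, gsE (y ^ 2) = gsK B - gsK A := by
  unfold gsK
  rw [intervalIntegral.integral_interval_sub_left (gsE_sq_cont.intervalIntegrable _ _)
    (gsE_sq_cont.intervalIntegrable _ _)]

private lemma gsK_tendsto : ∃ K : ℂ, Tendsto gsK atTop (𝓝 K) := by
  obtain ⟨c, hc⟩ : ∃ c : ℂ, c = 4 * (Real.pi : ℂ) * Complex.I := ⟨_, rfl⟩
  have hc0 : c ≠ 0 := by
    rw [hc]
    have : (Real.pi : ℂ) ≠ 0 := by exact_mod_cast Real.pi_ne_zero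
    simp [this]
  have hG : ∀ y : ℝ, y ≠ 0 → HasDerivAt (fun y : ℝ => gsE (y ^ 2) / (c * (y : ℂ)))
      (gsE (y ^ 2) - gsE (y ^ 2) / (c * (y : ℂ) ^ 2)) y := by
    intro y hy
    have hy' : (y : ℂ) ≠ 0 := by exact_mod_cast hy
    have h1 := gsE_deriv (hasDerivAt_pow 2 y)
    have h2 : HasDerivAt (fun y : ℝ => c * (y : ℂ)) (c * ((1 : ℝ) : ℂ)) y :=
      ((hasDerivAt_id y).ofReal_comp).const_mul c
    have h3 := h1.div h2 (mul_ne_zero hc0 hy')
    have e : (gsE (y ^ 2) * (2 * (Real.pi : ℂ) * Complex.I *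
        (((2 : ℕ) * y ^ (2 - 1) : ℝ) : ℂ)) * (c * (y : ℂ)) - gsE (y ^ 2) * (c * ((1 : ℝ) : ℂ))) /
          (c * (y : ℂ)) ^ 2 = gsE (y ^ 2) - gsE (y ^ 2) / (c * (y : ℂ) ^ 2) := by
      have e1 : 2 * (Real.pi : ℂ) * Complex.I * (((2 : ℕ) * y ^ (2 - 1) : ℝ) : ℂ) = c * y := by
        rw [hc]
        push_cast
        ring
      rw [e1, Complex.ofReal_one, mul_one]
      field_simp
    rw [e] at h3
    exact h3
  have hI : ∀ R : ℝ, 1 ≤ R → gsK R = gsK 1 + (gsE (R ^ 2) / (c * (R : ℂ)) -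
      gsE (1 ^ 2) / (c * ((1 : ℝ) : ℂ))) + ∫ y in (1 : ℝ)..R, gsE (y ^ 2) / (c * (y : ℂ) ^ 2) := by
    intro R hR
    have hne : ∀ y ∈ Set.uIcc (1 : ℝ) R, y ≠ 0 := by
      intro y hy
      rw [Set.uIcc_of_le hR] at hy
      have := hy.1
      positivity
    have hci : ContinuousOn (fun y : ℝ => gsE (y ^ 2) / (c * (y : ℂ) ^ 2)) (Set.uIcc (1 : ℝ) R) := by
      apply ContinuousOn.div gsE_sq_cont.continuousOn (by fun_prop)
      intro y hy
      have hy' : (y : ℂ) ≠ 0 := by exact_mod_cast hne y hy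
      exact mul_ne_zero hc0 (pow_ne_zero _ hy')
    have h := intervalIntegral.integral_eq_sub_of_hasDerivAt (a := (1 : ℝ)) (b := R)
      (fun y hy => hG y (hne y hy))
      ((gsE_sq_cont.continuousOn.sub hci).intervalIntegrable)
    rw [intervalIntegral.integral_sub (gsE_sq_cont.intervalIntegrable _ _)
      hci.intervalIntegrable, gsK_sub] at h
    linear_combination h
  have hint : IntegrableOn (fun y : ℝ => gsE (y ^ 2) / (c * (y : ℂ) ^ 2)) (Set.Ioi (1 : ℝ)) := by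
    have hb : IntegrableOn (fun y : ℝ => ‖c‖⁻¹ * y ^ (-2 : ℝ)) (Set.Ioi (1 : ℝ)) :=
      (integrableOn_Ioi_rpow_of_lt (by norm_num) one_pos).const_mul _
    refine hb.mono' ?_ ?_
    · refine ContinuousOn.aestronglyMeasurable ?_ measurableSet_Ioi
      apply ContinuousOn.div gsE_sq_cont.continuousOn (by fun_prop)
      intro y hy
      have h0 : (0 : ℝ) < y := lt_trans one_pos hy
      have hy' : (y : ℂ) ≠ 0 := by exact_mod_cast h0.ne'
      exact mul_ne_zero hc0 (pow_ne_zero _ hy')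
    · refine (ae_restrict_iff' measurableSet_Ioi).2 (Eventually.of_forall ?_)
      intro y hy
      have h0 : (0 : ℝ) < y := lt_trans one_pos hy
      rw [norm_div, gsE_norm, norm_mul, norm_pow, Complex.norm_real, Real.norm_eq_abs,
        abs_of_pos h0, Real.rpow_neg h0.le, Real.rpow_two, one_div, mul_inv]
  have hlim := intervalIntegral_tendsto_integral_Ioi 1 hint tendsto_id
  have hG0 : Tendsto (fun R : ℝ => gsE (R ^ 2) / (c * (R : ℂ))) atTop (𝓝 0) := by
    rw [tendsto_zero_iff_norm_tendsto_zero]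
    have : Tendsto (fun R : ℝ => ‖c‖⁻¹ * R⁻¹) atTop (𝓝 (‖c‖⁻¹ * 0)) :=
      tendsto_inv_atTop_zero.const_mul _
    rw [mul_zero] at this
    refine this.congr' ?_
    filter_upwards [eventually_gt_atTop (0 : ℝ)] with R hR
    rw [norm_div, gsE_norm, norm_mul, Complex.norm_real, Real.norm_eq_abs, abs_of_pos hR, one_div,
      mul_inv]
  refine ⟨_, Tendsto.congr' ?_ (((hG0.sub_const (gsE (1 ^ 2) / (c * ((1 : ℝ) : ℂ)))).const_add
    (gsK 1)).add hlim)⟩
  filter_upwards [eventually_ge_atTop (1 : ℝ)] with R hR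
  rw [hI R hR]
  rfl

private noncomputable def gsH (r : ℕ) (x : ℝ) : ℂ := (Real.sqrt r : ℂ) * gsK (x / Real.sqrt r)

private lemma gsH_neg (r : ℕ) (x : ℝ) : gsH r (-x) = -gsH r x := by
  unfold gsH
  rw [neg_div, gsK_neg, mul_neg]

private lemma gsH_sub (r : ℕ) (hr : 0 < r) (A B : ℝ) :
    ∫ v in A..B, gsE (v ^ 2 / r) = gsH r B - gsH r A := by
  have hr' : (0 : ℝ) < r := by exact_mod_cast hr
  have hs : Real.sqrt r ≠ 0 := (Real.sqrt_pos.2 hr').ne'
  have h := intervalIntegral.integral_comp_div (a := A) (b := B) (fun y : ℝ => gsE (y ^ 2)) hs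
  simp only [div_pow, Real.sq_sqrt hr'.le] at h
  rw [h, gsK_sub, Complex.real_smul]
  unfold gsH
  ring

private noncomputable def gsC (r : ℕ) (n : ℤ) : ℂ :=
  gsE (-((n : ℝ) ^ 2 * r / 4)) * (gsH r (r - n * r / 2) - gsH r (-(n * r / 2)))

private lemma gs_coef (r : ℕ) (hr : 0 < r) (n : ℤ) :
    ∫ t in (0 : ℝ)..1, Complex.exp ((-(2 * (Real.pi : ℂ) * Complex.I * n)) * t) *
      (∑ x ∈ Finset.range r, gsE (((x : ℝ) + t) ^ 2 / r)) = gsC r n := by
  have hr' : (0 : ℝ) < r := by exact_mod_cast hr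
  have hphi : Continuous fun u : ℝ => gsE (u ^ 2 / r - n * u) := gsE_cont.comp (by fun_prop)
  have h1 : ∀ t : ℝ, Complex.exp ((-(2 * (Real.pi : ℂ) * Complex.I * n)) * t) *
      (∑ x ∈ Finset.range r, gsE (((x : ℝ) + t) ^ 2 / r)) =
      ∑ x ∈ Finset.range r, gsE (((x : ℝ) + t) ^ 2 / r - n * ((x : ℝ) + t)) := by
    intro t
    rw [Finset.mul_sum]
    refine Finset.sum_congr rfl fun x _ => ?_
    have e : Complex.exp ((-(2 * (Real.pi : ℂ) * Complex.I * n)) * t) = gsE (-(n * t)) := by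
      unfold gsE
      push_cast
      ring_nf
    have e2 : ((x : ℝ) + t) ^ 2 / r - n * ((x : ℝ) + t) =
        -(n * t) + (((x : ℝ) + t) ^ 2 / r + ((-(n * x) : ℤ) : ℝ)) := by
      push_cast
      ring
    rw [e, e2, gsE_add, gsE_add, gsE_int, mul_one]
  have h2 : ∫ t in (0 : ℝ)..1, Complex.exp ((-(2 * (Real.pi : ℂ) * Complex.I * n)) * t) *
      (∑ x ∈ Finset.range r, gsE (((x : ℝ) + t) ^ 2 / r)) =
      ∫ u in (0 : ℝ)..r, gsE (u ^ 2 / r - n * u) := by
    simp_rw [h1]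
    rw [intervalIntegral.integral_finsetSum (a := (0 : ℝ)) (b := 1) (s := Finset.range r)
      (f := fun (x : ℕ) (t : ℝ) => gsE (((x : ℝ) + t) ^ 2 / r - n * ((x : ℝ) + t))) (fun x _ =>
      (hphi.comp (continuous_const.add continuous_id)).intervalIntegrable _ _)]
    have h3 : ∀ x ∈ Finset.range r, ∫ t in (0 : ℝ)..1,
        gsE (((x : ℝ) + t) ^ 2 / r - n * ((x : ℝ) + t)) =
        ∫ u in (x : ℝ)..((x + 1 : ℕ) : ℝ), gsE (u ^ 2 / r - n * u) := by
      intro x _
      rw [intervalIntegral.integral_comp_add_left (fun u : ℝ => gsE (u ^ 2 / r - n * u)) (x : ℝ)]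
      push_cast
      rw [add_zero]
    rw [Finset.sum_congr rfl h3]
    have h4 := intervalIntegral.sum_integral_adjacent_intervals (a := fun k : ℕ => (k : ℝ))
      (n := r) (f := fun u : ℝ => gsE (u ^ 2 / r - n * u)) (μ := volume)
      (fun k _ => hphi.intervalIntegrable _ _)
    rw [h4, Nat.cast_zero]
  rw [h2]
  have h5 : ∀ u : ℝ, gsE (u ^ 2 / r - n * u) =
      gsE (-((n : ℝ) ^ 2 * r / 4)) * gsE ((u - n * r / 2) ^ 2 / r) := by
    intro u
    rw [← gsE_add]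
    congr 1
    field_simp
    ring
  simp_rw [h5]
  rw [intervalIntegral.integral_const_mul,
    intervalIntegral.integral_comp_sub_right (fun v : ℝ => gsE (v ^ 2 / r)) ((n : ℝ) * r / 2),
    gsH_sub r hr, zero_sub]
  rfl

private lemma gsC_even (r : ℕ) (m : ℤ) :
    gsC r (2 * m) = gsH r (r - m * r) - gsH r (-(m * r)) := by
  unfold gsC
  have e : -((((2 * m : ℤ) : ℝ)) ^ 2 * r / 4) = ((-(m ^ 2 * r) : ℤ) : ℝ) := by push_cast; ring
  rw [e, gsE_int, one_mul]
  congr 2 <;> (push_cast; ring)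

private lemma gsC_odd (r : ℕ) (hr : r % 4 = 1) (m : ℤ) :
    gsC r (2 * m + 1) = gsE (-(1 / 4)) *
      (gsH r (r / 2 - m * r) - gsH r (-(r / 2) - m * r)) := by
  obtain ⟨s, hs⟩ : ∃ s : ℕ, r = 4 * s + 1 := ⟨r / 4, by omega⟩
  unfold gsC
  have e : -((((2 * m + 1 : ℤ) : ℝ)) ^ 2 * r / 4) =
      ((-((m ^ 2 + m) * (4 * s + 1) + s) : ℤ) : ℝ) + (-(1 / 4)) := by
    rw [hs]
    push_cast
    ring
  rw [e, gsE_add, gsE_int, one_mul]
  congr 2
  · congr 1
    push_cast
    ring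
  · congr 1
    push_cast
    ring

private lemma gs_partial (r : ℕ) (hr : r % 4 = 1) (M : ℕ) :
    ∑ n ∈ Finset.range (2 * M), (gsC r n + gsC r (-((n : ℤ) + 1))) =
      gsH r (((M : ℝ) + 1) * r) + gsH r (((M : ℝ) - 1) * r) + gsE (-(1 / 4)) *
        (gsH r (((M : ℝ) + 1 / 2) * r) + gsH r (((M : ℝ) - 1 / 2) * r)) := by
  induction M with
  | zero =>
    have e1 : gsH r ((((0 : ℕ) : ℝ) - 1) * r) = -gsH r ((((0 : ℕ) : ℝ) + 1) * r) := by
      rw [← gsH_neg]
      congr 1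
      push_cast
      ring
    have e2 : gsH r ((((0 : ℕ) : ℝ) - 1 / 2) * r) = -gsH r ((((0 : ℕ) : ℝ) + 1 / 2) * r) := by
      rw [← gsH_neg]
      congr 1
      push_cast
      ring
    rw [e1, e2]
    simp
  | succ M ih =>
    rw [show 2 * (M + 1) = 2 * M + 1 + 1 by ring, Finset.sum_range_succ, Finset.sum_range_succ, ih]
    have c1 : gsC r ((2 * M : ℕ) : ℤ) = gsH r (r - (M : ℤ) * r) - gsH r (-((M : ℤ) * r)) := by
      rw [← gsC_even]
      push_cast
      rfl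
    have c2 : gsC r (-(((2 * M : ℕ) : ℤ) + 1)) = gsE (-(1 / 4)) *
        (gsH r (r / 2 - ((-(M + 1) : ℤ) : ℝ) * r) -
          gsH r (-(r / 2) - ((-(M + 1) : ℤ) : ℝ) * r)) := by
      rw [← gsC_odd r hr, show -(((2 * M : ℕ) : ℤ) + 1) = 2 * (-(M + 1) : ℤ) + 1 by
        push_cast; ring]
    have c3 : gsC r ((2 * M + 1 : ℕ) : ℤ) = gsE (-(1 / 4)) *
        (gsH r (r / 2 - ((M : ℤ) : ℝ) * r) - gsH r (-(r / 2) - ((M : ℤ) : ℝ) * r)) := by
      rw [← gsC_odd r hr]
      congr 1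
    have c4 : gsC r (-(((2 * M + 1 : ℕ) : ℤ) + 1)) =
        gsH r (r - ((-(M + 1) : ℤ) : ℝ) * r) - gsH r (-(((-(M + 1) : ℤ) : ℝ) * r)) := by
      rw [← gsC_even, show -(((2 * M + 1 : ℕ) : ℤ) + 1) = 2 * (-(M + 1) : ℤ) by
        push_cast; ring]
    rw [c1, c2, c3, c4]
    have d1 : gsH r (r - ((M : ℤ) : ℝ) * r) = -gsH r (((M : ℝ) - 1) * r) := by
      rw [← gsH_neg]; congr 1; push_cast; ring
    have d2 : gsH r (-(((M : ℤ) : ℝ) * r)) = -gsH r ((((M + 1 : ℕ) : ℝ) - 1) * r) := by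
      rw [← gsH_neg]; congr 1; push_cast; ring
    have d3 : gsH r (r / 2 - ((-(M + 1) : ℤ) : ℝ) * r) =
        gsH r ((((M + 1 : ℕ) : ℝ) + 1 / 2) * r) := by
      congr 1; push_cast; ring
    have d4 : gsH r (-(r / 2) - ((-(M + 1) : ℤ) : ℝ) * r) =
        gsH r ((((M : ℕ) : ℝ) + 1 / 2) * r) := by
      congr 1; push_cast; ring
    have d5 : gsH r (r / 2 - ((M : ℤ) : ℝ) * r) = -gsH r (((M : ℝ) - 1 / 2) * r) := by
      rw [← gsH_neg]; congr 1; push_cast; ring
    have d6 : gsH r (-(r / 2) - ((M : ℤ) : ℝ) * r) =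
        -gsH r ((((M + 1 : ℕ) : ℝ) - 1 / 2) * r) := by
      rw [← gsH_neg]; congr 1; push_cast; ring
    have d7 : gsH r (r - ((-(M + 1) : ℤ) : ℝ) * r) = gsH r ((((M + 1 : ℕ) : ℝ) + 1) * r) := by
      congr 1; push_cast; ring
    have d8 : gsH r (-(((-(M + 1) : ℤ) : ℝ) * r)) = gsH r (((M : ℝ) + 1) * r) := by
      congr 1; push_cast; ring
    rw [d1, d2, d3, d4, d5, d6, d7, d8]
    ring

private lemma gs_main (r : ℕ) (hr : r % 4 = 1) (K : ℂ) (hK : Tendsto gsK atTop (𝓝 K)) :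
    ∑ x ∈ Finset.range r, gsE ((x : ℝ) ^ 2 / r) =
      2 * (1 + gsE (-(1 / 4))) * K * (Real.sqrt r : ℂ) := by
  have hr0 : 0 < r := by omega
  have hr' : (0 : ℝ) < r := by exact_mod_cast hr0
  have hs : 0 < Real.sqrt r := Real.sqrt_pos.2 hr'
  have hd : ∀ t : ℝ, HasDerivAt (fun t : ℝ => ∑ x ∈ Finset.range r, gsE (((x : ℝ) + t) ^ 2 / r))
      (∑ x ∈ Finset.range r, gsE (((x : ℝ) + t) ^ 2 / r) *
        (2 * (Real.pi : ℂ) * Complex.I * ((2 * ((x : ℝ) + t) / r : ℝ) : ℂ))) t := by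
    intro t
    refine HasDerivAt.fun_sum fun x _ => ?_
    refine gsE_deriv ?_
    have h := (((hasDerivAt_id t).const_add (x : ℝ)).pow 2).div_const (r : ℝ)
    have e : ((2 : ℕ) : ℝ) * ((x : ℝ) + id t) ^ (2 - 1) * 1 / r = 2 * ((x : ℝ) + t) / r := by
      simp
    rw [e] at h
    exact h
  have hd2 : ∀ t : ℝ, HasDerivAt (fun t : ℝ => ∑ x ∈ Finset.range r,
      gsE (((x : ℝ) + t) ^ 2 / r) *
        (2 * (Real.pi : ℂ) * Complex.I * ((2 * ((x : ℝ) + t) / r : ℝ) : ℂ)))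
      (∑ x ∈ Finset.range r, ((gsE (((x : ℝ) + t) ^ 2 / r) *
        (2 * (Real.pi : ℂ) * Complex.I * ((2 * ((x : ℝ) + t) / r : ℝ) : ℂ))) *
        (2 * (Real.pi : ℂ) * Complex.I * ((2 * ((x : ℝ) + t) / r : ℝ) : ℂ)) +
        gsE (((x : ℝ) + t) ^ 2 / r) *
          (2 * (Real.pi : ℂ) * Complex.I * ((2 * 1 / r : ℝ) : ℂ)))) t := by
    intro t
    refine HasDerivAt.fun_sum fun x _ => ?_
    refine HasDerivAt.mul ?_ ?_
    · refine gsE_deriv ?_
      have h := (((hasDerivAt_id t).const_add (x : ℝ)).pow 2).div_const (r : ℝ)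
      have e : ((2 : ℕ) : ℝ) * ((x : ℝ) + id t) ^ (2 - 1) * 1 / r = 2 * ((x : ℝ) + t) / r := by
        simp
      rw [e] at h
      exact h
    · refine HasDerivAt.const_mul _ (HasDerivAt.ofReal_comp ?_)
      exact (((hasDerivAt_id t).const_add (x : ℝ)).const_mul 2).div_const (r : ℝ)
  have hc : Continuous fun t : ℝ => ∑ x ∈ Finset.range r, ((gsE (((x : ℝ) + t) ^ 2 / r) *
        (2 * (Real.pi : ℂ) * Complex.I * ((2 * ((x : ℝ) + t) / r : ℝ) : ℂ))) *
        (2 * (Real.pi : ℂ) * Complex.I * ((2 * ((x : ℝ) + t) / r : ℝ) : ℂ)) +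
        gsE (((x : ℝ) + t) ^ 2 / r) *
          (2 * (Real.pi : ℂ) * Complex.I * ((2 * 1 / r : ℝ) : ℂ))) := by
    refine continuous_finsetSum _ fun x _ => ?_
    have h1 : Continuous fun t : ℝ => gsE (((x : ℝ) + t) ^ 2 / r) := gsE_cont.comp (by fun_prop)
    have h2 : Continuous fun t : ℝ =>
        2 * (Real.pi : ℂ) * Complex.I * ((2 * ((x : ℝ) + t) / r : ℝ) : ℂ) :=
      continuous_const.mul (Complex.continuous_ofReal.comp (by fun_prop))
    exact ((h1.mul h2).mul h2).add (h1.mul continuous_const)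
  have h01 : ∑ x ∈ Finset.range r, gsE (((x : ℝ) + 0) ^ 2 / r) =
      ∑ x ∈ Finset.range r, gsE (((x : ℝ) + 1) ^ 2 / r) := by
    have h1 := Finset.sum_range_succ' (fun x : ℕ => gsE ((x : ℝ) ^ 2 / r)) r
    have h2 := Finset.sum_range_succ (fun x : ℕ => gsE ((x : ℝ) ^ 2 / r)) r
    have h3 : gsE (((r : ℕ) : ℝ) ^ 2 / r) = gsE ((((0 : ℕ)) : ℝ) ^ 2 / r) := by
      have e1 : ((r : ℕ) : ℝ) ^ 2 / r = ((r : ℤ) : ℝ) := by
        field_simp
        push_cast
        rfl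
      have e2 : (((0 : ℕ)) : ℝ) ^ 2 / r = ((0 : ℤ) : ℝ) := by simp
      rw [e1, e2, gsE_int, gsE_int]
    rw [h1, h3] at h2
    have h4 := add_right_cancel h2
    simp only [add_zero]
    rw [← h4]
    refine Finset.sum_congr rfl fun x _ => ?_
    push_cast
    rfl
  have hsum := gs_fourier _ _ _ hd hd2 hc h01
  simp only [gs_coef r hr0] at hsum
  have h1 := (hsum.nat_add_neg_add_one).tendsto_sum_nat
  have h2 : Tendsto (fun M : ℕ => 2 * M) atTop atTop :=
    tendsto_atTop_mono (fun M => by simp only [id]; omega) tendsto_id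
  have h3 := h1.comp h2
  have hH : ∀ a : ℝ, Tendsto (fun M : ℕ => gsH r (((M : ℝ) + a) * r)) atTop
      (𝓝 ((Real.sqrt r : ℂ) * K)) := by
    intro a
    unfold gsH
    refine Tendsto.const_mul _ (hK.comp ?_)
    refine Tendsto.atTop_div_const hs (Tendsto.atTop_mul_const hr' ?_)
    exact tendsto_atTop_add_const_right _ _ tendsto_natCast_atTop_atTop
  have h4 := ((hH 1).add (hH (-1))).add (((hH (1 / 2)).add (hH (-(1 / 2)))).const_mul
    (gsE (-(1 / 4))))
  have h5 : (fun M : ℕ => gsH r (((M : ℝ) + 1) * r) + gsH r (((M : ℝ) + -1) * r) +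
      gsE (-(1 / 4)) * (gsH r (((M : ℝ) + 1 / 2) * r) + gsH r (((M : ℝ) + -(1 / 2)) * r))) =
      (fun N : ℕ => ∑ n ∈ Finset.range N, (gsC r n + gsC r (-((n : ℤ) + 1)))) ∘
        (fun M : ℕ => 2 * M) := by
    funext M
    simp only [Function.comp]
    rw [gs_partial r hr M]
    rfl
  rw [h5] at h4
  have h6 := tendsto_nhds_unique h3 h4
  simp only [add_zero] at h6
  rw [h6]
  ring

/-- Sign of the quadratic Gauss sum, `r` odd, `r = 1 mod 4` (any such `r`, not only primes).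
PROOF (theta asymptotics, Landsberg-Schaar). Mathlib: `jacobiTheta₂_functional_equation` (or
`jacobiTheta_S_smul`). For `eta > 0` let `tau = 1 / (r/2 - i eta)`, so `-1/tau = -r/2 + i eta` and
`tau = 2/r + i eps`, `eps` complex, `eps / eta -> 4 / r^2`, `Re (1 / eps) -> +oo` as `eta -> 0`.
For complex `eps` with `Re eps > 0`, Poisson gives
`sum_{n = x mod r} exp(-pi eps n^2) = (1/(r sqrt eps)) (1 + o(1))`, hence
`sqrt eps * theta(2/r + i eps) -> (1/r) sum_{x mod r} exp(2 pi i x^2 / r)`, and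
`sqrt eta * theta(-r/2 + i eta) -> (1/2) sum_{x mod 2} exp(-pi i r x^2 / 2) = (1/2)(1 + (-i)^r)`.
Compare with `theta(tau) = (-i tau)^(-1/2) theta(-1/tau)`; for `r = 1 mod 4` one gets
`sqrt(r/2) * exp(i pi/4) * (1 - i) = sqrt r`.
ALTERNATIVES: Dirichlet's proof by Poisson summation / Fourier series of `exp(2 pi i x^2 / r)` on
`[0,1]` pieces; or Gauss for primes plus quadratic reciprocity; any proof is fine. -/
theorem gauss_quad (r : ℕ) (hr : r % 4 = 1) :
    ∑ x ∈ Finset.range r, Complex.exp (2 * (Real.pi : ℂ) * Complex.I * (x : ℂ) ^ 2 / (r : ℂ)) =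
      ((Real.sqrt r : ℝ) : ℂ) := by
  obtain ⟨K, hK⟩ := gsK_tendsto
  have h1 := gs_main 1 rfl K hK
  have h2 := gs_main r hr K hK
  have e1 : 2 * (1 + gsE (-(1 / 4))) * K = 1 := by
    have : gsE 0 = 1 := by simpa using gsE_int 0
    simpa [this] using h1.symm
  rw [e1, one_mul] at h2
  rw [← h2]
  refine Finset.sum_congr rfl fun x _ => ?_
  unfold gsE
  push_cast
  ring_nf

end HBQ
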