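import Pool.Agent.Lib.HBQ.Defs

set_option autoImplicit false

namespace HBQ

private theorem lsa_J_sq_le (k n : ℕ) : J k n ^ 2 ≤ 1 := by
  unfold J
  rcases jacobiSym.trichotomy (k : ℤ) n with h | h | h <;> rw [h] <;> norm_num

private theorem lsa_J_mul_left (a b n : ℕ) : J (a * b) n = J a n * J b n := by
  unfold J
  rw [Nat.cast_mul, jacobiSym.mul_left]
  push_cast
  rfl

private theorem lsa_J_mul_right (k a b : ℕ) (ha : a ≠ 0) (hb : b ≠ 0) :
    J k (a * b) = J k a * J k b := by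
  unfold J
  have : NeZero a := ⟨ha⟩
  have : NeZero b := ⟨hb⟩
  rw [jacobiSym.mul_right]
  push_cast
  rfl

private theorem lsa_E_mul_le (b : ℕ → ℝ) (L m : ℕ) :
    E (fun n => b n * J m n) L ≤ E b L := by
  unfold E
  refine Finset.sum_le_sum fun n _ => ?_
  rw [mul_pow]
  exact mul_le_of_le_one_right (sq_nonneg _) (lsa_J_sq_le m n)

/-- `LS` for all squarefree `k` (even ones too). PROOF. Even `k = 2 k'`: `(2k'/n) = (2/n)(k'/n)`, apply `LS`
to the coefficients `b n * J 2 n` (and `k' <= K/2 <= K`, all terms nonnegative). -/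
theorem ls_all (K L : ℕ) (X : ℝ) (h : LS K L X) (b : ℕ → ℝ)
    (hb : ∀ n, b n ≠ 0 → n ≤ L ∧ Squarefree n ∧ n % 2 = 1) :
    ∑ k ∈ (Finset.Icc 1 K).filter Squarefree, A b L k ^ 2 ≤ 2 * X * E b L := by
  have h1 := h b hb
  have h2 := h (fun n => b n * J 2 n) (fun n hn => hb n (left_ne_zero_of_mul hn))
  have h3 : ∑ k ∈ (Finset.Icc 1 K).filter Squarefree, A b L k ^ 2 =
      ∑ k ∈ (Finset.Icc 1 K).filter (fun k => Squarefree k ∧ k % 2 = 1), A b L k ^ 2 +
      ∑ k ∈ (Finset.Icc 1 K).filter (fun k => Squarefree k ∧ ¬ k % 2 = 1), A b L k ^ 2 := by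
    rw [← Finset.filter_filter, ← Finset.filter_filter]
    exact (Finset.sum_filter_add_sum_filter_not _ _ _).symm
  have h4 : ∑ k ∈ (Finset.Icc 1 K).filter (fun k => Squarefree k ∧ ¬ k % 2 = 1), A b L k ^ 2 ≤
      ∑ k ∈ (Finset.Icc 1 K).filter (fun k => Squarefree k ∧ k % 2 = 1),
        A (fun n => b n * J 2 n) L k ^ 2 := by
    have h5 : ∑ k ∈ (Finset.Icc 1 K).filter (fun k => Squarefree k ∧ ¬ k % 2 = 1),
        A b L k ^ 2 = ∑ k ∈ ((Finset.Icc 1 K).filter
          (fun k => Squarefree k ∧ ¬ k % 2 = 1)).image (fun k => k / 2),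
        A (fun n => b n * J 2 n) L k ^ 2 := by
      rw [Finset.sum_image]
      · refine Finset.sum_congr rfl fun k hk => ?_
        have hk2 := (Finset.mem_filter.1 hk).2.2
        have e : k = 2 * (k / 2) := by omega
        congr 1
        unfold A
        refine Finset.sum_congr rfl fun n _ => ?_
        conv_lhs => rw [e, lsa_J_mul_left]
        ring
      · intro x hx y hy hxy
        have hx2 := (Finset.mem_filter.1 (Finset.mem_coe.1 hx)).2.2
        have hy2 := (Finset.mem_filter.1 (Finset.mem_coe.1 hy)).2.2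
        simp only at hxy
        omega
    rw [h5]
    refine Finset.sum_le_sum_of_subset_of_nonneg ?_ fun _ _ _ => sq_nonneg _
    intro m hm
    obtain ⟨k, hk, rfl⟩ := Finset.mem_image.1 hm
    obtain ⟨hk1, hk2, hk3⟩ := Finset.mem_filter.1 hk
    rw [Finset.mem_Icc] at hk1
    have e : k = 2 * (k / 2) := by omega
    have hodd : (k / 2) % 2 = 1 := by
      by_contra hc
      have e4 : 2 * 2 ∣ k := by omega
      have := hk2 2 e4
      rw [Nat.isUnit_iff] at this
      omega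
    refine Finset.mem_filter.2 ⟨Finset.mem_Icc.2 ⟨by omega, by omega⟩, ?_, hodd⟩
    exact hk2.squarefree_of_dvd ⟨2, by omega⟩
  have h6 := lsa_E_mul_le b L 2
  have h7 : 0 ≤ E (fun n => b n * J 2 n) L := Finset.sum_nonneg fun _ _ => sq_nonneg _
  have h8 : 0 ≤ ∑ k ∈ (Finset.Icc 1 K).filter (fun k => Squarefree k ∧ k % 2 = 1),
      A b L k ^ 2 := Finset.sum_nonneg fun _ _ => sq_nonneg _
  rw [h3]
  rcases le_or_gt 0 X with hX | hX
  · have h9 := mul_le_mul_of_nonneg_left h6 hX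
    linarith
  · have h9 : X * E (fun n => b n * J 2 n) L ≤ 0 := mul_nonpos_of_nonpos_of_nonneg hX.le h7
    linarith

private theorem lsa_reindex (N q : ℕ) (hq : 1 ≤ q) (g : ℕ → ℝ) :
    ∑ n ∈ (Finset.Icc 1 N).filter (fun n => q ∣ n), g n = ∑ m ∈ Finset.Icc 1 (N / q), g (q * m) := by
  symm
  refine Finset.sum_bij' (fun m _ => q * m) (fun n _ => n / q) ?_ ?_ ?_ ?_ ?_
  · intro m hm
    rw [Finset.mem_Icc] at hm
    refine Finset.mem_filter.2 ⟨Finset.mem_Icc.2 ⟨Nat.mul_pos hq hm.1, ?_⟩, dvd_mul_right _ _⟩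
    exact le_trans (Nat.mul_le_mul_left q hm.2) (Nat.mul_div_le N q)
  · intro n hn
    obtain ⟨h1, h2⟩ := Finset.mem_filter.1 hn
    rw [Finset.mem_Icc] at h1
    exact Finset.mem_Icc.2 ⟨Nat.div_pos (Nat.le_of_dvd h1.1 h2) hq, Nat.div_le_div_right h1.2⟩
  · intro m _
    exact Nat.mul_div_cancel_left m hq
  · intro n hn
    exact Nat.mul_div_cancel' (Finset.mem_filter.1 hn).2
  · intro m _
    rfl

/-- The same for `n` restricted to multiples of `q`: write `n = q n'`, `J k (q n') = J k q * J k n'`,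
`|J k q| <= 1`, `n' <= N / q`. -/
theorem ls_mult (K N q : ℕ) (hq : 1 ≤ q) (X : ℝ) (hX : 0 ≤ X) (h : 1 ≤ N / q → LS K (N / q) X)
    (b : ℕ → ℝ) (hb : ∀ n, b n ≠ 0 → Squarefree n ∧ n % 2 = 1) :
    ∑ k ∈ (Finset.Icc 1 K).filter Squarefree,
        (∑ n ∈ (Finset.Icc 1 N).filter (fun n => q ∣ n), b n * J k n) ^ 2 ≤
      2 * X * ∑ n ∈ (Finset.Icc 1 N).filter (fun n => q ∣ n), b n ^ 2 := by
  simp only [lsa_reindex N q hq]
  rcases Nat.eq_zero_or_pos (N / q) with h0 | h0
  · rw [h0]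
    simp
  set L := N / q with hL
  let b' : ℕ → ℝ := fun m => if m ≤ L then b (q * m) else 0
  have h1 := ls_all K L X (h h0) b' (by
    intro m hm
    have h2 : m ≤ L := by
      by_contra hc
      exact hm (if_neg hc)
    have h3 : b (q * m) ≠ 0 := by
      intro hc
      apply hm
      change (if m ≤ L then b (q * m) else 0) = 0
      rw [if_pos h2, hc]
    obtain ⟨h4, h5⟩ := hb _ h3
    refine ⟨h2, h4.squarefree_of_dvd (dvd_mul_left _ _), ?_⟩
    rcases Nat.mod_two_eq_zero_or_one m with h6 | h6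
    · rw [Nat.mul_mod, h6] at h5
      simp at h5
    · exact h6)
  have h2 : E b' L = ∑ m ∈ Finset.Icc 1 L, b (q * m) ^ 2 := by
    unfold E
    refine Finset.sum_congr rfl fun m hm => ?_
    change (if m ≤ L then b (q * m) else 0) ^ 2 = _
    rw [if_pos (Finset.mem_Icc.1 hm).2]
  rw [h2] at h1
  refine le_trans (Finset.sum_le_sum fun k _ => ?_) h1
  have h3 : ∑ m ∈ Finset.Icc 1 L, b (q * m) * J k (q * m) = J k q * A b' L k := by
    unfold A
    rw [Finset.mul_sum]
    refine Finset.sum_congr rfl fun m hm => ?_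
    rw [Finset.mem_Icc] at hm
    change _ = J k q * ((if m ≤ L then b (q * m) else 0) * J k m)
    rw [if_pos hm.2, lsa_J_mul_right k q m (by omega) (by omega)]
    ring
  rw [h3, mul_pow]
  exact mul_le_of_le_one_left (sq_nonneg _) (lsa_J_sq_le k q)

end HBQ
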