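import Pool.Agent.Lib.HBQ.GaussJac

set_option autoImplicit false

namespace HBQ

private theorem po_abs (m : ℤ) (r : ℕ) : |((jacobiSym m r : ℤ) : ℝ)| ≤ 1 := by
  rcases jacobiSym.trichotomy m r with h | h | h <;> simp [h]

private theorem po_sumW (t : ℝ) (ht : 0 < t) : Summable (fun m : ℕ => W (m * t)) := by
  have h0 := Real.summable_pow_mul_exp_neg_nat_mul 0 (r := Real.pi * t ^ 2) (by positivity)
  refine Summable.of_nonneg_of_le (fun _ => (Real.exp_pos _).le) (fun m => ?_) h0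
  simp only [pow_zero, one_mul]
  unfold W
  apply Real.exp_le_exp.mpr
  have h1 : (m : ℝ) ≤ (m : ℝ) ^ 2 := by exact_mod_cast Nat.le_self_pow two_ne_zero m
  have h2 : 0 < Real.pi * t ^ 2 := by positivity
  nlinarith [mul_le_mul_of_nonneg_left h1 h2.le]

/-- `|J| <= 1` and Gaussian decay. -/
theorem summable_JW (r : ℕ) (t : ℝ) (ht : 0 < t) : Summable (fun m : ℕ => J m r * W (m * t)) := by
  refine Summable.of_norm_bounded (po_sumW t ht) (fun m => ?_)
  rw [norm_mul]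
  have h1 : ‖J m r‖ ≤ 1 := by
    unfold J
    exact po_abs _ _
  have h2 : ‖W (m * t)‖ = W (m * t) := by
    rw [Real.norm_eq_abs]
    exact abs_of_pos (Real.exp_pos _)
  rw [h2]
  have h3 : 0 ≤ W (m * t) := (Real.exp_pos _).le
  calc ‖J m r‖ * W (m * t) ≤ 1 * W (m * t) := mul_le_mul_of_nonneg_right h1 h3
    _ = W (m * t) := one_mul _

private theorem po_W_neg (x : ℝ) : W (-x) = W x := by
  unfold W
  rw [neg_sq]

private theorem po_sumWZ (t : ℝ) (ht : 0 < t) : Summable (fun m : ℤ => W (m * t)) := by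
  refine Summable.of_nat_of_neg ?_ ?_
  · simpa using po_sumW t ht
  · refine (po_sumW t ht).congr (fun m => ?_)
    have : (((-(m : ℤ) : ℤ)) : ℝ) * t = -((m : ℝ) * t) := by
      push_cast
      ring
    rw [this, po_W_neg]

private theorem po_neg (r : ℕ) (hr : r % 4 = 1) (a : ℤ) : jacobiSym (-a) r = jacobiSym a r := by
  have ho : Odd r := Nat.odd_iff.mpr (by omega)
  rw [jacobiSym.neg a ho, ZMod.χ₄_nat_one_mod_four hr, one_mul]

/-- the two sided sum is twice the one sided sum -/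
private theorem po_two (r : ℕ) (hr : r % 4 = 1) (h1 : 1 < r) (t : ℝ) (ht : 0 < t) :
    Summable (fun m : ℤ => (((jacobiSym m r : ℤ) : ℂ)) * ((W (m * t) : ℝ) : ℂ)) ∧
    ∑' m : ℤ, (((jacobiSym m r : ℤ) : ℂ)) * ((W (m * t) : ℝ) : ℂ) =
      2 * (((∑' m : ℕ, J m r * W (m * t) : ℝ)) : ℂ) := by
  have hs : Summable (fun m : ℕ => ((J m r * W (m * t) : ℝ) : ℂ)) := by
    exact_mod_cast summable_JW r t ht
  have e1 : ∀ m : ℕ, (((jacobiSym (m : ℤ) r : ℤ) : ℂ)) * ((W (((m : ℤ) : ℝ) * t) : ℝ) : ℂ) =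
      ((J m r * W (m * t) : ℝ) : ℂ) := by
    intro m
    unfold J
    push_cast
    rfl
  have e2 : ∀ m : ℕ, (((jacobiSym (-(m : ℤ)) r : ℤ) : ℂ)) *
      ((W (((-(m : ℤ) : ℤ) : ℝ) * t) : ℝ) : ℂ) = ((J m r * W (m * t) : ℝ) : ℂ) := by
    intro m
    rw [po_neg r hr]
    have : (((-(m : ℤ) : ℤ)) : ℝ) * t = -((m : ℝ) * t) := by
      push_cast
      ring
    rw [this, po_W_neg]
    unfold J
    push_cast
    rfl
  have s1 : Summable (fun m : ℕ => (((jacobiSym (m : ℤ) r : ℤ) : ℂ)) *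
      ((W (((m : ℤ) : ℝ) * t) : ℝ) : ℂ)) := hs.congr (fun m => (e1 m).symm)
  have s2 : Summable (fun m : ℕ => (((jacobiSym (-(m : ℤ)) r : ℤ) : ℂ)) *
      ((W (((-(m : ℤ) : ℤ) : ℝ) * t) : ℝ) : ℂ)) := hs.congr (fun m => (e2 m).symm)
  refine ⟨Summable.of_nat_of_neg (f := fun m : ℤ => (((jacobiSym m r : ℤ) : ℂ)) *
    ((W (m * t) : ℝ) : ℂ)) s1 s2, ?_⟩
  rw [Summable.tsum_of_nat_of_neg (f := fun m : ℤ => (((jacobiSym m r : ℤ) : ℂ)) *
    ((W (m * t) : ℝ) : ℂ)) s1 s2]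
  have h0 : jacobiSym 0 r = 0 := jacobiSym.zero_left h1
  rw [tsum_congr e1, tsum_congr e2, Complex.ofReal_tsum]
  simp only [h0, Int.cast_zero, zero_mul, sub_zero]
  ring

private theorem po_gauss (r : ℕ) (hr : r % 4 = 1) (hsq : Squarefree r) (h : ℤ) :
    ∑ m ∈ Finset.range r, (J m r : ℂ) *
        Complex.exp (2 * (Real.pi : ℂ) * Complex.I * ((m : ℂ) * (h : ℂ)) / (r : ℂ)) =
      ((jacobiSym h r : ℤ) : ℂ) * ((Real.sqrt r : ℝ) : ℂ) := by
  obtain ⟨n, hn | hn⟩ := h.eq_nat_or_neg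
  · subst hn
    have := gauss_jacobi r hr hsq n
    simp only [Int.cast_natCast]
    rw [this]
    unfold J
    push_cast
    rfl
  · subst hn
    have h2 := congrArg (starRingEnd ℂ) (gauss_jacobi r hr hsq n)
    rw [map_sum, map_mul, Complex.conj_ofReal, Complex.conj_ofReal] at h2
    rw [po_neg r hr]
    have h3 : ((J n r : ℝ) : ℂ) = ((jacobiSym (n : ℤ) r : ℤ) : ℂ) := by
      unfold J
      push_cast
      rfl
    rw [← h3, ← h2]
    refine Finset.sum_congr rfl (fun m _ => ?_)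
    rw [map_mul, Complex.conj_ofReal, ← Complex.exp_conj]
    congr 2
    simp only [map_div₀, map_mul, Complex.conj_ofReal, Complex.conj_I, map_natCast, map_ofNat]
    push_cast
    ring

/-- Poisson summation for the shifted Gaussian -/
private theorem po_shift (r a : ℕ) (h1 : 1 < r) (t : ℝ) (ht : 0 < t) :
    ∑' l : ℤ, ((W (((l * r + a : ℤ) : ℝ) * t) : ℝ) : ℂ) =
      ((1 / (t * r) : ℝ) : ℂ) * ∑' h : ℤ, ((W (h / (t * r)) : ℝ) : ℂ) *
        Complex.exp (2 * (Real.pi : ℂ) * Complex.I * ((a : ℂ) * ((-h : ℤ) : ℂ)) / (r : ℂ)) := by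
  have hr0 : (0 : ℝ) < r := by positivity
  have hrc : (r : ℂ) ≠ 0 := by
    exact_mod_cast hr0.ne'
  have htc : (t : ℂ) ≠ 0 := by
    exact_mod_cast ht.ne'
  have hA : 0 < (((1 / (t * r) : ℝ) ^ 2 : ℝ) : ℂ).re := by
    rw [Complex.ofReal_re]
    positivity
  have hP := Complex.tsum_exp_neg_quadratic (a := (((1 / (t * r) : ℝ) ^ 2 : ℝ) : ℂ)) hA
    (-(Complex.I * ((a : ℂ) / r)))
  have hsq : (((1 / (t * r) : ℝ) ^ 2 : ℝ) : ℂ) ^ (1 / 2 : ℂ) = ((1 / (t * r) : ℝ) : ℂ) := by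
    have h2 : ((1 / 2 : ℝ) : ℂ) = (1 / 2 : ℂ) := by push_cast; rfl
    rw [← h2, ← Complex.ofReal_cpow (by positivity), ← Real.sqrt_eq_rpow,
      Real.sqrt_sq (by positivity)]
  rw [hsq] at hP
  have hne : ((1 / (t * r) : ℝ) : ℂ) ≠ 0 := by
    have : (0 : ℝ) < 1 / (t * r) := by positivity
    exact_mod_cast this.ne'
  have hP2 : ∑' n : ℤ, Complex.exp (-(Real.pi : ℂ) / (((1 / (t * r) : ℝ) ^ 2 : ℝ) : ℂ) *
      (n + Complex.I * (-(Complex.I * ((a : ℂ) / r)))) ^ 2) =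
      ((1 / (t * r) : ℝ) : ℂ) * ∑' n : ℤ, Complex.exp (-(Real.pi : ℂ) *
        (((1 / (t * r) : ℝ) ^ 2 : ℝ) : ℂ) * n ^ 2 +
          2 * (Real.pi : ℂ) * (-(Complex.I * ((a : ℂ) / r))) * n) := by
    rw [hP, ← mul_assoc, mul_one_div_cancel hne, one_mul]
  have e1 : ∀ l : ℤ, ((W (((l * r + a : ℤ) : ℝ) * t) : ℝ) : ℂ) =
      Complex.exp (-(Real.pi : ℂ) / (((1 / (t * r) : ℝ) ^ 2 : ℝ) : ℂ) *
      (l + Complex.I * (-(Complex.I * ((a : ℂ) / r)))) ^ 2) := by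
    intro l
    unfold W
    rw [Complex.ofReal_exp]
    congr 1
    have hI : Complex.I * (-(Complex.I * ((a : ℂ) / r))) = (a : ℂ) / r := by
      have := Complex.I_mul_I
      linear_combination (-((a : ℂ) / r)) * this
    rw [hI]
    push_cast
    field_simp
  have e2 : ∀ h : ℤ, ((W (h / (t * r)) : ℝ) : ℂ) *
        Complex.exp (2 * (Real.pi : ℂ) * Complex.I * ((a : ℂ) * ((-h : ℤ) : ℂ)) / (r : ℂ)) =
      Complex.exp (-(Real.pi : ℂ) *
        (((1 / (t * r) : ℝ) ^ 2 : ℝ) : ℂ) * h ^ 2 +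
          2 * (Real.pi : ℂ) * (-(Complex.I * ((a : ℂ) / r))) * h) := by
    intro h
    unfold W
    rw [Complex.ofReal_exp, ← Complex.exp_add]
    congr 1
    push_cast
    field_simp
  rw [tsum_congr e1, hP2, tsum_congr e2]

/-- Poisson summation for the even primitive character `(. / r)`, `r = 1 mod 4` squarefree, `r > 1`
(the terms `m = 0`, `h = 0` vanish because `(0/r) = 0`).
PROOF. Both sides are even in `m`, `h` (`(-1/r) = 1`), so twice the sums are sums over `Z`. Split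
`m = a + r l`; Poisson for the shifted Gaussian (Mathlib: `Real.tsum_exp_neg_quadratic`,
`jacobiTheta₂_functional_equation` or `HurwitzZeta.evenKernel_functional_equation`):
`sum_l W((a + r l) t) = (1/(r t)) sum_h W(h/(r t)) exp(2 pi i h a / r)`, sum over `a` with `gauss_jacobi`. -/
theorem poisson_jacobi (r : ℕ) (hr : r % 4 = 1) (hsq : Squarefree r) (h1 : 1 < r) (t : ℝ)
    (ht : 0 < t) :
    ∑' m : ℕ, J m r * W (m * t) =
      (1 / (t * Real.sqrt r)) * ∑' h : ℕ, J h r * W (h / (t * r)) := by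
  have hr0 : (0 : ℝ) < r := by positivity
  have : NeZero r := ⟨by omega⟩
  set t' : ℝ := 1 / (t * r) with ht'
  have ht'0 : 0 < t' := by positivity
  obtain ⟨hS, hT⟩ := po_two r hr h1 t ht
  obtain ⟨hS', hT'⟩ := po_two r hr h1 t' ht'0
  have hdiv : ∀ h : ℤ, (h : ℝ) * t' = h / (t * r) := by
    intro h
    rw [ht']
    ring
  have hdivN : ∀ h : ℕ, (h : ℝ) * t' = h / (t * r) := by
    intro h
    rw [ht']
    ring
  -- the left side
  have hL : ∑' m : ℤ, (((jacobiSym m r : ℤ) : ℂ)) * ((W (m * t) : ℝ) : ℂ) =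
      ∑ a : Fin r, ((J a r : ℝ) : ℂ) * ∑' l : ℤ, ((W (((l * r + (a : ℕ) : ℤ) : ℝ) * t) : ℝ) : ℂ) := by
    have hjac : ∀ (l : ℤ) (a : Fin r), jacobiSym (l * r + (a : ℕ)) r = jacobiSym ((a : ℕ) : ℤ) r := by
      intro l a
      rw [jacobiSym.mod_left, Int.mul_comm, Int.add_comm, Int.add_mul_emod_self_left,
        ← jacobiSym.mod_left]
    have hS2 : Summable (fun p : ℤ × Fin r => (((jacobiSym (p.1 * r + (p.2 : ℕ)) r : ℤ) : ℂ)) *
        ((W (((p.1 * r + (p.2 : ℕ) : ℤ) : ℝ) * t) : ℝ) : ℂ)) :=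
      ((Int.divModEquiv r).symm.summable_iff (f := fun m : ℤ => (((jacobiSym m r : ℤ) : ℂ)) *
        ((W (m * t) : ℝ) : ℂ))).mpr hS
    have hS3 : Summable (fun p : Fin r × ℤ => (((jacobiSym (p.2 * r + (p.1 : ℕ)) r : ℤ) : ℂ)) *
        ((W (((p.2 * r + (p.1 : ℕ) : ℤ) : ℝ) * t) : ℝ) : ℂ)) := hS2.prod_symm
    rw [← (Int.divModEquiv r).symm.tsum_eq, ← (Equiv.prodComm (Fin r) ℤ).tsum_eq]
    have hS4 : Summable (fun c : Fin r × ℤ => (fun m : ℤ => (((jacobiSym m r : ℤ) : ℂ)) *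
        ((W (m * t) : ℝ) : ℂ)) ((Int.divModEquiv r).symm ((Equiv.prodComm (Fin r) ℤ) c))) := hS3
    rw [hS4.tsum_prod, tsum_fintype]
    refine Finset.sum_congr rfl (fun a _ => ?_)
    rw [← tsum_mul_left]
    refine tsum_congr (fun l => ?_)
    have e : (Int.divModEquiv r).symm ((Equiv.prodComm (Fin r) ℤ) (a, l)) = l * r + (a : ℕ) := rfl
    rw [e]
    beta_reduce
    rw [hjac]
    unfold J
    push_cast
    rfl
  -- the right side
  have hsumZ : ∀ a : Fin r, Summable (fun h : ℤ => ((J a r : ℝ) : ℂ) * (((W (h / (t * r)) : ℝ) : ℂ) *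
        Complex.exp (2 * (Real.pi : ℂ) * Complex.I * (((a : ℕ) : ℂ) * ((-h : ℤ) : ℂ)) / (r : ℂ)))) := by
    intro a
    refine Summable.mul_left _ ?_
    refine Summable.of_norm_bounded (po_sumWZ t' ht'0) (fun h => ?_)
    rw [norm_mul]
    have h2 : ‖Complex.exp (2 * (Real.pi : ℂ) * Complex.I *
        (((a : ℕ) : ℂ) * ((-h : ℤ) : ℂ)) / (r : ℂ))‖ = 1 := by
      have : (2 * (Real.pi : ℂ) * Complex.I * (((a : ℕ) : ℂ) * ((-h : ℤ) : ℂ)) / (r : ℂ)) =
          ((2 * Real.pi * ((a : ℕ) * (-h : ℤ)) / r : ℝ) : ℂ) * Complex.I := by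
        push_cast
        ring
      rw [this, Complex.norm_exp_ofReal_mul_I]
    rw [h2, mul_one, Complex.norm_real, hdiv, Real.norm_eq_abs]
    exact (abs_of_pos (Real.exp_pos _)).le
  have hR : ∑ a : Fin r, ((J a r : ℝ) : ℂ) *
      ∑' l : ℤ, ((W (((l * r + (a : ℕ) : ℤ) : ℝ) * t) : ℝ) : ℂ) =
      ((1 / (t * r) : ℝ) : ℂ) * (((Real.sqrt r : ℝ) : ℂ) *
        ∑' h : ℤ, (((jacobiSym h r : ℤ) : ℂ)) * ((W (h * t') : ℝ) : ℂ)) := by
    calc ∑ a : Fin r, ((J a r : ℝ) : ℂ) *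
          ∑' l : ℤ, ((W (((l * r + (a : ℕ) : ℤ) : ℝ) * t) : ℝ) : ℂ)
        = ∑ a : Fin r, ((1 / (t * r) : ℝ) : ℂ) *
          ∑' h : ℤ, ((J a r : ℝ) : ℂ) * (((W (h / (t * r)) : ℝ) : ℂ) *
        Complex.exp (2 * (Real.pi : ℂ) * Complex.I * (((a : ℕ) : ℂ) * ((-h : ℤ) : ℂ)) / (r : ℂ))) := by
          refine Finset.sum_congr rfl (fun a _ => ?_)
          rw [po_shift r a h1 t ht, tsum_mul_left]
          ring
      _ = ((1 / (t * r) : ℝ) : ℂ) * ∑' h : ℤ, ∑ a : Fin r,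
          ((J a r : ℝ) : ℂ) * (((W (h / (t * r)) : ℝ) : ℂ) *
        Complex.exp (2 * (Real.pi : ℂ) * Complex.I * (((a : ℕ) : ℂ) * ((-h : ℤ) : ℂ)) / (r : ℂ))) := by
          rw [← Finset.mul_sum, Summable.tsum_finsetSum (fun a _ => hsumZ a)]
      _ = _ := by
          congr 1
          rw [← tsum_mul_left]
          refine tsum_congr (fun h => ?_)
          have hg := po_gauss r hr hsq (-h)
          rw [po_neg r hr, Finset.sum_range] at hg
          calc ∑ a : Fin r, ((J a r : ℝ) : ℂ) * (((W (h / (t * r)) : ℝ) : ℂ) *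
            Complex.exp (2 * (Real.pi : ℂ) * Complex.I *
              (((a : ℕ) : ℂ) * ((-h : ℤ) : ℂ)) / (r : ℂ)))
              = ((W (h / (t * r)) : ℝ) : ℂ) * ∑ a : Fin r, ((J a r : ℝ) : ℂ) *
            Complex.exp (2 * (Real.pi : ℂ) * Complex.I *
              (((a : ℕ) : ℂ) * ((-h : ℤ) : ℂ)) / (r : ℂ)) := by
                rw [Finset.mul_sum]
                exact Finset.sum_congr rfl (fun a _ => by ring)
            _ = _ := by
                rw [hg, hdiv]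
                ring
  rw [hT, hR, hT'] at hL
  have hfin : ((∑' m : ℕ, J m r * W (m * t) : ℝ) : ℂ) =
      (((1 / (t * r)) * (Real.sqrt r * ∑' h : ℕ, J h r * W (h * t')) : ℝ) : ℂ) := by
    have h2 : (2 : ℂ) ≠ 0 := two_ne_zero
    apply mul_left_cancel₀ h2
    rw [hL]
    push_cast
    ring
  have hfin2 : (∑' m : ℕ, J m r * W (m * t) : ℝ) =
      (1 / (t * r)) * (Real.sqrt r * ∑' h : ℕ, J h r * W (h * t')) := by
    exact_mod_cast hfin
  rw [hfin2]
  simp only [hdivN]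
  have hs : Real.sqrt r * Real.sqrt r = r := Real.mul_self_sqrt hr0.le
  have hs0 : Real.sqrt r ≠ 0 := (Real.sqrt_pos.mpr hr0).ne'
  rw [← mul_assoc]
  congr 1
  field_simp
  rw [sq, hs]

end HBQ
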