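import Pool.Agent.Lib.HBQ.Rec1
import Pool.Agent.Lib.HBQ.Core3

set_option autoImplicit false

namespace HBQ

open Finset

lemma A_ext {a : ℕ → ℝ} {N1 N2 : ℕ} (h : ∀ n, a n ≠ 0 → n ≤ N1 ∧ n ≤ N2) (k : ℕ) :
    A a N1 k = A a N2 k := by
  have key : ∀ N3 : ℕ, (∀ n, a n ≠ 0 → n ≤ N3) → ∀ N4, N3 ≤ N4 → A a N3 k = A a N4 k := by
    intro N3 h3 N4 h34
    unfold A
    apply Finset.sum_subset (Finset.Icc_subset_Icc le_rfl h34)
    intro n hn hn'
    have : a n = 0 := by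
      by_contra h0
      apply hn'
      rw [Finset.mem_Icc] at hn ⊢
      exact ⟨hn.1, h3 n h0⟩
    rw [this, zero_mul]
  rw [← key (min N1 N2) (fun n hn => le_min (h n hn).1 (h n hn).2) N1 (min_le_left _ _),
    ← key (min N1 N2) (fun n hn => le_min (h n hn).1 (h n hn).2) N2 (min_le_right _ _)]

lemma E_ext {a : ℕ → ℝ} {N1 N2 : ℕ} (h : ∀ n, a n ≠ 0 → n ≤ N1 ∧ n ≤ N2) :
    E a N1 = E a N2 := by
  have key : ∀ N3 : ℕ, (∀ n, a n ≠ 0 → n ≤ N3) → ∀ N4, N3 ≤ N4 → E a N3 = E a N4 := by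
    intro N3 h3 N4 h34
    unfold E
    apply Finset.sum_subset (Finset.Icc_subset_Icc le_rfl h34)
    intro n hn hn'
    have : a n = 0 := by
      by_contra h0
      apply hn'
      rw [Finset.mem_Icc] at hn ⊢
      exact ⟨hn.1, h3 n h0⟩
    rw [this]; ring
  rw [← key (min N1 N2) (fun n hn => le_min (h n hn).1 (h n hn).2) N1 (min_le_left _ _),
    ← key (min N1 N2) (fun n hn => le_min (h n hn).1 (h n hn).2) N2 (min_le_right _ _)]

/-- dyadic decomposition: if all blocks satisfy a bound `X` then so does everything -/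
lemma block_decomp {M N : ℕ} {X : ℝ} (hN : 1 ≤ N) (hX : (M : ℝ) ≤ X)
    (h : ∀ j : ℕ, 2 ^ j ≤ N → ∀ i : ℕ, ∀ b : ℕ → ℝ, Good (2 ^ j) i b →
      ∑ k ∈ (Finset.Icc 1 M).filter (fun k => Squarefree k ∧ k % 2 = 1), A b (2 * 2 ^ j) k ^ 2 ≤
        X * E b (2 * 2 ^ j)) :
    LS M N (4 * ((Nat.log 2 N + 1 : ℕ) : ℝ) * X) := by
  intro a ha
  obtain ⟨L, hL⟩ : ∃ L, L = Nat.log 2 N + 1 := ⟨_, rfl⟩
  obtain ⟨I, hI⟩ : ∃ I : Finset (ℕ × ℕ), I = Finset.range L ×ˢ {1, 3} := ⟨_, rfl⟩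
  obtain ⟨K, hK⟩ : ∃ K, K = (Finset.Icc 1 M).filter (fun k => Squarefree k ∧ k % 2 = 1) := ⟨_, rfl⟩
  obtain ⟨c, hc⟩ : ∃ c : ℕ → ℝ, c = fun n => if n = 1 then 0 else a n := ⟨_, rfl⟩
  obtain ⟨ab, hab⟩ : ∃ ab : ℕ × ℕ → ℕ → ℝ,
    ab = fun b n => if (Nat.log 2 n, n % 4) = b then c n else 0 := ⟨_, rfl⟩
  have hX0 : 0 ≤ X := le_trans (Nat.cast_nonneg M) hX
  have hc0 : ∀ n, c n ≠ 0 → n ≠ 1 ∧ a n ≠ 0 := by
    intro n hn
    rw [hc] at hn
    simp only at hn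
    by_cases h1 : n = 1
    · rw [if_pos h1] at hn; exact absurd rfl hn
    · rw [if_neg h1] at hn; exact ⟨h1, hn⟩
  have hab0 : ∀ b n, ab b n ≠ 0 → (Nat.log 2 n, n % 4) = b ∧ c n ≠ 0 := by
    intro b n hn
    rw [hab] at hn
    simp only at hn
    by_cases h1 : (Nat.log 2 n, n % 4) = b
    · rw [if_pos h1] at hn; exact ⟨h1, hn⟩
    · rw [if_neg h1] at hn; exact absurd rfl hn
  have hmem : ∀ n, c n ≠ 0 → (Nat.log 2 n, n % 4) ∈ I := by
    intro n hn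
    obtain ⟨h1, h2⟩ := hc0 n hn
    obtain ⟨h3, h4, h5⟩ := ha n h2
    rw [hI, Finset.mem_product]
    constructor
    · simp only
      rw [Finset.mem_range, hL]
      have := Nat.log_mono_right (b := 2) h3
      omega
    · simp only [Finset.mem_insert, Finset.mem_singleton]
      omega
  -- sums over blocks
  have hsum1 : ∀ n, c n = ∑ b ∈ I, ab b n := by
    intro n
    rw [hab]
    simp only
    rw [Finset.sum_ite_eq]
    split_ifs with h1
    · rfl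
    · by_contra h2
      exact h1 (hmem n (fun h0 => h2 h0))
  have hsum2 : ∀ n, c n ^ 2 = ∑ b ∈ I, ab b n ^ 2 := by
    intro n
    have : ∀ b, ab b n ^ 2 = if (Nat.log 2 n, n % 4) = b then c n ^ 2 else 0 := by
      intro b
      rw [hab]; simp only
      split_ifs
      · rfl
      · ring
    simp only [this]
    rw [Finset.sum_ite_eq]
    split_ifs with h1
    · rfl
    · have : c n = 0 := by
        by_contra h0
        exact h1 (hmem n h0)
      rw [this]; ring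
  have hIcc : Finset.Icc 1 N = insert 1 (Finset.Icc 2 N) := by
    ext n
    simp only [Finset.mem_insert, Finset.mem_Icc]
    omega
  have h1n : (1 : ℕ) ∉ Finset.Icc 2 N := by simp
  have hAc : ∀ k, A a N k = a 1 + A c N k := by
    intro k
    unfold A
    rw [hIcc, Finset.sum_insert h1n, Finset.sum_insert h1n]
    have e1 : J k 1 = 1 := by unfold J; simp
    have e2 : c 1 = 0 := by rw [hc]; simp
    rw [e1, e2, mul_one, zero_mul, zero_add]
    congr 1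
    apply Finset.sum_congr rfl
    intro n hn
    rw [Finset.mem_Icc] at hn
    have : c n = a n := by rw [hc]; simp only; rw [if_neg (by omega)]
    rw [this]
  have hEc : E a N = a 1 ^ 2 + E c N := by
    unfold E
    rw [hIcc, Finset.sum_insert h1n, Finset.sum_insert h1n]
    have e2 : c 1 = 0 := by rw [hc]; simp
    rw [e2]
    have e3 : ∑ x ∈ Finset.Icc 2 N, a x ^ 2 = ∑ x ∈ Finset.Icc 2 N, c x ^ 2 := by
      apply Finset.sum_congr rfl
      intro n hn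
      rw [Finset.mem_Icc] at hn
      have : c n = a n := by rw [hc]; simp only; rw [if_neg (by omega)]
      rw [this]
    rw [e3]; ring
  have hAb : ∀ k, A c N k = ∑ b ∈ I, A (ab b) N k := by
    intro k
    unfold A
    rw [Finset.sum_comm]
    apply Finset.sum_congr rfl
    intro n _
    rw [hsum1 n, Finset.sum_mul]
  have hEb : E c N = ∑ b ∈ I, E (ab b) N := by
    unfold E
    rw [Finset.sum_comm]
    apply Finset.sum_congr rfl
    intro n _
    rw [hsum2 n]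
  have hL1 : (1 : ℝ) ≤ (L : ℝ) := by
    rw [hL]; push_cast; linarith [(Nat.cast_nonneg (Nat.log 2 N) : (0 : ℝ) ≤ _)]
  have hcardI : (I.card : ℝ) = 2 * L := by
    rw [hI, Finset.card_product, Finset.card_range]
    simp; ring
  have hpt : ∀ k, A a N k ^ 2 ≤ 4 * L * (a 1 ^ 2 + ∑ b ∈ I, A (ab b) N k ^ 2) := by
    intro k
    rw [hAc, hAb]
    have g1 : (∑ b ∈ I, A (ab b) N k) ^ 2 ≤ I.card * ∑ b ∈ I, A (ab b) N k ^ 2 :=
      sq_sum_le_card_mul_sum_sq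
    rw [hcardI] at g1
    have g2 : 0 ≤ ∑ b ∈ I, A (ab b) N k ^ 2 := Finset.sum_nonneg fun _ _ => sq_nonneg _
    nlinarith [sq_nonneg (a 1 - ∑ b ∈ I, A (ab b) N k), sq_nonneg (a 1)]
  -- each block
  have hblk : ∀ b ∈ I, ∑ k ∈ K, A (ab b) N k ^ 2 ≤ X * E (ab b) N := by
    intro b hb
    rw [hI, Finset.mem_product, Finset.mem_range] at hb
    obtain ⟨j, i⟩ := b
    simp only [Finset.mem_insert, Finset.mem_singleton] at hb
    have hjN : 2 ^ j ≤ N := by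
      calc 2 ^ j ≤ 2 ^ Nat.log 2 N := Nat.pow_le_pow_right (by norm_num) (by omega)
        _ ≤ N := Nat.pow_log_le_self 2 (by omega)
    have hgood : Good (2 ^ j) i (ab (j, i)) := by
      refine ⟨hb.2, ?_⟩
      intro n hn
      obtain ⟨h1, h2⟩ := hab0 _ n hn
      obtain ⟨h3, h4⟩ := hc0 n h2
      obtain ⟨h5, h6, h7⟩ := ha n h4
      rw [Prod.mk.injEq] at h1
      have h8 : 2 ^ j ≤ n := by
        rw [← h1.1]; exact Nat.pow_log_le_self 2 (by omega)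
      have h9 : n < 2 ^ (j + 1) := by
        rw [← h1.1]; exact Nat.lt_pow_succ_log_self (by norm_num) n
      have h10 : n ≠ 2 ^ j := by
        intro h
        rcases Nat.eq_zero_or_pos j with h0 | h0
        · rw [h0] at h; exact h3 (by simpa using h)
        · have : 2 ∣ n := by rw [h]; exact dvd_pow_self 2 (by omega)
          omega
      refine ⟨by omega, by rw [pow_succ] at h9; omega, h6, h1.2⟩
    have hsup : ∀ n, ab (j, i) n ≠ 0 → n ≤ N ∧ n ≤ 2 * 2 ^ j := by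
      intro n hn
      refine ⟨?_, (hgood.2 n hn).2.1⟩
      exact (ha n (hc0 n (hab0 _ n hn).2).2).1
    rw [E_ext hsup]
    have e1 : ∀ k, A (ab (j, i)) N k = A (ab (j, i)) (2 * 2 ^ j) k := A_ext hsup
    simp only [e1]
    rw [hK]
    exact h j hjN i _ hgood
  have hKc : (K.card : ℝ) ≤ M := by
    have : K.card ≤ M := by
      calc K.card ≤ (Finset.Icc 1 M).card := by rw [hK]; exact Finset.card_filter_le _ _
        _ = M := by simp
    exact_mod_cast this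
  rw [← hK, ← hL]
  calc ∑ k ∈ K, A a N k ^ 2 ≤ ∑ k ∈ K, 4 * L * (a 1 ^ 2 + ∑ b ∈ I, A (ab b) N k ^ 2) :=
        Finset.sum_le_sum fun k _ => hpt k
    _ = 4 * L * (K.card * a 1 ^ 2 + ∑ b ∈ I, ∑ k ∈ K, A (ab b) N k ^ 2) := by
        rw [← Finset.mul_sum, Finset.sum_add_distrib, Finset.sum_const, nsmul_eq_mul,
          Finset.sum_comm]
    _ ≤ 4 * L * (X * a 1 ^ 2 + ∑ b ∈ I, X * E (ab b) N) := by
        have g1 : (K.card : ℝ) * a 1 ^ 2 ≤ X * a 1 ^ 2 :=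
          mul_le_mul_of_nonneg_right (le_trans hKc hX) (sq_nonneg _)
        have g2 := Finset.sum_le_sum hblk
        have g3 : (0 : ℝ) ≤ 4 * L := by positivity
        exact mul_le_mul_of_nonneg_left (by linarith) g3
    _ = 4 * L * X * E a N := by
        rw [hEc, hEb, ← Finset.mul_sum]; ring

lemma LS_mono_M {M M' : ℕ} (hM : M ≤ M') (a : ℕ → ℝ) (N : ℕ) :
    ∑ k ∈ (Finset.Icc 1 M).filter (fun k => Squarefree k ∧ k % 2 = 1), A a N k ^ 2 ≤
    ∑ k ∈ (Finset.Icc 1 M').filter (fun k => Squarefree k ∧ k % 2 = 1), A a N k ^ 2 := by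
  apply Finset.sum_le_sum_of_subset_of_nonneg
  · exact Finset.filter_subset_filter _ (Finset.Icc_subset_Icc le_rfl hM)
  · intro k _ _; exact sq_nonneg _

/-- the recursion for the exponents -/
theorem rec_step (ξ : ℝ) (h1 : 1 ≤ ξ) (h2 : ξ ≤ 2) (hH : HH ξ) : HH (2 - 1 / ξ) := by
  intro ε hε
  obtain ⟨e, he⟩ : ∃ e, e = min 1 (ε / 4) := ⟨_, rfl⟩
  have he0 : 0 < e := by rw [he]; positivity
  have he1 : e ≤ 1 := by rw [he]; exact min_le_left _ _
  have he4 : 4 * e ≤ ε := by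
    have : e ≤ ε / 4 := by rw [he]; exact min_le_right _ _
    linarith
  have hξ0 : 0 < ξ := by linarith
  obtain ⟨x', hx'⟩ : ∃ x', x' = 2 - 1 / ξ := ⟨_, rfl⟩
  have hx1 : 1 ≤ x' := by
    have : 1 / ξ ≤ 1 := by rw [div_le_one hξ0]; exact h1
    linarith
  have hx2 : x' ≤ 2 := by
    have : 0 < 1 / ξ := by positivity
    linarith
  obtain ⟨C3, hC3, hcore⟩ := core3 ξ h1 h2 hH e he0
  obtain ⟨Cb, hCb, hbase⟩ := base e he0
  obtain ⟨Ct, hCt⟩ : ∃ Ct, Ct = 2 * C3 + 2 + 2 * Cb := ⟨_, rfl⟩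
  have hCt0 : 0 < Ct := by rw [hCt]; positivity
  refine ⟨2 * (4 * (1 + 2 / e) * Ct * 4 * 2), by positivity, ?_⟩
  intro N M hN hM
  rw [← hx']
  have hMR : (1 : ℝ) ≤ M := by exact_mod_cast hM
  have hNR : (1 : ℝ) ≤ N := by exact_mod_cast hN
  have hN0 : (0 : ℝ) < N := by linarith
  have hM0 : (0 : ℝ) < M := by linarith
  obtain ⟨Y, hY⟩ : ∃ Y, Y = (N : ℝ) ^ x' := ⟨_, rfl⟩
  have hY1 : 1 ≤ Y := hY ▸ Real.one_le_rpow hNR (by linarith)
  have hY2 : Y ≤ (N : ℝ) ^ 2 := by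
    rw [hY, ← Real.rpow_two]
    exact Real.rpow_le_rpow_of_exponent_le hNR hx2
  have hYN : (N : ℝ) ≤ Y := by
    rw [hY]
    calc (N : ℝ) = (N : ℝ) ^ (1 : ℝ) := (Real.rpow_one _).symm
      _ ≤ _ := Real.rpow_le_rpow_of_exponent_le hNR hx1
  obtain ⟨M', hM'⟩ : ∃ M', M' = max M ⌈Y⌉₊ := ⟨_, rfl⟩
  have hMM' : M ≤ M' := hM' ▸ le_max_left _ _
  have hYM' : Y ≤ M' := by
    calc Y ≤ ⌈Y⌉₊ := Nat.le_ceil Y
      _ ≤ M' := by rw [hM']; exact_mod_cast le_max_right _ _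
  have hM'up : (M' : ℝ) ≤ 2 * (M + Y) := by
    have g1 : (⌈Y⌉₊ : ℝ) ≤ Y + 1 := (Nat.ceil_lt_add_one (by linarith)).le
    rw [hM']
    push_cast
    apply max_le
    · linarith
    · linarith
  have hM'1 : 1 ≤ M' := le_trans hM hMM'
  have hM'R : (1 : ℝ) ≤ M' := by exact_mod_cast hM'1
  have hM'0 : (0 : ℝ) < M' := by linarith
  obtain ⟨Z, hZ⟩ : ∃ Z, Z = ((M' : ℝ) * N) ^ e := ⟨_, rfl⟩
  have hMN1 : 1 ≤ (M' : ℝ) * N := by nlinarith
  have hZ1 : 1 ≤ Z := hZ ▸ Real.one_le_rpow hMN1 he0.le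
  have hZ0 : 0 < Z := by linarith
  have hX : (M' : ℝ) ≤ Ct * Z * M' := by
    have : 1 ≤ Ct * Z := by
      have : 1 ≤ Ct := by rw [hCt]; linarith
      nlinarith
    nlinarith
  have hbd : ∀ j : ℕ, 2 ^ j ≤ N → ∀ i : ℕ, ∀ b : ℕ → ℝ, Good (2 ^ j) i b →
      ∑ k ∈ (Finset.Icc 1 M).filter (fun k => Squarefree k ∧ k % 2 = 1), A b (2 * 2 ^ j) k ^ 2 ≤
        (Ct * Z * M') * E b (2 * 2 ^ j) := by
    intro j hj i b hb
    refine le_trans (LS_mono_M hMM' b _) ?_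
    have hj1 : 1 ≤ 2 ^ j := Nat.one_le_two_pow
    obtain ⟨n, hn⟩ : ∃ n, n = 2 ^ j := ⟨_, rfl⟩
    rw [← hn] at hj hj1 hb ⊢
    have hnR : (1 : ℝ) ≤ n := by exact_mod_cast hj1
    have hn0 : (0 : ℝ) < n := by linarith
    have hnN : (n : ℝ) ≤ N := by exact_mod_cast hj
    have hE := E_nonneg b (2 * n)
    have hnM' : n ≤ M' := by
      have : (n : ℝ) ≤ M' := by linarith
      exact_mod_cast this
    rcases le_or_gt (M' : ℝ) (4 * (n : ℝ) ^ 2) with hle | hgt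
    · refine le_trans (hcore n M' i b hj1 hnM' hle hb) ?_
      apply mul_le_mul_of_nonneg_right _ hE
      have g1 : ((M' : ℝ) * n) ^ e ≤ Z := by
        rw [hZ]
        exact Real.rpow_le_rpow (by positivity) (by gcongr) he0.le
      have g2 : ((n : ℝ) ^ 2 / M') ^ ξ ≤ n := by
        have g3 : (n : ℝ) ^ 2 / M' ≤ (n : ℝ) ^ (1 / ξ) := by
          rw [div_le_iff₀ hM'0]
          calc (n : ℝ) ^ 2 = (n : ℝ) ^ (1 / ξ) * (n : ℝ) ^ x' := by
                rw [← Real.rpow_add hn0, hx', ← Real.rpow_two]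
                congr 1; ring
            _ ≤ (n : ℝ) ^ (1 / ξ) * M' := by
                apply mul_le_mul_of_nonneg_left _ (by positivity)
                calc (n : ℝ) ^ x' ≤ (N : ℝ) ^ x' :=
                      Real.rpow_le_rpow hn0.le hnN (by linarith)
                  _ = Y := hY.symm
                  _ ≤ M' := hYM'
        calc ((n : ℝ) ^ 2 / M') ^ ξ ≤ ((n : ℝ) ^ (1 / ξ)) ^ ξ :=
              Real.rpow_le_rpow (by positivity) g3 hξ0.le
          _ = n := by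
            rw [← Real.rpow_mul hn0.le]
            rw [one_div, inv_mul_cancel₀ hξ0.ne', Real.rpow_one]
      have g4 : (M' : ℝ) / n * ((n : ℝ) ^ 2 / M') ^ ξ ≤ M' := by
        calc (M' : ℝ) / n * ((n : ℝ) ^ 2 / M') ^ ξ ≤ (M' : ℝ) / n * n := by gcongr
          _ = M' := by field_simp
      calc C3 * ((M' : ℝ) * n) ^ e * (M' + M' / n * ((n : ℝ) ^ 2 / M') ^ ξ)
          ≤ C3 * Z * (M' + M') := by gcongr
        _ = (2 * C3) * Z * M' := by ring
        _ ≤ Ct * Z * M' := by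
          rw [hCt]
          gcongr
          linarith
    · have hb' : ∀ m, b m ≠ 0 → m ≤ 2 * n ∧ Squarefree m ∧ m % 2 = 1 := by
        intro m hm
        have := hb.2 m hm
        refine ⟨this.2.1, this.2.2.1, ?_⟩
        rcases hb.1 with h | h <;> omega
      refine le_trans (hbase M' (2 * n) hM'1 (by omega) b hb') ?_
      apply mul_le_mul_of_nonneg_right _ hE
      have g1 : ((2 * n : ℕ) : ℝ) ^ e ≤ 2 * Z := by
        push_cast
        calc (2 * (n : ℝ)) ^ e ≤ (2 * ((M' : ℝ) * N)) ^ e := by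
              apply Real.rpow_le_rpow (by positivity) _ he0.le
              nlinarith
          _ = 2 ^ e * Z := by rw [Real.mul_rpow (by norm_num) (by positivity), hZ]
          _ ≤ 2 * Z := by
            have g1 : (2 : ℝ) ^ e ≤ 2 := by
              calc (2 : ℝ) ^ e ≤ 2 ^ (1 : ℝ) := Real.rpow_le_rpow_of_exponent_le (by norm_num) he1
                _ = 2 := Real.rpow_one _
            gcongr
      have g2 : ((2 * n : ℕ) : ℝ) ^ 2 ≤ M' := by
        push_cast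
        nlinarith
      calc 2 * (M' : ℝ) + Cb * ((2 * n : ℕ) : ℝ) ^ e * ((2 * n : ℕ) : ℝ) ^ 2
          ≤ 2 * M' + Cb * (2 * Z) * M' := by gcongr
        _ ≤ 2 * Z * M' + Cb * (2 * Z) * M' := by nlinarith
        _ = (2 + 2 * Cb) * Z * M' := by ring
        _ ≤ Ct * Z * M' := by
          rw [hCt]
          gcongr
          linarith
  have hLS := block_decomp (M := M) (N := N) (X := Ct * Z * M') hN
    (le_trans (by exact_mod_cast hMM') hX) hbd
  have hdual := LS_dual (by positivity) hLS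
  apply LS_mono hdual
  have hlogN : ((Nat.log 2 N + 1 : ℕ) : ℝ) ≤ (1 + 2 / e) * (N : ℝ) ^ e := by
    have g0 : (2 : ℝ) ^ Nat.log 2 N ≤ N := by
      exact_mod_cast Nat.pow_log_le_self 2 (by omega)
    have g1 : (Nat.log 2 N : ℝ) * Real.log 2 ≤ Real.log N := by
      rw [← Real.log_pow]
      exact Real.log_le_log (by positivity) g0
    have g2 := Real.log_le_rpow_div hN0.le he0
    have g3 := Real.log_two_gt_d9
    have g4 : 1 ≤ (N : ℝ) ^ e := Real.one_le_rpow hNR he0.le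
    have g5 : 0 ≤ (Nat.log 2 N : ℝ) := Nat.cast_nonneg _
    have g6 : (Nat.log 2 N : ℝ) ≤ 2 * ((N : ℝ) ^ e / e) := by nlinarith
    push_cast
    have : (1 + 2 / e) * (N : ℝ) ^ e = (N : ℝ) ^ e + 2 * ((N : ℝ) ^ e / e) := by ring
    linarith
  have hZup : Z ≤ 4 * ((M : ℝ) * N) ^ (3 * e) := by
    have g1 : (M' : ℝ) * N ≤ 4 * ((M : ℝ) * N) ^ 3 := by
      have g2 : (M' : ℝ) ≤ 4 * M * (N : ℝ) ^ 2 := by
        have : 2 * (M + Y) ≤ 4 * M * (N : ℝ) ^ 2 := by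
          have : (1 : ℝ) ≤ (N : ℝ) ^ 2 := one_le_pow₀ hNR
          nlinarith
        linarith
      calc (M' : ℝ) * N ≤ 4 * M * (N : ℝ) ^ 2 * N := by gcongr
        _ = 4 * M * (N : ℝ) ^ 3 := by ring
        _ ≤ 4 * (M : ℝ) ^ 3 * (N : ℝ) ^ 3 := by
          gcongr
          exact le_self_pow₀ hMR (by norm_num)
        _ = _ := by ring
    rw [hZ]
    calc ((M' : ℝ) * N) ^ e ≤ (4 * ((M : ℝ) * N) ^ 3) ^ e :=
          Real.rpow_le_rpow (by positivity) g1 he0.le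
      _ = 4 ^ e * (((M : ℝ) * N) ^ 3) ^ e := Real.mul_rpow (by norm_num) (by positivity)
      _ ≤ _ := by
        have g3 : (4 : ℝ) ^ e ≤ 4 := by
          calc (4 : ℝ) ^ e ≤ 4 ^ (1 : ℝ) := Real.rpow_le_rpow_of_exponent_le (by norm_num) he1
            _ = 4 := Real.rpow_one _
        have g4 : (((M : ℝ) * N) ^ 3) ^ e = ((M : ℝ) * N) ^ (3 * e) := by
          rw [← Real.rpow_natCast, ← Real.rpow_mul (by positivity)]
          norm_num
        rw [g4]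
        gcongr
  have hNe : (N : ℝ) ^ e ≤ ((M : ℝ) * N) ^ e := by
    apply Real.rpow_le_rpow hN0.le _ he0.le
    nlinarith
  have hMN1' : 1 ≤ (M : ℝ) * N := by nlinarith
  have hfin : ((M : ℝ) * N) ^ e * ((M : ℝ) * N) ^ (3 * e) ≤ ((N : ℝ) * M) ^ ε := by
    rw [← Real.rpow_add (by positivity), mul_comm (N : ℝ) M]
    exact Real.rpow_le_rpow_of_exponent_le hMN1' (by linarith)
  calc 2 * (4 * ((Nat.log 2 N + 1 : ℕ) : ℝ) * (Ct * Z * M'))
      ≤ 2 * (4 * ((1 + 2 / e) * ((M : ℝ) * N) ^ e) *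
        (Ct * (4 * ((M : ℝ) * N) ^ (3 * e)) * (2 * (M + Y)))) := by
        have g1 : ((Nat.log 2 N + 1 : ℕ) : ℝ) ≤ (1 + 2 / e) * ((M : ℝ) * N) ^ e := by
          refine le_trans hlogN ?_
          gcongr
        gcongr
    _ = 2 * (4 * (1 + 2 / e) * Ct * 4 * 2) *
        (((M : ℝ) * N) ^ e * ((M : ℝ) * N) ^ (3 * e)) * (M + Y) := by ring
    _ ≤ 2 * (4 * (1 + 2 / e) * Ct * 4 * 2) * ((N : ℝ) * M) ^ ε * (M + Y) := by gcongr
    _ = _ := by rw [hY]

/-- the starting exponent -/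
theorem HH_two : HH 2 := by
  intro ε hε
  obtain ⟨Cb, hCb, hbase⟩ := base ε hε
  refine ⟨2 * (2 + Cb), by positivity, ?_⟩
  intro M N hM hN
  have h1 := LS_dual (by positivity) (hbase N M hN hM)
  apply LS_mono h1
  have hMR : (1 : ℝ) ≤ M := by exact_mod_cast hM
  have hNR : (1 : ℝ) ≤ N := by exact_mod_cast hN
  have hMN1 : 1 ≤ (M : ℝ) * N := by nlinarith
  have g1 : 1 ≤ ((M : ℝ) * N) ^ ε := Real.one_le_rpow hMN1 hε.le
  have g2 : (M : ℝ) ^ ε ≤ ((M : ℝ) * N) ^ ε := by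
    apply Real.rpow_le_rpow (by positivity) _ hε.le
    nlinarith
  rw [Real.rpow_two]
  have g3 : 0 ≤ (M : ℝ) ^ 2 := by positivity
  calc 2 * (2 * (N : ℝ) + Cb * (M : ℝ) ^ ε * (M : ℝ) ^ 2)
      ≤ 2 * (2 * (((M : ℝ) * N) ^ ε * N) + Cb * ((M : ℝ) * N) ^ ε * (M : ℝ) ^ 2) := by
        have : (N : ℝ) ≤ ((M : ℝ) * N) ^ ε * N := le_mul_of_one_le_left (by positivity) g1
        gcongr
    _ ≤ 2 * (2 + Cb) * ((M : ℝ) * N) ^ ε * (N + (M : ℝ) ^ 2) := by
        have h2 : 0 ≤ ((M : ℝ) * N) ^ ε * N := by positivity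
        have h3 : 0 ≤ ((M : ℝ) * N) ^ ε * (M : ℝ) ^ 2 := by positivity
        nlinarith [mul_nonneg hCb.le h2]

lemma HH_seq (n : ℕ) : HH (1 + 1 / ((n : ℝ) + 1)) := by
  induction n with
  | zero =>
    have : (1 : ℝ) + 1 / (((0 : ℕ) : ℝ) + 1) = 2 := by norm_num
    rw [this]; exact HH_two
  | succ n ih =>
    have hn : (0 : ℝ) ≤ n := Nat.cast_nonneg n
    have h1 : (1 : ℝ) ≤ 1 + 1 / ((n : ℝ) + 1) := by
      have : 0 ≤ 1 / ((n : ℝ) + 1) := by positivity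
      linarith
    have h2 : 1 + 1 / ((n : ℝ) + 1) ≤ 2 := by
      have : 1 / ((n : ℝ) + 1) ≤ 1 := by
        rw [div_le_one (by positivity)]; linarith
      linarith
    have := rec_step _ h1 h2 ih
    have e : 2 - 1 / (1 + 1 / ((n : ℝ) + 1)) = 1 + 1 / (((n + 1 : ℕ) : ℝ) + 1) := by
      push_cast
      field_simp
      ring
    rw [e] at this
    exact this

/-- HEATH-BROWN'S QUADRATIC LARGE SIEVE (1995) -/
theorem HB_main (ε : ℝ) (hε : 0 < ε) : ∃ C : ℝ, 0 < C ∧ ∀ M N : ℕ, 1 ≤ M → 1 ≤ N →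
    LS M N (C * ((M : ℝ) * N) ^ ε * ((M : ℝ) + N)) := by
  obtain ⟨n, hn⟩ := exists_nat_ge (2 / ε)
  have hn' : 1 / ((n : ℝ) + 1) ≤ ε / 2 := by
    rw [div_le_iff₀ (by positivity)]
    rw [div_le_iff₀ hε] at hn
    nlinarith
  obtain ⟨C, hC, h⟩ := HH_seq n (ε / 2) (by positivity)
  refine ⟨C, hC, ?_⟩
  intro M N hM hN
  apply LS_mono (h M N hM hN)
  have hMR : (1 : ℝ) ≤ M := by exact_mod_cast hM
  have hNR : (1 : ℝ) ≤ N := by exact_mod_cast hN
  have hMN1 : 1 ≤ (M : ℝ) * N := by nlinarith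
  have g0 : 1 ≤ ((M : ℝ) * N) ^ (ε / 2) := Real.one_le_rpow hMN1 (by positivity)
  have g1 : (M : ℝ) ^ (1 + 1 / ((n : ℝ) + 1)) ≤ ((M : ℝ) * N) ^ (ε / 2) * M := by
    rw [Real.rpow_add (by linarith), Real.rpow_one, mul_comm]
    apply mul_le_mul_of_nonneg_right _ (by linarith)
    calc (M : ℝ) ^ (1 / ((n : ℝ) + 1)) ≤ (M : ℝ) ^ (ε / 2) :=
          Real.rpow_le_rpow_of_exponent_le hMR hn'
      _ ≤ _ := by
        apply Real.rpow_le_rpow (by linarith) _ (by positivity)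
        nlinarith
  have g2 : (N : ℝ) ≤ ((M : ℝ) * N) ^ (ε / 2) * N := le_mul_of_one_le_left (by linarith) g0
  have g3 : ((M : ℝ) * N) ^ (ε / 2) * ((M : ℝ) * N) ^ (ε / 2) = ((M : ℝ) * N) ^ ε := by
    rw [← Real.rpow_add (by linarith)]; congr 1; ring
  calc C * ((M : ℝ) * N) ^ (ε / 2) * (N + (M : ℝ) ^ (1 + 1 / ((n : ℝ) + 1)))
      ≤ C * ((M : ℝ) * N) ^ (ε / 2) * (((M : ℝ) * N) ^ (ε / 2) * N +
        ((M : ℝ) * N) ^ (ε / 2) * M) := by gcongr
    _ = C * (((M : ℝ) * N) ^ (ε / 2) * ((M : ℝ) * N) ^ (ε / 2)) * (M + N) := by ring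
    _ = _ := by rw [g3]

end HBQ
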