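import Pool.Agent.Lib.MP_0b15c0_nt.Count

set_option autoImplicit false

namespace HBQ

open Filter

/-- the product map from `u`-subsets of the odd primes `≤ N` -/
private theorem count_ge {N u Q : ℕ} (hNQ : N ^ u ≤ Q) :
    (Pool.Agent.Lib.MP0b15c0.PP N).card.choose u ≤
      ((Finset.Icc 1 Q).filter (fun k => Squarefree k ∧ k % 2 = 1 ∧
        ∀ p ∈ k.primeFactors, p ≤ N)).card := by
  classical
  rw [← Finset.card_powersetCard]
  have hP : ∀ T ∈ Finset.powersetCard u (Pool.Agent.Lib.MP0b15c0.PP N), ∀ p ∈ T,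
      p.Prime ∧ Odd p ∧ p ≤ N := fun T hT p hp =>
    Pool.Agent.Lib.MP0b15c0.mem_PP ((Finset.mem_powersetCard.mp hT).1 hp)
  refine Finset.card_le_card_of_injOn (fun T => ∏ p ∈ T, p) ?_ ?_
  · intro T hT
    have hT' := hP T hT
    have h1 : (∏ p ∈ T, p).primeFactors = T :=
      Nat.primeFactors_prod (fun p hp => (hT' p hp).1)
    have h2 : 1 ≤ ∏ p ∈ T, p := Finset.prod_pos fun p hp => (hT' p hp).1.pos
    have h3 : ∏ p ∈ T, p ≤ Q := by
      refine le_trans ?_ hNQ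
      have h4 := Finset.prod_le_pow_card T (fun p => p) N (fun p hp => (hT' p hp).2.2)
      rwa [(Finset.mem_powersetCard.mp hT).2] at h4
    have h5 : Squarefree (∏ p ∈ T, p) :=
      Pool.Agent.Lib.MP0b15c0.squarefree_prod T (fun p hp => (hT' p hp).1)
    have h6 : Odd (∏ p ∈ T, p) := Pool.Agent.Lib.MP0b15c0.odd_prod T (fun p hp => (hT' p hp).2.1)
    refine Finset.mem_coe.mpr (Finset.mem_filter.mpr
      ⟨Finset.mem_Icc.mpr ⟨h2, h3⟩, h5, Nat.odd_iff.mp h6, ?_⟩)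
    intro p hp
    have hp' : p ∈ T := by
      have : p ∈ (∏ p ∈ T, p).primeFactors := hp
      rwa [h1] at this
    exact (hT' p hp').2.2
  · intro T hT T' hT' h
    have h1 : (∏ p ∈ T, p).primeFactors = T :=
      Nat.primeFactors_prod (fun p hp => (hP T hT p hp).1)
    have h2 : (∏ p ∈ T', p).primeFactors = T' :=
      Nat.primeFactors_prod (fun p hp => (hP T' hT' p hp).1)
    have h3 : (∏ p ∈ T, p) = ∏ p ∈ T', p := h
    rw [← h1, ← h2, h3]

/-- Many `(log x)^A`-smooth odd squarefree integers up to `Q <= x`. PROOF. `u = floor(log Q / log N)`; products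
of `u` distinct elements of `PP N` (odd primes `<= N`, file MP_0b15c0_nt/Count.lean on main) are distinct, `<= N^u <= Q`;
their number is `C(|PP N|, u) >= (|PP N|/u)^u` (`choose_ge`), `|PP N| >= N/(2 log N)` (`card_PP_large`),
`u <= log x / log N`, so it is `>= (N/(2 log x))^u`. `2 log x <= C N^(1/A)`, `C^u <= x^(delta/3)`,
`N^u >= Q/N`, `N <= x^(delta/3)` for large `x`. -/
theorem smooth_lower (A δ : ℝ) (hA : 1 < A) (hδ : 0 < δ) : ∃ X0 : ℝ, ∀ x : ℝ, X0 ≤ x →
    ∀ N : ℕ, N = ⌊(Real.log x / A) ^ A⌋₊ → ∀ Q : ℕ, 1 ≤ Q → (Q : ℝ) ≤ x →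
      (Q : ℝ) ^ (1 - 1 / A) ≤ x ^ δ *
        (((Finset.Icc 1 Q).filter (fun k => Squarefree k ∧ k % 2 = 1 ∧
          ∀ p ∈ k.primeFactors, p ≤ N)).card : ℝ) := by
  have hA0 : 0 < A := by linarith
  obtain ⟨N0, hN0⟩ := Pool.Agent.Lib.MP0b15c0.card_PP_large
  have hy : Tendsto (fun x : ℝ => (Real.log x / A) ^ A) atTop atTop :=
    (tendsto_rpow_atTop hA0).comp (Real.tendsto_log_atTop.atTop_div_const hA0)
  have hL : Tendsto (fun x : ℝ => Real.log x / A) atTop atTop :=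
    Real.tendsto_log_atTop.atTop_div_const hA0
  have hL1 : Tendsto (fun x : ℝ => (Real.log x / A) ^ (A - 1)) atTop atTop :=
    (tendsto_rpow_atTop (by linarith : (0 : ℝ) < A - 1)).comp hL
  have E1 : ∀ᶠ x : ℝ in atTop, (N0 : ℝ) + 10 ≤ (Real.log x / A) ^ A := hy.eventually_ge_atTop _
  have E3 : ∀ᶠ x : ℝ in atTop, 4 * A ≤ (Real.log x / A) ^ (A - 1) := hL1.eventually_ge_atTop _
  have E4 : ∀ᶠ x : ℝ in atTop, 2 * Real.exp (2 * Real.log (4 * A) / δ) ≤ (Real.log x / A) ^ A :=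
    hy.eventually_ge_atTop _
  have E5 : ∀ᶠ x : ℝ in atTop, (Real.log x) ^ A ≤ x ^ (δ / 2) := by
    have h1 := (isLittleO_log_rpow_rpow_atTop A (by positivity : (0 : ℝ) < δ / 2)).def
      (by norm_num : (0 : ℝ) < 1)
    filter_upwards [h1, eventually_ge_atTop 1] with x hx hx1
    have h2 : 0 ≤ Real.log x := Real.log_nonneg hx1
    rw [one_mul, Real.norm_of_nonneg (Real.rpow_nonneg h2 _),
      Real.norm_of_nonneg (Real.rpow_nonneg (by linarith) _)] at hx
    exact hx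
  have E6 : ∀ᶠ x : ℝ in atTop, 1 ≤ Real.log x / A := hL.eventually_ge_atTop _
  obtain ⟨X0, hX0⟩ := eventually_atTop.1
    ((((E1.and E3).and (E4.and E5)).and E6).and (eventually_ge_atTop (3 : ℝ)))
  refine ⟨X0, fun x hx N hN Q hQ1 hQx => ?_⟩
  obtain ⟨⟨⟨⟨e1, e3⟩, ⟨e4, e5⟩⟩, e6⟩, e7⟩ := hX0 x hx
  set L := Real.log x with hLdef
  have hLpos : 0 < L := by
    have : 0 < L / A := by linarith
    by_contra hc
    have : L / A ≤ 0 := div_nonpos_of_nonpos_of_nonneg (not_lt.mp hc) hA0.le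
    linarith
  set y := (L / A) ^ A with hydef
  have hy10 : 10 ≤ y := by
    have : (0 : ℝ) ≤ N0 := Nat.cast_nonneg _
    linarith
  have hNle : (N : ℝ) ≤ y := by
    rw [hN]; exact Nat.floor_le (by linarith)
  have hNgt : y < (N : ℝ) + 1 := by
    rw [hN]; exact Nat.lt_floor_add_one y
  have hNhalf : y / 2 ≤ (N : ℝ) := by linarith
  have hN9 : (9 : ℝ) ≤ N := by linarith
  have hNN0 : N0 ≤ N := by
    have : (N0 : ℝ) ≤ N := by linarith
    exact_mod_cast this
  have hNpos : (0 : ℝ) < N := by linarith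
  have hlogN : 0 < Real.log N := Real.log_pos (by linarith)
  have hPP := hN0 N hNN0
  set P : ℝ := ((Pool.Agent.Lib.MP0b15c0.PP N).card : ℝ) with hPdef
  -- `N ≥ 2 L`
  have hN2L : 2 * L ≤ (N : ℝ) := by
    have h1 : y = (L / A) ^ (A - 1) * (L / A) := by
      rw [hydef]
      conv_lhs => rw [show A = (A - 1) + 1 by ring]
      rw [Real.rpow_add_one (by positivity)]
      ring_nf
    have h2 : 4 * A * (L / A) ≤ y := by
      rw [h1]
      exact mul_le_mul_of_nonneg_right e3 (by positivity)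
    have h3 : 4 * A * (L / A) = 4 * L := by field_simp
    linarith
  -- `2 L ≤ 4 A N^(1/A)`
  have hNroot : 2 * L ≤ 4 * A * (N : ℝ) ^ (1 / A) := by
    have h1 : (y / 2) ^ (1 / A) ≤ (N : ℝ) ^ (1 / A) :=
      Real.rpow_le_rpow (by linarith) hNhalf (by positivity)
    have h2 : (y / 2) ^ (1 / A) = (L / A) * (1 / 2 : ℝ) ^ (1 / A) := by
      rw [div_eq_mul_one_div y 2, Real.mul_rpow (by linarith) (by norm_num), hydef,
        ← Real.rpow_mul (by positivity), mul_one_div_cancel hA0.ne', Real.rpow_one]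
    have h3 : (1 / 2 : ℝ) ≤ (1 / 2 : ℝ) ^ (1 / A) := by
      have h4 : (1 / 2 : ℝ) ^ (1 : ℝ) ≤ (1 / 2 : ℝ) ^ (1 / A) :=
        Real.rpow_le_rpow_of_exponent_ge (by norm_num) (by norm_num)
          (by rw [div_le_one hA0]; linarith)
      rwa [Real.rpow_one] at h4
    have h5 : L / A * (1 / 2) ≤ (N : ℝ) ^ (1 / A) := by
      refine le_trans ?_ h1
      rw [h2]
      exact mul_le_mul_of_nonneg_left h3 (by positivity)
    have h6 : 4 * A * (L / A * (1 / 2)) ≤ 4 * A * (N : ℝ) ^ (1 / A) :=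
      mul_le_mul_of_nonneg_left h5 (by positivity)
    have h7 : 4 * A * (L / A * (1 / 2)) = 2 * L := by field_simp; ring
    linarith
  have hQ0 : (0 : ℝ) < Q := by exact_mod_cast hQ1
  have hlogQ0 : 0 ≤ Real.log Q := Real.log_nonneg (by exact_mod_cast hQ1)
  have hlogQL : Real.log Q ≤ L := Real.log_le_log hQ0 hQx
  set u : ℕ := ⌊Real.log Q / Real.log N⌋₊ with hu
  have hu1 : (u : ℝ) ≤ Real.log Q / Real.log N := Nat.floor_le (by positivity)
  have hu2 : Real.log Q / Real.log N < (u : ℝ) + 1 := Nat.lt_floor_add_one _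
  have hu3 : (u : ℝ) * Real.log N ≤ Real.log Q := (le_div_iff₀ hlogN).mp hu1
  have hu4 : Real.log Q ≤ ((u : ℝ) + 1) * Real.log N := ((div_lt_iff₀ hlogN).mp hu2).le
  have hNu : (N : ℝ) ^ u ≤ Q := by
    have h1 : Real.log ((N : ℝ) ^ u) ≤ Real.log Q := by rw [Real.log_pow]; exact hu3
    exact (Real.log_le_log_iff (by positivity) hQ0).mp h1
  have hNu' : (Q : ℝ) ≤ (N : ℝ) ^ u * N := by
    have h1 : Real.log Q ≤ Real.log ((N : ℝ) ^ u * N) := by
      rw [← pow_succ, Real.log_pow]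
      push_cast
      exact hu4
    exact (Real.log_le_log_iff hQ0 (by positivity)).mp h1
  have hNuN : N ^ u ≤ Q := by exact_mod_cast hNu
  have hcount := count_ge hNuN
  set c : ℝ := (((Finset.Icc 1 Q).filter (fun k => Squarefree k ∧ k % 2 = 1 ∧
          ∀ p ∈ k.primeFactors, p ≤ N)).card : ℝ) with hc
  have hcount' : (((Pool.Agent.Lib.MP0b15c0.PP N).card.choose u : ℕ) : ℝ) ≤ c := by
    rw [hc]; exact_mod_cast hcount
  -- `u ≤ P`
  have hPlow : (N : ℝ) / 2 / Real.log N ≤ P := (div_le_iff₀ hlogN).mpr hPP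
  have hulow : (u : ℝ) ≤ L / Real.log N := hu1.trans (div_le_div_of_nonneg_right hlogQL hlogN.le)
  have huP : (u : ℝ) ≤ P := by
    refine hulow.trans (le_trans ?_ hPlow)
    exact div_le_div_of_nonneg_right (by linarith) hlogN.le
  have huP' : u ≤ (Pool.Agent.Lib.MP0b15c0.PP N).card := by
    rw [hPdef] at huP; exact_mod_cast huP
  have hch := Pool.Agent.Lib.MP0b15c0.choose_ge u _ huP'
  have hc1 : ((N : ℝ) / (2 * L)) ^ u ≤ c := by
    refine le_trans ?_ (hch.trans hcount')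
    rcases Nat.eq_zero_or_pos u with h0 | h0
    · rw [h0]; simp
    · have hu0 : (0 : ℝ) < u := by exact_mod_cast h0
      refine pow_le_pow_left₀ (by positivity) ?_ u
      rw [le_div_iff₀ hu0]
      have h1 : (N : ℝ) / (2 * L) * u ≤ (N : ℝ) / (2 * L) * (L / Real.log N) :=
        mul_le_mul_of_nonneg_left hulow (by positivity)
      have h2 : (N : ℝ) / (2 * L) * (L / Real.log N) = (N : ℝ) / 2 / Real.log N := by
        field_simp
      rw [h2] at h1
      exact h1.trans hPlow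
  -- bound of `(2 L)^u`
  have h2L : (2 * L) ^ u ≤ (4 * A) ^ u * (Q : ℝ) ^ (1 / A) := by
    have h1 : (2 * L) ^ u ≤ (4 * A * (N : ℝ) ^ (1 / A)) ^ u :=
      pow_le_pow_left₀ (by positivity) hNroot u
    rw [mul_pow (4 * A)] at h1
    have h0 : (0 : ℝ) ≤ (4 * A) ^ u := by positivity
    refine h1.trans (mul_le_mul_of_nonneg_left ?_ h0)
    have h2 : ((N : ℝ) ^ (1 / A)) ^ u = ((N : ℝ) ^ u) ^ (1 / A) := by
      rw [← Real.rpow_natCast, ← Real.rpow_natCast, ← Real.rpow_mul hNpos.le,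
        ← Real.rpow_mul hNpos.le, mul_comm]
    rw [h2]
    exact Real.rpow_le_rpow (by positivity) hNu (by positivity)
  -- `N (4A)^u ≤ x^δ`
  have hx0 : 0 < x := by linarith
  have h4A : (4 * A) ^ u ≤ x ^ (δ / 2) := by
    have h1 : 0 ≤ Real.log (4 * A) := Real.log_nonneg (by linarith)
    have h2 : (4 * A) ^ u = Real.exp (u * Real.log (4 * A)) := by
      rw [← Real.log_pow, Real.exp_log (by positivity)]
    have h3 : x ^ (δ / 2) = Real.exp (L * (δ / 2)) := by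
      rw [Real.rpow_def_of_pos hx0]
    rw [h2, h3]
    apply Real.exp_le_exp.mpr
    have h4 : 2 * Real.log (4 * A) / δ ≤ Real.log N := by
      rw [Real.le_log_iff_exp_le hNpos]
      linarith
    have h5 : 2 * Real.log (4 * A) ≤ Real.log N * δ := (div_le_iff₀ hδ).mp h4
    have h6 : (u : ℝ) * Real.log N ≤ L := hu3.trans hlogQL
    have h7 : (0 : ℝ) ≤ u := Nat.cast_nonneg u
    calc (u : ℝ) * Real.log (4 * A) ≤ (u : ℝ) * (Real.log N * δ / 2) :=
          mul_le_mul_of_nonneg_left (by linarith) h7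
      _ = (u : ℝ) * Real.log N * (δ / 2) := by ring
      _ ≤ L * (δ / 2) := mul_le_mul_of_nonneg_right h6 (by positivity)
  have hNx : (N : ℝ) ≤ x ^ (δ / 2) := by
    refine hNle.trans (le_trans ?_ e5)
    rw [hydef]
    refine Real.rpow_le_rpow (by positivity) ?_ hA0.le
    rw [div_le_iff₀ hA0]
    nlinarith
  have hxx : x ^ (δ / 2) * x ^ (δ / 2) = x ^ δ := by
    rw [← Real.rpow_add hx0]
    congr 1
    ring
  have hNA : (N : ℝ) * (4 * A) ^ u ≤ x ^ δ := by
    rw [← hxx]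
    exact mul_le_mul hNx h4A (by positivity) (by positivity)
  -- conclusion
  have hLu : 0 < (2 * L) ^ u := by positivity
  have hc2 : (N : ℝ) ^ u ≤ c * (2 * L) ^ u := by
    rw [div_pow, div_le_iff₀ hLu] at hc1
    exact hc1
  have hc0 : 0 ≤ c := by rw [hc]; exact Nat.cast_nonneg _
  have hQA : 0 < (Q : ℝ) ^ (1 / A) := Real.rpow_pos_of_pos hQ0 _
  have hsplit : (Q : ℝ) ^ (1 - 1 / A) = Q / (Q : ℝ) ^ (1 / A) := by
    rw [Real.rpow_sub hQ0, Real.rpow_one]
  rw [hsplit, div_le_iff₀ hQA]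
  calc (Q : ℝ) ≤ (N : ℝ) ^ u * N := hNu'
    _ ≤ c * (2 * L) ^ u * N := mul_le_mul_of_nonneg_right hc2 hNpos.le
    _ ≤ c * ((4 * A) ^ u * (Q : ℝ) ^ (1 / A)) * N :=
        mul_le_mul_of_nonneg_right (mul_le_mul_of_nonneg_left h2L hc0) hNpos.le
    _ = ((N : ℝ) * (4 * A) ^ u) * (c * (Q : ℝ) ^ (1 / A)) := by ring
    _ ≤ x ^ δ * (c * (Q : ℝ) ^ (1 / A)) :=
        mul_le_mul_of_nonneg_right hNA (by positivity)
    _ = x ^ δ * c * (Q : ℝ) ^ (1 / A) := by ring

end HBQ
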