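import Pool.Agent.Lib.HBQ.Dual

set_option autoImplicit false

namespace HBQ

open Finset

private lemma sq_sum_divisors_mul (m n : ℕ) (h : Nat.Coprime m n) (F : ℕ → ℝ) :
    ∑ d ∈ (m * n).divisors, F d = ∑ d1 ∈ m.divisors, ∑ d2 ∈ n.divisors, F (d1 * d2) := by
  rw [Nat.divisors_mul, Finset.mul_def, Finset.sum_image h.mul_injOn_divisors,
    Finset.sum_product]

private lemma sq_mu_mul (m n : ℕ) (h : Nat.Coprime m n) : mu (m * n) = mu m * mu n := by
  unfold mu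
  rw [ArithmeticFunction.isMultiplicative_moebius.map_mul_of_coprime h]
  push_cast
  rfl

private lemma sq_J (k j r : ℕ) (hr : r ≠ 0) :
    J (k * j ^ 2) r = J k r * (if Nat.Coprime j r then 1 else 0) := by
  have h1 : J (k * j ^ 2) r = J k r * (((jacobiSym (j : ℤ) r : ℤ)) : ℝ) ^ 2 := by
    unfold J
    push_cast
    rw [jacobiSym.mul_left, jacobiSym.pow_left]
    push_cast
    ring
  rw [h1]
  congr 1
  by_cases h : Nat.Coprime j r
  · rw [if_pos h]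
    have hg : Int.gcd (j : ℤ) r = 1 := by
      rw [Int.gcd_natCast_natCast]
      exact h
    have := jacobiSym.sq_one hg
    exact_mod_cast this
  · rw [if_neg h]
    have : NeZero r := ⟨hr⟩
    have h0 : jacobiSym (j : ℤ) r = 0 := by
      apply jacobiSym.eq_zero_iff_not_coprime.2
      rw [Int.gcd_natCast_natCast]
      exact h
    rw [h0]
    norm_num

private lemma sq_sum_gcd (g k j : ℕ) (hg : Squarefree g) (F : ℕ → ℝ) :
    ∑ c ∈ (Nat.gcd g (k * j ^ 2)).divisors, F c =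
      ∑ c1 ∈ (Nat.gcd g k).divisors, ∑ c2 ∈ (g / Nat.gcd g k).divisors,
        if c2 ∣ j then F (c1 * c2) else 0 := by
  have hg0 : g ≠ 0 := hg.ne_zero
  have hmul : Nat.gcd g k * (g / Nat.gcd g k) = g := Nat.mul_div_cancel' (Nat.gcd_dvd_left g k)
  have hsq : Squarefree (Nat.gcd g k * (g / Nat.gcd g k)) := by rw [hmul]; exact hg
  obtain ⟨hcop, -, hsq2⟩ := (Nat.squarefree_mul_iff).1 hsq
  have hk : Nat.Coprime (g / Nat.gcd g k) k := by
    have h1 : Nat.gcd (g / Nat.gcd g k) k ∣ Nat.gcd g k :=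
      Nat.dvd_gcd ((Nat.gcd_dvd_left _ _).trans (Nat.div_dvd_of_dvd (Nat.gcd_dvd_left g k)))
        (Nat.gcd_dvd_right _ _)
    have h2 : Nat.gcd (g / Nat.gcd g k) k ∣ g / Nat.gcd g k := Nat.gcd_dvd_left _ _
    exact Nat.eq_one_of_dvd_one (hcop ▸ Nat.dvd_gcd h1 h2)
  have h1 : (Nat.gcd g (k * j ^ 2)).divisors = g.divisors.filter (fun c => c ∣ k * j ^ 2) := by
    ext c
    rw [Nat.mem_divisors, Finset.mem_filter, Nat.mem_divisors, Nat.dvd_gcd_iff]
    constructor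
    · rintro ⟨⟨h1, h2⟩, _⟩
      exact ⟨⟨h1, hg0⟩, h2⟩
    · rintro ⟨⟨h1, _⟩, h2⟩
      exact ⟨⟨h1, h2⟩, Nat.gcd_ne_zero_left hg0⟩
  rw [h1, Finset.sum_filter]
  have h2 : ∑ c ∈ g.divisors, (if c ∣ k * j ^ 2 then F c else 0) =
      ∑ c ∈ (Nat.gcd g k * (g / Nat.gcd g k)).divisors, (if c ∣ k * j ^ 2 then F c else 0) := by
    rw [hmul]
  rw [h2, sq_sum_divisors_mul _ _ hcop]
  refine Finset.sum_congr rfl fun c1 hc1 => Finset.sum_congr rfl fun c2 hc2 => ?_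
  have hd1 := Nat.dvd_of_mem_divisors hc1
  have hd2 := Nat.dvd_of_mem_divisors hc2
  have hiff : c1 * c2 ∣ k * j ^ 2 ↔ c2 ∣ j := by
    constructor
    · intro h
      have h3 : c2 ∣ k * j ^ 2 := (Dvd.intro_left c1 rfl).trans h
      have h4 : c2 ∣ j ^ 2 := (hk.coprime_dvd_left hd2).dvd_of_dvd_mul_left h3
      exact ((hsq2.squarefree_of_dvd hd2).dvd_pow_iff_dvd two_ne_zero).1 h4
    · intro h
      exact mul_dvd_mul (hd1.trans (Nat.gcd_dvd_right g k)) (h.trans (dvd_pow_self j two_ne_zero))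
  simp only [hiff]

private lemma sq_summable (α : ℝ) (hα : 0 < α) (P : ℕ → Prop) [DecidablePred P] :
    Summable fun j : ℕ => if P j then W (α * (j : ℝ) ^ 2) else 0 := by
  have h1 : Summable fun j : ℕ => Real.exp (-(Real.pi * α ^ 2) * (j : ℝ) ^ 4) := by
    refine Real.summable_exp_nat_mul_of_ge (by
      have := Real.pi_pos
      have : 0 < Real.pi * α ^ 2 := by positivity
      linarith) ?_
    intro i
    have h2 : i ≤ i ^ 4 := Nat.le_self_pow (by norm_num) i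
    exact_mod_cast h2
  refine Summable.of_nonneg_of_le (fun j => ?_) (fun j => ?_) h1
  · split_ifs
    · exact (Real.exp_pos _).le
    · exact le_rfl
  · have h2 : W (α * (j : ℝ) ^ 2) = Real.exp (-(Real.pi * α ^ 2) * (j : ℝ) ^ 4) := by
      unfold W
      congr 1
      ring
    rw [← h2]
    split_ifs
    · exact le_rfl
    · exact (Real.exp_pos _).le

private lemma sq_inner (M : ℝ) (hM : 0 < M) (k r c1 c2 : ℕ) (hk : 0 < k) (hr : 0 < r)
    (hc1 : 0 < c1) (hc2 : 0 < c2) (hcop : Nat.Coprime c2 r) :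
    ∑' j : ℕ, (if Nat.Coprime j r ∧ c2 ∣ j then
      W (k * M / (((c1 * c2 : ℕ) : ℝ) ^ 2 * r) * (j : ℝ) ^ 2) else 0) =
      S4 (c1 * Real.sqrt (r / (k * M))) r := by
  have hk' : (0 : ℝ) < k := by exact_mod_cast hk
  have hr' : (0 : ℝ) < r := by exact_mod_cast hr
  have hc1' : (0 : ℝ) < c1 := by exact_mod_cast hc1
  have hc2' : (0 : ℝ) < c2 := by exact_mod_cast hc2
  have hinj : Function.Injective fun j : ℕ => c2 * j := by
    intro a b hab
    exact Nat.eq_of_mul_eq_mul_left hc2 hab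
  rw [← hinj.tsum_eq (f := fun j : ℕ => (if Nat.Coprime j r ∧ c2 ∣ j then
      W (k * M / (((c1 * c2 : ℕ) : ℝ) ^ 2 * r) * (j : ℝ) ^ 2) else 0)) (by
    intro j hj
    have h2 : c2 ∣ j := by
      by_contra h
      apply hj
      show (if Nat.Coprime j r ∧ c2 ∣ j then
        W (k * M / (((c1 * c2 : ℕ) : ℝ) ^ 2 * r) * (j : ℝ) ^ 2) else 0) = 0
      rw [if_neg (fun h3 => h h3.2)]
    obtain ⟨m, rfl⟩ := h2
    exact ⟨m, rfl⟩)]
  unfold S4
  refine tsum_congr fun j => ?_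
  by_cases h : Nat.Coprime j r
  · rw [if_pos h, if_pos ⟨Nat.Coprime.mul_left hcop h, Dvd.intro j rfl⟩]
    unfold W f
    congr 2
    have hs : 0 < Real.sqrt (r / (k * M)) := Real.sqrt_pos.2 (by positivity)
    have h4 : Real.sqrt (r / (k * M)) ^ 4 = (r / (k * M)) ^ 2 := by
      have : Real.sqrt (r / (k * M)) ^ 4 = (Real.sqrt (r / (k * M)) ^ 2) ^ 2 := by ring
      rw [this, Real.sq_sqrt (by positivity)]
    rw [div_pow, mul_pow (c1 : ℝ) (Real.sqrt (r / (k * M))) 4, h4]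
    push_cast
    field_simp
  · rw [if_neg h, if_neg]
    rintro ⟨h1, -⟩
    exact h (Nat.Coprime.coprime_dvd_left (Dvd.intro_left c2 rfl) h1)

/-- The part `H = k j^2` of the dual sum. PROOF. `(k j^2 / r) = (k/r) 1[(j,r)=1]`. For `c | gcd(g, k j^2)`
(`g` squarefree) put `c1 = gcd(c,k)`, `c2 = c / c1`: this is a bijection with pairs `c1 | gcd(g,k)`,
`c2 | g / gcd(g,k)`, `c2 | j`, and `mu(c)/c = mu(c1)/c1 * mu(c2)/c2`. With `j = c2 j'`:
`W(k j^2 M/(c^2 r)) = W(k j'^2 M/(c1^2 r)) = f(j' / (c1 sqrt(r/(k M))))`, and `(j,r)=1` iff `(j',r)=1`. -/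
theorem sq_U (M : ℝ) (hM : 0 < M) (n1 n2 k : ℕ) (h1 : Squarefree n1) (h2 : Squarefree n2)
    (o1 : n1 % 2 = 1) (h4 : n1 % 4 = n2 % 4) (hne : n1 ≠ n2) (hk : Squarefree k) :
    ∑' j : ℕ, U M n1 n2 (k * j ^ 2) =
      J k (rr n1 n2) * (M / Real.sqrt (rr n1 n2)) *
        ∑ c1 ∈ (Nat.gcd (Nat.gcd n1 n2) k).divisors,
          ∑ c2 ∈ (Nat.gcd n1 n2 / Nat.gcd (Nat.gcd n1 n2) k).divisors,
            mu c1 / c1 * (mu c2 / c2) *
              S4 (c1 * Real.sqrt (rr n1 n2 / (k * M))) (rr n1 n2) := by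
  obtain ⟨hr1, -, -, hcop, -, -⟩ := rr_props n1 n2 h1 h2 o1 h4 hne
  obtain ⟨r, hr⟩ : ∃ r, r = rr n1 n2 := ⟨_, rfl⟩
  obtain ⟨g, hg⟩ : ∃ g, g = Nat.gcd n1 n2 := ⟨_, rfl⟩
  rw [← hr] at hr1
  rw [← hr, ← hg] at hcop
  have hgsq : Squarefree g := by
    rw [hg]
    exact h1.squarefree_of_dvd (Nat.gcd_dvd_left n1 n2)
  have hk0 : 0 < k := Nat.pos_of_ne_zero hk.ne_zero
  have hr0 : 0 < r := by omega
  have hk' : (0 : ℝ) < k := by exact_mod_cast hk0
  have hr' : (0 : ℝ) < r := by exact_mod_cast hr0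
  have hgcop : Nat.Coprime (Nat.gcd g k) (g / Nat.gcd g k) := by
    have hmul : Nat.gcd g k * (g / Nat.gcd g k) = g :=
      Nat.mul_div_cancel' (Nat.gcd_dvd_left g k)
    have hsq : Squarefree (Nat.gcd g k * (g / Nat.gcd g k)) := by rw [hmul]; exact hgsq
    exact ((Nat.squarefree_mul_iff).1 hsq).1
  have hU : ∀ j : ℕ, U M n1 n2 (k * j ^ 2) = J k r * (M / Real.sqrt r) *
      ∑ c1 ∈ (Nat.gcd g k).divisors, ∑ c2 ∈ (g / Nat.gcd g k).divisors,
        mu c1 / c1 * (mu c2 / c2) * (if Nat.Coprime j r ∧ c2 ∣ j then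
          W (k * M / (((c1 * c2 : ℕ) : ℝ) ^ 2 * r) * (j : ℝ) ^ 2) else 0) := by
    intro j
    unfold U
    rw [← hr, ← hg, sq_J k j r hr0.ne', sq_sum_gcd g k j hgsq, mul_assoc (J k r),
      mul_assoc (J k r)]
    congr 1
    rw [Finset.mul_sum, Finset.mul_sum]
    refine Finset.sum_congr rfl fun c1 hc1 => ?_
    rw [Finset.mul_sum, Finset.mul_sum]
    refine Finset.sum_congr rfl fun c2 hc2 => ?_
    have hd1 := Nat.dvd_of_mem_divisors hc1
    have hd2 := Nat.dvd_of_mem_divisors hc2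
    have hc12 : Nat.Coprime c1 c2 := (hgcop.coprime_dvd_left hd1).coprime_dvd_right hd2
    have hp1 : (0 : ℝ) < c1 := by exact_mod_cast Nat.pos_of_mem_divisors hc1
    have hp2 : (0 : ℝ) < c2 := by exact_mod_cast Nat.pos_of_mem_divisors hc2
    by_cases hj : Nat.Coprime j r
    · rw [if_pos hj, one_mul]
      by_cases hcj : c2 ∣ j
      · rw [if_pos hcj, if_pos ⟨hj, hcj⟩, sq_mu_mul c1 c2 hc12]
        have e : ((k * j ^ 2 : ℕ) : ℝ) * M / (((c1 * c2 : ℕ) : ℝ) ^ 2 * r) =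
            k * M / (((c1 * c2 : ℕ) : ℝ) ^ 2 * r) * (j : ℝ) ^ 2 := by
          push_cast
          ring
        rw [e]
        have hs : 0 < Real.sqrt r := Real.sqrt_pos.2 hr'
        push_cast
        field_simp
      · rw [if_neg hcj, if_neg (fun h => hcj h.2), mul_zero, mul_zero]
    · rw [if_neg hj, zero_mul, if_neg (fun h => hj h.1), mul_zero, mul_zero]
  simp only [hU]
  rw [← hr, ← hg, tsum_mul_left]
  congr 1
  have hsum : ∀ c1 ∈ (Nat.gcd g k).divisors, ∀ c2 ∈ (g / Nat.gcd g k).divisors,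
      Summable fun j : ℕ => mu c1 / c1 * (mu c2 / c2) * (if Nat.Coprime j r ∧ c2 ∣ j then
          W (k * M / (((c1 * c2 : ℕ) : ℝ) ^ 2 * r) * (j : ℝ) ^ 2) else 0) := by
    intro c1 hc1 c2 hc2
    have hp1 := Nat.pos_of_mem_divisors hc1
    have hp2 := Nat.pos_of_mem_divisors hc2
    have hp : (0 : ℝ) < ((c1 * c2 : ℕ) : ℝ) := by exact_mod_cast Nat.mul_pos hp1 hp2
    exact (sq_summable _ (by positivity) _).mul_left _
  rw [Summable.tsum_finsetSum (fun c1 hc1 => summable_sum fun c2 hc2 => hsum c1 hc1 c2 hc2)]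
  refine Finset.sum_congr rfl fun c1 hc1 => ?_
  rw [Summable.tsum_finsetSum (fun c2 hc2 => hsum c1 hc1 c2 hc2)]
  refine Finset.sum_congr rfl fun c2 hc2 => ?_
  rw [tsum_mul_left, sq_inner M hM k r c1 c2 hk0 hr0 (Nat.pos_of_mem_divisors hc1)
    (Nat.pos_of_mem_divisors hc2)]
  exact hcop.coprime_dvd_left ((Nat.dvd_of_mem_divisors hc2).trans
    (Nat.div_dvd_of_dvd (Nat.gcd_dvd_left g k)))

end HBQ
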